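import Pool.Agent.MP_c319e0_lc.Mg.ThreeA
import Mathlib

-- part MP_c319e0_lc.CountSchur
section

/-! Moving one unit of degree towards the smaller vertex does not lower the count. -/

namespace Pool.Agent.MP_c319e0_lc
open Finset
open scoped symmDiff

variable {V : Type} [Fintype V] [DecidableEq V]

/-- neighbours of `x` that are not neighbours of `y` and differ from `y` -/
def pv (G : Gr V) (x y : V) : Finset V := univ.filter fun z => (x, z) ∈ G ∧ (y, z) ∉ G ∧ z ≠ y

lemma mem_pv {G : Gr V} {x y z : V} : z ∈ pv G x y ↔ (x, z) ∈ G ∧ (y, z) ∉ G ∧ z ≠ y := by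
  simp [pv]

lemma deg_eq_ind (G : Gr V) (x : V) : deg G x = ∑ z, if (x, z) ∈ G then 1 else 0 := by
  unfold deg
  rw [sum_boole]
  congr 1
  refine card_nbij' (fun d => d.2) (fun z => (x, z)) ?_ ?_ ?_ ?_
  · intro d hd
    simp only [coe_filter, Set.mem_setOf_eq, mem_univ, true_and] at hd ⊢
    rw [← hd.2]; exact hd.1
  · intro z hz
    simpa using hz
  · intro d hd
    simp only [coe_filter, Set.mem_setOf_eq] at hd
    rw [← hd.2]
  · intro z _; rfl

lemma card_pv {G : Gr V} (hG : IsG G) {x y : V} (hxy : x ≠ y) :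
    (#(pv G x y) : ℤ) - #(pv G y x) = deg G x - deg G y := by
  have hx : (x, x) ∉ G := fun h => hG.2 _ h rfl
  have hy : (y, y) ∉ G := fun h => hG.2 _ h rfl
  have e : ∀ z, ((if (x, z) ∈ G then 1 else 0) - (if (y, z) ∈ G then 1 else 0) : ℤ) =
      ((if (x, z) ∈ G ∧ (y, z) ∉ G ∧ z ≠ y then 1 else 0) -
        (if (y, z) ∈ G ∧ (x, z) ∉ G ∧ z ≠ x then 1 else 0)) +
      (if (x, y) ∈ G then 1 else 0) * (un y z - un x z) := by
    intro z
    have := hG.swap_iff x y
    by_cases h1 : z = x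
    · subst h1
      by_cases h : (z, y) ∈ G <;> simp [un, hx, hxy, h, ← this]
    · by_cases h2 : z = y
      · subst h2
        by_cases h : (x, z) ∈ G <;> simp [un, hy, h1, h]
      · by_cases h3 : (x, z) ∈ G <;> by_cases h4 : (y, z) ∈ G <;> simp [un, h1, h2, h3, h4]
  rw [deg_eq_ind, deg_eq_ind, ← sum_sub_distrib, sum_congr rfl fun z _ => e z, sum_add_distrib,
    ← mul_sum, sum_sub_distrib, sum_sub_distrib, sum_boole, sum_boole]
  simp [un, pv]

theorem schur' (u : V → ℤ) {x y : V} (hxy : x ≠ y)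
    (h : u y ≤ u x) : #(GG (u + un x - un y)) ≤ #(GG u) := by
  set u' := u + un x - un y with hu'
  have key : ∀ z, ∑ G ∈ (GG u').filter (fun G => z ∈ pv G x y), (1 / (#(pv G x y) : ℝ)) ≤
      ∑ G ∈ (GG u).filter (fun G => z ∈ pv G y x), (1 / (#(pv G y x) : ℝ)) := by
    intro z
    have prop : ∀ G ∈ (GG u').filter (fun G => z ∈ pv G x y),
        G ∆ ed x z ∆ ed y z ∈ (GG u).filter (fun G => z ∈ pv G y x) ∧
        pv (G ∆ ed x z ∆ ed y z) x y ⊆ pv G x y := by
      intro G hG
      rw [mem_filter, mem_GG, mem_pv] at hG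
      obtain ⟨⟨hG, hd⟩, h1, h2, h3⟩ := hG
      have hxz : x ≠ z := hG.2 _ h1
      have hG1 := hG.symmDiff (isG_ed hxz)
      have m2 : (y, z) ∉ G ∆ ed x z := by
        simp [mem_symmDiff, mem_ed, h2, hxy.symm, h3.symm]
      refine ⟨mem_filter.2 ⟨mem_GG.2 ⟨hG1.symmDiff (isG_ed h3.symm), fun v => ?_⟩,
        mem_pv.2 ⟨?_, ?_, hxz.symm⟩⟩, fun t ht => ?_⟩
      · rw [deg_symmDiff_ed hG1 h3.symm, deg_symmDiff_ed hG hxz, hd]
        simp only [sgn, if_pos h1, if_neg m2, hu', Pi.add_apply, Pi.sub_apply]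
        ring
      · rw [mem_symmDiff]; exact Or.inr ⟨by simp [mem_ed], m2⟩
      · simp [mem_symmDiff, mem_ed, h1, hxy, hxz]
      · rw [mem_pv] at ht ⊢
        obtain ⟨t1, t2, t3⟩ := ht
        by_cases htz : t = z
        · subst htz; exact ⟨h1, h2, h3⟩
        · refine ⟨?_, ?_, t3⟩
          · simpa [mem_symmDiff, mem_ed, htz, hxy, hxz] using t1
          · simpa [mem_symmDiff, mem_ed, htz, hxy.symm, h3.symm] using t2
    calc _ ≤ ∑ G ∈ (GG u').filter (fun G => z ∈ pv G x y),
          (1 / (#(pv (G ∆ ed x z ∆ ed y z) y x) : ℝ)) := by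
          refine sum_le_sum fun G hG => ?_
          obtain ⟨h1, h2⟩ := prop G hG
          rw [mem_filter, mem_GG] at h1
          have c1 := card_pv h1.1.1 hxy
          rw [h1.1.2, h1.1.2] at c1
          have c2 := card_le_card h2
          have c3 : 0 < #(pv (G ∆ ed x z ∆ ed y z) y x) := card_pos.2 ⟨z, h1.2⟩
          apply one_div_le_one_div_of_le (by exact_mod_cast c3)
          exact_mod_cast (by omega : #(pv (G ∆ ed x z ∆ ed y z) y x) ≤ #(pv G x y))
      _ = ∑ G ∈ ((GG u').filter (fun G => z ∈ pv G x y)).image (fun G => G ∆ ed x z ∆ ed y z),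
          (1 / (#(pv G y x) : ℝ)) := by
          rw [sum_image]
          intro G _ G' _ hh
          exact symmDiff_left_injective _ (symmDiff_left_injective _ hh)
      _ ≤ _ := by
          refine sum_le_sum_of_subset_of_nonneg ?_ fun _ _ _ => by positivity
          intro G hG
          obtain ⟨G', h1, rfl⟩ := mem_image.1 hG
          exact (prop G' h1).1
  have tot := sum_le_sum fun z (_ : z ∈ (univ : Finset V)) => key z
  have sw : ∀ (S : Finset (Gr V)) (a b : V),
      ∑ z, ∑ G ∈ S.filter (fun G => z ∈ pv G a b), (1 / (#(pv G a b) : ℝ)) =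
        ∑ G ∈ S, (#(pv G a b) : ℝ) * (1 / (#(pv G a b) : ℝ)) := by
    intro S a b
    simp_rw [sum_filter]
    rw [sum_comm]
    refine sum_congr rfl fun G _ => ?_
    rw [← sum_filter, sum_const, nsmul_eq_mul]
    simp
  rw [sw, sw] at tot
  have l : ∑ G ∈ GG u', (#(pv G x y) : ℝ) * (1 / (#(pv G x y) : ℝ)) = #(GG u') := by
    rw [card_eq_sum_ones (GG u')]
    push_cast
    refine sum_congr rfl fun G hG => ?_
    obtain ⟨hG, hd⟩ := mem_GG.1 hG
    have c1 := card_pv hG hxy
    rw [hd, hd] at c1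
    simp only [hu', Pi.add_apply, Pi.sub_apply, un, if_true, if_neg hxy, if_neg hxy.symm] at c1
    have : (#(pv G x y) : ℝ) ≠ 0 := by exact_mod_cast (by omega : #(pv G x y) ≠ 0)
    field_simp
  have r : ∑ G ∈ GG u, (#(pv G y x) : ℝ) * (1 / (#(pv G y x) : ℝ)) ≤ #(GG u) := by
    rw [card_eq_sum_ones (GG u)]
    push_cast
    refine sum_le_sum fun G _ => ?_
    rw [mul_one_div]
    exact div_self_le_one _
  rw [l] at tot
  exact_mod_cast tot.trans r

end Pool.Agent.MP_c319e0_lc

end

-- part MP_c319e0_lc.CongPair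
section

/-! Counting alternating and almost alternating pairings. -/

namespace Pool.Agent.MP_c319e0_lc
open Finset
open scoped symmDiff

lemma card_small (β : Type) [Fintype β] [DecidableEq β] (c : ℕ) :
    #(univ.filter fun X : Finset β => #X ≤ c) ≤ (Fintype.card β + 1) ^ c := by
  induction c with
  | zero =>
    have : (univ.filter fun X : Finset β => #X ≤ 0) = {∅} := by ext X; simp
    rw [this]; simp
  | succ c ih =>
    have hsub : (univ.filter fun X : Finset β => #X ≤ c + 1) ⊆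
        (univ.filter fun X : Finset β => #X ≤ c) ∪
          image₂ (fun (x : β) (X : Finset β) => insert x X) univ
            (univ.filter fun X : Finset β => #X ≤ c) := by
      intro X hX
      simp only [mem_filter, mem_univ, true_and] at hX
      rcases X.eq_empty_or_nonempty with rfl | ⟨x, hx⟩
      · simp
      · refine mem_union_right _ (mem_image₂.2 ⟨x, mem_univ _, X.erase x, ?_, insert_erase hx⟩)
        simp only [mem_filter, mem_univ, true_and, card_erase_of_mem hx]; omega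
    refine (card_le_card hsub).trans ((card_union_le _ _).trans ?_)
    have := card_image₂_le (fun (x : β) (X : Finset β) => insert x X) univ
      (univ.filter fun X : Finset β => #X ≤ c)
    rw [card_univ] at this
    rw [pow_succ]
    nlinarith

variable {α W : Type} [Fintype α] [DecidableEq α] [Fintype W] [DecidableEq W] (tl : α → W)

/-- an involution of `D` that keeps tails, the identity off `D` -/
structure IsPair (D : Finset α) (ψ : α → α) : Prop where
  off : ∀ x, x ∉ D → ψ x = x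
  mem : ∀ x ∈ D, ψ x ∈ D
  inv : ∀ x, ψ (ψ x) = x
  tail : ∀ x, tl (ψ x) = tl x

open Classical in
/-- pairings that change the colour -/
noncomputable def Pairs (D G : Finset α) : Finset (α → α) :=
  univ.filter fun ψ => IsPair tl D ψ ∧ ∀ x ∈ D, (ψ x ∈ G ↔ x ∉ G)

open Classical in
/-- pairings that change the colour of all but `c` darts -/
noncomputable def Near (D G : Finset α) (c : ℕ) : Finset (α → α) :=
  univ.filter fun ψ => IsPair tl D ψ ∧ #(D.filter fun x => ¬(ψ x ∈ G ↔ x ∉ G)) ≤ c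

/-- the number of alternating pairings in the balanced case -/
def Wt (D : Finset α) : ℕ := ∏ v, (#(D.filter fun x => tl x = v) / 2).factorial

/-- as many darts of each colour at each vertex -/
def Bal (D G : Finset α) : Prop :=
  ∀ v, #(D.filter fun x => tl x = v ∧ x ∈ G) = #(D.filter fun x => tl x = v ∧ x ∉ G)

lemma mem_Pairs {D G : Finset α} {ψ : α → α} :
    ψ ∈ Pairs tl D G ↔ IsPair tl D ψ ∧ ∀ x ∈ D, (ψ x ∈ G ↔ x ∉ G) := by simp [Pairs]

lemma mem_Near {D G : Finset α} {ψ : α → α} {c : ℕ} :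
    ψ ∈ Near tl D G c ↔ IsPair tl D ψ ∧ #(D.filter fun x => ¬(ψ x ∈ G ↔ x ∉ G)) ≤ c := by
  simp only [Near, mem_filter, mem_univ, true_and]

omit [Fintype α] [DecidableEq α] in
lemma Wt_pos (D : Finset α) : 0 < Wt tl D := prod_pos fun _ _ => Nat.factorial_pos _

omit [Fintype α] [DecidableEq α] in
lemma Wt_mono {D D' : Finset α} (h : D ⊆ D') : Wt tl D ≤ Wt tl D' :=
  prod_le_prod' fun _ _ => Nat.factorial_le
    (Nat.div_le_div_right (card_le_card (filter_subset_filter _ h)))

lemma bal_of_mem {D G : Finset α} {ψ : α → α} (h : ψ ∈ Pairs tl D G) : Bal tl D G := by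
  obtain ⟨hp, ha⟩ := (mem_Pairs tl).1 h
  intro v
  refine card_nbij' ψ ψ ?_ ?_ (fun x _ => hp.inv x) (fun x _ => hp.inv x)
  · intro x hx
    simp only [coe_filter, Set.mem_setOf_eq] at hx ⊢
    exact ⟨hp.mem x hx.1, by rw [hp.tail, hx.2.1], fun h => (ha x hx.1).1 h hx.2.2⟩
  · intro x hx
    simp only [coe_filter, Set.mem_setOf_eq] at hx ⊢
    exact ⟨hp.mem x hx.1, by rw [hp.tail, hx.2.1], (ha x hx.1).2 hx.2.2⟩

lemma card_fiber {D G : Finset α} {x y : α} (hx : x ∈ D) (hy : y ∈ D) (ht : tl y = tl x)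
    (hc : y ∈ G ↔ x ∉ G) :
    #((Pairs tl D G).filter fun ψ => ψ x = y) = #(Pairs tl ((D.erase x).erase y) G) := by
  have hxy : x ≠ y := by rintro rfl; tauto
  refine card_nbij' (fun ψ z => if z = x ∨ z = y then z else ψ z)
    (fun ψ z => if z = x then y else if z = y then x else ψ z) ?_ ?_ ?_ ?_
  · intro ψ hψ
    simp only [coe_filter, Set.mem_setOf_eq] at hψ
    obtain ⟨hψ, hxy'⟩ := hψ
    obtain ⟨hp, ha⟩ := (mem_Pairs tl).1 hψ
    have hyx : ψ y = x := by rw [← hxy', hp.inv]
    have hn : ∀ z, ¬(z = x ∨ z = y) → ¬(ψ z = x ∨ ψ z = y) := by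
      rintro z hz (h | h)
      · exact hz (Or.inr (by rw [← hp.inv z, h, hxy']))
      · exact hz (Or.inl (by rw [← hp.inv z, h, hyx]))
    refine mem_coe.2 ((mem_Pairs tl).2 ⟨⟨?_, ?_, ?_, ?_⟩, ?_⟩) <;> beta_reduce
    · intro z hz
      split_ifs with h
      · rfl
      · exact hp.off z fun hz' => hz (by simp only [mem_erase]; tauto)
    · intro z hz
      simp only [mem_erase] at hz
      have h : ¬(z = x ∨ z = y) := by tauto
      have := hn z h
      rw [if_neg h]
      simp only [mem_erase]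
      exact ⟨by tauto, by tauto, hp.mem z hz.2.2⟩
    · intro z
      by_cases h : z = x ∨ z = y
      · simp only [if_pos h]
      · simp only [if_neg h, if_neg (hn z h), hp.inv]
    · intro z
      split_ifs
      · rfl
      · exact hp.tail z
    · intro z hz
      simp only [mem_erase] at hz
      have h : ¬(z = x ∨ z = y) := by tauto
      rw [if_neg h]; exact ha z hz.2.2
  · intro ψ hψ
    obtain ⟨hp, ha⟩ := (mem_Pairs tl).1 (mem_coe.1 hψ)
    have hx' : ψ x = x := hp.off x (by simp)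
    have hy' : ψ y = y := hp.off y (by simp)
    have hn : ∀ z, z ≠ x → z ≠ y → ψ z ≠ x ∧ ψ z ≠ y := fun z h1 h2 =>
      ⟨fun h => h1 (by rw [← hp.inv z, h, hx']), fun h => h2 (by rw [← hp.inv z, h, hy'])⟩
    simp only [coe_filter, Set.mem_setOf_eq, if_true, and_true]
    refine (mem_Pairs tl).2 ⟨⟨?_, ?_, ?_, ?_⟩, ?_⟩
    · intro z hz
      have h1 : z ≠ x := by rintro rfl; exact hz hx
      have h2 : z ≠ y := by rintro rfl; exact hz hy
      rw [if_neg h1, if_neg h2]
      exact hp.off z (by simp [hz])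
    · intro z hz
      split_ifs with h1 h2
      · exact hy
      · exact hx
      · exact mem_of_mem_erase (mem_of_mem_erase (hp.mem z (by simp [*])))
    · intro z
      by_cases h1 : z = x
      · simp [h1, hxy.symm]
      · by_cases h2 : z = y
        · simp [h2, hxy.symm]
        · simp [h1, h2, (hn z h1 h2).1, (hn z h1 h2).2, hp.inv]
    · intro z
      split_ifs with h1 h2
      · rw [h1, ht]
      · rw [h2, ht]
      · exact hp.tail z
    · intro z hz
      split_ifs with h1 h2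
      · rw [h1]; exact hc
      · rw [h2]; tauto
      · exact ha z (by simp [*])
  · intro ψ hψ
    simp only [coe_filter, Set.mem_setOf_eq] at hψ
    obtain ⟨hψ, hxy'⟩ := hψ
    obtain ⟨hp, -⟩ := (mem_Pairs tl).1 hψ
    have hyx : ψ y = x := by rw [← hxy', hp.inv]
    funext z
    by_cases h1 : z = x
    · simp [h1, hxy']
    · by_cases h2 : z = y
      · simp [h2, hyx, hxy.symm]
      · simp [h1, h2]
  · intro ψ hψ
    obtain ⟨hp, -⟩ := (mem_Pairs tl).1 (mem_coe.1 hψ)
    have hx' : ψ x = x := hp.off x (by simp)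
    have hy' : ψ y = y := hp.off y (by simp)
    funext z
    by_cases h1 : z = x
    · simp [h1, hx']
    · by_cases h2 : z = y
      · simp [h2, hy']
      · simp [h1, h2]

omit [Fintype α] [Fintype W] in
lemma card_filter_erase2 {D : Finset α} {x y : α} (hx : x ∈ D) (hy : y ∈ D) (hxy : x ≠ y)
    (p : α → Prop) [DecidablePred p] :
    #(((D.erase x).erase y).filter p) + (if p x then 1 else 0) + (if p y then 1 else 0) =
      #(D.filter p) := by
  have h1 : D = insert x (insert y ((D.erase x).erase y)) := by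
    rw [insert_erase (by simp [hy, hxy.symm]), insert_erase hx]
  conv_rhs => rw [h1]
  rw [filter_insert, filter_insert]
  split_ifs <;> simp [card_insert_of_notMem, hxy]

lemma card_Pairs {G : Finset α} : ∀ (n : ℕ) (D : Finset α), #D = n → Bal tl D G →
    #(Pairs tl D G) = Wt tl D := by
  intro n
  induction n using Nat.strong_induction_on with
  | _ n ih =>
  intro D hD hb
  rcases D.eq_empty_or_nonempty with rfl | ⟨x, hx⟩
  · have : Pairs tl ∅ G = {id} := by
      ext ψ
      rw [mem_Pairs, mem_singleton]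
      constructor
      · intro h; funext z; exact h.1.off z (by simp)
      · rintro rfl; exact ⟨⟨by simp, by simp, by simp, by simp⟩, by simp⟩
    simp [this, Wt]
  set C := D.filter fun y => tl y = tl x ∧ (y ∈ G ↔ x ∉ G) with hC
  have hmap : ∀ ψ ∈ Pairs tl D G, ψ x ∈ C := fun ψ hψ => by
    obtain ⟨hp, ha⟩ := (mem_Pairs tl).1 hψ
    exact mem_filter.2 ⟨hp.mem x hx, hp.tail x, ha x hx⟩
  rw [card_eq_sum_card_fiberwise hmap]
  have hsplit : #(D.filter fun y => tl y = tl x) = #(D.filter fun y => tl y = tl x ∧ y ∈ G) +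
      #(D.filter fun y => tl y = tl x ∧ y ∉ G) := by
    rw [← card_filter_add_card_filter_not (s := D.filter fun y => tl y = tl x) (fun y => y ∈ G),
      filter_filter, filter_filter]
  have hCc : #C = #(D.filter fun y => tl y = tl x) / 2 := by
    have := hb (tl x)
    by_cases hG : x ∈ G
    · have e : C = D.filter fun y => tl y = tl x ∧ y ∉ G := by
        rw [hC]; exact filter_congr fun y _ => by simp [hG]
      rw [e]; omega
    · have e : C = D.filter fun y => tl y = tl x ∧ y ∈ G := by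
        rw [hC]; exact filter_congr fun y _ => by simp [hG]
      rw [e]; omega
  have hterm : ∀ y ∈ C, #C * #((Pairs tl D G).filter fun ψ => ψ x = y) = Wt tl D := by
    intro y hy
    obtain ⟨hyD, ht, hc⟩ := mem_filter.1 hy
    have hxy : x ≠ y := by rintro rfl; tauto
    rw [card_fiber tl hx hyD ht hc, ih _ (by
      rw [← hD]; exact (card_erase_le).trans_lt (card_erase_lt_of_mem hx)) _ rfl ?_]
    · unfold Wt
      rw [← mul_prod_erase univ _ (mem_univ (tl x)), ← mul_prod_erase univ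
        (fun v => (#(D.filter fun x => tl x = v) / 2).factorial) (mem_univ (tl x)), ← mul_assoc]
      congr 1
      · have := card_filter_erase2 hx hyD hxy (fun z => tl z = tl x)
        simp only [ht, if_true] at this
        rw [hCc, ← this]
        have e : (#(((D.erase x).erase y).filter fun z => tl z = tl x) + 1 + 1) / 2 =
            #(((D.erase x).erase y).filter fun z => tl z = tl x) / 2 + 1 := by omega
        rw [e, Nat.factorial_succ]
      · refine prod_congr rfl fun v hv => ?_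
        have hv' : ¬ tl x = v := fun e => (mem_erase.1 hv).1 e.symm
        have := card_filter_erase2 hx hyD hxy (fun z => tl z = v)
        simp only [ht, hv', if_false, add_zero] at this
        rw [this]
    · intro v
      have h1 := card_filter_erase2 hx hyD hxy (fun z => tl z = v ∧ z ∈ G)
      have h2 := card_filter_erase2 hx hyD hxy (fun z => tl z = v ∧ z ∉ G)
      have h3 := hb v
      rw [ht] at h1 h2
      by_cases hv : tl x = v <;> by_cases hG : x ∈ G <;> simp [hv, hG, hc] at h1 h2 <;> omega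
  have hpos : 0 < #C := by
    rw [hCc]
    have h1 := hb (tl x)
    have h2 : 0 < #(D.filter fun y => tl y = tl x) := card_pos.2 ⟨x, by simp [hx]⟩
    omega
  apply Nat.eq_of_mul_eq_mul_left hpos
  rw [mul_sum, sum_congr rfl hterm, sum_const, smul_eq_mul]

lemma card_Pairs_le (D G : Finset α) : #(Pairs tl D G) ≤ Wt tl D := by
  rcases (Pairs tl D G).eq_empty_or_nonempty with h | ⟨ψ, h⟩
  · simp [h]
  · exact (card_Pairs tl _ D rfl (bal_of_mem tl h)).le

lemma card_Near (D G : Finset α) (c : ℕ) :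
    #(Near tl D G c) ≤ (Fintype.card α ^ 2 + 1) ^ c * Wt tl D := by
  classical
  let bad : (α → α) → Finset α := fun ψ => D.filter fun x => ¬(ψ x ∈ G ↔ x ∉ G)
  let gr : (α → α) → Finset (α × α) := fun ψ => (bad ψ).image fun x => (x, ψ x)
  have h1 := card_le_mul_card_image_of_maps_to (s := Near tl D G c) (f := gr)
    (t := univ.filter fun X : Finset (α × α) => #X ≤ c)
    (fun ψ hψ => by
      simp only [mem_filter, mem_univ, true_and]
      exact card_image_le.trans ((mem_Near tl).1 hψ).2) (Wt tl D) (fun Γ _ => by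
      refine le_trans ?_ ((card_Pairs_le tl (D \ Γ.image Prod.fst) G).trans
        (Wt_mono tl sdiff_subset))
      have hb : ∀ ψ, gr ψ = Γ → bad ψ = Γ.image Prod.fst := by
        rintro ψ rfl
        simp only [gr, image_image]
        exact (image_id' (s := bad ψ)).symm
      refine card_le_card_of_injOn (fun ψ z => if z ∈ Γ.image Prod.fst then z else ψ z) ?_ ?_
      · intro ψ hψ
        simp only [coe_filter, Set.mem_setOf_eq] at hψ
        obtain ⟨hψ, hg⟩ := hψ
        obtain ⟨hp, -⟩ := (mem_Near tl).1 hψ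
        rw [← hb ψ hg]
        have hcl : ∀ z, ψ z ∈ bad ψ → z ∈ bad ψ := by
          intro z hz
          simp only [bad, mem_filter, hp.inv] at hz ⊢
          have := hp.mem _ hz.1
          rw [hp.inv] at this
          exact ⟨this, by tauto⟩
        refine mem_coe.2 ((mem_Pairs tl).2 ⟨⟨?_, ?_, ?_, ?_⟩, ?_⟩) <;> beta_reduce
        · intro z hz
          split_ifs with h
          · rfl
          · exact hp.off z fun hz' => hz (mem_sdiff.2 ⟨hz', h⟩)
        · intro z hz
          obtain ⟨hz1, hz2⟩ := mem_sdiff.1 hz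
          rw [if_neg hz2]
          exact mem_sdiff.2 ⟨hp.mem z hz1, fun h => hz2 (hcl z h)⟩
        · intro z
          by_cases h : z ∈ bad ψ
          · simp only [if_pos h]
          · simp only [if_neg h, if_neg (mt (hcl z) h), hp.inv]
        · intro z
          split_ifs
          · rfl
          · exact hp.tail z
        · intro z hz
          obtain ⟨hz1, hz2⟩ := mem_sdiff.1 hz
          rw [if_neg hz2]
          simp only [bad, mem_filter, hz1, true_and, not_not] at hz2
          exact hz2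
      · intro ψ hψ ψ' hψ' he
        simp only [coe_filter, Set.mem_setOf_eq] at hψ hψ'
        funext z
        by_cases hz : z ∈ Γ.image Prod.fst
        · have h2 : (z, ψ z) ∈ gr ψ' := by
            rw [hψ'.2, ← hψ.2]
            exact mem_image.2 ⟨z, by rw [hb ψ hψ.2]; exact hz, rfl⟩
          obtain ⟨y, -, hy⟩ := mem_image.1 h2
          simp only [Prod.mk.injEq] at hy
          rw [← hy.2, hy.1]
        · have := congrFun he z
          simpa only [if_neg hz] using this)
  refine h1.trans ?_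
  rw [mul_comm]
  refine Nat.mul_le_mul_right _ ((card_small (α × α) c).trans ?_)
  rw [Fintype.card_prod, sq]

end Pool.Agent.MP_c319e0_lc

end

-- part MP_c319e0_lc.CongOrbit
section

/-! Closed trails of a pairing. -/

namespace Pool.Agent.MP_c319e0_lc
open Finset
open scoped symmDiff

variable {α W : Type} [DecidableEq α] (rev : α → α) (tl : α → W)

/-- a closed trail of length `l` in `D` -/
structure Trail (D : Finset α) (d : ℕ → α) (l : ℕ) : Prop where
  pos : 0 < l
  per : ∀ i, d (i + l) = d i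
  mem : ∀ i, d i ∈ D
  link : ∀ i, tl (d (i + 1)) = tl (rev (d i))
  inj : ∀ i j, d i = d j → i ≡ j [MOD l]
  norev : ∀ i j, d i ≠ rev (d j)

omit [DecidableEq α] in
lemma per_mod {d : ℕ → α} {l : ℕ} (h : ∀ i, d (i + l) = d i) (i : ℕ) : d (i % l) = d i :=
  Function.Periodic.map_mod_nat h i

lemma mem_sl_range {d : ℕ → α} {l : ℕ} (hl : 0 < l) (h : ∀ i, d (i + l) = d i) {x : α} :
    x ∈ sl rev d (range l) ↔ ∃ i, x = d i ∨ x = rev (d i) := by
  rw [mem_sl]
  constructor
  · rintro ⟨i, -, hi⟩; exact ⟨i, hi⟩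
  · rintro ⟨i, hi⟩
    exact ⟨i % l, mem_range.2 (Nat.mod_lt _ hl), by rwa [per_mod h]⟩

lemma sl_union (d : ℕ → α) (I J : Finset ℕ) : sl rev d (I ∪ J) = sl rev d I ∪ sl rev d J := by
  ext x; simp only [mem_sl, mem_union, or_and_right, exists_or]

lemma sl_mono (d : ℕ → α) {I J : Finset ℕ} (h : I ⊆ J) : sl rev d I ⊆ sl rev d J := by
  intro x hx
  obtain ⟨i, hi, e⟩ := (mem_sl rev).1 hx
  exact (mem_sl rev).2 ⟨i, h hi, e⟩

variable {rev} in
lemma rev_mem_sl (hrev : Function.Involutive rev) {d : ℕ → α} {I : Finset ℕ} {x : α}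
    (hx : x ∈ sl rev d I) : rev x ∈ sl rev d I := by
  obtain ⟨i, hi, rfl | rfl⟩ := (mem_sl rev).1 hx
  · exact (mem_sl rev).2 ⟨i, hi, Or.inr rfl⟩
  · exact (mem_sl rev).2 ⟨i, hi, Or.inl (hrev _)⟩

variable {rev tl} in
lemma Trail.mem_sl_iff {D : Finset α} {d : ℕ → α} {l : ℕ} (h : Trail rev tl D d l)
    {I : Finset ℕ} (hI : ∀ i ∈ I, i < l) {i : ℕ} (hi : i < l) : d i ∈ sl rev d I ↔ i ∈ I := by
  rw [mem_sl]
  constructor
  · rintro ⟨j, hj, e | e⟩
    · rwa [Nat.ModEq.eq_of_lt_of_lt (h.inj _ _ e) hi (hI j hj)]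
    · exact absurd e (h.norev _ _)
  · intro hi; exact ⟨i, hi, Or.inl rfl⟩

variable {rev tl} in
omit [DecidableEq α] in
lemma Trail.le_card [Fintype α] {D : Finset α} {d : ℕ → α} {l : ℕ} (h : Trail rev tl D d l) :
    l ≤ Fintype.card α := by
  have := card_le_card_of_injOn (s := range l) (t := (univ : Finset α)) d (fun _ _ => by simp)
    (fun i hi j hj e => Nat.ModEq.eq_of_lt_of_lt (h.inj _ _ e) (by simpa using hi)
      (by simpa using hj))
  simpa using this

variable {rev tl} in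
/-- a closed trail through a closed set of darts can be made a circuit of the pairing -/
lemma Trail.exists_pair (hrev : Function.Involutive rev) {D : Finset α} {d : ℕ → α} {l : ℕ}
    (h : Trail rev tl D d l) (hD : ∀ x ∈ D, rev x ∈ D) {ψ : α → α} (hψ : IsPair tl D ψ)
    (hcl : ∀ x ∈ sl rev d (range l), ψ x ∈ sl rev d (range l)) :
    ∃ ψ', IsPair tl D ψ' ∧ (∀ i, ψ' (rev (d i)) = d (i + 1)) ∧
      ∀ x ∉ sl rev d (range l), ψ' x = ψ x := by
  classical
  have hs : ∀ i j, d i = d j ↔ d (i + 1) = d (j + 1) := fun i j => by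
    constructor
    · intro e
      rw [← per_mod h.per (i + 1), ← per_mod h.per (j + 1), (h.inj _ _ e).add_right 1]
    · intro e
      rw [← per_mod h.per i, ← per_mod h.per j, Nat.ModEq.add_right_cancel' 1 (h.inj _ _ e)]
  let ψ' : α → α := fun x => if h1 : ∃ i, x = rev (d i) then d (h1.choose + 1)
    else if h2 : ∃ i, x = d (i + 1) then rev (d h2.choose) else ψ x
  have e1 : ∀ i, ψ' (rev (d i)) = d (i + 1) := fun i => by
    have h1 : ∃ j, rev (d i) = rev (d j) := ⟨i, rfl⟩
    simp only [ψ', dif_pos h1]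
    exact ((hs _ _).1 (hrev.injective h1.choose_spec)).symm
  have e2 : ∀ i, ψ' (d (i + 1)) = rev (d i) := fun i => by
    have h1 : ¬∃ j, d (i + 1) = rev (d j) := fun ⟨j, e⟩ => h.norev _ _ e
    have h2 : ∃ j, d (i + 1) = d (j + 1) := ⟨i, rfl⟩
    simp only [ψ', dif_neg h1, dif_pos h2]
    rw [← (hs _ _).2 h2.choose_spec]
  have hT : ∀ x, x ∈ sl rev d (range l) ↔ (∃ i, x = rev (d i)) ∨ ∃ i, x = d (i + 1) := by
    intro x
    rw [mem_sl_range rev h.pos h.per]
    constructor
    · rintro ⟨i, e | e⟩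
      · refine Or.inr ⟨i + l - 1, ?_⟩
        have := h.pos
        rw [e, show i + l - 1 + 1 = i + l by omega, h.per]
      · exact Or.inl ⟨i, e⟩
    · rintro (⟨i, e⟩ | ⟨i, e⟩)
      · exact ⟨i, Or.inr e⟩
      · exact ⟨i + 1, Or.inl e⟩
  have e3 : ∀ x ∉ sl rev d (range l), ψ' x = ψ x := fun x hx => by
    rw [hT, not_or] at hx
    simp only [ψ', dif_neg hx.1, dif_neg hx.2]
  have e4 : ∀ x ∉ sl rev d (range l), ψ x ∉ sl rev d (range l) := fun x hx h' =>
    hx (by simpa [hψ.inv] using hcl _ h')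
  refine ⟨ψ', ⟨?_, ?_, ?_, ?_⟩, e1, e3⟩
  · intro x hx
    rw [e3 x, hψ.off x hx]
    rw [hT]
    rintro (⟨i, rfl⟩ | ⟨i, rfl⟩)
    · exact hx (hD _ (h.mem i))
    · exact hx (h.mem _)
  · intro x hx
    by_cases hT' : x ∈ sl rev d (range l)
    · rcases (hT x).1 hT' with ⟨i, rfl⟩ | ⟨i, rfl⟩
      · rw [e1]; exact h.mem _
      · rw [e2]; exact hD _ (h.mem _)
    · rw [e3 x hT']; exact hψ.mem x hx
  · intro x
    by_cases hT' : x ∈ sl rev d (range l)
    · rcases (hT x).1 hT' with ⟨i, rfl⟩ | ⟨i, rfl⟩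
      · rw [e1, e2]
      · rw [e2, e1]
    · rw [e3 x hT', e3 _ (e4 x hT'), hψ.inv]
  · intro x
    by_cases hT' : x ∈ sl rev d (range l)
    · rcases (hT x).1 hT' with ⟨i, rfl⟩ | ⟨i, rfl⟩
      · rw [e1, h.link]
      · rw [e2, h.link]
    · rw [e3 x hT', hψ.tail]

/-- the walk that follows the pairing -/
def orb (ψ : α → α) (x : α) (i : ℕ) : α := (fun y => ψ (rev y))^[i] x

/-- its period -/
noncomputable def prd (ψ : α → α) (x : α) : ℕ := Function.minimalPeriod (fun y => ψ (rev y)) x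

omit [DecidableEq α] in
lemma orb_succ (ψ : α → α) (x : α) (i : ℕ) : orb rev ψ x (i + 1) = ψ (rev (orb rev ψ x i)) := by
  unfold orb; rw [Function.iterate_succ_apply']

omit [DecidableEq α] in
lemma eq_orb {ψ : α → α} {d : ℕ → α} (h : ∀ i, ψ (rev (d i)) = d (i + 1)) :
    d = orb rev ψ (d 0) := by
  funext i
  induction i with
  | zero => rfl
  | succ i ih => rw [orb_succ, ← ih, h]

omit [DecidableEq α] in
lemma orb_per (ψ : α → α) (x : α) (i : ℕ) : orb rev ψ x (i + prd rev ψ x) = orb rev ψ x i := by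
  unfold orb prd; rw [Function.iterate_add_apply, Function.iterate_minimalPeriod]

variable {rev} in
omit [DecidableEq α] in
lemma prd_pos [Fintype α] (hrev : Function.Involutive rev) {ψ : α → α} (hψ : ∀ x, ψ (ψ x) = x)
    (x : α) : 0 < prd rev ψ x := by
  have : Function.Injective fun y => ψ (rev y) :=
    (Function.Involutive.injective hψ).comp hrev.injective
  exact Function.minimalPeriod_pos_of_mem_periodicPts (this.mem_periodicPts x)

variable {rev tl} in
omit [DecidableEq α] in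
lemma trail_orb [Fintype α] (hrev : Function.Involutive rev) {D : Finset α} {ψ : α → α}
    (hψ : IsPair tl D ψ) (hne : ∀ x ∈ D, ψ x ≠ x) (hD : ∀ x ∈ D, rev x ∈ D)
    (hfix : ∀ x ∈ D, rev x ≠ x) {x : α} (hx : x ∈ D) :
    Trail rev tl D (orb rev ψ x) (prd rev ψ x) := by
  have hmem : ∀ i, orb rev ψ x i ∈ D := fun i => by
    induction i with
    | zero => exact hx
    | succ i ih => rw [orb_succ]; exact hψ.mem _ (hD _ ih)
  have hp := prd_pos hrev hψ.inv x
  have hno : ∀ m i, orb rev ψ x (i + m) ≠ rev (orb rev ψ x i) := by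
    intro m
    induction m using Nat.strong_induction_on with
    | _ m ih =>
    intro i e
    match m, ih with
    | 0, _ => exact hfix _ (hmem i) e.symm
    | 1, _ => rw [orb_succ] at e; exact hne _ (hD _ (hmem i)) e
    | m + 2, ih =>
      rw [show i + (m + 2) = i + 1 + m + 1 by omega, orb_succ] at e
      have := congrArg ψ e
      rw [hψ.inv, ← orb_succ rev ψ x i] at this
      exact ih m (by omega) (i + 1) (by rw [← this, hrev])
  refine ⟨hp, orb_per rev ψ x, hmem, fun i => by rw [orb_succ, hψ.tail], fun i j e => ?_,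
    fun i j e => ?_⟩
  · rw [← per_mod (orb_per rev ψ x) i, ← per_mod (orb_per rev ψ x) j] at e
    exact Function.iterate_injOn_Iio_minimalPeriod (Nat.mod_lt _ hp) (Nat.mod_lt _ hp) e
  · rcases le_total j i with h | h
    · obtain ⟨m, rfl⟩ := Nat.exists_eq_add_of_le h
      exact hno m j e
    · obtain ⟨m, rfl⟩ := Nat.exists_eq_add_of_le h
      exact hno m i (by rw [e, hrev])

/-- closed under reversal and the pairing -/
def Cl (ψ : α → α) (S : Finset α) : Prop := ∀ x ∈ S, rev x ∈ S ∧ ψ x ∈ S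

/-- the darts of the circuit of `x` -/
noncomputable def TT (ψ : α → α) (x : α) : Finset α :=
  sl rev (orb rev ψ x) (range (prd rev ψ x))

section
variable [Fintype α] {rev} (hrev : Function.Involutive rev) {ψ : α → α}
  (hψ : ∀ x, ψ (ψ x) = x)
include hrev hψ

lemma mem_TT {x y : α} : y ∈ TT rev ψ x ↔ ∃ i, y = orb rev ψ x i ∨ y = rev (orb rev ψ x i) :=
  mem_sl_range rev (prd_pos hrev hψ x) (orb_per rev ψ x)

lemma cl_TT (x : α) : Cl rev ψ (TT rev ψ x) := by
  intro y hy
  refine ⟨rev_mem_sl hrev hy, ?_⟩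
  obtain ⟨i, rfl | rfl⟩ := (mem_TT hrev hψ).1 hy
  · refine (mem_TT hrev hψ).2 ⟨i + prd rev ψ x - 1, Or.inr ?_⟩
    have := prd_pos hrev hψ x
    rw [← orb_per rev ψ x i, show i + prd rev ψ x = i + prd rev ψ x - 1 + 1 by omega, orb_succ,
      hψ]
    rfl
  · exact (mem_TT hrev hψ).2 ⟨i + 1, Or.inl (orb_succ rev ψ x i).symm⟩

lemma TT_subset {S : Finset α} (hS : Cl rev ψ S) {x : α} (hx : x ∈ S) : TT rev ψ x ⊆ S := by
  have : ∀ i, orb rev ψ x i ∈ S := fun i => by
    induction i with
    | zero => exact hx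
    | succ i ih => rw [orb_succ]; exact (hS _ (hS _ ih).1).2
  intro y hy
  obtain ⟨i, rfl | rfl⟩ := (mem_TT hrev hψ).1 hy
  · exact this i
  · exact (hS _ (this i)).1

lemma Cl.compl {S : Finset α} (hS : Cl rev ψ S) : Cl rev ψ Sᶜ := by
  intro x hx
  simp only [mem_compl] at hx ⊢
  exact ⟨fun h => hx (by simpa [hrev x] using (hS _ h).1),
    fun h => hx (by simpa [hψ x] using (hS _ h).2)⟩

lemma disjoint_TT {S : Finset α} (hS : Cl rev ψ S) {x : α} (hx : x ∉ S) :
    Disjoint S (TT rev ψ x) :=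
  disjoint_right.2 fun _ hy => mem_compl.1
    (TT_subset hrev hψ (hS.compl hrev hψ) (mem_compl.2 hx) hy)

end

/-- the circuits through darts of `D` with number below `m` -/
noncomputable def UU [Fintype α] (D : Finset α) (ψ : α → α) (m : ℕ) : Finset α :=
  (D.filter fun y => (Fintype.equivFin α y : ℕ) < m).biUnion (TT rev ψ)

lemma cl_UU [Fintype α] {rev : α → α} (hrev : Function.Involutive rev) {ψ : α → α}
    (hψ : ∀ x, ψ (ψ x) = x) (D : Finset α) (m : ℕ) : Cl rev ψ (UU rev D ψ m) := by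
  intro x hx
  obtain ⟨y, hy, hx⟩ := mem_biUnion.1 hx
  exact ⟨mem_biUnion.2 ⟨y, hy, (cl_TT hrev hψ y x hx).1⟩,
    mem_biUnion.2 ⟨y, hy, (cl_TT hrev hψ y x hx).2⟩⟩

end Pool.Agent.MP_c319e0_lc

end

-- part MP_c319e0_lc.CongDec
section

/-! Last exit decompositions of a walk and reversal of blocks. -/

namespace Pool.Agent.MP_c319e0_lc
open Finset

/-- last exit decomposition of `ν 0, …, ν t` into the blocks `[a j, a (j+1))`, `j ≤ s` -/
structure Dec {β : Type} (ν : ℕ → β) (t s : ℕ) (a : ℕ → ℕ) : Prop where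
  a0 : a 0 = 0
  tail : ∀ j, s + 1 ≤ j → a j = t + 1
  lt : ∀ j ≤ s, a j < a (j + 1)
  eq : ∀ j ≤ s, ν (a (j + 1) - 1) = ν (a j)
  ne : ∀ j ≤ s, ∀ i, a (j + 1) ≤ i → i ≤ t → ν i ≠ ν (a j)

namespace Dec
variable {β : Type} {ν ν' : ℕ → β} {t s s' : ℕ} {a a' : ℕ → ℕ}

lemma mono (h : Dec ν t s a) : Monotone a := by
  refine monotone_nat_of_le_succ fun j => ?_
  by_cases hj : j ≤ s
  · exact (h.lt j hj).le
  · rw [h.tail j (by omega), h.tail (j + 1) (by omega)]

lemma lt' (h : Dec ν t s a) {i j : ℕ} (hij : i < j) (hi : i ≤ s) : a i < a j :=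
  (h.lt i hi).trans_le (h.mono hij)

lemma le (h : Dec ν t s a) (j : ℕ) : a j ≤ t + 1 := by
  rw [← h.tail (max j (s + 1)) (le_max_right _ _)]; exact h.mono (le_max_left _ _)

lemma le' (h : Dec ν t s a) {j : ℕ} (hj : j ≤ s) : a j ≤ t := by
  have := h.lt j hj; have := h.le (j + 1); omega

lemma pos (h : Dec ν t s a) {j : ℕ} (hj : 1 ≤ j) : 1 ≤ a j := by
  have := h.lt' (i := 0) (j := j) hj (Nat.zero_le _); omega

lemma inj (h : Dec ν t s a) {i j : ℕ} (hi : i ≤ s + 1) (hj : j ≤ s + 1) (e : a i = a j) :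
    i = j := by
  rcases lt_trichotomy i j with h1 | h1 | h1
  · have := h.lt' h1 (by omega); omega
  · exact h1
  · have := h.lt' h1 (by omega); omega

lemma unique (h : Dec ν t s a) (h' : Dec ν t s' a') : s = s' ∧ a = a' := by
  have key : ∀ j, j ≤ s + 1 → j ≤ s' + 1 → a j = a' j := by
    intro j
    induction j with
    | zero => intro _ _; rw [h.a0, h'.a0]
    | succ j ih =>
      intro h1 h2
      have e := ih (by omega) (by omega)
      have l1 := h.lt j (by omega)
      have l2 := h'.lt j (by omega)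
      have l3 := h.le (j + 1)
      have l4 := h'.le (j + 1)
      rcases lt_trichotomy (a (j + 1)) (a' (j + 1)) with h3 | h3 | h3
      · exact absurd ((h'.eq j (by omega)).trans (by rw [e]))
          (h.ne j (by omega) _ (by omega) (by omega))
      · exact h3
      · exact absurd ((h.eq j (by omega)).trans (by rw [e]))
          (h'.ne j (by omega) _ (by omega) (by omega))
  have hs : s = s' := by
    rcases lt_trichotomy s s' with h1 | h1 | h1
    · have := key (s + 1) le_rfl (by omega)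
      have := h.tail (s + 1) le_rfl
      have := h'.le' (j := s + 1) h1
      omega
    · exact h1
    · have := key (s' + 1) (by omega) le_rfl
      have := h'.tail (s' + 1) le_rfl
      have := h.le' (j := s' + 1) h1
      omega
  subst hs
  refine ⟨rfl, funext fun j => ?_⟩
  by_cases hj : j ≤ s + 1
  · exact key j hj hj
  · rw [h.tail j (by omega), h'.tail j (by omega)]

lemma zero (ν : ℕ → β) : Dec ν 0 0 (fun j => if j = 0 then 0 else 1) where
  a0 := by simp
  tail j hj := by rw [if_neg (by omega)]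
  lt j hj := by obtain rfl : j = 0 := by omega
                simp
  eq j hj := by obtain rfl : j = 0 := by omega
                simp
  ne j hj i h1 h2 := by obtain rfl : j = 0 := by omega
                        simp at h1; omega

lemma step_new (h : Dec ν t s a) (hn : ∀ j ≤ s, ν (t + 1) ≠ ν (a j)) :
    Dec ν (t + 1) (s + 1) (fun j => if j ≤ s + 1 then a j else t + 2) where
  a0 := by simp [h.a0]
  tail j hj := by rw [if_neg (by omega)]
  lt j hj := by
    rw [if_pos hj]
    split_ifs with h1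
    · exact h.lt j (by omega)
    · have := h.le j; omega
  eq j hj := by
    rw [if_pos hj]
    split_ifs with h1
    · exact h.eq j (by omega)
    · rw [h.tail j (by omega)]; rfl
  ne j hj i h1 h2 := by
    rw [if_pos hj]
    split_ifs at h1 with h3
    · rcases Nat.lt_or_ge t i with h4 | h4
      · rw [show i = t + 1 by omega]; exact hn j (by omega)
      · exact h.ne j (by omega) i h1 h4
    · omega

lemma step_old (h : Dec ν t s a) {j0 : ℕ} (hj0 : j0 ≤ s) (hn : ν (t + 1) = ν (a j0)) :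
    Dec ν (t + 1) j0 (fun j => if j ≤ j0 then a j else t + 2) where
  a0 := by simp [h.a0]
  tail j hj := by rw [if_neg (by omega)]
  lt j hj := by
    rw [if_pos hj]
    split_ifs with h1
    · exact h.lt j (by omega)
    · have := h.le j; omega
  eq j hj := by
    rw [if_pos hj]
    split_ifs with h1
    · exact h.eq j (by omega)
    · rw [show j = j0 by omega]; exact hn
  ne j hj i h1 h2 := by
    rw [if_pos hj]
    split_ifs at h1 with h3
    · rcases Nat.lt_or_ge t i with h4 | h4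
      · rw [show i = t + 1 by omega, hn]
        exact h.ne j (by omega) _ (h.mono h3) (h.le' hj0)
      · exact h.ne j (by omega) i h1 h4
    · omega

lemma parity {γ : Type} {w : ℕ → γ} (h : Dec (fun i => (w i, i % 2)) t s a) :
    ∀ j ≤ s + 1, a j % 2 = j % 2 := by
  intro j
  induction j with
  | zero => intro _; rw [h.a0]
  | succ j ih =>
    intro hj
    have e1 := ih (by omega)
    have e2 := congrArg Prod.snd (h.eq j (by omega))
    have := h.lt j (by omega)
    simp only at e2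
    omega

end Dec

/-- times whose dart belongs to an erased loop -/
def Fl (t s : ℕ) (a : ℕ → ℕ) : Finset ℕ :=
  (range t).filter fun i => i + 1 ∉ (Icc 1 s).image a

lemma mem_Fl {t s : ℕ} {a : ℕ → ℕ} {i : ℕ} :
    i ∈ Fl t s a ↔ i < t ∧ ∀ j, 1 ≤ j → j ≤ s → a j ≠ i + 1 := by
  simp only [Fl, mem_filter, mem_range, mem_image, mem_Icc, not_exists, not_and, and_imp]

/-- index of the block of `i` -/
def bi (a : ℕ → ℕ) (s i : ℕ) : ℕ := Nat.findGreatest (fun j => a j ≤ i) s

/-- the dart at time `i` lies in a reversed block -/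
def cond (a : ℕ → ℕ) (s : ℕ) (J : Finset ℕ) (i : ℕ) : Prop :=
  i + 1 < a (bi a s i + 1) ∧ bi a s i ∉ J

instance (a : ℕ → ℕ) (s : ℕ) (J : Finset ℕ) (i : ℕ) : Decidable (cond a s J i) := by
  unfold cond; infer_instance

/-- the time of the dart that is put at time `i` -/
def pj (a : ℕ → ℕ) (s : ℕ) (J : Finset ℕ) (i : ℕ) : ℕ :=
  if cond a s J i then a (bi a s i) + a (bi a s i + 1) - 2 - i else i

/-- the position of the vertex that is put at position `i` -/
def sg (a : ℕ → ℕ) (s : ℕ) (J : Finset ℕ) (i : ℕ) : ℕ :=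
  if i < a (bi a s i + 1) ∧ bi a s i ∉ J then a (bi a s i) + a (bi a s i + 1) - 1 - i else i

namespace Dec
variable {β : Type} {ν : ℕ → β} {t s : ℕ} {a : ℕ → ℕ} (h : Dec ν t s a) (J : Finset ℕ)
include h

omit h in
lemma bi_le (i : ℕ) : bi a s i ≤ s := Nat.findGreatest_le s

lemma a_bi_le (i : ℕ) : a (bi a s i) ≤ i :=
  Nat.findGreatest_spec (P := fun j => a j ≤ i) (Nat.zero_le s) (by simp [h.a0])

lemma lt_a_bi {i : ℕ} (hi : i ≤ t) : i < a (bi a s i + 1) := by
  by_cases h1 : bi a s i + 1 ≤ s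
  · exact not_le.1 (Nat.findGreatest_is_greatest (P := fun j => a j ≤ i) (Nat.lt_succ_self _) h1)
  · rw [h.tail _ (by have := bi_le (a := a) (s := s) i; omega)]; omega

lemma bi_eq {i j : ℕ} (hj : j ≤ s) (h1 : a j ≤ i) (h2 : i < a (j + 1)) : bi a s i = j := by
  have h3 : j ≤ bi a s i := Nat.le_findGreatest (P := fun j => a j ≤ i) hj h1
  by_contra hne
  have := h.mono (show j + 1 ≤ bi a s i by omega)
  have := h.a_bi_le i
  omega

lemma bi_of_gt {i : ℕ} (hi : t < i) : a (bi a s i + 1) = t + 1 := by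
  have h3 : s ≤ bi a s i :=
    Nat.le_findGreatest (P := fun j => a j ≤ i) le_rfl ((h.le' le_rfl).trans hi.le)
  exact h.tail _ (by omega)

lemma not_cond_of_ge {i : ℕ} (hi : t ≤ i) : ¬ cond a s J i := by
  intro hc
  have := h.le (bi a s i + 1)
  have := hc.1
  omega

lemma bi_pj (i : ℕ) : bi a s (pj a s J i) = bi a s i := by
  unfold pj
  split_ifs with hc
  · have := hc.1
    have := h.a_bi_le i
    exact h.bi_eq (bi_le i) (by omega) (by omega)
  · rfl

lemma cond_pj (i : ℕ) : cond a s J (pj a s J i) ↔ cond a s J i := by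
  by_cases hc : cond a s J i
  · simp only [hc, iff_true]
    refine ⟨?_, by rw [h.bi_pj]; exact hc.2⟩
    rw [h.bi_pj, pj, if_pos hc]
    have := hc.1
    have := h.a_bi_le i
    omega
  · rw [pj, if_neg hc]

lemma pj_pj (i : ℕ) : pj a s J (pj a s J i) = i := by
  by_cases hc : cond a s J i
  · rw [pj, if_pos ((h.cond_pj J i).2 hc), h.bi_pj, pj, if_pos hc]
    have := hc.1
    have := h.a_bi_le i
    omega
  · have e : pj a s J i = i := by rw [pj, if_neg hc]
    rw [e, e]

lemma pj_lt {i l : ℕ} (hl : t < l) (hi : i < l) : pj a s J i < l := by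
  unfold pj
  split_ifs with hc
  · have := hc.1
    have := h.a_bi_le i
    have := h.le (bi a s i + 1)
    omega
  · exact hi

lemma not_cond_path {j : ℕ} (h1 : 1 ≤ j) (hj : j ≤ s + 1) : ¬ cond a s J (a j - 1) := by
  obtain ⟨j, rfl⟩ : ∃ j', j = j' + 1 := ⟨j - 1, by omega⟩
  have := h.lt j (by omega)
  intro hc
  have h2 := hc.1
  rw [h.bi_eq (j := j) (by omega) (by omega) (by omega)] at h2
  omega

lemma sg_of_cond {i : ℕ} (hc : cond a s J i) :
    sg a s J i = pj a s J i + 1 ∧ sg a s J (i + 1) = pj a s J i := by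
  have h1 := hc.1
  have h2 := h.a_bi_le i
  have e : bi a s (i + 1) = bi a s i := h.bi_eq (bi_le i) (by omega) h1
  unfold sg pj
  rw [e, if_pos hc, if_pos ⟨by omega, hc.2⟩, if_pos ⟨h1, hc.2⟩]
  omega

lemma sg_of_not_cond {i : ℕ} (hc : ¬ cond a s J i) :
    ν (sg a s J i) = ν i ∧ ν (sg a s J (i + 1)) = ν (i + 1) := by
  constructor
  · unfold sg
    split_ifs with h1
    · have h2 : a (bi a s i + 1) = i + 1 := by
        by_contra hne
        exact hc ⟨by omega, h1.2⟩
      have := h.eq _ (bi_le (a := a) i)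
      rw [h2] at this ⊢
      rw [show a (bi a s i) + (i + 1) - 1 - i = a (bi a s i) by omega, ← this]
      rfl
    · rfl
  · unfold sg
    split_ifs with h1
    · have h3 := h.a_bi_le (i + 1)
      have h2 : a (bi a s (i + 1)) = i + 1 := by
        by_contra hne
        have e : bi a s i = bi a s (i + 1) := h.bi_eq (bi_le _) (by omega) (by omega)
        exact hc ⟨by rw [e]; exact h1.1, by rw [e]; exact h1.2⟩
      have := h.eq _ (bi_le (a := a) (i + 1))
      rw [h2] at this ⊢
      rw [← this]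
      congr 1
      omega
    · rfl

lemma sg_of_gt {i : ℕ} (hi : t < i) : sg a s J i = i := by
  unfold sg
  rw [if_neg]
  rw [h.bi_of_gt hi]
  omega

lemma sg_zero : ν (sg a s J 0) = ν 0 := by
  have e : bi a s 0 = 0 := h.bi_eq (Nat.zero_le _) (by rw [h.a0]) (h.pos le_rfl)
  unfold sg
  split_ifs
  · have := h.eq 0 (Nat.zero_le _)
    rw [e, h.a0] at *
    simpa using this
  · rfl

lemma dec_sg : Dec (fun i => ν (sg a s J i)) t s a where
  a0 := h.a0
  tail := h.tail
  lt := h.lt
  eq j hj := by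
    have l := h.lt j hj
    have e := h.eq j hj
    unfold sg
    rw [h.bi_eq hj (i := a (j + 1) - 1) (by omega) (by omega), h.bi_eq hj le_rfl l]
    by_cases hJ : j ∈ J
    · rw [if_neg (by tauto), if_neg (by tauto)]; exact e
    · rw [if_pos ⟨by omega, hJ⟩, if_pos ⟨l, hJ⟩,
        show a j + a (j + 1) - 1 - (a (j + 1) - 1) = a j by omega,
        show a j + a (j + 1) - 1 - a j = a (j + 1) - 1 by omega, e]
  ne j hj i h1 h2 := by
    have l := h.lt j hj
    have e1 : ν (sg a s J (a j)) = ν (a j) := by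
      unfold sg
      rw [h.bi_eq hj le_rfl l]
      split_ifs
      · rw [show a j + a (j + 1) - 1 - a j = a (j + 1) - 1 by omega, h.eq j hj]
      · rfl
    rw [e1]
    have h3 := h.a_bi_le i
    have h4 := h.lt_a_bi h2
    have h5 : j + 1 ≤ bi a s i := by
      by_contra hn
      have := h.mono (show bi a s i + 1 ≤ j + 1 by omega)
      omega
    have h6 := h.mono h5
    have h7 := h.le (bi a s i + 1)
    refine h.ne j hj _ ?_ ?_ <;> unfold sg <;> split_ifs <;> omega

end Dec

end Pool.Agent.MP_c319e0_lc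

end

-- part MP_c319e0_lc.CongChain
section

/-! Loop erasure gives a chain of primitive circuits. -/

namespace Pool.Agent.MP_c319e0_lc
open Finset
open scoped symmDiff

variable {α W : Type} [Fintype α] [DecidableEq α] (rev : α → α) (tl : α → W)

/-- tail and parity -/
def nu (d : ℕ → α) (i : ℕ) : W × ℕ := (tl (d i), i % 2)

/-- number of a dart -/
noncomputable def idx (x : α) : ℕ := Fintype.equivFin α x

/-- the set of flipped darts -/
noncomputable def fset (D : Finset α) (ψ : α → α) (x : α) (t s : ℕ) (a : ℕ → ℕ) (J : Finset ℕ) :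
    Finset α :=
  UU rev D ψ (idx x) ∪ sl rev (orb rev ψ x) (Fl t s a ∪ J.image fun j => a j - 1)

/-- `q` is a state of the path of `(G, E, ψ)` -/
def Adm (b : ℕ) (G E : Finset α) (ψ : α → α) (q : Finset α × Finset α) : Prop :=
  ∃ x ∈ G ∆ E, x ∉ UU rev (G ∆ E) ψ (idx x) ∧ ∃ t < prd rev ψ x, ∃ s a,
    Dec (nu tl (orb rev ψ x)) t s a ∧ ∃ J ⊆ Icc 1 (s + 1),
      #((range (s + 1)).filter fun j => ¬(j ∈ J ↔ j + 1 ∈ J)) ≤ b + 1 ∧
      q = (G ∆ fset rev (G ∆ E) ψ x t s a J, E ∆ fset rev (G ∆ E) ψ x t s a J)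

omit [Fintype α] [DecidableEq α] in
lemma colour_of_alt {G : Finset α} {d : ℕ → α} (h : ∀ i, d (i + 1) ∈ G ↔ d i ∉ G) (i : ℕ) :
    d i ∈ G ↔ (d 0 ∈ G ↔ i % 2 = 0) := by
  induction i with
  | zero => simp
  | succ i ih =>
    rw [h, ih]
    rcases Nat.mod_two_eq_zero_or_one i with e | e
    · have : (i + 1) % 2 ≠ 0 := by omega
      simp [e, this]
    · have : (i + 1) % 2 = 0 := by omega
      simp [e, this]

omit [Fintype α] in
lemma symmDiff_symmDiff_same (G E U : Finset α) : (G ∆ U) ∆ (E ∆ U) = G ∆ E := by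
  ext x; simp only [mem_symmDiff]; tauto

omit [Fintype α] in
lemma symmDiff_union_of_disjoint (G : Finset α) {U F : Finset α} (h : Disjoint U F) :
    G ∆ U ∆ F = G ∆ (U ∪ F) := by
  ext x
  have : x ∈ U → x ∉ F := fun hx => disjoint_left.1 h hx
  simp only [mem_symmDiff, mem_union]; tauto

lemma Dec.node_inj {β : Type} {ν : ℕ → β} {t s : ℕ} {a : ℕ → ℕ} (h : Dec ν t s a) {i j : ℕ}
    (hi : i ≤ s) (hj : j ≤ s) (e : ν (a i) = ν (a j)) : i = j := by
  rcases lt_trichotomy i j with h1 | h1 | h1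
  · exact absurd e.symm (h.ne i hi _ (h.mono h1) (h.le' hj))
  · exact h1
  · exact absurd e (h.ne j hj _ (h.mono h1) (h.le' hi))

variable {rev tl} in
omit [Fintype α] in
/-- the loop closed at time `t + 1` is a primitive circuit -/
lemma circ_of_dec {G E : Finset α} {d : ℕ → α} {l : ℕ} (hT : Trail rev tl (G ∆ E) d l)
    {t s j0 : ℕ} {a : ℕ → ℕ} (h : Dec (nu tl d) t s a) (ht : t < l) (hj0 : j0 ≤ s)
    (hn : nu tl d (t + 1) = nu tl d (a j0)) (β : Prop)
    (hcol : ∀ j, j0 + 1 ≤ j → j ≤ s + 1 → (d (a j - 1) ∈ G ↔ (β ↔ (a j - 1) % 2 = 0))) :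
    Circ rev tl G E (fun i => d (a (j0 + 1 + i % (s + 1 - j0)) - 1)) (s + 1 - j0) := by
  have hpar := Dec.parity (w := fun i => tl (d i)) h
  have hL : 0 < s + 1 - j0 := by omega
  have hev : (s + 1 - j0) % 2 = 0 := by
    have e1 := congrArg Prod.snd hn
    have e2 := hpar j0 (by omega)
    have e3 := hpar (s + 1) le_rfl
    rw [h.tail _ le_rfl] at e3
    simp only [nu] at e1
    omega
  have hm : ∀ i, i % (s + 1 - j0) < s + 1 - j0 := fun i => Nat.mod_lt _ hL
  have hm2 : ∀ i, i % (s + 1 - j0) % 2 = i % 2 := fun i =>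
    Nat.mod_mod_of_dvd i (Nat.dvd_of_mod_eq_zero hev)
  have htl : ∀ i, tl (d (a (j0 + 1 + i % (s + 1 - j0)) - 1)) =
      tl (d (a (j0 + i % (s + 1 - j0)))) := fun i => by
    have := congrArg Prod.fst (h.eq (j0 + i % (s + 1 - j0)) (by have := hm i; omega))
    rwa [show j0 + i % (s + 1 - j0) + 1 = j0 + 1 + i % (s + 1 - j0) by omega] at this
  refine ⟨hL, Nat.even_iff.2 hev, fun i => by simp, fun i => hT.mem _, fun i => ?_, fun i => ?_,
    fun i j e => ?_, fun i j => hT.norev _ _, fun i j e1 e2 => ?_⟩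
  · rw [htl, ← hT.link, Nat.sub_add_cancel (h.pos (by omega))]
    have := hm i
    rcases Nat.lt_or_ge (i % (s + 1 - j0) + 1) (s + 1 - j0) with h1 | h1
    · rw [show (i + 1) % (s + 1 - j0) = i % (s + 1 - j0) + 1 by
        rw [Nat.add_mod, Nat.mod_eq_of_lt (show 1 < s + 1 - j0 by omega), Nat.mod_eq_of_lt h1]]
      congr 3; omega
    · rw [show (i + 1) % (s + 1 - j0) = 0 by
        rw [← Nat.mod_add_mod, show i % (s + 1 - j0) + 1 = s + 1 - j0 by omega, Nat.mod_self],
        show j0 + 1 + i % (s + 1 - j0) = s + 1 by omega, h.tail _ le_rfl]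
      exact (congrArg Prod.fst hn).symm
  · have h1 := hm i
    have h2 := hm (i + 1)
    rw [hcol _ (by omega) (by omega), hcol _ (by omega) (by omega)]
    have e1 := hpar (j0 + 1 + i % (s + 1 - j0)) (by omega)
    have e2 := hpar (j0 + 1 + (i + 1) % (s + 1 - j0)) (by omega)
    have e3 := hm2 i
    have e4 := hm2 (i + 1)
    have e5 := h.pos (j := j0 + 1 + i % (s + 1 - j0)) (by omega)
    have e6 := h.pos (j := j0 + 1 + (i + 1) % (s + 1 - j0)) (by omega)
    have : (a (j0 + 1 + (i + 1) % (s + 1 - j0)) - 1) % 2 = 0 ↔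
        ¬(a (j0 + 1 + i % (s + 1 - j0)) - 1) % 2 = 0 := by omega
    rw [this]; tauto
  · have h1 := hm i
    have h2 := hm j
    have e5 := h.pos (j := j0 + 1 + i % (s + 1 - j0)) (by omega)
    have e6 := h.pos (j := j0 + 1 + j % (s + 1 - j0)) (by omega)
    have e7 := h.le (j0 + 1 + i % (s + 1 - j0))
    have e8 := h.le (j0 + 1 + j % (s + 1 - j0))
    have := Nat.ModEq.eq_of_lt_of_lt (hT.inj _ _ e) (by omega) (by omega)
    have := h.inj (i := j0 + 1 + i % (s + 1 - j0)) (j := j0 + 1 + j % (s + 1 - j0)) (by omega)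
      (by omega) (by omega)
    unfold Nat.ModEq; omega
  · rw [htl, htl] at e2
    have h1 := hm i
    have h2 := hm j
    have e3 := hm2 i
    have e4 := hm2 j
    have e5 := hpar (j0 + i % (s + 1 - j0)) (by omega)
    have e6 := hpar (j0 + j % (s + 1 - j0)) (by omega)
    have := h.node_inj (i := j0 + i % (s + 1 - j0)) (j := j0 + j % (s + 1 - j0)) (by omega)
      (by omega) (Prod.ext e2 (by simp only [nu]; omega))
    unfold Nat.ModEq; omega

variable {rev tl} in
lemma chain_trail [DecidableEq W] (hrev : Function.Involutive rev) {b : ℕ} {G E : Finset α}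
    (hS : Src rev tl G E) {ψ : α → α} (hψ : IsPair tl (G ∆ E) ψ)
    (halt : ∀ x ∈ G ∆ E, (ψ x ∈ G ↔ x ∉ G)) {Reach : Finset (Finset α × Finset α)}
    (hR : ∀ q, Adm rev tl b G E ψ q → q ∈ Reach) {x : α} (hx : x ∈ G ∆ E)
    (hxU : x ∉ UU rev (G ∆ E) ψ (idx x))
    (hU : Chain rev tl G E b Reach (UU rev (G ∆ E) ψ (idx x))) :
    Chain rev tl G E b Reach (UU rev (G ∆ E) ψ (idx x) ∪ TT rev ψ x) := by
  classical
  have hGr : ∀ y, rev y ∈ G ↔ y ∈ G := fun y =>
    ⟨fun h => by simpa [hrev y] using hS.cl1 _ h, hS.cl1 y⟩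
  have hEr : ∀ y, rev y ∈ E ↔ y ∈ E := fun y =>
    ⟨fun h => by simpa [hrev y] using hS.cl2 _ h, hS.cl2 y⟩
  have hD : ∀ y ∈ G ∆ E, rev y ∈ G ∆ E := fun y hy => by
    simpa only [mem_symmDiff, hGr, hEr] using hy
  have hT := trail_orb hrev hψ (fun y hy e => by have := halt y hy; rw [e] at this; tauto) hD
    hS.nofix hx
  set d := orb rev ψ x with hd
  set l := prd rev ψ x with hl
  set U := UU rev (G ∆ E) ψ (idx x) with hUdef
  have hdisj : Disjoint U (sl rev d (range l)) :=
    disjoint_TT hrev hψ.inv (cl_UU hrev hψ.inv _ _) hxU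
  have hdU : ∀ i, d i ∉ U := fun i h => disjoint_left.1 hdisj h
    ((mem_sl_range rev hT.pos hT.per).2 ⟨i, Or.inl rfl⟩)
  have hcol := colour_of_alt (G := G) (d := d) fun i => by
    rw [hd, orb_succ, halt _ (hD _ (hT.mem i)), hGr]
  have hle : l % 2 = 0 := by
    have h1 := hcol l
    have h2 := hT.per 0
    rw [zero_add] at h2
    rw [h2] at h1
    tauto
  have key : ∀ t ≤ l, ∃ s a, Dec (nu tl d) t s a ∧
      Chain rev tl G E b Reach (U ∪ sl rev d (Fl t s a)) := by
    intro t
    induction t with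
    | zero => intro _; exact ⟨0, _, Dec.zero _, by simpa [Fl, sl] using hU⟩
    | succ t ih =>
    intro ht
    obtain ⟨s, a, h, hc⟩ := ih (by omega)
    by_cases hn : ∃ j0 ≤ s, nu tl d (t + 1) = nu tl d (a j0)
    swap
    · push Not at hn
      refine ⟨_, _, h.step_new hn, ?_⟩
      have : Fl (t + 1) (s + 1) (fun j => if j ≤ s + 1 then a j else t + 2) = Fl t s a := by
        ext i
        simp only [mem_Fl]
        have := h.tail _ le_rfl
        constructor
        · rintro ⟨h1, h2⟩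
          have h3 := h2 (s + 1) (by omega) le_rfl
          rw [if_pos le_rfl] at h3
          refine ⟨by omega, fun j h4 h5 => ?_⟩
          have := h2 j h4 (by omega)
          rwa [if_pos (by omega)] at this
        · rintro ⟨h1, h2⟩
          refine ⟨by omega, fun j h4 h5 => ?_⟩
          rw [if_pos h5]
          rcases Nat.lt_or_ge s j with h6 | h6
          · rw [show j = s + 1 by omega]; omega
          · exact h2 j h4 h6
      rwa [this]
    obtain ⟨j0, hj0, hn⟩ := hn
    refine ⟨_, _, h.step_old hj0 hn, ?_⟩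
    have hFl : ∀ i ∈ Fl t s a, i < l := fun i hi => by have := (mem_Fl.1 hi).1; omega
    have hpath : ∀ j, 1 ≤ j → j ≤ s + 1 → a j - 1 ∉ Fl t s a ∧ a j - 1 < l := by
      intro j h1 h2
      have h3 := h.pos h1
      have h4 := h.le j
      refine ⟨fun h5 => ?_, by omega⟩
      obtain ⟨h6, h7⟩ := mem_Fl.1 h5
      rcases Nat.lt_or_ge s j with h8 | h8
      · rw [h.tail j h8] at h6; omega
      · exact h7 j h1 h8 (by omega)
    have hnot : ∀ j, 1 ≤ j → j ≤ s + 1 → d (a j - 1) ∉ U ∪ sl rev d (Fl t s a) := by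
      intro j h1 h2
      rw [mem_union, hT.mem_sl_iff hFl (hpath j h1 h2).2]
      exact not_or.2 ⟨hdU _, (hpath j h1 h2).1⟩
    set L := s + 1 - j0 with hL
    set c : ℕ → α := fun i => d (a (j0 + 1 + i % L) - 1) with hc'
    have hC : Circ rev tl (G ∆ (U ∪ sl rev d (Fl t s a))) (E ∆ (U ∪ sl rev d (Fl t s a))) c L := by
      refine circ_of_dec (by rwa [symmDiff_symmDiff_same]) h (by omega) hj0 hn (d 0 ∈ G) ?_
      intro j h1 h2
      rw [← hcol, mem_symmDiff]
      have := hnot j (by omega) h2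
      tauto
    have hsl : ∀ J ⊆ Icc (j0 + 1) (s + 1), ∀ y, y ∈ sl rev d (J.image fun j => a j - 1) ↔
        ∃ i < L, j0 + 1 + i ∈ J ∧ (y = c i ∨ y = rev (c i)) := by
      intro J hJ y
      simp only [mem_sl, mem_image, exists_exists_and_eq_and]
      constructor
      · rintro ⟨j, hj, e⟩
        have := mem_Icc.1 (hJ hj)
        refine ⟨j - (j0 + 1), by omega, by rwa [show j0 + 1 + (j - (j0 + 1)) = j by omega], ?_⟩
        simp only [hc']
        rwa [Nat.mod_eq_of_lt (by omega), show j0 + 1 + (j - (j0 + 1)) = j by omega]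
      · rintro ⟨i, hi, h1, e⟩
        refine ⟨_, h1, ?_⟩
        simpa only [hc', Nat.mod_eq_of_lt hi] using e
    have hslc : sl rev c (range L) = sl rev d ((Icc (j0 + 1) (s + 1)).image fun j => a j - 1) := by
      ext y
      rw [hsl _ subset_rfl, mem_sl]
      simp only [mem_range, mem_Icc]
      constructor
      · rintro ⟨i, hi, e⟩; exact ⟨i, hi, by omega, e⟩
      · rintro ⟨i, hi, -, e⟩; exact ⟨i, hi, e⟩
    have hdj : Disjoint (U ∪ sl rev d (Fl t s a)) (sl rev c (range L)) := by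
      rw [hslc, disjoint_right]
      intro y hy
      obtain ⟨i, hi, e⟩ := (mem_sl rev).1 hy
      obtain ⟨j, hj, rfl⟩ := mem_image.1 hi
      have hj' := mem_Icc.1 hj
      have := hnot j (by omega) hj'.2
      rcases e with rfl | rfl
      · exact this
      · intro h2
        apply this
        rcases mem_union.1 h2 with h3 | h3
        · exact mem_union_left _ (by simpa [hrev _] using (cl_UU hrev hψ.inv _ _ _ h3).1)
        · exact mem_union_right _ (by simpa [hrev _] using rev_mem_sl hrev h3)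
    have hstep := Chain.step hc hC hdj (fun F hF => by
      apply hR
      set J := (Icc (j0 + 1) (s + 1)).filter fun j => d (a j - 1) ∈ F with hJ
      have hJF : ∀ i < L, (j0 + 1 + i ∈ J ↔ c i ∈ F) := by
        intro i hi
        simp only [hJ, mem_filter, mem_Icc, hc', Nat.mod_eq_of_lt hi]
        exact and_iff_right (by omega)
      have hFe : F = sl rev d (J.image fun j => a j - 1) := by
        ext y
        rw [hsl J (filter_subset _ _)]
        constructor
        · intro hy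
          obtain ⟨i, hi, e⟩ := (mem_sl rev).1 (hF.sub hy)
          refine ⟨i, mem_range.1 hi, (hJF i (mem_range.1 hi)).2 ?_, e⟩
          rcases e with rfl | rfl
          · exact hy
          · simpa [hrev _] using hF.cl _ hy
        · rintro ⟨i, hi, h1, rfl | rfl⟩
          · exact (hJF i hi).1 h1
          · exact hF.cl _ ((hJF i hi).1 h1)
      refine ⟨x, hx, hxU, t, by omega, s, a, h, J,
        (filter_subset _ _).trans (Icc_subset_Icc_left (by omega)), ?_, ?_⟩
      · obtain ⟨Bd, hB, hB'⟩ := hF.bd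
        have h1 : ((range (s + 1)).filter fun j => ¬(j ∈ J ↔ j + 1 ∈ J)) ⊆
            insert j0 ((Icc (j0 + 1) s).filter fun j => d (a j - 1) ∈ Bd) := by
          intro j hj
          simp only [mem_filter, mem_range] at hj
          simp only [mem_insert, mem_filter, mem_Icc]
          rcases lt_trichotomy j j0 with h2 | h2 | h2
          · exfalso; apply hj.2
            simp only [hJ, mem_filter, mem_Icc]
            constructor <;> (intro h3; omega)
          · exact Or.inl h2
          · refine Or.inr ⟨⟨h2, by omega⟩, ?_⟩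
            have e1 := hJF (j - (j0 + 1)) (by omega)
            have e2 := hJF (j - (j0 + 1) + 1) (by omega)
            rw [show j0 + 1 + (j - (j0 + 1)) = j by omega] at e1
            rw [show j0 + 1 + (j - (j0 + 1) + 1) = j + 1 by omega] at e2
            have := hB' (j - (j0 + 1)) (by rw [← e1, ← e2]; exact hj.2)
            simp only [hc'] at this
            rwa [Nat.mod_eq_of_lt (by omega), show j0 + 1 + (j - (j0 + 1)) = j by omega] at this
        refine (card_le_card h1).trans ((card_insert_le _ _).trans ?_)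
        refine Nat.succ_le_succ (le_trans ?_ hB)
        refine card_le_card_of_injOn (fun j => d (a j - 1)) (fun j hj => ?_) ?_
        · exact (mem_filter.1 (mem_coe.1 hj)).2
        · intro i hi j hj e
          have hi' := mem_Icc.1 (mem_filter.1 (mem_coe.1 hi)).1
          have hj' := mem_Icc.1 (mem_filter.1 (mem_coe.1 hj)).1
          have := Nat.ModEq.eq_of_lt_of_lt (hT.inj _ _ e) (hpath i (by omega) (by omega)).2
            (hpath j (by omega) (by omega)).2
          have h3 := h.pos (j := i) (by omega)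
          have h4 := h.pos (j := j) (by omega)
          exact h.inj (by omega) (by omega) (by omega)
      · have h1 : Disjoint (U ∪ sl rev d (Fl t s a)) F := hdj.mono_right hF.sub
        rw [symmDiff_union_of_disjoint _ h1, symmDiff_union_of_disjoint _ h1, fset, sl_union,
          ← hFe, union_assoc])
    have : Fl (t + 1) j0 (fun j => if j ≤ j0 then a j else t + 2) =
        Fl t s a ∪ (Icc (j0 + 1) (s + 1)).image fun j => a j - 1 := by
      ext i
      simp only [mem_Fl, mem_union, mem_image, mem_Icc]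
      constructor
      · rintro ⟨h1, h2⟩
        by_cases h3 : ∃ j, (j0 + 1 ≤ j ∧ j ≤ s + 1) ∧ a j - 1 = i
        · exact Or.inr h3
        · push Not at h3
          have h4 := h3 (s + 1) ⟨by omega, le_rfl⟩
          rw [h.tail _ le_rfl] at h4
          refine Or.inl ⟨by omega, fun j h5 h6 => ?_⟩
          rcases Nat.lt_or_ge j0 j with h7 | h7
          · have := h3 j ⟨h7, by omega⟩; omega
          · have := h2 j h5 h7; rwa [if_pos h7] at this
      · rintro (⟨h1, h2⟩ | ⟨j, hj, rfl⟩)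
        · exact ⟨by omega, fun j h5 h6 => by rw [if_pos h6]; exact h2 j h5 (by omega)⟩
        · have h3 := h.le j
          have h4 := h.pos (j := j) (by omega)
          refine ⟨by omega, fun i h5 h6 => ?_⟩
          rw [if_pos h6]
          have := h.lt' (i := i) (j := j) (by omega) (by omega)
          omega
    rwa [this, sl_union, ← union_assoc, ← hslc]
  obtain ⟨s, a, h, hc⟩ := key l le_rfl
  have hs : s = 0 := by
    by_contra hne
    have h1 := h.le' (j := 1) (by omega)
    refine h.ne 0 (Nat.zero_le _) l h1 le_rfl ?_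
    rw [h.a0]
    have := hT.per 0
    rw [zero_add] at this
    simp only [nu, this, hle]
  have : Fl l s a = range l := by
    ext i; rw [mem_Fl, mem_range]; exact and_iff_left fun j _ _ => by omega
  rwa [this] at hc

variable {rev tl} in
lemma chain_all [DecidableEq W] (hrev : Function.Involutive rev) {b : ℕ} {G E : Finset α}
    (hS : Src rev tl G E) {ψ : α → α} (hψ : IsPair tl (G ∆ E) ψ)
    (halt : ∀ x ∈ G ∆ E, (ψ x ∈ G ↔ x ∉ G)) {Reach : Finset (Finset α × Finset α)}
    (hR : ∀ q, Adm rev tl b G E ψ q → q ∈ Reach) : Chain rev tl G E b Reach (G ∆ E) := by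
  have hGr : ∀ y, rev y ∈ G ↔ y ∈ G := fun y =>
    ⟨fun h => by simpa [hrev y] using hS.cl1 _ h, hS.cl1 y⟩
  have hEr : ∀ y, rev y ∈ E ↔ y ∈ E := fun y =>
    ⟨fun h => by simpa [hrev y] using hS.cl2 _ h, hS.cl2 y⟩
  have hD : Cl rev ψ (G ∆ E) := fun y hy =>
    ⟨by simpa only [mem_symmDiff, hGr, hEr] using hy, hψ.mem y hy⟩
  have key : ∀ m ≤ Fintype.card α, Chain rev tl G E b Reach (UU rev (G ∆ E) ψ m) := by
    intro m
    induction m with
    | zero => intro _; simpa [UU] using Chain.nil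
    | succ m ih =>
    intro hm
    have ih := ih (by omega)
    set x := (Fintype.equivFin α).symm ⟨m, hm⟩ with hx
    have hix : idx x = m := by simp [idx, hx]
    have hf : ∀ y, ((Fintype.equivFin α y : ℕ) < m + 1) ↔
        ((Fintype.equivFin α y : ℕ) < m ∨ y = x) := by
      intro y
      rw [hx, Equiv.eq_symm_apply, Fin.ext_iff]
      simp only
      omega
    by_cases hxD : x ∈ G ∆ E
    · have e : UU rev (G ∆ E) ψ (m + 1) = UU rev (G ∆ E) ψ m ∪ TT rev ψ x := by
        unfold UU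
        rw [union_comm, ← biUnion_insert]
        congr 1
        ext y
        simp only [mem_filter, hf, mem_insert]
        constructor
        · tauto
        · rintro (rfl | h)
          · exact ⟨hxD, Or.inr rfl⟩
          · tauto
      rw [e]
      by_cases hxU : x ∈ UU rev (G ∆ E) ψ m
      · rwa [union_eq_left.2 (TT_subset hrev hψ.inv (cl_UU hrev hψ.inv _ _) hxU)]
      · rw [← hix] at ih hxU ⊢
        exact chain_trail hrev hS hψ halt hR hxD hxU ih
    · have e : UU rev (G ∆ E) ψ (m + 1) = UU rev (G ∆ E) ψ m := by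
        unfold UU
        congr 1
        ext y
        simp only [mem_filter, hf]
        constructor
        · rintro ⟨h1, h2 | rfl⟩
          · exact ⟨h1, h2⟩
          · exact absurd h1 hxD
        · tauto
      rwa [e]
  have e : UU rev (G ∆ E) ψ (Fintype.card α) = G ∆ E := by
    apply Subset.antisymm
    · intro y hy
      obtain ⟨z, hz, hy⟩ := mem_biUnion.1 hy
      exact TT_subset hrev hψ.inv hD (mem_filter.1 hz).1 hy
    · intro y hy
      exact mem_biUnion.2 ⟨y, mem_filter.2 ⟨hy, (Fintype.equivFin α y).2⟩,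
        (mem_TT hrev hψ.inv).2 ⟨0, Or.inl rfl⟩⟩
  have := key _ le_rfl
  rwa [e] at this

end Pool.Agent.MP_c319e0_lc

end

-- part MP_c319e0_lc.CongCode
section

/-! The encoding of a state by an almost alternating pairing. -/

namespace Pool.Agent.MP_c319e0_lc
open Finset
open scoped symmDiff

variable {α W : Type} [Fintype α] [DecidableEq α] (rev : α → α) (tl : α → W)

/-- the trail with the blocks outside `J` reversed -/
def Rv (d : ℕ → α) (a : ℕ → ℕ) (s : ℕ) (J : Finset ℕ) (l i : ℕ) : α :=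
  if cond a s J (i % l) then rev (d (pj a s J (i % l))) else d (pj a s J (i % l))

open Classical in
/-- `(ψ', x, t, l, β)` encodes the source `(p, ψ)` of the state `q` -/
def Code (q p : Finset α × Finset α) (ψ ψ' : α → α) (x : α) (t l : ℕ) (β : Bool) : Prop :=
  ∃ (s : ℕ) (a : ℕ → ℕ) (J : Finset ℕ) (d : ℕ → α), Dec (nu tl (orb rev ψ' x)) t s a ∧
    J = ((Icc 1 (s + 1)).filter fun j =>
      ¬(orb rev ψ' x (a j - 1) ∈ q.1 ↔ (β = true ↔ (a j - 1) % 2 = 0))) ∧
    d = Rv rev (orb rev ψ' x) a s J l ∧ 0 < l ∧ (∀ y, ψ (ψ y) = y) ∧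
    (∀ i, ψ (rev (d i)) = d (i + 1)) ∧ (∀ y ∉ sl rev d (range l), ψ y = ψ' y) ∧
    p = (q.1 ∆ fset rev (q.1 ∆ q.2) ψ (d 0) t s a J, q.2 ∆ fset rev (q.1 ∆ q.2) ψ (d 0) t s a J)

lemma code_unique {q p₁ p₂ : Finset α × Finset α} {ψ₁ ψ₂ ψ' : α → α} {x : α} {t l : ℕ} {β : Bool}
    (h₁ : Code rev tl q p₁ ψ₁ ψ' x t l β) (h₂ : Code rev tl q p₂ ψ₂ ψ' x t l β) :
    p₁ = p₂ ∧ ψ₁ = ψ₂ := by
  obtain ⟨s, a, J, d, h1, hJ, hd, hl, i1, n1, o1, rfl⟩ := h₁
  obtain ⟨s', a', J', d', h2, hJ', hd', -, i2, n2, o2, rfl⟩ := h₂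
  obtain ⟨rfl, rfl⟩ := h1.unique h2
  obtain rfl : J = J' := hJ.trans hJ'.symm
  obtain rfl : d = d' := hd.trans hd'.symm
  have hper : ∀ i, d (i + l) = d i := fun i => by rw [hd]; simp [Rv]
  have : ψ₁ = ψ₂ := by
    funext y
    by_cases hy : y ∈ sl rev d (range l)
    · obtain ⟨i, -, rfl | rfl⟩ := (mem_sl rev).1 hy
      · rw [← hper i, show i + l = i + l - 1 + 1 by omega]
        conv_lhs => rw [← n1, i1]
        conv_rhs => rw [← n2, i2]
      · rw [n1, n2]
    · rw [o1 y hy, o2 y hy]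
  subst this
  exact ⟨rfl, rfl⟩

lemma Dec.congr {β : Type} {ν ν' : ℕ → β} {t s : ℕ} {a : ℕ → ℕ} (h : Dec ν t s a)
    (e : ∀ i ≤ t, ν' i = ν i) : Dec ν' t s a where
  a0 := h.a0
  tail := h.tail
  lt := h.lt
  eq j hj := by
    have := h.le (j + 1)
    rw [e _ (by omega), e _ (h.le' hj), h.eq j hj]
  ne j hj i h1 h2 := by rw [e _ h2, e _ (h.le' hj)]; exact h.ne j hj i h1 h2

section
variable {rev tl} (hrev : Function.Involutive rev) {D : Finset α} {d : ℕ → α} {l t s : ℕ}
  {a : ℕ → ℕ} (hT : Trail rev tl D d l) (h : Dec (nu tl d) t s a) (ht : t < l) (J : Finset ℕ)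
include hrev hT h ht

omit [Fintype α] [DecidableEq α] hrev h ht in
lemma Rv_per (i : ℕ) : Rv rev d a s J l (i + l) = Rv rev d a s J l i := by simp [Rv]

omit [Fintype α] [DecidableEq α] in
lemma Rv_Rv : Rv rev (Rv rev d a s J l) a s J l = d := by
  funext i
  have h1 : i % l < l := Nat.mod_lt _ hT.pos
  have h2 := h.pj_lt J ht h1
  unfold Rv
  rw [Nat.mod_eq_of_lt h2, h.pj_pj]
  simp only [h.cond_pj]
  split_ifs
  · rw [hrev, per_mod hT.per]
  · rw [per_mod hT.per]

omit [Fintype α] [DecidableEq α] hrev ht in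
lemma tl_Rv {i : ℕ} (hi : i < l) : tl (Rv rev d a s J l i) = tl (d (sg a s J i)) := by
  unfold Rv
  rw [Nat.mod_eq_of_lt hi]
  split_ifs with hc
  · rw [(h.sg_of_cond J hc).1, hT.link]
  · rw [pj, if_neg hc]; exact (congrArg Prod.fst (h.sg_of_not_cond J hc).1).symm

omit [Fintype α] [DecidableEq α] ht in
lemma tl_rev_Rv {i : ℕ} (hi : i < l) :
    tl (rev (Rv rev d a s J l i)) = tl (d (sg a s J (i + 1))) := by
  unfold Rv
  rw [Nat.mod_eq_of_lt hi]
  split_ifs with hc
  · rw [(h.sg_of_cond J hc).2, hrev]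
  · rw [pj, if_neg hc, ← hT.link]; exact (congrArg Prod.fst (h.sg_of_not_cond J hc).2).symm

omit [Fintype α] [DecidableEq α] in
lemma trail_Rv (hD : ∀ x ∈ D, rev x ∈ D) : Trail rev tl D (Rv rev d a s J l) l := by
  have hm : ∀ i, i % l < l := fun i => Nat.mod_lt _ hT.pos
  have hp : ∀ i, pj a s J (i % l) < l := fun i => h.pj_lt J ht (hm i)
  have hinj : ∀ i j, d (pj a s J (i % l)) = d (pj a s J (j % l)) → i % l = j % l := by
    intro i j e
    have := Nat.ModEq.eq_of_lt_of_lt (hT.inj _ _ e) (hp i) (hp j)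
    rw [← h.pj_pj J (i % l), this, h.pj_pj]
  refine ⟨hT.pos, Rv_per hT J, fun i => ?_, fun i => ?_, fun i j e => ?_, fun i j e => ?_⟩
  · unfold Rv
    split_ifs
    · exact hD _ (hT.mem _)
    · exact hT.mem _
  · rw [← per_mod (Rv_per hT J) i, ← per_mod (Rv_per hT J) (i + 1),
      tl_rev_Rv hrev hT h J (hm i), tl_Rv hT h J (hm _)]
    have := hm i
    rcases Nat.lt_or_ge (i % l + 1) l with h1 | h1
    · rw [← Nat.mod_add_mod, Nat.mod_eq_of_lt h1]
    · rw [← Nat.mod_add_mod, show i % l + 1 = l by omega, Nat.mod_self, h.sg_of_gt J ht]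
      have e := hT.per 0
      rw [zero_add] at e
      rw [e]
      exact congrArg Prod.fst (h.sg_zero J)
  · unfold Rv at e
    split_ifs at e
    · exact hinj _ _ (hrev.injective e)
    · exact absurd e.symm (hT.norev _ _)
    · exact absurd e (hT.norev _ _)
    · exact hinj _ _ e
  · unfold Rv at e
    split_ifs at e with h1 h2 h2
    · rw [hrev] at e; exact hT.norev _ _ e.symm
    · rw [hinj _ _ (hrev.injective e)] at h1; exact h2 h1
    · rw [hrev] at e; rw [hinj _ _ e] at h1; exact h1 h2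
    · exact hT.norev _ _ e

omit [Fintype α] in
lemma sl_Rv_subset : sl rev (Rv rev d a s J l) (range l) ⊆ sl rev d (range l) := by
  have key : ∀ i, Rv rev d a s J l i ∈ sl rev d (range l) := fun i => by
    rw [mem_sl_range rev hT.pos hT.per]
    unfold Rv
    split_ifs
    · exact ⟨_, Or.inr rfl⟩
    · exact ⟨_, Or.inl rfl⟩
  intro y hy
  obtain ⟨i, -, rfl | rfl⟩ := (mem_sl rev).1 hy
  · exact key i
  · exact rev_mem_sl hrev (key i)

omit [Fintype α] [DecidableEq α] hrev in
lemma dec_Rv : Dec (nu tl (Rv rev d a s J l)) t s a := by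
  refine (h.dec_sg J).congr fun i hi => Prod.ext (tl_Rv hT h J (by omega)) ?_
  have hpar := Dec.parity (w := fun i => tl (d i)) h
  have e1 := hpar _ ((Dec.bi_le (a := a) (s := s) i).trans (Nat.le_succ s))
  have e2 := hpar _ (Nat.succ_le_succ (Dec.bi_le (a := a) (s := s) i))
  have e3 := h.a_bi_le i
  simp only [nu, sg]
  split_ifs with h1
  · have := h1.1
    simp only [Nat.succ_eq_add_one] at e2
    omega
  · rfl

omit [Fintype α] in
lemma sl_Rv (hD : ∀ x ∈ D, rev x ∈ D) :
    sl rev (Rv rev d a s J l) (range l) = sl rev d (range l) := by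
  refine Subset.antisymm (sl_Rv_subset hrev hT h ht J) ?_
  have := sl_Rv_subset hrev (trail_Rv hrev hT h ht J hD) (dec_Rv hT h ht J) ht J
  rwa [Rv_Rv hrev hT h ht J] at this

end

/-- the colour of the dart at time `i` of the new trail is not the one given by parity -/
def eff (a : ℕ → ℕ) (s : ℕ) (J : Finset ℕ) (i : ℕ) : Prop :=
  (i + 1 < a (bi a s i + 1) ∧ bi a s i ∈ J) ∨ (i + 1 = a (bi a s i + 1) ∧ bi a s i + 1 ∈ J)

lemma Dec.eff_change {β : Type} {ν : ℕ → β} {t s : ℕ} {a : ℕ → ℕ} (h : Dec ν t s a)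
    (J : Finset ℕ) {i : ℕ} (hi : i ≠ t) (he : ¬(eff a s J i ↔ eff a s J (i + 1))) :
    ∃ j < s + 1, ¬(j ∈ J ↔ j + 1 ∈ J) ∧ i = a (j + 1) - 2 := by
  rcases Nat.lt_or_ge t i with h1 | h1
  · exfalso; apply he
    unfold eff
    rw [h.bi_of_gt h1, h.bi_of_gt (i := i + 1) (by omega)]
    constructor <;> (rintro (h2 | h2) <;> omega)
  have h2 := h.lt_a_bi h1
  have h3 := h.a_bi_le i
  have h4 := Dec.bi_le (a := a) (s := s) i
  have h5 := h.lt_a_bi (i := i + 1) (by omega)
  have h6 := Dec.bi_le (a := a) (s := s) (i + 1)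
  rcases Nat.lt_or_ge (i + 1) (a (bi a s i + 1)) with h7 | h7
  · have e : bi a s (i + 1) = bi a s i := h.bi_eq h4 (by omega) h7
    unfold eff at he
    rw [e] at he h5
    refine ⟨bi a s i, by omega, ?_, ?_⟩
    · intro h8; apply he
      constructor
      · rintro (h9 | h9)
        · rcases Nat.lt_or_ge (i + 1 + 1) (a (bi a s i + 1)) with h10 | h10
          · exact Or.inl ⟨h10, h9.2⟩
          · exact Or.inr ⟨by omega, h8.1 h9.2⟩
        · omega
      · rintro (h9 | h9)
        · exact Or.inl ⟨h7, h9.2⟩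
        · exact Or.inl ⟨h7, h8.2 h9.2⟩
    · by_contra h8
      apply he
      constructor
      · rintro (h9 | h9)
        · exact Or.inl ⟨by omega, h9.2⟩
        · omega
      · rintro (h9 | h9)
        · exact Or.inl ⟨h7, h9.2⟩
        · omega
  · have h8 : bi a s i + 1 ≤ s := by
      by_contra h9
      rw [h.tail _ (by omega)] at h7
      omega
    have e : bi a s (i + 1) = bi a s i + 1 :=
      h.bi_eq h8 h7 (by have := h.lt _ h8; omega)
    unfold eff at he
    rw [e] at he h5
    refine ⟨bi a s i + 1, by omega, ?_, ?_⟩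
    · intro h8; apply he
      constructor
      · rintro (h9 | h9)
        · omega
        · rcases Nat.lt_or_ge (i + 1 + 1) (a (bi a s i + 1 + 1)) with h10 | h10
          · exact Or.inl ⟨h10, h9.2⟩
          · exact Or.inr ⟨by omega, h8.1 h9.2⟩
      · rintro (h9 | h9)
        · exact Or.inr ⟨by omega, h9.2⟩
        · exact Or.inr ⟨by omega, h8.2 h9.2⟩
    · by_contra h8
      apply he
      constructor
      · rintro (h9 | h9)
        · omega
        · exact Or.inl ⟨by omega, h9.2⟩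
      · rintro (h9 | h9)
        · exact Or.inr ⟨by omega, h9.2⟩
        · omega

lemma Dec.mem_flip {β : Type} {ν : ℕ → β} {t s : ℕ} {a : ℕ → ℕ} (h : Dec ν t s a)
    {J : Finset ℕ} (hJ : J ⊆ Icc 1 (s + 1)) (i : ℕ) :
    i ∈ Fl t s a ∪ J.image (fun j => a j - 1) ↔
      i + 1 < a (bi a s i + 1) ∨ (i + 1 = a (bi a s i + 1) ∧ bi a s i + 1 ∈ J) := by
  have h3 := h.a_bi_le i
  have h4 := Dec.bi_le (a := a) (s := s) i
  have h5 := h.le (bi a s i + 1)
  simp only [mem_union, mem_Fl, mem_image]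
  constructor
  · rintro (⟨h1, h2⟩ | ⟨j, hj, rfl⟩)
    · left
      have h6 := h.lt_a_bi h1.le
      rcases Nat.lt_or_ge s (bi a s i + 1) with h7 | h7
      · rw [h.tail _ h7]; omega
      · have := h2 _ (by omega) h7; omega
    · right
      have hj' := mem_Icc.1 (hJ hj)
      obtain ⟨j, rfl⟩ : ∃ j', j = j' + 1 := ⟨j - 1, by omega⟩
      have := h.lt j (by omega)
      rw [h.bi_eq (j := j) (by omega) (by omega) (by omega)]
      exact ⟨by omega, hj⟩
  · rintro (h1 | ⟨h1, h2⟩)
    · refine Or.inl ⟨by omega, fun j _ _ e => ?_⟩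
      rcases Nat.lt_or_ge (bi a s i) j with h6 | h6
      · have := h.mono (show bi a s i + 1 ≤ j from h6); omega
      · have := h.mono h6; omega
    · exact Or.inr ⟨_, h2, by omega⟩

lemma aux1 (p q : Prop) : ¬(p ↔ ¬q) ↔ (p ↔ q) := by tauto

lemma aux2 (p q r : Prop) : ¬((p ↔ ¬q) ↔ r) ↔ ¬¬((p ↔ q) ↔ r) := by tauto

lemma aux3 {p q r s : Prop} (h : ¬(p ∧ ¬q)) : (p ∨ r ∧ s) ↔ (p ∧ q ∨ r ∧ s) := by tauto

lemma aux4 (p q : Prop) : ((¬p ∧ ¬q) ∨ (q ∧ ¬¬p)) ↔ ¬((p ∧ ¬q) ∨ (q ∧ ¬p)) := by tauto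

lemma aux5 {p q r : Prop} (h : p) : q ↔ p ∧ ¬(¬(r ↔ q) ↔ r) := by tauto

lemma aux6 (p q r : Prop) (h : p ↔ q) : ((p ∧ ¬r) ∨ (r ∧ ¬p)) ↔ ¬(q ↔ r) := by tauto

variable {rev tl} in
lemma code_exists [DecidableEq W] [Fintype W] (hrev : Function.Involutive rev) {b : ℕ}
    {G E : Finset α} (hS : Src rev tl G E) {ψ : α → α} (hψ : IsPair tl (G ∆ E) ψ)
    (halt : ∀ x ∈ G ∆ E, (ψ x ∈ G ↔ x ∉ G)) {q : Finset α × Finset α}
    (hq : Adm rev tl b G E ψ q) :
    ∃ ψ' ∈ Near tl (q.1 ∆ q.2) q.1 (2 * (b + 3)), ∃ x, ∃ t < Fintype.card α,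
      ∃ l ≤ Fintype.card α, ∃ β, Code rev tl q (G, E) ψ ψ' x t l β := by
  classical
  obtain ⟨x, hx, hxU, t, ht, s, a, h, J, hJ, hch, rfl⟩ := hq
  have hGr : ∀ y, rev y ∈ G ↔ y ∈ G := fun y =>
    ⟨fun h => by simpa [hrev y] using hS.cl1 _ h, hS.cl1 y⟩
  have hEr : ∀ y, rev y ∈ E ↔ y ∈ E := fun y =>
    ⟨fun h => by simpa [hrev y] using hS.cl2 _ h, hS.cl2 y⟩
  have hD : ∀ y ∈ G ∆ E, rev y ∈ G ∆ E := fun y hy => by
    simpa only [mem_symmDiff, hGr, hEr] using hy
  have hT := trail_orb hrev hψ (fun y hy e => by have := halt y hy; rw [e] at this; tauto) hD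
    hS.nofix hx
  have hU := cl_UU hrev hψ.inv (G ∆ E) (idx x)
  have hx0 : orb rev ψ x 0 = x := rfl
  have hsucc := orb_succ rev ψ x
  have hTT := cl_TT hrev hψ.inv x
  have hdisj := disjoint_TT hrev hψ.inv hU hxU
  unfold TT at hTT hdisj
  simp only [symmDiff_symmDiff_same]
  have hfs : fset rev (G ∆ E) ψ x t s a J = UU rev (G ∆ E) ψ (idx x) ∪
    sl rev (orb rev ψ x) (Fl t s a ∪ J.image fun j => a j - 1) := rfl
  set d := orb rev ψ x with hd
  set l := prd rev ψ x with hl
  set U := UU rev (G ∆ E) ψ (idx x) with hUdef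
  set I := Fl t s a ∪ J.image fun j => a j - 1 with hI
  set F := fset rev (G ∆ E) ψ x t s a J with hF
  have hdU : ∀ i, d i ∉ U := fun i h => disjoint_left.1 hdisj h
    ((mem_sl_range rev hT.pos hT.per).2 ⟨i, Or.inl rfl⟩)
  have hcol := colour_of_alt (G := G) (d := d) fun i => by
    rw [hsucc, halt _ (hD _ (hT.mem i)), hGr]
  have hle : l % 2 = 0 := by
    have h1 := hcol l
    have h2 := hT.per 0
    rw [zero_add] at h2
    rw [h2] at h1
    tauto
  have hIl : ∀ i ∈ I, i < l := fun i hi => by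
    have := (h.mem_flip hJ i).1 hi
    have := h.le (bi a s i + 1)
    omega
  have hFr : ∀ y, rev y ∈ F ↔ y ∈ F := by
    have : ∀ y ∈ F, rev y ∈ F := fun y hy => by
      rw [hfs, mem_union] at hy ⊢
      exact hy.imp (fun h => (hU y h).1) (rev_mem_sl hrev)
    exact fun y => ⟨fun h => by simpa [hrev y] using this _ h, this y⟩
  have hG'r : ∀ y, rev y ∈ G ∆ F ↔ y ∈ G ∆ F := fun y => by simp only [mem_symmDiff, hGr, hFr]
  have hdF : ∀ i < l, (d i ∈ G ∆ F ↔ ¬((d 0 ∈ G ↔ i % 2 = 0) ↔ i ∈ I)) := fun i hi => by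
    have e1 : d i ∈ F ↔ i ∈ I := by
      rw [hfs, mem_union, hT.mem_sl_iff hIl hi]; exact or_iff_right (hdU i)
    rw [mem_symmDiff, e1]; exact aux6 _ _ _ (hcol i)
  have hT' := trail_Rv hrev hT h ht J hD
  have hsl := sl_Rv hrev hT h ht J hD
  obtain ⟨ψ', hp', hn', ho'⟩ := hT'.exists_pair hrev hD hψ (by
    rw [hsl]; exact fun y hy => (hTT y hy).2)
  set d' := Rv rev d a s J l with hd'
  have hpar := Dec.parity (w := fun i => tl (d i)) h
  have hcol' : ∀ i < l, (d' i ∈ G ∆ F ↔ ¬((d 0 ∈ G ↔ i % 2 = 0) ↔ eff a s J i)) := by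
    intro i hi
    simp only [hd', Rv, Nat.mod_eq_of_lt hi]
    split_ifs with hc
    · rw [hG'r, hdF _ (h.pj_lt J ht hi), hI, h.mem_flip hJ]
      have e1 := ((h.cond_pj J i).2 hc).1
      have e2 : ¬ eff a s J i := by
        rintro (h1 | h1)
        · exact hc.2 h1.2
        · have := hc.1; omega
      have e3 : pj a s J i % 2 = 0 ↔ ¬ i % 2 = 0 := by
        have e4 := hpar _ ((Dec.bi_le (a := a) (s := s) i).trans (Nat.le_succ s))
        have e5 := hpar _ (Nat.succ_le_succ (Dec.bi_le (a := a) (s := s) i))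
        have e6 := h.a_bi_le i
        have e7 := hc.1
        rw [pj, if_pos hc]
        simp only [Nat.succ_eq_add_one] at e5
        omega
      rw [e3]
      simp only [e1, e2, true_or, iff_true, iff_false, not_not]
      exact aux1 _ _
    · rw [pj, if_neg hc, hdF _ hi, hI, h.mem_flip hJ]
      have : (i + 1 < a (bi a s i + 1) ∨ i + 1 = a (bi a s i + 1) ∧ bi a s i + 1 ∈ J) ↔
          eff a s J i := by
        exact aux3 hc
      rw [this]
  have hcard := hT.le_card
  refine ⟨ψ', (mem_Near tl).2 ⟨hp', ?_⟩, d' 0, t, by omega, l, hcard, decide (d 0 ∈ G),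
    s, a, J, d, ?_, ?_, ?_, hT.pos, hψ.inv, fun i => (hsucc i).symm, ?_, ?_⟩
  · set B := insert t (insert (l - 1)
      (((range (s + 1)).filter fun j => ¬(j ∈ J ↔ j + 1 ∈ J)).image fun j => a (j + 1) - 2))
      with hB
    have hBc : #B ≤ b + 3 := by
      refine (card_insert_le _ _).trans (Nat.succ_le_succ ((card_insert_le _ _).trans ?_))
      exact Nat.succ_le_succ (card_image_le.trans hch)
    have hgood : ∀ i < l, i ∉ B → (d' (i + 1) ∈ G ∆ F ↔ d' i ∉ G ∆ F) := by
      intro i hi hiB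
      simp only [hB, mem_insert, mem_image, mem_filter, mem_range, not_or, not_exists,
        not_and] at hiB
      have e : eff a s J i ↔ eff a s J (i + 1) := by
        by_contra hne
        obtain ⟨j, h1, h2, h3⟩ := h.eff_change J hiB.1 hne
        exact hiB.2.2 j ⟨h1, h2⟩ h3.symm
      rw [hcol' i hi, hcol' (i + 1) (by omega), ← e]
      have : (i + 1) % 2 = 0 ↔ ¬ i % 2 = 0 := by omega
      rw [this]; exact aux2 _ _ _
    have hsub : ((G ∆ E).filter fun y => ¬(ψ' y ∈ G ∆ F ↔ y ∉ G ∆ F)) ⊆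
        B.image (fun i => rev (d' i)) ∪ B.image fun i => d' (i + 1) := by
      intro y hy
      obtain ⟨hyD, hy⟩ := mem_filter.1 hy
      by_cases hyT : y ∈ sl rev d' (range l)
      · obtain ⟨i, hi, rfl | rfl⟩ := (mem_sl rev).1 hyT
        · have hl0 := hT.pos
          have hm : (i + l - 1) % l < l := Nat.mod_lt _ hl0
          have e : d' i = d' ((i + l - 1) % l + 1) := by
            rw [← per_mod hT'.per (_ + 1), Nat.mod_add_mod, show i + l - 1 + 1 = i + l by omega,
              per_mod hT'.per, hT'.per]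
          refine mem_union_right _ (mem_image.2 ⟨(i + l - 1) % l, ?_, e.symm⟩)
          by_contra hb
          apply hy
          have := hgood _ hm hb
          rw [e, ← hn', hp'.inv, hn', hG'r, this, not_not]
        · refine mem_union_left _ (mem_image.2 ⟨i, ?_, rfl⟩)
          by_contra hb
          apply hy
          rw [hn', hG'r]
          exact hgood _ (mem_range.1 hi) hb
      · exfalso; apply hy
        rw [ho' y hyT]
        rw [hsl] at hyT
        have hyT' : ψ y ∉ sl rev d (range l) := fun h' =>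
          hyT (by simpa [hψ.inv] using (hTT _ h').2)
        have hs : sl rev d I ⊆ sl rev d (range l) :=
          sl_mono rev d fun i hi => mem_range.2 (hIl i hi)
        have e1 : y ∈ F ↔ y ∈ U := by rw [hfs, mem_union]; exact or_iff_left fun h' => hyT (hs h')
        have e2 : ψ y ∈ F ↔ ψ y ∈ U := by
          rw [hfs, mem_union]; exact or_iff_left fun h' => hyT' (hs h')
        have e3 : ψ y ∈ U ↔ y ∈ U :=
          ⟨fun h' => by simpa [hψ.inv] using (hU _ h').2, fun h' => (hU _ h').2⟩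
        have e4 := halt y hyD
        rw [mem_symmDiff, mem_symmDiff, e1, e2, e3, e4]
        exact aux4 _ _
    refine (card_le_card hsub).trans ((card_union_le _ _).trans ?_)
    have h1 := card_image_le (s := B) (f := fun i => rev (d' i))
    have h2 := card_image_le (s := B) (f := fun i => d' (i + 1))
    omega
  · rw [← eq_orb rev hn']; exact dec_Rv hT h ht J
  · rw [← eq_orb rev hn']
    ext j
    simp only [mem_filter, decide_eq_true_eq]
    by_cases hj : j ∈ Icc 1 (s + 1)
    · have hj' := mem_Icc.1 hj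
      have h1 := h.le j
      have h2 := h.pos hj'.1
      rw [hcol' _ (by omega)]
      obtain ⟨j, rfl⟩ : ∃ j', j = j' + 1 := ⟨j - 1, by omega⟩
      have h3 := h.lt j (by omega)
      have : eff a s J (a (j + 1) - 1) ↔ j + 1 ∈ J := by
        unfold eff
        rw [h.bi_eq (j := j) (by omega) (by omega) (by omega)]
        constructor
        · rintro (h4 | h4)
          · omega
          · exact h4.2
        · intro h4; exact Or.inr ⟨by omega, h4⟩
      rw [this]; exact aux5 hj
    · exact ⟨fun h' => absurd (hJ h') hj, fun h' => absurd h'.1 hj⟩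
  · rw [← eq_orb rev hn', hd', Rv_Rv hrev hT h ht J]
  · intro y hy; rw [← hsl] at hy; exact (ho' y hy).symm
  · simp only [symmDiff_symmDiff_same, hx0, ← hF, symmDiff_symmDiff_cancel_right]

end Pool.Agent.MP_c319e0_lc

end

-- part MP_c319e0_lc.Cong
section

/-! Congestion bound for the decomposition into primitive circuits. -/

namespace Pool.Agent.MP_c319e0_lc
open Finset
open scoped symmDiff

section
variable {α W : Type} [Fintype α] [DecidableEq α] [Fintype W] [DecidableEq W]
  {rev : α → α} {tl : α → W}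

omit [Fintype α] [Fintype W] in
lemma Src.bal' {G E : Finset α} (h : Src rev tl G E) : Bal tl (G ∆ E) G := by
  intro v
  have e1 : ((G ∆ E).filter fun x => tl x = v ∧ x ∈ G) =
      (G.filter fun x => tl x = v) \ (E.filter fun x => tl x = v) := by
    ext x; simp only [mem_filter, mem_symmDiff, mem_sdiff]; tauto
  have e2 : ((G ∆ E).filter fun x => tl x = v ∧ x ∉ G) =
      (E.filter fun x => tl x = v) \ (G.filter fun x => tl x = v) := by
    ext x; simp only [mem_filter, mem_symmDiff, mem_sdiff]; tauto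
  rw [e1, e2]
  exact card_sdiff_comm (h.bal v)

omit [Fintype W] [DecidableEq W] in
lemma Adm.symmDiff_eq {b : ℕ} {G E : Finset α} {ψ : α → α} {q : Finset α × Finset α}
    (h : Adm rev tl b G E ψ q) : q.1 ∆ q.2 = G ∆ E := by
  obtain ⟨x, -, -, t, -, s, a, -, J, -, -, rfl⟩ := h
  exact symmDiff_symmDiff_same _ _ _

open Classical in
lemma card_sources (hrev : Function.Involutive rev) (b : ℕ)
    (X : Finset (Finset α × Finset α)) (hX : ∀ p ∈ X, Src rev tl p.1 p.2)
    (q : Finset α × Finset α) :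
    #((X.sigma fun p => Pairs tl (p.1 ∆ p.2) p.1).filter
      fun z => Adm rev tl b z.1.1 z.1.2 z.2 q) ≤
      (Fintype.card α + 2) ^ (4 * b + 20) * Wt tl (q.1 ∆ q.2) := by
  set N := Fintype.card α with hN
  have h1 := card_le_card_of_forall_subsingleton
    (s := (X.sigma fun p => Pairs tl (p.1 ∆ p.2) p.1).filter
      fun z => Adm rev tl b z.1.1 z.1.2 z.2 q)
    (t := Near tl (q.1 ∆ q.2) q.1 (2 * (b + 3)) ×ˢ (univ : Finset α) ×ˢ range (N + 1) ×ˢ
      range (N + 1) ×ˢ (univ : Finset Bool))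
    (fun z c => Code rev tl q z.1 z.2 c.1 c.2.1 c.2.2.1 c.2.2.2.1 c.2.2.2.2)
    (fun z hz => by
      obtain ⟨hz, ha⟩ := mem_filter.1 hz
      obtain ⟨hp, hψ⟩ := mem_sigma.1 hz
      obtain ⟨hψ, halt⟩ := (mem_Pairs tl).1 hψ
      obtain ⟨ψ', h1, x, t, ht, l, hl, β, hc⟩ := code_exists hrev (hX _ hp) hψ halt ha
      exact ⟨(ψ', x, t, l, β), by
        simp only [mem_product, h1, mem_univ, mem_range, true_and, and_true]; omega, hc⟩)
    (fun c _ z₁ h₁ z₂ h₂ => by
      obtain ⟨e1, e2⟩ := code_unique rev tl h₁.2 h₂.2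
      exact Sigma.ext e1 (heq_of_eq e2))
  refine h1.trans ?_
  simp only [card_product, card_univ, card_range, Fintype.card_bool, ← hN]
  have h2 := card_Near tl (q.1 ∆ q.2) q.1 (2 * (b + 3))
  have h3 : (N ^ 2 + 1) ^ (2 * (b + 3)) ≤ (N + 2) ^ (4 * b + 12) := by
    rw [show 4 * b + 12 = 2 * (2 * (b + 3)) by ring, pow_mul (N + 2)]
    exact Nat.pow_le_pow_left (by nlinarith) _
  have h4 : N * ((N + 1) * ((N + 1) * 2)) ≤ (N + 2) ^ 8 := by
    calc _ ≤ (N + 2) * ((N + 2) * ((N + 2) * (N + 2))) := by gcongr <;> omega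
      _ = (N + 2) ^ 4 := by ring
      _ ≤ _ := Nat.pow_le_pow_right (by omega) (by omega)
  calc _ ≤ (N + 2) ^ (4 * b + 12) * Wt tl (q.1 ∆ q.2) * (N + 2) ^ 8 :=
        Nat.mul_le_mul (h2.trans (Nat.mul_le_mul_right _ h3)) h4
    _ = _ := by ring

end

theorem cong {α W : Type} [Fintype α] [DecidableEq α] [Fintype W] [DecidableEq W]
    (rev : α → α) (tl : α → W) (hrev : Function.Involutive rev) (b : ℕ)
    (X : Finset (Finset α × Finset α)) (hX : ∀ p ∈ X, Src rev tl p.1 p.2)
    (φ Φ : Finset α × Finset α → ℝ) (hΦ : ∀ q, 0 ≤ Φ q)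
    (h : ∀ p ∈ X, ∀ Reach, Chain rev tl p.1 p.2 b Reach (p.1 ∆ p.2) → φ p ≤ ∑ q ∈ Reach, Φ q) :
    ∑ p ∈ X, φ p ≤ ((Fintype.card α : ℝ) + 2) ^ (4 * b + 20) * ∑ q, Φ q := by
  classical
  have hW : ∀ D : Finset α, (0 : ℝ) < Wt tl D := fun D => by exact_mod_cast Wt_pos tl D
  have h1 : ∀ p ∈ X, φ p ≤ ∑ ψ ∈ Pairs tl (p.1 ∆ p.2) p.1, ∑ q,
      if Adm rev tl b p.1 p.2 ψ q then Φ q / Wt tl (q.1 ∆ q.2) else 0 := by
    intro p hp
    have hc := card_Pairs tl _ _ rfl (hX p hp).bal'
    calc φ p = ∑ _ψ ∈ Pairs tl (p.1 ∆ p.2) p.1, φ p / Wt tl (p.1 ∆ p.2) := by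
          rw [sum_const, hc, nsmul_eq_mul, mul_div_cancel₀ _ (hW _).ne']
      _ ≤ _ := sum_le_sum fun ψ hψ => by
          obtain ⟨hψ, halt⟩ := (mem_Pairs tl).1 hψ
          have := h p hp (univ.filter fun q => Adm rev tl b p.1 p.2 ψ q)
            (chain_all hrev (hX p hp) hψ halt fun q hq => mem_filter.2 ⟨mem_univ _, hq⟩)
          refine (div_le_div_of_nonneg_right this (hW _).le).trans (le_of_eq ?_)
          rw [sum_div, sum_filter]
          refine sum_congr rfl fun q _ => ?_
          split_ifs with hq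
          · rw [hq.symmDiff_eq]
          · rfl
  refine (sum_le_sum h1).trans ?_
  rw [sum_sigma', sum_comm, mul_sum]
  refine sum_le_sum fun q _ => ?_
  rw [← sum_filter, sum_const, nsmul_eq_mul]
  have h2 : (#((X.sigma fun p => Pairs tl (p.1 ∆ p.2) p.1).filter
      fun z => Adm rev tl b z.1.1 z.1.2 z.2 q) : ℝ) ≤
      ((Fintype.card α : ℝ) + 2) ^ (4 * b + 20) * Wt tl (q.1 ∆ q.2) := by
    exact_mod_cast card_sources hrev b X hX q
  refine (mul_le_mul_of_nonneg_right h2 (div_nonneg (hΦ q) (hW _).le)).trans (le_of_eq ?_)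
  rw [mul_assoc, mul_div_cancel₀ _ (hW _).ne']

end Pool.Agent.MP_c319e0_lc

end

-- part MP_c319e0_lc.CountTrail
section

/-! The alternating trail inequality. -/

namespace Pool.Agent.MP_c319e0_lc
open Finset
open scoped symmDiff

section Gen
variable {α W : Type} [DecidableEq α] {rev : α → α} {tl : α → W} {G E : Finset α} {d : ℕ → α}
  {L : ℕ}

lemma Circ.per_mul (h : Circ rev tl G E d L) (i m : ℕ) : d (i + L * m) = d i := by
  induction m with
  | zero => simp
  | succ m ih => rw [Nat.mul_succ, ← add_assoc, h.per, ih]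

lemma Circ.d_mod (h : Circ rev tl G E d L) (i : ℕ) : d (i % L) = d i := by
  conv_rhs => rw [← Nat.mod_add_div i L, h.per_mul]

lemma Circ.d_congr (h : Circ rev tl G E d L) {i j : ℕ} (hij : i ≡ j [MOD L]) : d i = d j := by
  rw [← h.d_mod i, ← h.d_mod j, hij]

lemma Circ.subArc (h : Circ rev tl G E d L) (hrev : Function.Involutive rev) (p q : ℕ) :
    SubArc rev d L 2 (sl rev d (Ico (p + 1) q)) := by
  have hm : ∀ i, d i ∈ sl rev d (Ico (p + 1) q) ↔ ∃ k, p + 1 ≤ k ∧ k < q ∧ d i = d k := by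
    intro i
    rw [mem_sl]
    constructor
    · rintro ⟨k, hk, h1 | h1⟩
      · exact ⟨k, (mem_Ico.1 hk).1, (mem_Ico.1 hk).2, h1⟩
      · exact absurd h1 (h.norev _ _)
    · rintro ⟨k, h1, h2, h3⟩
      exact ⟨k, mem_Ico.2 ⟨h1, h2⟩, Or.inl h3⟩
  refine ⟨fun x hx => ?_, fun x hx => ?_, {d p, d (q - 1)}, card_le_two, fun i hi => ?_⟩
  · obtain ⟨i, _, hi⟩ := mem_sl rev |>.1 hx
    exact (mem_sl rev).2 ⟨i % L, mem_range.2 (Nat.mod_lt _ h.pos), by rwa [h.d_mod]⟩
  · obtain ⟨i, h1, rfl | rfl⟩ := mem_sl rev |>.1 hx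
    · exact (mem_sl rev).2 ⟨i, h1, Or.inr rfl⟩
    · exact (mem_sl rev).2 ⟨i, h1, Or.inl (hrev _)⟩
  · rw [hm, hm] at hi
    rw [mem_insert, mem_singleton]
    by_contra hc
    rw [not_or] at hc
    apply hi
    constructor
    · rintro ⟨k, h1, h2, h3⟩
      have : k ≠ q - 1 := fun e => hc.2 (e ▸ h3)
      exact ⟨k + 1, by omega, by omega, h.d_congr ((h.inj _ _ h3).add_right 1)⟩
    · rintro ⟨k, h1, h2, h3⟩
      obtain ⟨k, rfl⟩ : ∃ k', k = k' + 1 := ⟨k - 1, by omega⟩
      have e : d i = d k := h.d_congr (Nat.ModEq.add_right_cancel' 1 (h.inj _ _ h3))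
      have : k ≠ p := fun e' => hc.1 (e' ▸ e)
      exact ⟨k, by omega, by omega, e⟩

end Gen

variable {V : Type} [Fintype V] [DecidableEq V] {J : Type} [Fintype J] [DecidableEq J]
  (ρ : J → J) (x : J → V)

def rv : (V × V) ⊕ J → (V × V) ⊕ J := Sum.map Prod.swap ρ
def tlv : (V × V) ⊕ J → V := Sum.elim Prod.fst x
def emb (p : Gr V × Gr V) : Finset ((V × V) ⊕ J) × Finset ((V × V) ⊕ J) :=
  (p.1.disjSum ∅, p.2.disjSum univ)

omit [Fintype V] [Fintype J] in
lemma disjSum_symmDiff (H F : Gr V) (S : Finset J) :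
    H.disjSum S ∆ F.disjSum ∅ = (H ∆ F).disjSum S := by
  ext (e | j) <;> simp [mem_symmDiff]

variable {ρ x}

omit [Fintype V] in
lemma flip {H H' : Gr V} (hH : IsG H) (hH' : IsG H') {d : ℕ → (V × V) ⊕ J} {L : ℕ}
    (h : Circ (rv ρ) (tlv x) (H.disjSum ∅) (H'.disjSum univ) d L) {s e : ℕ} (hse : s ≤ e)
    (hL : e ≤ s + L) (hr : ∀ i ∈ Ico s e, ∃ r, d i = Sum.inl r) :
    ∃ F : Gr V, IsG F ∧ sl (rv ρ) d (Ico s e) = F.disjSum ∅ ∧ ∀ v,
      deg (H ∆ F) v = deg H v + ((if d s ∈ H.disjSum ∅ then -1 else 1) * un (tlv x (d s)) v -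
        (if d e ∈ H.disjSum ∅ then -1 else 1) * un (tlv x (d e)) v) ∧
      deg (H' ∆ F) v = deg H' v - ((if d s ∈ H.disjSum ∅ then -1 else 1) * un (tlv x (d s)) v -
        (if d e ∈ H.disjSum ∅ then -1 else 1) * un (tlv x (d e)) v) := by
  set r : ℕ → V × V := fun i => Sum.elim id (fun j => (x j, x j)) (d i) with hr'
  have dr : ∀ i ∈ Ico s e, d i = Sum.inl (r i) := by
    intro i hi
    obtain ⟨t, ht⟩ := hr i hi
    simp [hr', ht]
  have hm : ∀ i ∈ Ico s e, r i ∈ H ∆ H' := by
    intro i hi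
    have := h.mem i
    rw [dr i hi] at this
    simpa [mem_symmDiff] using this
  have hG := hH.symmDiff hH'
  have hsub : sl Prod.swap r (Ico s e) ⊆ H ∆ H' := by
    intro δ hδ
    obtain ⟨i, hi, rfl | rfl⟩ := (mem_sl _).1 hδ
    · exact hm i hi
    · exact hG.1 _ (hm i hi)
  have key : ∀ v, ∑ δ ∈ sl Prod.swap r (Ico s e), sgn H δ * un δ.1 v =
      (if d s ∈ H.disjSum ∅ then -1 else 1) * un (tlv x (d s)) v -
        (if d e ∈ H.disjSum ∅ then -1 else 1) * un (tlv x (d e)) v := by
    intro v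
    rw [sl, sum_biUnion]
    · rw [← neg_sub, ← sum_Ico_sub
        (fun i => (if d i ∈ H.disjSum ∅ then (-1 : ℤ) else 1) * un (tlv x (d i)) v) hse,
        ← sum_neg_distrib]
      refine sum_congr rfl fun i hi => ?_
      have n1 : r i ≠ (r i).swap := by
        intro e1
        have := h.norev i i
        rw [dr i hi] at this
        exact this (by simp [rv, ← e1])
      rw [sum_pair n1, h.link i]
      have a := h.alt i
      have sw : sgn H (r i).swap = sgn H (r i) := by
        have := hH.swap_iff (r i).1 (r i).2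
        simp only [sgn, Prod.swap, ← this]
      rw [sw]
      simp only [a]
      rw [dr i hi]
      by_cases hc : r i ∈ H <;> simp [sgn, hc, rv, tlv] <;> ring
    · intro i hi j hj hij
      rw [Function.onFun, disjoint_left]
      intro δ h1 h2
      have di := dr i hi
      have dj := dr j hj
      have nn : d i ≠ d j := by
        intro e1
        have e2 := h.inj _ _ e1
        simp only [coe_Ico, Set.mem_Ico] at hi hj
        exact hij (e2.eq_of_abs_lt (by rw [abs_lt]; constructor <;> omega))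
      have n1 := h.norev i j
      have n2 := h.norev j i
      rw [di, dj] at nn n1 n2
      simp only [rv, Sum.map_inl, ne_eq, Sum.inl.injEq] at nn n1 n2
      simp only [mem_insert, mem_singleton] at h1 h2
      rcases h1 with rfl | rfl <;> rcases h2 with h2 | h2
      · exact nn h2
      · exact n1 h2
      · exact n2 h2.symm
      · exact nn (Prod.swap_injective h2)
  refine ⟨sl Prod.swap r (Ico s e), ⟨fun δ hδ => ?_, fun δ hδ => hG.2 _ (hsub hδ)⟩, ?_,
    fun v => ⟨?_, ?_⟩⟩
  · obtain ⟨i, hi, rfl | rfl⟩ := (mem_sl _).1 hδ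
    · exact (mem_sl _).2 ⟨i, hi, Or.inr rfl⟩
    · exact (mem_sl _).2 ⟨i, hi, Or.inl rfl⟩
  · ext (δ | j)
    · simp only [mem_sl, inl_mem_disjSum]
      refine exists_congr fun i => and_congr_right fun hi => ?_
      rw [dr i hi]
      simp [rv]
    · simp only [mem_sl, inr_mem_disjSum, notMem_empty, iff_false]
      rintro ⟨i, hi, h1⟩
      rw [dr i hi] at h1
      simp [rv] at h1
  · rw [deg_symmDiff, key]
  · rw [deg_symmDiff, ← key, sub_eq_add_neg, ← sum_neg_distrib]
    congr 1
    refine sum_congr rfl fun δ hδ => ?_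
    have := mem_symmDiff.1 (hsub hδ)
    rcases this with ⟨h1, h2⟩ | ⟨h1, h2⟩ <;> simp [sgn, h1, h2]

/-- admissible pairs of end points -/
def AdmZ (u u' : V → ℤ) : Finset (V × V) :=
  univ.filter fun z => ∀ v, un z.1 v + un z.2 v ≤ u v - u' v

/-- target pairs -/
def Tg (J : Type) [Fintype J] [DecidableEq J] (u u' : V → ℤ) :
    Finset (Finset ((V × V) ⊕ J) × Finset ((V × V) ⊕ J)) :=
  (AdmZ u u').biUnion fun z =>
    (GG (u - un z.1 - un z.2) ×ˢ GG (u' + un z.1 + un z.2)).image emb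

lemma trailStep {u u' : V → ℤ} (hρ : Function.Involutive ρ) (hx : ∀ v, ∑ j, un (x j) v = u v - u' v)
    {H H' : Gr V} (hH : H ∈ GG u) (hH' : H' ∈ GG u') {d : ℕ → (V × V) ⊕ J} {L : ℕ}
    (h : Circ (rv ρ) (tlv x) (H.disjSum ∅) (H'.disjSum univ) d L) :
    (∃ F : Gr V, sl (rv ρ) d (range L) = F.disjSum ∅ ∧ H ∆ F ∈ GG u ∧ H' ∆ F ∈ GG u') ∨
      ∃ F, SubArc (rv ρ) d L 2 F ∧ (H.disjSum ∅ ∆ F, H'.disjSum univ ∆ F) ∈ Tg J u u' := by
  obtain ⟨g1, d1⟩ := mem_GG.1 hH
  obtain ⟨g2, d2⟩ := mem_GG.1 hH'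
  by_cases hv : ∃ p j, d p = Sum.inr j
  · right
    obtain ⟨p, j, hp⟩ := hv
    classical
    have ex : ∃ q, p < q ∧ ∃ j', d q = Sum.inr j' := ⟨p + L, by have := h.pos; omega, j,
      by rw [h.per, hp]⟩
    obtain ⟨hq, j', hj'⟩ := Nat.find_spec ex
    have hqL : Nat.find ex ≤ p + L := Nat.find_min' ex ⟨by have := h.pos; omega, j,
      by rw [h.per, hp]⟩
    have hmin : ∀ i ∈ Ico (p + 1) (Nat.find ex), ∃ r, d i = Sum.inl r := by
      intro i hi
      have := Nat.find_min ex (mem_Ico.1 hi).2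
      rcases hd : d i with r | j
      · exact ⟨r, rfl⟩
      · exact absurd ⟨(mem_Ico.1 hi).1, j, hd⟩ this
    set q := Nat.find ex
    obtain ⟨F, hF, e, hd⟩ := flip g1 g2 h (s := p + 1) (e := q) hq (by omega) hmin
    have hrv : Function.Involutive (rv ρ : (V × V) ⊕ J → _) := by
      rintro (δ | j) <;> simp [rv, hρ _]
    refine ⟨_, h.subArc hrv p q, ?_⟩
    have a1 : d (p + 1) ∈ H.disjSum ∅ := (h.alt p).2 (by rw [hp]; simp)
    have a2 : d q ∉ H.disjSum ∅ := by rw [hj']; simp
    have t1 : tlv x (d (p + 1)) = x (ρ j) := by rw [h.link, hp]; rfl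
    have t2 : tlv x (d q) = x j' := by rw [hj']; rfl
    have ne : ρ j ≠ j' := by
      intro e1
      exact h.norev q p (by rw [hj', hp, ← e1]; rfl)
    simp only [if_pos a1, if_neg a2, t1, t2] at hd
    rw [e, disjSum_symmDiff, disjSum_symmDiff, Tg, mem_biUnion]
    refine ⟨(x (ρ j), x j'), mem_filter.2 ⟨mem_univ _, fun v => ?_⟩, mem_image.2
      ⟨(H ∆ F, H' ∆ F), mem_product.2 ⟨mem_GG.2 ⟨g1.symmDiff hF, fun v => ?_⟩,
        mem_GG.2 ⟨g2.symmDiff hF, fun v => ?_⟩⟩, rfl⟩⟩
    · rw [← hx, ← sum_pair (f := fun j => un (x j) v) ne]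
      exact sum_le_sum_of_subset_of_nonneg (subset_univ _) fun _ _ _ => by
        unfold un; split_ifs <;> norm_num
    · rw [(hd v).1, d1]; simp only [Pi.sub_apply]; ring
    · rw [(hd v).2, d2]; simp only [Pi.add_apply]; ring
  · left
    obtain ⟨F, hF, e, hd⟩ := flip g1 g2 h (s := 0) (e := L) (by omega) (by omega) (by
      intro i _
      rcases hd : d i with r | j
      · exact ⟨r, rfl⟩
      · exact absurd ⟨i, j, hd⟩ hv)
    have := h.per 0
    rw [zero_add] at this
    rw [this] at hd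
    rw [range_eq_Ico]
    refine ⟨F, e, mem_GG.2 ⟨g1.symmDiff hF, fun v => ?_⟩, mem_GG.2 ⟨g2.symmDiff hF, fun v => ?_⟩⟩
    · rw [(hd v).1, d1]; ring
    · rw [(hd v).2, d2]; ring

lemma chain_inv {u u' : V → ℤ} (hρ : Function.Involutive ρ)
    (hx : ∀ v, ∑ j, un (x j) v = u v - u' v) {H H' : Gr V} (hH : H ∈ GG u) (hH' : H' ∈ GG u')
    {Reach : Finset (Finset ((V × V) ⊕ J) × Finset ((V × V) ⊕ J))} {U : Finset ((V × V) ⊕ J)}
    (h : Chain (rv ρ) (tlv x) (H.disjSum ∅) (H'.disjSum univ) 2 Reach U) :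
    (∃ q ∈ Reach, q ∈ Tg J u u') ∨ ∃ H1 ∈ GG u, ∃ H1' ∈ GG u',
      H.disjSum ∅ ∆ U = H1.disjSum ∅ ∧ H'.disjSum univ ∆ U = H1'.disjSum univ := by
  induction h with
  | nil => exact Or.inr ⟨H, hH, H', hH', symmDiff_bot _, symmDiff_bot _⟩
  | step _ hc hd hR ih =>
    rcases ih with ih | ⟨H1, m1, H1', m2, e1, e2⟩
    · exact Or.inl ih
    · rw [e1, e2] at hc hR
      rcases trailStep hρ hx m1 m2 hc with ⟨F, e, f1, f2⟩ | ⟨F, f1, f2⟩
      · refine Or.inr ⟨_, f1, _, f2, ?_, ?_⟩
        · rw [← sup_eq_union, ← hd.symmDiff_eq_sup, ← symmDiff_assoc, e1, e, disjSum_symmDiff]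
        · rw [← sup_eq_union, ← hd.symmDiff_eq_sup, ← symmDiff_assoc, e2, e, disjSum_symmDiff]
      · exact Or.inl ⟨_, hR F f1, f2⟩

lemma trail_aux {u u' : V → ℤ} (hρ : Function.Involutive ρ) (hn : ∀ j, ρ j ≠ j)
    (hx : ∀ v, ∑ j, un (x j) v = u v - u' v) (j0 : J) :
    (#(GG u) : ℝ) * #(GG u') ≤
      ((Fintype.card V : ℝ) ^ 2 + Fintype.card J + 2) ^ 28 * #(Tg J u u') := by
  have hrv : Function.Involutive (rv ρ : (V × V) ⊕ J → _) := by
    rintro (δ | j) <;> simp [rv, hρ _]
  have h := cong (rv ρ) (tlv x) hrv 2 ((GG u ×ˢ GG u').image emb) ?_ (fun _ => 1)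
    (fun q => if q ∈ Tg J u u' then 1 else 0) (fun q => by split_ifs <;> norm_num) ?_
  · rw [sum_const, card_image_of_injective, card_product] at h
    · simpa [sq] using h
    · rintro ⟨a, b⟩ ⟨c, d⟩ e
      simp only [emb, Prod.mk.injEq, disjSum_inj] at e
      rw [e.1.1, e.2.1]
  · intro p hp
    obtain ⟨⟨H, H'⟩, hm, rfl⟩ := mem_image.1 hp
    obtain ⟨g1, d1⟩ := mem_GG.1 (mem_product.1 hm).1
    obtain ⟨g2, d2⟩ := mem_GG.1 (mem_product.1 hm).2
    have cf : ∀ (S : Finset ((V × V) ⊕ J)) v, (#(S.filter fun y => tlv x y = v) : ℤ) =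
        ∑ y ∈ S, un (tlv x y) v := by
      intro S v
      rw [card_filter]; push_cast
      refine sum_congr rfl fun d _ => ?_
      by_cases h : tlv x d = v
      · simp [h, un]
      · simp [h, Ne.symm h, un]
    refine ⟨?_, ?_, ?_, fun v => ?_⟩
    · rintro (δ | j) h
      · simpa [emb, rv] using g1.1 δ (by simpa [emb] using h)
      · simp [emb] at h
    · rintro (δ | j) h
      · simpa [emb, rv] using g2.1 δ (by simpa [emb] using h)
      · simp [emb, rv]
    · rintro (δ | j) h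
      · have : δ ∈ H ∆ H' := by simpa [emb, mem_symmDiff] using h
        have := (g1.symmDiff g2).2 _ this
        intro e
        simp only [rv, Sum.map_inl, Sum.inl.injEq] at e
        exact this (congrArg Prod.snd e)
      · simpa [rv] using hn j
    · have e1 := d1 v
      have e2 := d2 v
      rw [deg_eq_sum] at e1 e2
      zify
      rw [cf, cf]
      simp only [emb, sum_disjSum, tlv, Sum.elim_inl, Sum.elim_inr, sum_empty, e1, e2, hx]
      ring
  · intro p hp Reach hc
    obtain ⟨⟨H, H'⟩, hm, rfl⟩ := mem_image.1 hp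
    rcases chain_inv hρ hx (mem_product.1 hm).1 (mem_product.1 hm).2 hc with
      ⟨q, q1, q2⟩ | ⟨H1, _, _, _, e, _⟩
    · refine le_trans ?_ (single_le_sum (f := fun q => if q ∈ Tg J u u' then (1 : ℝ) else 0)
        (fun q _ => by split_ifs <;> norm_num) q1)
      simp [q2]
    · exfalso
      simp only [emb, symmDiff_symmDiff_cancel_left] at e
      have : Sum.inr j0 ∈ H'.disjSum (univ : Finset J) := by simp
      rw [e] at this
      simp at this

lemma sum_deg_even {G : Gr V} (hG : IsG G) : Even (∑ v, deg G v) := by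
  have e : ∑ v, deg G v = #G := by
    simp_rw [deg_eq_sum]
    rw [sum_comm]
    simp [un]
  rw [e, Int.even_coe_nat, ← ZMod.natCast_eq_zero_iff_even, card_eq_sum_ones]
  push_cast
  exact sum_involution (fun d _ => d.swap) (fun _ _ => by decide)
    (fun d hd _ e => hG.2 d hd (congrArg Prod.snd e)) (fun d hd => hG.1 d hd)
    (fun _ _ => rfl)

lemma num_aux {n j : ℝ} (n0 : 0 ≤ n) (b : ℕ) (j1 : j ≤ b) :
    n ^ 2 + j + 2 ≤ (n + 2) ^ (b + 3) := by
  have j2 : 1 + (b : ℝ) ≤ (n + 2) ^ b := by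
    have := one_add_mul_le_pow (a := n + 1) (by linarith) b
    rw [show 1 + (n + 1) = n + 2 by ring] at this
    nlinarith [(Nat.cast_nonneg b : (0 : ℝ) ≤ b)]
  have j3 : n ^ 2 + 2 ≤ (n + 2) ^ 3 := by nlinarith [sq_nonneg n, pow_nonneg n0 3]
  rw [pow_add]
  nlinarith [mul_le_mul j2 j3 (by positivity) (by positivity),
    (Nat.cast_nonneg b : (0 : ℝ) ≤ b), sq_nonneg n]

theorem trail' (b : ℕ) : ∃ A : ℕ, ∀ (V : Type) [Fintype V] [DecidableEq V] (u u' : V → ℤ),
    (GG u).Nonempty → (GG u').Nonempty → u' ≤ u → u ≠ u' → ∑ v, (u v - u' v) ≤ b →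
    ∃ z z' : V, un z + un z' ≤ u - u' ∧
      (#(GG u) : ℝ) * #(GG u') ≤ ((Fintype.card V : ℝ) + 2) ^ A *
        (#(GG (u - un z - un z')) * #(GG (u' + un z + un z'))) := by
  refine ⟨(b + 3) * 28 + 2, fun V _ _ u u' h1 h2 hle hne hb => ?_⟩
  have ha : ∀ v, (((u v - u' v).toNat : ℕ) : ℤ) = u v - u' v := fun v =>
    Int.toNat_of_nonneg (sub_nonneg.2 (hle v))
  let J := Σ v : V, Fin (u v - u' v).toNat
  have cJ : (Fintype.card J : ℤ) = ∑ v, (u v - u' v) := by
    simp [J, Fintype.card_sigma, ha]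
  obtain ⟨t, ht⟩ : Even (Fintype.card J) := by
    obtain ⟨H, hH⟩ := h1
    obtain ⟨H', hH'⟩ := h2
    have e1 := sum_deg_even (mem_GG.1 hH).1
    have e2 := sum_deg_even (mem_GG.1 hH').1
    simp only [(mem_GG.1 hH).2, (mem_GG.1 hH').2] at e1 e2
    rw [← Int.even_coe_nat, cJ, sum_sub_distrib]
    exact e1.sub e2
  let e : J ≃ Fin t × Bool := Fintype.equivOfCardEq (by simp [ht]; ring)
  obtain ⟨v0, hv0⟩ := Function.ne_iff.1 hne
  have j0 : J := ⟨v0, ⟨0, by have := hle v0; have := ha v0; omega⟩⟩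
  have key := trail_aux (u := u) (u' := u') (x := fun j : J => j.1)
    (ρ := fun j => e.symm ((e j).1, !(e j).2)) (fun j => by simp) (fun j hj => by
      have := congrArg (fun j => (e j).2) hj
      simp at this) (fun v => by
      rw [Fintype.sum_sigma]
      simp only [sum_const, card_univ, Fintype.card_fin, nsmul_eq_mul, ha]
      simp [un]) j0
  set n : ℝ := (Fintype.card V : ℝ) with hn
  have n0 : 0 ≤ n := by positivity
  have pos : (0 : ℝ) < (#(GG u) : ℝ) * #(GG u') := by
    have := h1.card_pos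
    have := h2.card_pos
    positivity
  have hne : (AdmZ u u').Nonempty := by
    by_contra hc
    rw [not_nonempty_iff_eq_empty] at hc
    rw [Tg, hc] at key
    simp only [biUnion_empty, card_empty, Nat.cast_zero, mul_zero] at key
    linarith
  obtain ⟨z, hz, hmax⟩ := exists_max_image (AdmZ u u')
    (fun z => #(GG (u - un z.1 - un z.2)) * #(GG (u' + un z.1 + un z.2))) hne
  refine ⟨z.1, z.2, (mem_filter.1 hz).2, key.trans ?_⟩
  have c1 : #(Tg J u u') ≤
      #(AdmZ u u') * (#(GG (u - un z.1 - un z.2)) * #(GG (u' + un z.1 + un z.2))) := by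
    refine card_biUnion_le_card_mul _ _ _ fun w hw => card_image_le.trans ?_
    rw [card_product]; exact hmax w hw
  have c2 : (#(AdmZ u u') : ℝ) ≤ (n + 2) ^ 2 := by
    have : #(AdmZ u u') ≤ Fintype.card V * Fintype.card V := by
      simpa using card_le_univ (AdmZ u u')
    have : (#(AdmZ u u') : ℝ) ≤ n * n := by rw [hn]; exact_mod_cast this
    exact this.trans (by rw [sq]; exact mul_self_le_mul_self n0 (by linarith))
  have c3 : n ^ 2 + Fintype.card J + 2 ≤ (n + 2) ^ (b + 3) :=
    num_aux n0 b (by exact_mod_cast cJ.le.trans hb)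
  rw [pow_add, pow_mul, mul_assoc]
  refine mul_le_mul (pow_le_pow_left₀ (by positivity) c3 _) ?_ (by positivity) (by positivity)
  refine le_trans ?_ (mul_le_mul_of_nonneg_right c2 (by positivity))
  exact_mod_cast c1

end Pool.Agent.MP_c319e0_lc

end
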