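import Mathlib

-- part MP_c319e0_lc.Basic
section

/-! Common definitions for the proof that the switch chain mixes rapidly for every degree
sequence. Graphs are symmetric loopless sets of ordered pairs. -/

namespace Pool.Agent.MP_c319e0_lc
open Finset
open scoped symmDiff

section Graphs
variable {V : Type} [Fintype V] [DecidableEq V]

/-- sets of darts -/
abbrev Gr (V : Type) := Finset (V × V)

/-- symmetric and loopless -/
def IsG (G : Gr V) : Prop := (∀ d ∈ G, d.swap ∈ G) ∧ ∀ d ∈ G, d.1 ≠ d.2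

instance (G : Gr V) : Decidable (IsG G) := by unfold IsG; infer_instance

/-- degree -/
def deg (G : Gr V) (v : V) : ℤ := (#(G.filter fun d => d.1 = v) : ℕ)

/-- all graphs with degree vector `u` -/
def GG (u : V → ℤ) : Finset (Gr V) := univ.filter fun G => IsG G ∧ ∀ v, deg G v = u v

/-- unit vector -/
def un (x : V) : V → ℤ := fun v => if v = x then 1 else 0

/-- the two darts of the pair `x y` -/
def ed (x y : V) : Gr V := {(x, y), (y, x)}

/-- change of the degree of `d.1` when `d` is toggled -/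
def sgn (G : Gr V) (d : V × V) : ℤ := if d ∈ G then -1 else 1

/-- the four pairs changed by a switch -/
def sw (a b c d : V) : Gr V := ed a b ∪ ed c d ∪ ed a c ∪ ed b d

/-- the switch `ab, cd ↦ ac, bd` is possible in `G` -/
structure IsSw (G : Gr V) (a b c d : V) : Prop where
  ab : a ≠ b
  ac : a ≠ c
  ad : a ≠ d
  bc : b ≠ c
  bd : b ≠ d
  cd : c ≠ d
  e1 : (a, b) ∈ G
  e2 : (c, d) ∈ G
  n1 : (a, c) ∉ G
  n2 : (b, d) ∉ G

open Classical in
/-- sum of the squared increments of `f` over all switches at `G` -/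
noncomputable def grad2 (f : Gr V → ℝ) (G : Gr V) : ℝ :=
  ∑ q : V × V × V × V, if IsSw G q.1 q.2.1 q.2.2.1 q.2.2.2 then
    (f G - f (G ∆ sw q.1 q.2.1 q.2.2.1 q.2.2.2)) ^ 2 else 0

/-- Dirichlet form of the realization graph -/
noncomputable def En (k : V → ℤ) (f : Gr V → ℝ) : ℝ := ∑ G ∈ GG k, grad2 f G

/-- darts between `A` and `B` -/
def KK (A B : Finset V) : Gr V :=
  univ.filter fun d => d.1 ≠ d.2 ∧ ((d.1 ∈ A ∧ d.2 ∈ B) ∨ (d.1 ∈ B ∧ d.2 ∈ A))

/-- graphs of degree `k` that agree with `G` outside `F` -/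
def blk (k : V → ℤ) (F G : Gr V) : Finset (Gr V) := (GG k).filter fun Y => G ∆ Y ⊆ F

/-- conditional expectation given everything outside `F` -/
noncomputable def CE (k : V → ℤ) (F : Gr V) (f : Gr V → ℝ) (G : Gr V) : ℝ :=
  (∑ Y ∈ blk k F G, f Y) / #(blk k F G)

lemma mem_GG {u : V → ℤ} {G : Gr V} : G ∈ GG u ↔ IsG G ∧ ∀ v, deg G v = u v := by
  simp [GG]

lemma mem_blk {k : V → ℤ} {F G Y : Gr V} : Y ∈ blk k F G ↔ Y ∈ GG k ∧ G ∆ Y ⊆ F := by
  simp [blk]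

omit [Fintype V] in
lemma mem_ed {x y : V} {d : V × V} : d ∈ ed x y ↔ d = (x, y) ∨ d = (y, x) := by simp [ed]

lemma mem_KK {A B : Finset V} {d : V × V} :
    d ∈ KK A B ↔ d.1 ≠ d.2 ∧ ((d.1 ∈ A ∧ d.2 ∈ B) ∨ (d.1 ∈ B ∧ d.2 ∈ A)) := by simp [KK]

lemma KK_comm (A B : Finset V) : KK A B = KK B A := by
  ext d; simp only [mem_KK]; tauto

omit [Fintype V] in
lemma isG_ed {x y : V} (h : x ≠ y) : IsG (ed x y) := by
  constructor
  · intro d hd; rcases mem_ed.1 hd with rfl | rfl <;> simp [mem_ed]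
  · intro d hd; rcases mem_ed.1 hd with rfl | rfl
    · exact h
    · exact h.symm

omit [Fintype V] in
lemma IsG.symmDiff {G X : Gr V} (hG : IsG G) (hX : IsG X) : IsG (G ∆ X) := by
  constructor
  · intro d hd
    rw [mem_symmDiff] at hd ⊢
    rcases hd with ⟨h1, h2⟩ | ⟨h1, h2⟩
    · exact Or.inl ⟨hG.1 d h1, fun h => h2 (by simpa using hX.1 _ h)⟩
    · exact Or.inr ⟨hX.1 d h1, fun h => h2 (by simpa using hG.1 _ h)⟩
  · intro d hd
    rw [mem_symmDiff] at hd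
    rcases hd with ⟨h1, _⟩ | ⟨h1, _⟩
    · exact hG.2 d h1
    · exact hX.2 d h1

omit [Fintype V] in
lemma IsG.union {G X : Gr V} (hG : IsG G) (hX : IsG X) : IsG (G ∪ X) := by
  constructor
  · intro d hd
    rw [mem_union] at hd ⊢
    exact hd.imp (hG.1 d) (hX.1 d)
  · intro d hd
    rw [mem_union] at hd
    exact hd.elim (hG.2 d) (hX.2 d)

omit [Fintype V] [DecidableEq V] in
lemma IsG.swap_iff {G : Gr V} (hG : IsG G) (x y : V) : (x, y) ∈ G ↔ (y, x) ∈ G :=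
  ⟨fun h => hG.1 _ h, fun h => hG.1 _ h⟩

omit [Fintype V] in
lemma deg_eq_sum (G : Gr V) (v : V) : deg G v = ∑ d ∈ G, un d.1 v := by
  unfold deg un
  rw [card_filter]; push_cast
  refine sum_congr rfl fun d _ => ?_
  by_cases h : d.1 = v
  · simp [h]
  · simp [h, Ne.symm h]

omit [Fintype V] in
lemma deg_symmDiff (G X : Gr V) (v : V) :
    deg (G ∆ X) v = deg G v + ∑ d ∈ X, sgn G d * un d.1 v := by
  rw [deg_eq_sum, deg_eq_sum]
  have h1 : G ∆ X = (G \ X) ∪ (X \ G) := rfl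
  have h2 : Disjoint (G \ X) (X \ G) := disjoint_sdiff_sdiff
  rw [h1, sum_union h2, ← sum_sdiff (s₁ := G ∩ X) (s₂ := G) inter_subset_left,
    ← sum_sdiff (s₁ := G ∩ X) (s₂ := X) inter_subset_right, sdiff_inter_self_left,
    sdiff_inter_self_right]
  have e1 : ∑ d ∈ X \ G, sgn G d * un d.1 v = ∑ d ∈ X \ G, un d.1 v :=
    sum_congr rfl fun d hd => by simp [sgn, (mem_sdiff.1 hd).2]
  have e2 : ∑ d ∈ G ∩ X, sgn G d * un d.1 v = -∑ d ∈ G ∩ X, un d.1 v := by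
    rw [← sum_neg_distrib]
    exact sum_congr rfl fun d hd => by simp [sgn, (mem_inter.1 hd).1]
  rw [e1, e2]; ring

omit [Fintype V] in
lemma deg_symmDiff_ed {G : Gr V} (hG : IsG G) {x y : V} (h : x ≠ y) (v : V) :
    deg (G ∆ ed x y) v = deg G v + sgn G (x, y) * (un x v + un y v) := by
  rw [deg_symmDiff, ed, sum_pair (by simp [h])]
  have : sgn G (y, x) = sgn G (x, y) := by simp [sgn, hG.swap_iff x y]
  rw [this]; ring

omit [Fintype V] in
lemma isG_sw {G : Gr V} {a b c d : V} (h : IsSw G a b c d) : IsG (sw a b c d) :=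
  (((isG_ed h.ab).union (isG_ed h.cd)).union (isG_ed h.ac)).union (isG_ed h.bd)

omit [Fintype V] in
lemma mem_sw {a b c d : V} {e : V × V} : e ∈ sw a b c d ↔
    e = (a, b) ∨ e = (b, a) ∨ e = (c, d) ∨ e = (d, c) ∨ e = (a, c) ∨ e = (c, a) ∨
      e = (b, d) ∨ e = (d, b) := by
  simp only [sw, mem_union, mem_ed, or_assoc]

lemma sw_mem {k : V → ℤ} {G : Gr V} (hG : G ∈ GG k) {a b c d : V} (h : IsSw G a b c d) :
    G ∆ sw a b c d ∈ GG k := by
  obtain ⟨hG, hk⟩ := mem_GG.1 hG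
  refine mem_GG.2 ⟨hG.symmDiff (isG_sw h), fun v => ?_⟩
  obtain ⟨ab, ac, ad, bc, bd, cd, e1, e2, n1, n2⟩ := h
  have hs : sw a b c d = {(a, b), (b, a), (c, d), (d, c), (a, c), (c, a), (b, d), (d, b)} := by
    ext e; simp [mem_sw]
  have e1' := (hG.swap_iff _ _).1 e1
  have e2' := (hG.swap_iff _ _).1 e2
  have n1' := mt (hG.swap_iff _ _).2 n1
  have n2' := mt (hG.swap_iff _ _).2 n2
  rw [deg_symmDiff, hk, hs]
  rw [sum_insert (by simp [*, ab.symm, ac.symm, ad.symm]),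
    sum_insert (by simp [*, ab.symm, ac.symm, ad.symm, bc.symm, bd.symm]),
    sum_insert (by simp [*, ab.symm, ac.symm, ad.symm, bc.symm, bd.symm, cd.symm]),
    sum_insert (by simp [*, ab.symm, ac.symm, ad.symm, bc.symm, bd.symm, cd.symm]),
    sum_insert (by simp [*, ab.symm, ac.symm, ad.symm, bc.symm, bd.symm, cd.symm]),
    sum_insert (by simp [*, ab.symm, ac.symm, ad.symm, bc.symm, bd.symm, cd.symm]),
    sum_pair (by simp [*, ab.symm, ac.symm, ad.symm, bc.symm, bd.symm, cd.symm])]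
  simp [sgn, *]
  ring

lemma grad2_nonneg (f : Gr V → ℝ) (G : Gr V) : 0 ≤ grad2 f G :=
  sum_nonneg fun _ _ => by split_ifs <;> positivity

lemma sq_le_grad2 (f : Gr V → ℝ) {G : Gr V} {a b c d : V} (h : IsSw G a b c d) :
    (f G - f (G ∆ sw a b c d)) ^ 2 ≤ grad2 f G := by
  classical
  unfold grad2
  refine le_trans ?_ (single_le_sum (f := fun q : V × V × V × V =>
    if IsSw G q.1 q.2.1 q.2.2.1 q.2.2.2 then
    (f G - f (G ∆ sw q.1 q.2.1 q.2.2.1 q.2.2.2)) ^ 2 else 0)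
    (fun _ _ => by split_ifs <;> positivity) (mem_univ (a, b, c, d)))
  simp [h]

lemma En_nonneg (k : V → ℤ) (f : Gr V → ℝ) : 0 ≤ En k f :=
  sum_nonneg fun G _ => grad2_nonneg f G

end Graphs

section Darts
variable {α W : Type} [DecidableEq α] (rev : α → α) (tl : α → W)

/-- the darts with index in `I` and their reversals -/
def sl (d : ℕ → α) (I : Finset ℕ) : Finset α := I.biUnion fun i => {d i, rev (d i)}

/-- a primitive alternating circuit of length `L` in `G ∆ E` -/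
structure Circ (G E : Finset α) (d : ℕ → α) (L : ℕ) : Prop where
  pos : 0 < L
  even : Even L
  per : ∀ i, d (i + L) = d i
  mem : ∀ i, d i ∈ G ∆ E
  link : ∀ i, tl (d (i + 1)) = tl (rev (d i))
  alt : ∀ i, d (i + 1) ∈ G ↔ d i ∉ G
  inj : ∀ i j, d i = d j → i ≡ j [MOD L]
  norev : ∀ i j, d i ≠ rev (d j)
  prim : ∀ i j, i % 2 = j % 2 → tl (d i) = tl (d j) → i ≡ j [MOD L]

/-- a part of the circuit with at most `b` boundary points -/
structure SubArc (d : ℕ → α) (L b : ℕ) (F : Finset α) : Prop where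
  sub : F ⊆ sl rev d (range L)
  cl : ∀ x ∈ F, rev x ∈ F
  bd : ∃ Bd : Finset α, #Bd ≤ b ∧ ∀ i, ¬(d i ∈ F ↔ d (i + 1) ∈ F) → d i ∈ Bd

/-- `U` is obtained by flipping primitive circuits one after the other, and all states where the
current circuit is flipped on a part with at most `b` boundary points lie in `Reach` -/
inductive Chain (G E : Finset α) (b : ℕ) (Reach : Finset (Finset α × Finset α)) :
    Finset α → Prop
  | nil : Chain G E b Reach ∅
  | step {U : Finset α} {d : ℕ → α} {L : ℕ} : Chain G E b Reach U →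
      Circ rev tl (G ∆ U) (E ∆ U) d L → Disjoint U (sl rev d (range L)) →
      (∀ F, SubArc rev d L b F → (G ∆ U ∆ F, E ∆ U ∆ F) ∈ Reach) →
      Chain G E b Reach (U ∪ sl rev d (range L))

/-- admissible source pairs: closed under reversal, no fixed dart, equal degrees -/
structure Src [DecidableEq W] (G E : Finset α) : Prop where
  cl1 : ∀ x ∈ G, rev x ∈ G
  cl2 : ∀ x ∈ E, rev x ∈ E
  nofix : ∀ x ∈ G ∆ E, rev x ≠ x
  bal : ∀ v, #(G.filter fun x => tl x = v) = #(E.filter fun x => tl x = v)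

lemma mem_sl {d : ℕ → α} {I : Finset ℕ} {x : α} :
    x ∈ sl rev d I ↔ ∃ i ∈ I, x = d i ∨ x = rev (d i) := by
  simp [sl]

end Darts

end Pool.Agent.MP_c319e0_lc

end

-- part MP_c319e0_lc.CEalg
section

/-! Algebra of the conditional expectations `CE` and a spectral lemma. -/

namespace Pool.Agent.MP_c319e0_lc
open Finset
open scoped symmDiff

section Spec
variable {β : Type} [DecidableEq β]

lemma spec_matrix {ι : Type} [Fintype ι] [DecidableEq ι] (A : Matrix ι ι ℝ) (hA : A.IsHermitian)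
    (g : ι → ℝ) (h : ∀ (μ : ℝ) (b : ι → ℝ), A.mulVec b = μ • b → 1 ≤ μ ∨ b ⬝ᵥ g = 0) :
    g ⬝ᵥ g ≤ g ⬝ᵥ A.mulVec g := by
  set B := hA.eigenvectorBasis with hB
  set x : EuclideanSpace ℝ ι := WithLp.toLp 2 g with hx
  have hc : ∀ i, inner ℝ (B i) x = (B i).ofLp ⬝ᵥ g := fun i => by
    simp [hx, PiLp.inner_apply, dotProduct, mul_comm]
  have hexp : ∀ y : ι → ℝ, g ⬝ᵥ y = ∑ i, ((B i).ofLp ⬝ᵥ g) * ((B i).ofLp ⬝ᵥ y) := fun y => by
    have := B.sum_inner_mul_inner x (WithLp.toLp 2 y)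
    have h2 : inner ℝ x (WithLp.toLp 2 y) = g ⬝ᵥ y := by
      simp [hx, PiLp.inner_apply, dotProduct, mul_comm]
    rw [← h2, ← this]
    refine sum_congr rfl fun i _ => ?_
    rw [real_inner_comm, hc]
    simp [PiLp.inner_apply, dotProduct, mul_comm]
  rw [hexp g, hexp (A.mulVec g)]
  refine sum_le_sum fun i _ => ?_
  have he : A.mulVec (B i).ofLp = hA.eigenvalues i • (B i).ofLp := hA.mulVec_eigenvectorBasis i
  have hs : (B i).ofLp ⬝ᵥ A.mulVec g = hA.eigenvalues i * ((B i).ofLp ⬝ᵥ g) := by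
    rw [Matrix.dotProduct_mulVec]
    have : Matrix.vecMul (B i).ofLp A = A.mulVec (B i).ofLp := by
      have h3 : A.transpose = A := by simpa using hA.eq
      rw [← Matrix.mulVec_transpose, h3]
    rw [this, he, smul_dotProduct, smul_eq_mul]
  rw [hs]
  rcases h _ _ he with h1 | h1
  · nlinarith [mul_self_nonneg ((B i).ofLp ⬝ᵥ g)]
  · simp [h1]

/-- If every eigenvector of a symmetric operator on functions on `s` has eigenvalue at least one
or is orthogonal to `g`, then `⟨g, g⟩ ≤ ⟨g, T g⟩`. -/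
lemma spec (s : Finset β) (T : (β → ℝ) →ₗ[ℝ] (β → ℝ))
    (hloc : ∀ f g : β → ℝ, (∀ x ∈ s, f x = g x) → ∀ x ∈ s, T f x = T g x)
    (hsym : ∀ f g : β → ℝ, ∑ x ∈ s, f x * T g x = ∑ x ∈ s, T f x * g x)
    (g : β → ℝ)
    (h : ∀ (μ : ℝ) (b : β → ℝ), (∀ x ∈ s, T b x = μ * b x) → 1 ≤ μ ∨ ∑ x ∈ s, b x * g x = 0) :
    ∑ x ∈ s, g x ^ 2 ≤ ∑ x ∈ s, g x * T g x := by
  classical
  let A : Matrix s s ℝ := fun x y => T (Pi.single y.1 1) x.1
  have hmul : ∀ (f : β → ℝ) (x : s), A.mulVec (fun y : s => f y.1) x = T f x.1 := by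
    intro f x
    have h1 : T f x.1 = T (∑ y : s, f y.1 • (Pi.single y.1 1 : β → ℝ)) x.1 := by
      refine hloc _ _ (fun z hz => ?_) _ x.2
      rw [Finset.sum_apply, Finset.sum_eq_single (⟨z, hz⟩ : s)]
      · simp
      · intro y _ hy
        have : z ≠ y.1 := fun e => hy (Subtype.ext e.symm)
        simp [Pi.single_apply, this]
      · simp
    rw [h1, map_sum, Finset.sum_apply]
    simp [Matrix.mulVec, dotProduct, A, mul_comm]
  have hA : A.IsHermitian := by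
    ext x y
    have := hsym (Pi.single y.1 1) (Pi.single x.1 1)
    simp only [Pi.single_apply, ite_mul, one_mul, zero_mul, sum_ite_eq', y.2, if_true, mul_ite,
      mul_one, mul_zero, x.2] at this
    simpa [A] using this
  have key := spec_matrix A hA (fun y : s => g y.1) (by
    intro μ b hb
    let b' : β → ℝ := fun z => if hz : z ∈ s then b ⟨z, hz⟩ else 0
    have hb' : (fun y : s => b' y.1) = b := by funext y; simp [b', y.2]
    have := h μ b' (fun x hx => by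
      rw [← hmul b' ⟨x, hx⟩, hb', hb]; simp [b', hx])
    refine this.imp id fun h0 => ?_
    rw [← h0, ← sum_coe_sort s, ← hb']; rfl)
  have e1 : ∑ x ∈ s, g x ^ 2 = (fun y : s => g y.1) ⬝ᵥ (fun y : s => g y.1) := by
    rw [← sum_coe_sort s]; simp [dotProduct, sq]
  have e2 : ∑ x ∈ s, g x * T g x =
      (fun y : s => g y.1) ⬝ᵥ A.mulVec (fun y : s => g y.1) := by
    rw [← sum_coe_sort s]; simp [dotProduct, hmul]
  rw [e1, e2]; exact key

end Spec

section CE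
variable {V : Type} [Fintype V] [DecidableEq V] {k : V → ℤ} {F F' G Y : Gr V}

lemma self_mem_blk (hG : G ∈ GG k) : G ∈ blk k F G := mem_blk.2 ⟨hG, by simp⟩

omit [Fintype V] in
lemma symmDiff_subset_trans {X Y Z F : Gr V} (h1 : X ∆ Y ⊆ F) (h2 : Y ∆ Z ⊆ F) : X ∆ Z ⊆ F := by
  intro d hd
  have e1 := @h1 d
  have e2 := @h2 d
  simp only [mem_symmDiff] at hd e1 e2
  tauto

lemma blk_eq (h : G ∆ Y ⊆ F) : blk k F Y = blk k F G := by
  ext Z
  simp only [mem_blk]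
  refine and_congr_right fun _ => ⟨fun h' => symmDiff_subset_trans h h', fun h' => ?_⟩
  exact symmDiff_subset_trans (by rwa [symmDiff_comm]) h'

lemma CE_congr (f : Gr V → ℝ) (h : G ∆ Y ⊆ F) : CE k F f Y = CE k F f G := by
  unfold CE; rw [blk_eq h]

lemma card_blk_pos (hG : G ∈ GG k) : (0 : ℝ) < #(blk k F G) := by
  exact_mod_cast card_pos.2 ⟨G, self_mem_blk hG⟩

lemma CE_loc {f g : Gr V → ℝ} (h : ∀ Y ∈ GG k, f Y = g Y) (G : Gr V) :
    CE k F f G = CE k F g G := by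
  unfold CE; rw [sum_congr rfl fun Y hY => h Y (mem_blk.1 hY).1]

/-- `CE` fixes functions that are constant on the block -/
lemma CE_of_const {f : Gr V → ℝ} (hG : G ∈ GG k) {c : ℝ} (h : ∀ Y ∈ blk k F G, f Y = c) :
    CE k F f G = c := by
  unfold CE
  rw [sum_congr rfl h, sum_const, nsmul_eq_mul]
  have := card_blk_pos (F := F) hG
  field_simp

lemma CE_CE_of_subset (hF : F ⊆ F') (f : Gr V → ℝ) (hG : G ∈ GG k) :
    CE k F (CE k F' f) G = CE k F' f G :=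
  CE_of_const hG fun _ hY => CE_congr f ((mem_blk.1 hY).2.trans hF)

/-- `CE` as a linear map -/
noncomputable def CEl (k : V → ℤ) (F : Gr V) : (Gr V → ℝ) →ₗ[ℝ] (Gr V → ℝ) where
  toFun := CE k F
  map_add' f g := by funext G; simp [CE, sum_add_distrib, add_div]
  map_smul' c f := by funext G; simp [CE, ← mul_sum, mul_div_assoc]

@[simp] lemma CEl_apply (f : Gr V → ℝ) : CEl k F f = CE k F f := rfl

lemma CE_eq_sum (f : Gr V → ℝ) (G : Gr V) : CE k F f G =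
    ∑ Y ∈ GG k, (if G ∆ Y ⊆ F then (1 : ℝ) / #(blk k F G) else 0) * f Y := by
  unfold CE
  rw [sum_div, blk, sum_filter]
  refine sum_congr rfl fun Y _ => ?_
  split_ifs
  · ring
  · simp

/-- `CE` is self-adjoint -/
lemma CE_symm (f g : Gr V → ℝ) :
    ∑ G ∈ GG k, f G * CE k F g G = ∑ G ∈ GG k, CE k F f G * g G := by
  simp only [CE_eq_sum, mul_sum, sum_mul]
  rw [sum_comm]
  refine sum_congr rfl fun Y _ => sum_congr rfl fun G _ => ?_
  by_cases h : G ∆ Y ⊆ F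
  · have h' : Y ∆ G ⊆ F := by rwa [symmDiff_comm]
    rw [if_pos h, if_pos h', blk_eq h]; ring
  · have h' : ¬ Y ∆ G ⊆ F := by rwa [symmDiff_comm]
    rw [if_neg h, if_neg h']; ring

lemma CE_CE_of_subset' (hF : F ⊆ F') (f : Gr V → ℝ) (hG : G ∈ GG k) :
    CE k F' (CE k F f) G = CE k F' f G := by
  classical
  have h1 := CE_symm (k := k) (F := F') (Pi.single G 1) (CE k F f)
  have h2 := CE_symm (k := k) (F := F') (Pi.single G 1) f
  have h3 := CE_symm (k := k) (F := F) (CE k F' (Pi.single G 1)) f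
  simp only [Pi.single_apply, ite_mul, one_mul, zero_mul, sum_ite_eq', hG, if_true] at h1 h2
  rw [h1, h2, h3]
  exact sum_congr rfl fun Y hY => by rw [CE_CE_of_subset hF _ hY]

/-- `⟨f, f - CE f⟩ = ‖f - CE f‖²` -/
lemma sum_mul_sub_CE (f : Gr V → ℝ) :
    ∑ G ∈ GG k, f G * (f G - CE k F f G) = ∑ G ∈ GG k, (f G - CE k F f G) ^ 2 := by
  have h1 := CE_symm (k := k) (F := F) (CE k F f) f
  have h2 : ∑ G ∈ GG k, CE k F (CE k F f) G * f G = ∑ G ∈ GG k, CE k F f G * f G :=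
    sum_congr rfl fun G hG => by rw [CE_CE_of_subset subset_rfl f hG]
  have h3 : ∑ G ∈ GG k, (f G - CE k F f G) ^ 2 = ∑ G ∈ GG k, f G * (f G - CE k F f G) +
      (∑ G ∈ GG k, CE k F f G * CE k F f G - ∑ G ∈ GG k, CE k F f G * f G) := by
    rw [← sum_sub_distrib, ← sum_add_distrib]
    exact sum_congr rfl fun G _ => by ring
  rw [h3, h1, h2]; ring

end CE

end Pool.Agent.MP_c319e0_lc

end

-- part MP_c319e0_lc.ThreeA
section

/-! Rows, columns and swap pairs for the three row lemma. -/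

namespace Pool.Agent.MP_c319e0_lc.Thr
open Finset
open scoped symmDiff

section
variable {V : Type} [Fintype V] [DecidableEq V] {k : V → ℤ} {A B : Finset V}
  {G G' Y : Gr V} {a b c d u v w x y z : V}

/-- indicator of a dart -/
def ind (G : Gr V) (d : V × V) : ℤ := if d ∈ G then 1 else 0

omit [Fintype V] in
lemma ind_pos {e : V × V} (h : e ∈ G) : ind G e = 1 := if_pos h
omit [Fintype V] in
lemma ind_neg {e : V × V} (h : e ∉ G) : ind G e = 0 := if_neg h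

lemma deg_eq_sum_ind (G : Gr V) (a : V) : deg G a = ∑ z, ind G (a, z) := by
  unfold deg ind
  rw [sum_boole]
  congr 1
  refine card_bij (fun d _ => d.2) ?_ ?_ ?_
  · rintro ⟨p, q⟩ hd
    obtain ⟨h1, h2⟩ := mem_filter.1 hd
    obtain rfl : p = a := h2
    simpa using h1
  · rintro ⟨p, q⟩ hd ⟨p', q'⟩ hd' h
    have h1 : p = a := (mem_filter.1 hd).2
    have h2 : p' = a := (mem_filter.1 hd').2
    have h3 : q = q' := h
    rw [h1, h2, h3]
  · intro z hz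
    exact ⟨(a, z), mem_filter.2 ⟨(mem_filter.1 hz).2, rfl⟩, rfl⟩

omit [Fintype V] in
lemma iff_of_not_mem_symmDiff {e : V × V} (h : e ∉ G ∆ G') : e ∈ G ↔ e ∈ G' := by
  rw [mem_symmDiff] at h; tauto

lemma row_sum (hAB : Disjoint A B) (hG : G ∈ GG k) (hG' : G' ∈ GG k) (h : G ∆ G' ⊆ KK A B)
    (ha : a ∈ A) : ∑ z ∈ B, ind G (a, z) = ∑ z ∈ B, ind G' (a, z) := by
  have h1 : ∑ z, ind G (a, z) = ∑ z, ind G' (a, z) := by
    rw [← deg_eq_sum_ind, ← deg_eq_sum_ind, (mem_GG.1 hG).2, (mem_GG.1 hG').2]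
  have h2 : ∑ z ∈ Bᶜ, ind G (a, z) = ∑ z ∈ Bᶜ, ind G' (a, z) := by
    refine sum_congr rfl fun z hz => ?_
    have : (a, z) ∉ G ∆ G' := fun hm => by
      rcases (mem_KK.1 (h hm)).2 with h3 | h3
      · exact mem_compl.1 hz h3.2
      · exact disjoint_left.1 hAB ha h3.1
    simp only [ind, iff_of_not_mem_symmDiff this]
  rw [← sum_add_sum_compl B, ← sum_add_sum_compl B, h2] at h1
  linarith

/-- column sum -/
def col (A : Finset V) (G : Gr V) (z : V) : ℤ := ∑ a ∈ A, ind G (a, z)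

lemma col_eq (hAB : Disjoint A B) (hG : G ∈ GG k) (hG' : G' ∈ GG k) (h : G ∆ G' ⊆ KK A B)
    (hz : z ∈ B) : col A G z = col A G' z := by
  have := row_sum hAB.symm hG hG' (by rwa [KK_comm]) hz
  unfold col
  simp only [ind, (mem_GG.1 hG).1.swap_iff z, (mem_GG.1 hG').1.swap_iff z] at this ⊢
  exact this

lemma KK_mono {A' : Finset V} (h : A' ⊆ A) : KK A' B ⊆ KK A B := by
  intro e he
  rw [mem_KK] at he ⊢
  exact ⟨he.1, he.2.imp (fun h1 => ⟨h h1.1, h1.2⟩) fun h1 => ⟨h1.1, h h1.2⟩⟩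

lemma sub_erase (hG : IsG G) (hG' : IsG G') (h : G ∆ G' ⊆ KK A B)
    (hr : ∀ z ∈ B, ((u, z) ∈ G ↔ (u, z) ∈ G')) : G ∆ G' ⊆ KK (A.erase u) B := by
  rintro ⟨p, q⟩ he
  have h1 := mem_KK.1 (h he)
  rw [mem_symmDiff] at he
  refine mem_KK.2 ⟨h1.1, h1.2.imp (fun h2 => ⟨mem_erase.2 ⟨?_, h2.1⟩, h2.2⟩)
    fun h2 => ⟨h2.1, mem_erase.2 ⟨?_, h2.2⟩⟩⟩
  · rintro (rfl : p = u)
    have := hr q h2.2
    tauto
  · rintro (rfl : q = u)
    have := hr p h2.1
    rw [hG.swap_iff, hG'.swap_iff q] at this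
    tauto

lemma row_iff (hu : u ∉ B) (h : G ∆ G' ⊆ KK (A.erase u) B) (z : V) (_hz : z ∈ B) :
    (u, z) ∈ G ↔ (u, z) ∈ G' := by
  refine iff_of_not_mem_symmDiff fun hm => ?_
  rcases (mem_KK.1 (h hm)).2 with h3 | h3
  · exact (mem_erase.1 h3.1).1 rfl
  · exact hu h3.1

lemma sw_sub (h : IsSw Y a b c d) (ha : a ∈ A) (hd : d ∈ A) (hb : b ∈ B) (hc : c ∈ B) :
    sw a b c d ⊆ KK A B := by
  intro e he
  have h1 := (isG_sw h).2 e he
  rw [mem_sw] at he
  refine mem_KK.2 ⟨h1, ?_⟩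
  rcases he with rfl | rfl | rfl | rfl | rfl | rfl | rfl | rfl <;> simp [*]

omit [Fintype V] in
lemma mem_sw_row (hAB : Disjoint A B) (hb : b ∈ B) (hc : c ∈ B) (hu : u ∈ A) :
    (u, z) ∈ sw a b c d ↔ (u = a ∨ u = d) ∧ (z = b ∨ z = c) := by
  have h1 : u ≠ b := fun e => disjoint_left.1 hAB hu (e ▸ hb)
  have h2 : u ≠ c := fun e => disjoint_left.1 hAB hu (e ▸ hc)
  simp only [mem_sw, Prod.mk.injEq, h1, h2, false_and, false_or]
  tauto

omit [Fintype V] in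
lemma sw_comm1 : sw a c b d = sw a b c d := by
  ext e; simp only [mem_sw]; tauto

omit [Fintype V] in
lemma sw_comm2 : sw d c b a = sw a b c d := by
  ext e; simp only [mem_sw]; tauto

omit [Fintype V] [DecidableEq V] in
lemma isSw_rev (hY : IsG Y) (h : IsSw Y a b c d) : IsSw Y d c b a :=
  ⟨h.cd.symm, h.bd.symm, h.ad.symm, h.bc.symm, h.ac.symm, h.ab.symm, hY.1 _ h.e2, hY.1 _ h.e1,
    fun e => h.n2 (hY.1 _ e), fun e => h.n1 (hY.1 _ e)⟩

omit [Fintype V] [DecidableEq V] in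
lemma isSw_of_rows (hAB : Disjoint A B) (hY : IsG Y) (ha : a ∈ A) (hd : d ∈ A) (hb : b ∈ B)
    (hc : c ∈ B) (e1 : (a, b) ∈ Y) (n1 : (a, c) ∉ Y) (e2 : (d, c) ∈ Y) (n2 : (d, b) ∉ Y) :
    IsSw Y a b c d where
  ab := fun e => disjoint_left.1 hAB ha (e ▸ hb)
  ac := fun e => disjoint_left.1 hAB ha (e ▸ hc)
  ad := fun e => n2 (e ▸ e1)
  bc := fun e => n1 (e ▸ e1)
  bd := fun e => disjoint_left.1 hAB hd (e ▸ hb)
  cd := fun e => disjoint_left.1 hAB hd (e ▸ hc)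
  e1 := e1
  e2 := hY.1 _ e2
  n1 := n1
  n2 := fun e => n2 (hY.1 _ e)

/-- `G'` agrees with `G` outside the rows `A`, and row `a` changes by moving `x` to `y` -/
structure SP (k : V → ℤ) (A B : Finset V) (a : V) (G G' : Gr V) (x y : V) : Prop where
  ha : a ∈ A
  hG : G ∈ GG k
  hG' : G' ∈ GG k
  sub : G ∆ G' ⊆ KK A B
  hx : x ∈ B
  hy : y ∈ B
  e1 : (a, x) ∈ G
  n1 : (a, y) ∉ G
  n2 : (a, x) ∉ G'
  e2 : (a, y) ∈ G'
  oth : ∀ z ∈ B, z ≠ x → z ≠ y → ((a, z) ∈ G ↔ (a, z) ∈ G')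

lemma SP.symm (h : SP k A B a G G' x y) : SP k A B a G' G y x :=
  ⟨h.ha, h.hG', h.hG, by rw [symmDiff_comm]; exact h.sub, h.hy, h.hx, h.e2, h.n2, h.n1, h.e1,
    fun z hz h1 h2 => (h.oth z hz h2 h1).symm⟩

lemma sp_sw1 (hAB : Disjoint A B) (hY : Y ∈ GG k) (h : IsSw Y a b c d) (ha : a ∈ A) (hd : d ∈ A)
    (hb : b ∈ B) (hc : c ∈ B) : SP k A B a Y (Y ∆ sw a b c d) b c := by
  have hm : ∀ z, (a, z) ∈ sw a b c d ↔ z = b ∨ z = c := fun z => by
    rw [mem_sw_row hAB hb hc ha]; simp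
  refine ⟨ha, hY, sw_mem hY h, ?_, hb, hc, h.e1, h.n1, ?_, ?_, fun z _ h1 h2 => ?_⟩
  · rw [symmDiff_symmDiff_cancel_left]; exact sw_sub h ha hd hb hc
  · simp [mem_symmDiff, hm, h.e1]
  · simp [mem_symmDiff, hm, h.n1]
  · simp [mem_symmDiff, hm, h1, h2]

lemma sp_sw2 (hAB : Disjoint A B) (hY : Y ∈ GG k) (h : IsSw Y a b c d) (ha : a ∈ A) (hd : d ∈ A)
    (hb : b ∈ B) (hc : c ∈ B) : SP k A B d Y (Y ∆ sw a b c d) c b := by
  have := sp_sw1 hAB hY (isSw_rev (mem_GG.1 hY).1 h) hd ha hc hb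
  rwa [sw_comm2] at this

lemma sw_other (h : IsSw Y a b c d) (ha : a ∈ A) (hd : d ∈ A) (hb : b ∈ B) (hc : c ∈ B)
    (h1 : a ≠ u) (h2 : d ≠ u) : Y ∆ (Y ∆ sw a b c d) ⊆ KK (A.erase u) B := by
  rw [symmDiff_symmDiff_cancel_left]
  exact sw_sub h (mem_erase.2 ⟨h1, ha⟩) (mem_erase.2 ⟨h2, hd⟩) hb hc

omit [Fintype V] in
lemma sum_toggle {P P' : Finset (Gr V)} (D : Gr V) (h1 : ∀ Y ∈ P, Y ∆ D ∈ P')
    (h2 : ∀ Y ∈ P', Y ∆ D ∈ P) (h : Gr V → ℝ) : ∑ Y ∈ P', h Y = ∑ Y ∈ P, h (Y ∆ D) :=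
  (sum_nbij' (fun Y => Y ∆ D) (fun Y => Y ∆ D) h1 h2 (fun _ _ => symmDiff_symmDiff_cancel_right _ _)
    (fun _ _ => symmDiff_symmDiff_cancel_right _ _) fun _ _ => rfl).symm

/-- a switch with row `u` maps the block of `G` to the block of `G'` -/
lemma SP.isSw (hAB : Disjoint A B) (sp : SP k A B u G G' x y) {i : V} (hi : i ∈ A)
    (hY : Y ∈ blk k (KK (A.erase u) B) G) (e : (i, y) ∈ Y) (n : (i, x) ∉ Y) :
    IsSw Y u x y i := by
  obtain ⟨hY1, hY2⟩ := mem_blk.1 hY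
  have hu : u ∉ B := disjoint_left.1 hAB sp.ha
  exact isSw_of_rows hAB (mem_GG.1 hY1).1 sp.ha hi sp.hx sp.hy
    ((row_iff hu hY2 x sp.hx).1 sp.e1) (fun h => sp.n1 ((row_iff hu hY2 y sp.hy).2 h)) e n

lemma SP.sw_blk (hAB : Disjoint A B) (sp : SP k A B u G G' x y) {i : V} (hi : i ∈ A)
    (hY : Y ∈ blk k (KK (A.erase u) B) G) (e : (i, y) ∈ Y) (n : (i, x) ∉ Y) :
    Y ∆ sw u x y i ∈ blk k (KK (A.erase u) B) G' := by
  have hs := sp.isSw hAB hi hY e n
  obtain ⟨hY1, hY2⟩ := mem_blk.1 hY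
  have hu : u ∉ B := disjoint_left.1 hAB sp.ha
  have s1 := sp_sw1 hAB hY1 hs sp.ha hi sp.hx sp.hy
  refine mem_blk.2 ⟨s1.hG', sub_erase (mem_GG.1 sp.hG').1 (mem_GG.1 s1.hG').1 ?_ fun z hz => ?_⟩
  · exact symmDiff_subset_trans sp.symm.sub
      (symmDiff_subset_trans (hY2.trans (KK_mono (erase_subset _ _))) s1.sub)
  · by_cases h1 : z = x
    · subst h1; exact iff_of_false sp.n2 s1.n2
    by_cases h2 : z = y
    · subst h2; exact iff_of_true sp.e2 s1.e2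
    rw [← sp.oth z hz h1 h2, ← s1.oth z hz h1 h2]
    exact row_iff hu hY2 z hz

lemma SP.sum_sw (hAB : Disjoint A B) (sp : SP k A B u G G' x y) {i : V} (hi : i ∈ A)
    (h : Gr V → ℝ) :
    ∑ Y ∈ (blk k (KK (A.erase u) B) G').filter (fun Y => (i, x) ∈ Y ∧ (i, y) ∉ Y), h Y =
      ∑ Y ∈ (blk k (KK (A.erase u) B) G).filter (fun Y => (i, y) ∈ Y ∧ (i, x) ∉ Y),
        h (Y ∆ sw u x y i) := by
  refine sum_toggle _ (fun Y hY => ?_) (fun Y hY => ?_) h
  · obtain ⟨h1, h2, h3⟩ := mem_filter.1 hY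
    have s2 := sp_sw2 hAB (mem_blk.1 h1).1 (sp.isSw hAB hi h1 h2 h3) sp.ha hi sp.hx sp.hy
    exact mem_filter.2 ⟨sp.sw_blk hAB hi h1 h2 h3, s2.e2, s2.n2⟩
  · obtain ⟨h1, h2, h3⟩ := mem_filter.1 hY
    have s2 := sp_sw2 hAB (mem_blk.1 h1).1 (sp.symm.isSw hAB hi h1 h2 h3) sp.ha hi sp.hy sp.hx
    have s3 := sp.symm.sw_blk hAB hi h1 h2 h3
    rw [sw_comm1] at s2 s3
    exact mem_filter.2 ⟨s3, s2.e2, s2.n2⟩

lemma CE_diff_le {F : Gr V} (hG : G ∈ GG k) (hG' : G' ∈ GG k) (φ : Gr V → ℝ) (η : ℝ)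
    (h : ∀ f f' : Gr V → ℝ, ∑ Y ∈ blk k F G, f Y = 0 →
      (∀ Y Y', |φ Y - φ Y'| ≤ η → f' Y' ≤ f Y) → ∑ Y ∈ blk k F G', f' Y ≤ 0) :
    |CE k F φ G - CE k F φ G'| ≤ η := by
  have p1 := card_blk_pos (F := F) hG
  have p2 := card_blk_pos (F := F) hG'
  have e1 : ∑ Y ∈ blk k F G, φ Y = #(blk k F G) * CE k F φ G := by
    unfold CE; field_simp
  have e2 : ∑ Y ∈ blk k F G', φ Y = #(blk k F G') * CE k F φ G' := by
    unfold CE; field_simp
  have h1 := h (fun Y => φ Y - CE k F φ G) (fun Y => φ Y - CE k F φ G - η)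
    (by rw [sum_sub_distrib, e1, sum_const, nsmul_eq_mul, sub_self])
    (fun Y Y' hh => by have := (abs_le.1 hh).1; linarith)
  have h2 := h (fun Y => CE k F φ G - φ Y) (fun Y => CE k F φ G - φ Y - η)
    (by rw [sum_sub_distrib, e1, sum_const, nsmul_eq_mul, sub_self])
    (fun Y Y' hh => by have := (abs_le.1 hh).2; linarith)
  simp only [sum_sub_distrib, e2, sum_const, nsmul_eq_mul] at h1 h2
  rw [abs_le]
  constructor
  · by_contra hc
    push Not at hc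
    nlinarith
  · by_contra hc
    push Not at hc
    nlinarith

lemma max_zero {ι : Type} [Finite ι] (P : ι → Prop) (D : ι → ℝ) (hD : ∀ i, 0 ≤ D i) {c : ℝ}
    (hc : 1 < c) (h : ∀ η, (∀ i, P i → D i ≤ η) → ∀ i, P i → c * D i ≤ η) :
    ∀ i, P i → D i = 0 := by
  intro i hi
  obtain ⟨j, hj, hmax⟩ := Set.exists_max_image {i | P i} D (Set.toFinite _) ⟨i, hi⟩
  have h1 := h (D j) hmax j hj
  have h2 := hmax i hi
  have := hD j
  have := hD i
  nlinarith

end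

end Pool.Agent.MP_c319e0_lc.Thr

end
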