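import Pool.Agent.MP_c319e0_lc.Mg.CountTrail
import Pool.Agent.MP_c319e0_lc.Mg.ThreeA

-- part MP_c319e0_lc.Count
section

/-! Counting inequalities for the number of realizations of nearby degree vectors. -/

namespace Pool.Agent.MP_c319e0_lc
open Finset
open scoped symmDiff

theorem schur {V : Type} [Fintype V] [DecidableEq V] (u : V → ℤ) {x y : V} (hxy : x ≠ y)
    (h : u y ≤ u x) : #(GG (u + un x - un y)) ≤ #(GG u) :=
  schur' u hxy h

theorem trail (b : ℕ) : ∃ A : ℕ, ∀ (V : Type) [Fintype V] [DecidableEq V] (u u' : V → ℤ),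
    (GG u).Nonempty → (GG u').Nonempty → u' ≤ u → u ≠ u' → ∑ v, (u v - u' v) ≤ b →
    ∃ z z' : V, un z + un z' ≤ u - u' ∧
      (#(GG u) : ℝ) * #(GG u') ≤ ((Fintype.card V : ℝ) + 2) ^ A *
        (#(GG (u - un z - un z')) * #(GG (u' + un z + un z'))) :=
  trail' b

section Aux
variable {V : Type} [Fintype V] [DecidableEq V]

lemma sum_un (x : V) : ∑ v, un x v = 1 := by simp [un]

omit [Fintype V] in
lemma un_nonneg (x v : V) : 0 ≤ un x v := by unfold un; split_ifs <;> norm_num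

lemma red (k : V → ℤ) (s : ℕ) : ∀ w : V → ℤ, ∑ v, |w v| ≤ s →
    (∀ p m, 0 < w p → w m < 0 → k m ≤ k p) →
    ∃ w' : V → ℤ, (0 ≤ w' ∨ w' ≤ 0) ∧ (∀ v, w' v ≤ max (w v) 0 ∧ min (w v) 0 ≤ w' v) ∧
      ∑ v, w' v = ∑ v, w v ∧ #(GG (k + w)) ≤ #(GG (k + w')) := by
  induction s with
  | zero =>
    intro w hw _
    refine ⟨w, Or.inl fun v => ?_, fun v => ⟨le_max_left _ _, min_le_left _ _⟩, rfl, le_rfl⟩
    have := single_le_sum (f := fun v => |w v|) (fun v _ => abs_nonneg _) (mem_univ v)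
    have h : |w v| ≤ 0 := by simpa using this.trans hw
    rw [abs_nonpos_iff.1 h]; rfl
  | succ s ih =>
    intro w hw hc
    by_cases h : 0 ≤ w ∨ w ≤ 0
    · exact ⟨w, h, fun v => ⟨le_max_left _ _, min_le_left _ _⟩, rfl, le_rfl⟩
    · simp only [not_or, Pi.le_def, not_forall, not_le, Pi.zero_apply] at h
      obtain ⟨⟨m, hm⟩, ⟨p, hp⟩⟩ := h
      have hpm : p ≠ m := by rintro rfl; omega
      have e : ∀ v, |(w - un p + un m) v| = |w v| - un p v - un m v := by
        intro v
        simp only [Pi.add_apply, Pi.sub_apply, un]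
        split_ifs with h1 h2 h2
        · exact absurd (h1.symm.trans h2) hpm
        · subst h1; rw [abs_of_nonneg (by omega), abs_of_pos hp]; ring
        · subst h2; rw [abs_of_nonpos (by omega), abs_of_neg hm]; ring
        · simp
      have e2 : ∀ v, (w - un p + un m) v ≤ max (w v) 0 ∧ min (w v) 0 ≤ (w - un p + un m) v := by
        intro v
        simp only [Pi.add_apply, Pi.sub_apply, un]
        split_ifs with h1 h2 h2
        · exact absurd (h1.symm.trans h2) hpm
        · subst h1; omega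
        · subst h2; omega
        · omega
      obtain ⟨w', h1, h2, h3, h4⟩ := ih (w - un p + un m) (by
        simp only [e, sum_sub_distrib, sum_un]; push_cast at hw; omega) (by
        intro p' m' a1 a2
        have := e2 p'
        have := e2 m'
        exact hc p' m' (by omega) (by omega))
      refine ⟨w', h1, fun v => ?_, ?_, le_trans ?_ h4⟩
      · have := e2 v
        have := h2 v
        omega
      · rw [h3]; simp [sum_add_distrib, sum_sub_distrib, sum_un]
      · have := schur (k + (w - un p + un m)) hpm (by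
          have := hc p m hp hm
          simp only [Pi.add_apply, Pi.sub_apply, un, if_true, if_neg hpm, if_neg hpm.symm]
          omega)
        rwa [show k + (w - un p + un m) + un p - un m = k + w by ring] at this

lemma red0 (k w : V → ℤ) (h0 : ∑ v, w v = 0) (hc : ∀ p m, 0 < w p → w m < 0 → k m ≤ k p) :
    #(GG (k + w)) ≤ #(GG k) := by
  obtain ⟨w', h1, _, h3, h4⟩ := red k (∑ v, |w v|).toNat w (Int.self_le_toNat _) hc
  rw [h0] at h3
  have : w' = 0 := by
    funext v
    rcases h1 with h1 | h1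
    · exact (sum_eq_zero_iff_of_nonneg fun v _ => h1 v).1 h3 v (mem_univ v)
    · exact (sum_eq_zero_iff_of_nonpos fun v _ => h1 v).1 h3 v (mem_univ v)
  simpa [this] using h4

lemma ind {f : (V → ℤ) → ℝ} {C : ℝ} (hC : 1 ≤ C) (h0 : 0 ≤ f 0) (Q : V → Prop) (b : ℕ)
    (h : ∀ w : V → ℤ, 0 ≤ w → w ≠ 0 → ∑ v, w v ≤ b → (∀ v, 0 < w v → Q v) →
      f w ≤ 0 ∨ ∃ z z', un z + un z' ≤ w ∧ f w ≤ C * f (w - un z - un z'))
    (s : ℕ) : s ≤ b → ∀ w : V → ℤ, 0 ≤ w → ∑ v, w v ≤ s → (∀ v, 0 < w v → Q v) →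
      f w ≤ C ^ s * f 0 := by
  induction s with
  | zero =>
    intro _ w h1 h2 _
    have : w = 0 := funext fun v => (sum_eq_zero_iff_of_nonneg fun v _ => h1 v).1
      (le_antisymm (by simpa using h2) (sum_nonneg fun v _ => h1 v)) v (mem_univ v)
    simp [this]
  | succ s ih =>
    intro hs w h1 h2 h3
    by_cases hw : w = 0
    · rw [hw]; exact le_mul_of_one_le_left h0 (one_le_pow₀ hC)
    · rcases h w h1 hw (h2.trans (by exact_mod_cast hs)) h3 with h4 | ⟨z, z', h4, h5⟩
      · exact h4.trans (by positivity)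
      · have := ih (by omega) (w - un z - un z') (fun v => by
          have := h4 v
          simp only [Pi.add_apply, Pi.sub_apply, Pi.zero_apply] at this ⊢; omega) (by
          simp only [Pi.sub_apply, sum_sub_distrib, sum_un]; push_cast at h2; omega) (by
          intro v hv
          have := un_nonneg z v
          have := un_nonneg z' v
          simp only [Pi.sub_apply] at hv
          exact h3 v (by omega))
        rw [pow_succ', mul_assoc]
        exact h5.trans (mul_le_mul_of_nonneg_left this (by linarith))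

omit [Fintype V] in
lemma un_pos {x y v : V} (h : 0 < un x v + un y v) : v = x ∨ v = y := by
  by_contra hc
  rw [not_or] at hc
  simp [un, hc.1, hc.2] at h

end Aux

theorem counting (b : ℕ) : ∃ A : ℕ, ∀ (V : Type) [Fintype V] [DecidableEq V] (k : V → ℤ),
    (GG k).Nonempty → ∃ P : Finset V, ∀ w : V → ℤ, (∀ v ∈ P, 0 ≤ w v) → (∀ v ∉ P, w v ≤ 0) →
      ∑ v, |w v| ≤ b →
      (#(GG (k + w)) : ℝ) ≤ ((Fintype.card V : ℝ) + 2) ^ A * #(GG k) := by
  obtain ⟨A4, h4⟩ := trail 4
  obtain ⟨Ab, hb⟩ := trail b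
  refine ⟨(Ab + A4) * b, fun V _ _ k hk => ?_⟩
  classical
  replace h4 := h4 V
  replace hb := hb V
  have N1 : (1 : ℝ) ≤ (Fintype.card V : ℝ) + 2 := by
    have : (0 : ℝ) ≤ Fintype.card V := by positivity
    linarith
  generalize (Fintype.card V : ℝ) + 2 = N at *
  have K1 : 1 ≤ N ^ A4 := one_le_pow₀ N1
  have gk : (0 : ℝ) < #(GG k) := by exact_mod_cast hk.card_pos
  have T1 : ∀ x x' y y', (∀ p m, (p = x ∨ p = x') → (m = y ∨ m = y') → k m ≤ k p) →
      (#(GG (k + un x + un x')) : ℝ) * #(GG (k - un y - un y')) ≤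
        N ^ A4 * (#(GG k) * #(GG k)) := by
    intro x x' y y' hc
    rcases (GG (k + un x + un x')).eq_empty_or_nonempty with e | n1
    · rw [e]; simp; positivity
    rcases (GG (k - un y - un y')).eq_empty_or_nonempty with e | n2
    · rw [e]; simp; positivity
    obtain ⟨z, z', a1, a2⟩ := h4 _ _ n1 n2 (fun v => by
      have := un_nonneg x v
      have := un_nonneg x' v
      have := un_nonneg y v
      have := un_nonneg y' v
      simp only [Pi.add_apply, Pi.sub_apply]; omega) (fun e => by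
      have := congrArg (fun u => ∑ v, u v) e
      simp only [Pi.add_apply, Pi.sub_apply, sum_add_distrib, sum_sub_distrib, sum_un] at this
      omega) (by
      simp only [Pi.add_apply, Pi.sub_apply, sum_add_distrib, sum_sub_distrib, sum_un]
      omega)
    have a3 : ∀ v, un z v + un z' v ≤ un x v + un x' v + (un y v + un y' v) := fun v => by
      have := a1 v
      simp only [Pi.add_apply, Pi.sub_apply] at this; omega
    have r1 := red0 k (un x + un x' - un z - un z') (by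
      simp [sum_add_distrib, sum_sub_distrib, sum_un]) (fun p m hp hm => by
      have := a3 m
      have := un_nonneg z p
      have := un_nonneg z' p
      simp only [Pi.add_apply, Pi.sub_apply] at hp hm
      exact hc p m (un_pos (by omega)) (un_pos (by omega)))
    have r2 := red0 k (un z + un z' - un y - un y') (by
      simp [sum_add_distrib, sum_sub_distrib, sum_un]) (fun p m hp hm => by
      have := a3 p
      have := un_nonneg z m
      have := un_nonneg z' m
      simp only [Pi.add_apply, Pi.sub_apply] at hp hm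
      exact hc p m (un_pos (by omega)) (un_pos (by omega)))
    rw [show k + (un x + un x' - un z - un z') = k + un x + un x' - un z - un z' by ring] at r1
    rw [show k + (un z + un z' - un y - un y') = k - un y - un y' + un z + un z' by ring] at r2
    refine a2.trans (mul_le_mul_of_nonneg_left ?_ (by positivity))
    exact_mod_cast Nat.mul_le_mul r1 r2
  obtain ⟨P, hP, hmax⟩ := exists_max_image ((univ : Finset (Finset V)).filter fun P =>
    (∀ p ∈ P, ∀ m ∉ P, k m ≤ k p) ∧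
      ∀ x ∈ P, ∀ x' ∈ P, (#(GG (k + un x + un x')) : ℝ) ≤ N ^ A4 * #(GG k)) card
    ⟨∅, by simp⟩
  obtain ⟨up, hP1⟩ := (mem_filter.1 hP).2
  have hP2 : ∀ y ∉ P, ∀ y' ∉ P, (#(GG (k - un y - un y')) : ℝ) ≤ N ^ A4 * #(GG k) := by
    intro y hy y' hy'
    obtain ⟨v, hv, hm⟩ := exists_max_image Pᶜ k ⟨y, mem_compl.2 hy⟩
    have hv' := mem_compl.1 hv
    have up' : ∀ p ∈ insert v P, ∀ m ∉ P, k m ≤ k p := by
      intro p hp m hm'
      rcases mem_insert.1 hp with rfl | hp
      · exact hm m (mem_compl.2 hm')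
      · exact up p hp m hm'
    have : ¬ ∀ x ∈ insert v P, ∀ x' ∈ insert v P,
        (#(GG (k + un x + un x')) : ℝ) ≤ N ^ A4 * #(GG k) := by
      intro hc
      have := hmax (insert v P) (mem_filter.2 ⟨mem_univ _,
        fun p hp m hm' => up' p hp m fun h => hm' (mem_insert_of_mem h), hc⟩)
      rw [card_insert_of_notMem hv'] at this
      omega
    simp only [not_forall, not_le] at this
    obtain ⟨x, hx, x', hx', hlt⟩ := this
    have t := T1 x x' y y' (by
      rintro p m (rfl | rfl) (rfl | rfl) <;> apply up' <;> assumption)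
    have t2 := (mul_le_mul_of_nonneg_right hlt.le
      (Nat.cast_nonneg (α := ℝ) #(GG (k - un y - un y')))).trans t
    rw [← mul_assoc] at t2
    exact (le_of_mul_le_mul_left t2 (by positivity)).trans (le_mul_of_one_le_left gk.le K1)
  have C1 : 1 ≤ N ^ (Ab + A4) := one_le_pow₀ N1
  refine ⟨P, fun w w1 w2 w3 => ?_⟩
  obtain ⟨w', s1, s2, _, s4⟩ := red k b w w3 fun p m hp hm => up p
    (by by_contra h; have := w2 p h; omega) m (fun h => by have := w1 m h; omega)
  refine le_trans (Nat.cast_le.2 s4) ?_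
  have s5 : ∑ v, |w' v| ≤ b := le_trans (sum_le_sum fun v _ => by
    have := s2 v
    rcases abs_cases (w' v) with h | h <;> rcases abs_cases (w v) with h' | h' <;> omega) w3
  rw [pow_mul]
  rcases s1 with s1 | s1
  · have := ind (f := fun w => (#(GG (k + w)) : ℝ)) C1 (by positivity) (· ∈ P) b
      (fun w a1 a2 a3 a4 => by
        rcases (GG (k + w)).eq_empty_or_nonempty with e | n1
        · left; simp [e]
        right
        obtain ⟨z, z', b1, b2⟩ := hb _ _ n1 hk (by simpa using a1) (by simpa using a2)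
          (by simpa using a3)
        rw [add_sub_cancel_left] at b1
        refine ⟨z, z', b1, le_of_mul_le_mul_right (b2.trans ?_) gk⟩
        have z1 := b1 z
        have z2 := b1 z'
        have := un_nonneg z' z
        have := un_nonneg z z'
        simp only [Pi.add_apply, show un z z = 1 by simp [un], show un z' z' = 1 by simp [un]]
          at z1 z2
        have c := hP1 z (a4 z (by omega)) z' (a4 z' (by omega))
        rw [show k + (w - un z - un z') = k + w - un z - un z' by ring, pow_add]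
        calc _ ≤ N ^ Ab * (#(GG (k + w - un z - un z')) * (N ^ A4 * #(GG k))) := by gcongr
          _ = _ := by ring) b le_rfl w' s1
      (le_trans (sum_le_sum fun v _ => le_abs_self _) s5) (fun v hv => by
        by_contra h
        have := w2 v h
        have := s2 v
        omega)
    simpa using this
  · have := ind (f := fun w => (#(GG (k - w)) : ℝ)) C1 (by positivity) (· ∉ P) b
      (fun w a1 a2 a3 a4 => by
        rcases (GG (k - w)).eq_empty_or_nonempty with e | n1
        · left; simp [e]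
        right
        obtain ⟨z, z', b1, b2⟩ := hb _ _ hk n1 (by simpa using a1)
          (fun e => a2 (sub_eq_self.1 e.symm)) (by simpa using a3)
        rw [sub_sub_cancel] at b1
        refine ⟨z, z', b1, le_of_mul_le_mul_left (b2.trans ?_) gk⟩
        have z1 := b1 z
        have z2 := b1 z'
        have := un_nonneg z' z
        have := un_nonneg z z'
        simp only [Pi.add_apply, show un z z = 1 by simp [un], show un z' z' = 1 by simp [un]]
          at z1 z2
        have c := hP2 z (a4 z (by omega)) z' (a4 z' (by omega))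
        rw [show k - (w - un z - un z') = k - w + un z + un z' by ring, pow_add]
        calc _ ≤ N ^ Ab * ((N ^ A4 * #(GG k)) * #(GG (k - w + un z + un z'))) := by gcongr
          _ = _ := by ring) b le_rfl (-w') (by simpa using s1)
      (le_trans (sum_le_sum fun v _ => neg_le_abs _) s5) (fun v hv h => by
        have := w1 v h
        have := s2 v
        simp only [Pi.neg_apply] at hv
        omega)
    simpa using this

end Pool.Agent.MP_c319e0_lc

end

-- part MP_c319e0_lc.RouteDefs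
section

/-! States and moves of the route along a primitive circuit. -/

namespace Pool.Agent.MP_c319e0_lc
open Finset
open scoped symmDiff

variable {V : Type} [Fintype V] [DecidableEq V]

/-- `E'` is close to a graph whose degrees exceed `k` only on `P` and fall short only off `P` -/
def Good (k : V → ℤ) (P : Finset V) (c : ℕ) (E' : Gr V) : Prop :=
  ∃ (E'' : Gr V) (w : V → ℤ), E'' ∈ GG (k + w) ∧ (∀ v ∈ P, 0 ≤ w v) ∧ (∀ v ∉ P, w v ≤ 0) ∧
    ∑ v, |w v| ≤ c ∧ #(E'' ∆ E') ≤ c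

/-- admissible intermediate states -/
def St (k : V → ℤ) (P : Finset V) (b c : ℕ) (G E : Gr V) (d : ℕ → V × V) (L : ℕ) (Z : Gr V) :
    Prop :=
  Z ∈ GG k ∧ ∃ F, SubArc Prod.swap d L b F ∧ #(Z ∆ (G ∆ F)) ≤ c ∧ Good k P c (E ∆ F)

/-- admissible moves: inside the complete bipartite graph on `P, Pᶜ`, or on few vertices -/
def Mv (P : Finset V) (c : ℕ) (Z Z' : Gr V) : Prop :=
  Z ∆ Z' ⊆ KK P Pᶜ ∨ ∃ S : Finset V, #S ≤ c ∧ Z ∆ Z' ⊆ KK S S

end Pool.Agent.MP_c319e0_lc

end

-- part MP_c319e0_lc.RouteA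
section

/-! Basic facts on primitive circuits. -/

namespace Pool.Agent.MP_c319e0_lc
open Finset
open scoped symmDiff

variable {V : Type} [DecidableEq V] {G E : Gr V} {d : ℕ → V × V} {L : ℕ}

lemma mem_xor {β : Type} [DecidableEq β] {A B : Finset β} {x : β} :
    x ∈ A ∆ B ↔ ¬(x ∈ A ↔ x ∈ B) := by
  rw [mem_symmDiff]; tauto

lemma card_xor_le {β : Type} [DecidableEq β] (A B : Finset β) : #(A ∆ B) ≤ #A + #B :=
  (card_le_card (symmDiff_le_sup (a := A) (b := B))).trans (card_union_le _ _)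

lemma range_xor {a b : ℕ} (h : a ≤ b) : range a ∆ range b = Ico a b := by
  ext x; simp only [mem_xor, mem_range, mem_Ico]; omega

lemma card_ed (x y : V) : #(ed x y) ≤ 2 := card_le_two

lemma ed_comm (x y : V) : ed x y = ed y x := pair_comm _ _

lemma swap_mem_sl {I : Finset ℕ} {x : V × V} :
    x.swap ∈ sl Prod.swap d I ↔ x ∈ sl Prod.swap d I := by
  simp only [mem_sl]
  refine exists_congr fun i => and_congr_right fun _ => ?_
  constructor
  · rintro (h | h)
    · right; rw [← h]; simp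
    · left; simpa using congrArg Prod.swap h
  · rintro (h | h)
    · right; rw [h]
    · left; rw [h]; simp

lemma sl_monoR {I J : Finset ℕ} (h : I ⊆ J) : sl Prod.swap d I ⊆ sl Prod.swap d J :=
  biUnion_subset_biUnion_of_subset_left _ h

lemma card_sl (I : Finset ℕ) : #(sl Prod.swap d I) ≤ 2 * #I := by
  refine card_biUnion_le.trans ?_
  rw [mul_comm, ← smul_eq_mul, ← sum_const]
  exact sum_le_sum fun _ _ => card_le_two

lemma sl_empty : sl Prod.swap d ∅ = ∅ := rfl

lemma xor_empty {β : Type} [DecidableEq β] (A : Finset β) : A ∆ ∅ = A := symmDiff_bot A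

namespace Circ

variable (hC : Circ Prod.swap Prod.fst G E d L)
include hC

lemma eq_pair (i : ℕ) : d i = ((d i).1, (d (i + 1)).1) := by
  rw [hC.link i]; rfl

lemma per_mulR (i n : ℕ) : d (i + L * n) = d i := by
  induction n with
  | zero => rfl
  | succ n ih => rw [Nat.mul_succ, ← add_assoc, hC.per, ih]

lemma d_modR (i : ℕ) : d (i % L) = d i := by
  conv_rhs => rw [← Nat.mod_add_div i L, hC.per_mulR]

lemma ne (i : ℕ) : (d i).1 ≠ (d (i + 1)).1 := by
  intro h
  apply hC.norev i i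
  rw [hC.eq_pair i, ← h]
  rfl

lemma d_mem_sl {I : Finset ℕ} (hI : I ⊆ range L) (i : ℕ) :
    d i ∈ sl Prod.swap d I ↔ i % L ∈ I := by
  rw [mem_sl]
  constructor
  · rintro ⟨j, hj, h | h⟩
    · have h1 : i % L = j % L := hC.inj _ _ h
      rwa [h1, Nat.mod_eq_of_lt (mem_range.1 (hI hj))]
    · exact absurd h (hC.norev _ _)
  · intro h
    exact ⟨_, h, Or.inl (hC.d_modR i).symm⟩

lemma d_mem_sl' {I : Finset ℕ} (hI : I ⊆ range L) {i : ℕ} (hi : i < L) :
    d i ∈ sl Prod.swap d I ↔ i ∈ I := by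
  rw [hC.d_mem_sl hI, Nat.mod_eq_of_lt hi]

lemma sl_xor {I J : Finset ℕ} (hI : I ⊆ range L) (hJ : J ⊆ range L) :
    sl Prod.swap d (I ∆ J) = sl Prod.swap d I ∆ sl Prod.swap d J := by
  have hIJ : I ∆ J ⊆ range L := (symmDiff_le_sup (a := I) (b := J)).trans (union_subset hI hJ)
  ext x
  by_cases hx : x ∈ sl Prod.swap d (range L)
  · obtain ⟨i, -, rfl | rfl⟩ := (mem_sl _).1 hx
    · rw [mem_xor, hC.d_mem_sl hI, hC.d_mem_sl hJ, hC.d_mem_sl hIJ, mem_xor]
    · rw [mem_xor, swap_mem_sl, swap_mem_sl, swap_mem_sl, hC.d_mem_sl hI, hC.d_mem_sl hJ,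
        hC.d_mem_sl hIJ, mem_xor]
  · have h1 : x ∉ sl Prod.swap d I := fun h => hx (sl_monoR hI h)
    have h2 : x ∉ sl Prod.swap d J := fun h => hx (sl_monoR hJ h)
    have h3 : x ∉ sl Prod.swap d (I ∆ J) := fun h => hx (sl_monoR hIJ h)
    simp [mem_xor, h1, h2, h3]

lemma sl_Ico {a b : ℕ} (hab : a ≤ b) (hb : b ≤ L) :
    sl Prod.swap d (Ico a b) = sl Prod.swap d (range a) ∆ sl Prod.swap d (range b) := by
  rw [← hC.sl_xor (range_mono (hab.trans hb)) (range_mono hb), range_xor hab]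

lemma sl_single (i : ℕ) : sl Prod.swap d {i} = ed (d i).1 (d (i + 1)).1 := by
  rw [sl, singleton_biUnion, ed, ← hC.eq_pair i, hC.link i]
  rfl

lemma isG_sl (I : Finset ℕ) : IsG (sl Prod.swap d I) := by
  refine ⟨fun x hx => swap_mem_sl.2 hx, fun x hx => ?_⟩
  obtain ⟨i, -, rfl | rfl⟩ := (mem_sl _).1 hx
  · rw [hC.eq_pair i]; exact hC.ne i
  · rw [hC.eq_pair i]; exact (hC.ne i).symm

lemma deg_sl {Y : Gr V} (hY : IsG Y) {I : Finset ℕ} (hI : I ⊆ range L) (x : V) :
    deg (Y ∆ sl Prod.swap d I) x =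
      deg Y x + ∑ i ∈ I, sgn Y (d i) * (un (d i).1 x + un (d (i + 1)).1 x) := by
  induction I using Finset.induction_on with
  | empty => simp [sl_empty, xor_empty]
  | insert i I hi ih =>
    have hI' : I ⊆ range L := (subset_insert _ _).trans hI
    have hiL : i < L := mem_range.1 (hI (mem_insert_self _ _))
    have h1 : insert i I = I ∆ {i} := by
      ext j; simp only [mem_xor, mem_insert, mem_singleton]; grind
    rw [sum_insert hi, h1, hC.sl_xor hI' (by simpa using hiL), ← symmDiff_assoc, hC.sl_single,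
      deg_symmDiff_ed (hY.symmDiff (hC.isG_sl I)) (hC.ne i), ih hI', ← hC.eq_pair]
    have h2 : sgn (Y ∆ sl Prod.swap d I) (d i) = sgn Y (d i) := by
      simp [sgn, mem_xor, hC.d_mem_sl' hI' hiL, hi]
    rw [h2]; ring

lemma deg_path {Y : Gr V} (hY : IsG Y) {a b : ℕ} (hab : a ≤ b) (hb : b ≤ L) (ε : ℤ)
    (h : ∀ i, a ≤ i → i < b → sgn Y (d i) = ε * (-1) ^ i) (x : V) :
    deg (Y ∆ sl Prod.swap d (Ico a b)) x =
      deg Y x + ε * ((-1) ^ a * un (d a).1 x - (-1) ^ b * un (d b).1 x) := by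
  rw [hC.deg_sl hY (fun i hi => mem_range.2 (by have := (mem_Ico.1 hi).2; omega))]
  congr 1
  induction b, hab using Nat.le_induction with
  | base => simp
  | succ b hab ih =>
    rw [sum_Ico_succ_top hab, ih (by omega) (fun i h1 h2 => h i h1 (by omega)),
      h b hab (by omega)]
    ring

lemma sgn_G (i : ℕ) : sgn G (d i) = sgn G (d 0) * (-1) ^ i := by
  induction i with
  | zero => simp
  | succ i ih =>
    rw [pow_succ, ← mul_assoc, ← ih]
    have := hC.alt i
    by_cases h : d i ∈ G <;> simp [sgn, this, h]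

lemma sgn_E (i : ℕ) : sgn E (d i) = -sgn G (d i) := by
  have := mem_xor.1 (hC.mem i)
  by_cases h : d i ∈ G <;> simp_all [sgn]

lemma v_inj {i j : ℕ} (hi : i < L) (hj : j < L) (h2 : i % 2 = j % 2) (h : (d i).1 = (d j).1) :
    i = j := by
  have : i % L = j % L := hC.prim i j h2 h
  rwa [Nat.mod_eq_of_lt hi, Nat.mod_eq_of_lt hj] at this

lemma exists_avoid (B : Finset V) (i0 n : ℕ) (hn : #B < n) (hL : i0 + 2 * n ≤ L + 1) :
    ∃ s < n, (d (i0 + 2 * s)).1 ∉ B := by
  by_contra h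
  push Not at h
  have := card_le_card_of_injOn (s := range n) (t := B) (fun s => (d (i0 + 2 * s)).1)
    (fun s hs => h s (by simpa using hs)) (fun s hs t ht hst => by
      have h1 : s < n := by simpa using hs
      have h2 : t < n := by simpa using ht
      have := hC.v_inj (i := i0 + 2 * s) (j := i0 + 2 * t) (by omega) (by omega) (by omega) hst
      omega)
  rw [card_range] at this
  omega

lemma exists_nb (x : V) : ∃ B : Finset V, #B ≤ 4 ∧ ∀ y, (x, y) ∈ sl Prod.swap d (range L) → y ∈ B := by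
  have h1 : ∀ c, #((range L).filter fun j => (d (j + c)).1 = x) ≤ 2 := by
    intro c
    rw [← card_range 2]
    refine card_le_card_of_injOn (fun j => j % 2) (fun j _ => by simp; omega) ?_
    intro i hi j hj hij
    simp only [coe_filter, mem_range, Set.mem_ofPred_eq] at hi hj hij
    have h2 : (i + c) % L = (j + c) % L := hC.prim _ _ (by omega) (hi.2.trans hj.2.symm)
    have h3 : i % L = j % L := Nat.ModEq.add_right_cancel' c h2
    rwa [Nat.mod_eq_of_lt hi.1, Nat.mod_eq_of_lt hj.1] at h3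
  refine ⟨((range L).filter fun j => (d (j + 0)).1 = x).image (fun j => (d (j + 1)).1) ∪
    ((range L).filter fun j => (d (j + 1)).1 = x).image (fun j => (d j).1), ?_, ?_⟩
  · have h2 := h1 0
    have h3 := h1 1
    refine (card_union_le _ _).trans ?_
    have h4 := card_image_le (s := (range L).filter fun j => (d (j + 0)).1 = x)
      (f := fun j => (d (j + 1)).1)
    have h5 := card_image_le (s := (range L).filter fun j => (d (j + 1)).1 = x)
      (f := fun j => (d j).1)
    omega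
  · intro y hy
    obtain ⟨i, hi, h | h⟩ := (mem_sl _).1 hy
    · rw [hC.eq_pair i, Prod.mk.injEq] at h
      exact mem_union_left _ (mem_image.2 ⟨i, mem_filter.2 ⟨hi, h.1.symm⟩, h.2.symm⟩)
    · rw [hC.eq_pair i, Prod.swap_prod_mk, Prod.mk.injEq] at h
      exact mem_union_right _ (mem_image.2 ⟨i, mem_filter.2 ⟨hi, h.1.symm⟩, h.2.symm⟩)

lemma rotate (c : ℕ) : Circ Prod.swap Prod.fst G E (fun i => d (i + c)) L where
  pos := hC.pos
  even := hC.even
  per i := by rw [add_right_comm, hC.per]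
  mem i := hC.mem _
  link i := by rw [add_right_comm, hC.link]
  alt i := by rw [add_right_comm, hC.alt]
  inj i j h := Nat.ModEq.add_right_cancel' c (hC.inj _ _ h)
  norev i j := hC.norev _ _
  prim i j h1 h2 := Nat.ModEq.add_right_cancel' c (hC.prim _ _ (by omega) h2)

lemma exists_shift (c i : ℕ) : ∃ j, d (j + c) = d i ∧ d (j + 1 + c) = d (i + 1) := by
  have h : c ≤ L * c := Nat.le_mul_of_pos_left c hC.pos
  refine ⟨i + L * c - c, ?_, ?_⟩
  · rw [show i + L * c - c + c = i + L * c by omega, hC.per_mulR]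
  · rw [show i + L * c - c + 1 + c = i + 1 + L * c by omega, hC.per_mulR]

lemma sl_rotate (c : ℕ) :
    sl Prod.swap (fun i => d (i + c)) (range L) = sl Prod.swap d (range L) := by
  ext x
  simp only [mem_sl]
  constructor
  · rintro ⟨i, -, h⟩
    exact ⟨(i + c) % L, mem_range.2 (Nat.mod_lt _ hC.pos), by rwa [hC.d_modR]⟩
  · rintro ⟨i, -, h⟩
    obtain ⟨j, hj, -⟩ := hC.exists_shift c i
    refine ⟨j % L, mem_range.2 (Nat.mod_lt _ hC.pos), ?_⟩
    have : d (j % L + c) = d (j + c) := (hC.rotate c).d_modR j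
    rwa [this, hj]

lemma subArc_rotate {c b : ℕ} {F : Gr V} (h : SubArc Prod.swap (fun i => d (i + c)) L b F) :
    SubArc Prod.swap d L b F := by
  refine ⟨hC.sl_rotate c ▸ h.sub, h.cl, ?_⟩
  obtain ⟨Bd, h1, h2⟩ := h.bd
  refine ⟨Bd, h1, fun i hi => ?_⟩
  obtain ⟨j, hj, hj'⟩ := hC.exists_shift c i
  have := h2 j
  simp only [hj, hj'] at this
  exact this hi

end Circ

theorem circ_flip' [Fintype V] {k : V → ℤ} (hG : G ∈ GG k) (hE : E ∈ GG k)
    (hC : Circ Prod.swap Prod.fst G E d L) :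
    G ∆ sl Prod.swap d (range L) ∈ GG k ∧ E ∆ sl Prod.swap d (range L) ∈ GG k := by
  obtain ⟨g1, g2⟩ := mem_GG.1 hG
  obtain ⟨e1, e2⟩ := mem_GG.1 hE
  have h0 : d L = d 0 := by simpa using hC.per 0
  constructor
  · refine mem_GG.2 ⟨g1.symmDiff (hC.isG_sl _), fun x => ?_⟩
    rw [range_eq_Ico, hC.deg_path g1 (Nat.zero_le L) le_rfl _ (fun i _ _ => hC.sgn_G i), h0,
      hC.even.neg_one_pow, g2]
    ring
  · refine mem_GG.2 ⟨e1.symmDiff (hC.isG_sl _), fun x => ?_⟩
    rw [range_eq_Ico, hC.deg_path e1 (Nat.zero_le L) le_rfl (-sgn G (d 0))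
      (fun i _ _ => by rw [hC.sgn_E, hC.sgn_G]; ring), h0, hC.even.neg_one_pow, e2]
    ring

end Pool.Agent.MP_c319e0_lc

end

-- part MP_c319e0_lc.RouteB
section

/-! Admissibility of the states on the route. -/

namespace Pool.Agent.MP_c319e0_lc
open Finset
open scoped symmDiff

variable {V : Type} [DecidableEq V] {G E : Gr V} {d : ℕ → V × V} {L : ℕ}

/-- slot `j` has both ends on the same side -/
def Lk (P : Finset V) (d : ℕ → V × V) (j : ℕ) : Prop := (d j).1 ∈ P ↔ (d (j + 1)).1 ∈ P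

instance (P : Finset V) (d : ℕ → V × V) (j : ℕ) : Decidable (Lk P d j) := by
  unfold Lk; infer_instance

/-- position `l` is an end of a link -/
def IsEnd (P : Finset V) (d : ℕ → V × V) (L l : ℕ) : Prop :=
  l ≤ L ∧ (Lk P d l ∨ Lk P d (l + L - 1))

/-- position `x` is close to an end of a link -/
def NearR (P : Finset V) (d : ℕ → V × V) (L D x : ℕ) : Prop :=
  ∃ l, IsEnd P d L l ∧ x ≤ l + D ∧ l ≤ x + D

/-- index sets whose boundary points are few and close to links -/
def Nice (P : Finset V) (d : ℕ → V × V) (L m : ℕ) (I : Finset ℕ) : Prop :=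
  I ⊆ range L ∧ (∃ B' : Finset ℕ, #B' ≤ m ∧ ∀ j, ¬(j ∈ I ↔ j + 1 ∈ I) → j + 1 ∈ B') ∧
    ∃ I0 B : Finset ℕ, I0 ⊆ range L ∧ #B ≤ m ∧ (∀ l ∈ B, IsEnd P d L l) ∧
      (∀ j, ¬(j ∈ I0 ↔ j + 1 ∈ I0) → j + 1 ∈ B) ∧ #(I ∆ I0) ≤ 40 * m

variable {P : Finset V}

omit [DecidableEq V] in
lemma nice_empty : Nice P d L 0 ∅ :=
  ⟨by simp, ⟨∅, by simp, by simp⟩, ∅, ∅, by simp, by simp, by simp, by simp, by simp⟩

omit [DecidableEq V] in
lemma Nice.mono {m m' : ℕ} {I : Finset ℕ} (h : Nice P d L m I) (hm : m ≤ m') :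
    Nice P d L m' I := by
  obtain ⟨h1, ⟨B', h2, h3⟩, I0, B, h4, h5, h6, h7, h8⟩ := h
  exact ⟨h1, ⟨B', by omega, h3⟩, I0, B, h4, by omega, h6, h7, by omega⟩

omit [DecidableEq V] in
lemma Nice.step {m x : ℕ} {I : Finset ℕ} (h : Nice P d L m I) (hx : x ≤ L)
    (hn : NearR P d L 40 x) : Nice P d L (m + 1) (I ∆ range x) := by
  obtain ⟨h1, ⟨B', h2, h3⟩, I0, B, h4, h5, h6, h7, h8⟩ := h
  obtain ⟨l, hl, hl1, hl2⟩ := hn
  have key : ∀ (I B : Finset ℕ) (x : ℕ), (∀ j, ¬(j ∈ I ↔ j + 1 ∈ I) → j + 1 ∈ B) →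
      ∀ j, ¬(j ∈ I ∆ range x ↔ j + 1 ∈ I ∆ range x) → j + 1 ∈ insert x B := by
    intro I B x h j hj
    have := h j
    simp only [mem_xor, mem_range, mem_insert] at hj ⊢
    grind
  refine ⟨(symmDiff_le_sup (a := I) (b := range x)).trans (union_subset h1 (range_mono hx)),
    ⟨insert x B', (card_insert_le _ _).trans (by omega), key _ _ _ h3⟩, I0 ∆ range l, insert l B,
    (symmDiff_le_sup (a := I0) (b := range l)).trans (union_subset h4 (range_mono hl.1)),
    (card_insert_le _ _).trans (by omega), ?_, key _ _ _ h7, ?_⟩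
  · intro y hy
    rcases mem_insert.1 hy with rfl | hy
    exacts [hl, h6 y hy]
  · have e : (I ∆ range x) ∆ (I0 ∆ range l) = (I ∆ I0) ∆ (range x ∆ range l) := by
      ext j; simp only [mem_xor]; tauto
    have h9 : #(range x ∆ range l) ≤ 40 := by
      rcases le_total x l with h | h
      · rw [range_xor h, Nat.card_Ico]; omega
      · rw [symmDiff_comm, range_xor h, Nat.card_Ico]; omega
    rw [e]
    have := card_xor_le (I ∆ I0) (range x ∆ range l)
    omega

lemma sum_unR [Fintype V] (y : V) : ∑ x, un y x = 1 := by simp [un]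

lemma prop_key (i1 i2 f1 f2 e e' p p' a a' : Prop) [Decidable i1] [Decidable i2] [Decidable f1]
    [Decidable f2] [Decidable e] [Decidable e']
    (b1 : i1 ↔ if f1 then (e ↔ ¬p) else a) (b2 : i2 ↔ if f2 then (e' ↔ ¬p') else a')
    (b3 : f1 → (p ↔ p')) (b4 : ¬f1 → ¬f2 → (a ↔ a')) (b5 : e' ↔ ¬e) :
    (p' → 0 ≤ (if i1 then (if e then -1 else 1) else 0) +
      (if i2 then (if e' then (-1 : ℤ) else 1) else 0)) ∧
    (¬p' → (if i1 then (if e then -1 else 1) else 0) +
      (if i2 then (if e' then (-1 : ℤ) else 1) else 0) ≤ 0) ∧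
    |(if i1 then (if e then -1 else 1) else 0) +
      (if i2 then (if e' then (-1 : ℤ) else 1) else 0)| ≤ if f1 ∨ f2 then 1 else 0 := by
  by_cases f1 <;> by_cases f2 <;> by_cases e <;> by_cases p' <;> by_cases a <;> by_cases a' <;>
    simp_all

namespace Circ

variable (hC : Circ Prod.swap Prod.fst G E d L)
include hC

lemma lk_mod (j : ℕ) : Lk P d (j % L) ↔ Lk P d j := by
  have h : d (j % L + 1) = d (j + 1) := by
    rw [← hC.d_modR (j % L + 1), ← hC.d_modR (j + 1), Nat.mod_add_mod]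
  unfold Lk
  rw [h, hC.d_modR]

lemma lk_per (j : ℕ) : Lk P d (j + L) ↔ Lk P d j := by
  rw [← hC.lk_mod, Nat.add_mod_right, hC.lk_mod]

lemma subArc_of_nice {m : ℕ} {I : Finset ℕ} (h : Nice P d L m I) :
    SubArc Prod.swap d L (m + 1) (sl Prod.swap d I) := by
  obtain ⟨h1, ⟨B', h2, h3⟩, -⟩ := h
  refine ⟨sl_monoR h1, fun x hx => swap_mem_sl.2 hx, (insert L B').image fun x => d (x - 1),
    card_image_le.trans ((card_insert_le _ _).trans (by omega)), fun i hi => ?_⟩
  rw [hC.d_mem_sl h1, hC.d_mem_sl h1] at hi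
  refine mem_image.2 ⟨i % L + 1, ?_, by rw [Nat.add_sub_cancel, hC.d_modR]⟩
  have h4 := Nat.mod_lt i hC.pos
  rcases Nat.lt_or_ge (i % L + 1) L with h5 | h5
  · rw [← Nat.mod_add_mod, Nat.mod_eq_of_lt h5] at hi
    exact mem_insert_of_mem (h3 _ hi)
  · rw [show i % L + 1 = L by omega]
    exact mem_insert_self _ _

lemma good_of_nice [Fintype V] {k : V → ℤ} (hE : E ∈ GG k) (hL : IsEnd P d L L) {m : ℕ}
    {I : Finset ℕ} (h : Nice P d L m I) : Good k P (84 * m + 8) (E ∆ sl Prod.swap d I) := by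
  obtain ⟨h1, -, I0, B, h4, h5, h6, h7, h8⟩ := h
  obtain ⟨e1, e2⟩ := mem_GG.1 hE
  set Fo : Finset ℕ := (((insert L B).image fun l => l - 1) ∪
    ((insert L B).image fun l => l % L)).filter (Lk P d) with hFo
  have cFo : #Fo ≤ 2 * (m + 1) := by
    refine (card_filter_le _ _).trans ((card_union_le _ _).trans ?_)
    have a1 := card_image_le (s := insert L B) (f := fun l => l - 1)
    have a2 := card_image_le (s := insert L B) (f := fun l => l % L)
    have a3 := card_insert_le L B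
    omega
  set I1 : Finset ℕ := (range L).filter fun j =>
    if j ∈ Fo then (d j ∈ E ↔ (d j).1 ∉ P) else j ∈ I0 with hI1
  have hI1L : I1 ⊆ range L := filter_subset _ _
  set s : ℕ → ℤ := fun j => if j % L ∈ I1 then sgn E (d j) else 0 with hs
  have halt : ∀ j, d (j + 1) ∈ E ↔ d j ∉ E := by
    intro j
    have a1 := mem_xor.1 (hC.mem j)
    have a2 := mem_xor.1 (hC.mem (j + 1))
    have a3 := hC.alt j
    tauto
  have key : ∀ j < L, ((d (j + 1)).1 ∈ P → 0 ≤ s j + s (j + 1)) ∧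
      ((d (j + 1)).1 ∉ P → s j + s (j + 1) ≤ 0) ∧
      |s j + s (j + 1)| ≤ if j ∈ Fo ∨ (j + 1) % L ∈ Fo then 1 else 0 := by
    intro j hj
    have b1 : j ∈ I1 ↔ if j ∈ Fo then (d j ∈ E ↔ (d j).1 ∉ P) else j ∈ I0 := by
      rw [hI1, mem_filter, mem_range]; simp [hj]
    have b2 : (j + 1) % L ∈ I1 ↔ if (j + 1) % L ∈ Fo then (d (j + 1) ∈ E ↔ (d (j + 1)).1 ∉ P)
        else (j + 1) % L ∈ I0 := by
      rw [hI1, mem_filter, mem_range, hC.d_modR]; simp [Nat.mod_lt _ hC.pos]
    have b3 : j ∈ Fo → ((d j).1 ∈ P ↔ (d (j + 1)).1 ∈ P) := fun h => (mem_filter.1 h).2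
    have b4 : j ∉ Fo → (j + 1) % L ∉ Fo → (j ∈ I0 ↔ (j + 1) % L ∈ I0) := by
      intro c1 c2
      by_contra c3
      have c4 : j + 1 ∈ insert L B := by
        rcases Nat.lt_or_ge (j + 1) L with h5 | h5
        · rw [Nat.mod_eq_of_lt h5] at c3
          exact mem_insert_of_mem (h7 _ c3)
        · rw [show j + 1 = L by omega]
          exact mem_insert_self _ _
      have c5 : IsEnd P d L (j + 1) := by
        rcases mem_insert.1 c4 with h | h
        · rwa [h]
        · exact h6 _ h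
      rcases c5.2 with c6 | c6
      · exact c2 (mem_filter.2 ⟨mem_union_right _ (mem_image.2 ⟨_, c4, rfl⟩),
          (hC.lk_mod _).2 c6⟩)
      · rw [show j + 1 + L - 1 = j + L by omega, hC.lk_per] at c6
        exact c1 (mem_filter.2 ⟨mem_union_left _ (mem_image.2 ⟨_, c4, rfl⟩), c6⟩)
    have b6 := prop_key _ _ _ _ _ _ _ _ _ _ b1 b2 b3 b4 (halt j)
    simp only [hs, sgn, Nat.mod_eq_of_lt hj]
    exact b6
  refine ⟨E ∆ sl Prod.swap d I1, fun x => ∑ j ∈ range L, (s j + s (j + 1)) * un (d (j + 1)).1 x,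
    mem_GG.2 ⟨e1.symmDiff (hC.isG_sl _), fun x => ?_⟩, fun x hx => ?_, fun x hx => ?_, ?_, ?_⟩
  · rw [hC.deg_sl e1 hI1L, e2, Pi.add_apply]
    congr 1
    have a1 : ∑ i ∈ I1, sgn E (d i) * (un (d i).1 x + un (d (i + 1)).1 x) =
        ∑ i ∈ range L, s i * (un (d i).1 x + un (d (i + 1)).1 x) := by
      rw [← sum_subset hI1L (fun i hi hi' => by
        simp [hs, Nat.mod_eq_of_lt (mem_range.1 hi), hi'])]
      refine sum_congr rfl fun i hi => ?_
      simp [hs, Nat.mod_eq_of_lt (mem_range.1 (hI1L hi)), hi]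
    have a2 : ∑ i ∈ range L, s i * un (d i).1 x =
        ∑ i ∈ range L, s (i + 1) * un (d (i + 1)).1 x := by
      have a3 := sum_range_succ (fun i => s i * un (d i).1 x) L
      rw [sum_range_succ'] at a3
      have a4 : d L = d 0 := by simpa using hC.per 0
      have a5 : s L = s 0 := by
        by_cases h0 : 0 ∈ I1 <;> simp [hs, a4, h0]
      rw [a4, a5] at a3
      linarith
    rw [a1]
    simp only [mul_add, sum_add_distrib]
    rw [a2]
    simp only [add_mul, sum_add_distrib]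
    ring
  · refine sum_nonneg fun j hj => ?_
    unfold un
    split_ifs with h
    · rw [mul_one]; exact (key j (mem_range.1 hj)).1 (h ▸ hx)
    · simp
  · refine sum_nonpos fun j hj => ?_
    unfold un
    split_ifs with h
    · rw [mul_one]; exact (key j (mem_range.1 hj)).2.1 (h ▸ hx)
    · simp
  · have a1 : ∑ x, |∑ j ∈ range L, (s j + s (j + 1)) * un (d (j + 1)).1 x| ≤
        ∑ j ∈ range L, |s j + s (j + 1)| := by
      refine (sum_le_sum fun x _ => abs_sum_le_sum_abs _ _).trans ?_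
      rw [sum_comm]
      refine sum_le_sum fun j _ => le_of_eq ?_
      have a2 : ∀ x, |(s j + s (j + 1)) * un (d (j + 1)).1 x| =
          |s j + s (j + 1)| * un (d (j + 1)).1 x := fun x => by
        unfold un; split_ifs <;> simp
      simp only [a2, ← mul_sum, sum_unR, mul_one]
    have a2 : ∑ j ∈ range L, |s j + s (j + 1)| ≤
        (#((range L).filter fun j => j ∈ Fo ∨ (j + 1) % L ∈ Fo) : ℕ) := by
      rw [card_filter]; push_cast
      exact sum_le_sum fun j hj => (key j (mem_range.1 hj)).2.2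
    have a3 : #((range L).filter fun j => j ∈ Fo ∨ (j + 1) % L ∈ Fo) ≤ 2 * #Fo := by
      rw [filter_or]
      refine (card_union_le _ _).trans ?_
      have a4 : #((range L).filter fun j => j ∈ Fo) ≤ #Fo :=
        card_le_card fun j hj => (mem_filter.1 hj).2
      have a5 : #((range L).filter fun j => (j + 1) % L ∈ Fo) ≤ #Fo := by
        refine card_le_card_of_injOn (fun j => (j + 1) % L) (fun j hj => by
          simpa using (mem_filter.1 (mem_coe.1 hj)).2) fun i hi j hj hij => ?_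
        have hi' := mem_range.1 (mem_filter.1 (mem_coe.1 hi)).1
        have hj' := mem_range.1 (mem_filter.1 (mem_coe.1 hj)).1
        have h3 : i % L = j % L := Nat.ModEq.add_right_cancel' 1 hij
        rwa [Nat.mod_eq_of_lt hi', Nat.mod_eq_of_lt hj'] at h3
      exact (add_le_add a4 a5).trans (by omega)
    have a4 : ((#((range L).filter fun j => j ∈ Fo ∨ (j + 1) % L ∈ Fo) : ℕ) : ℤ) ≤
        ((84 * m + 8 : ℕ) : ℤ) := by exact_mod_cast (by omega)
    exact a1.trans (a2.trans a4)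
  · have a1 : (E ∆ sl Prod.swap d I1) ∆ (E ∆ sl Prod.swap d I) = sl Prod.swap d (I1 ∆ I) := by
      rw [hC.sl_xor hI1L h1]
      ext x; simp only [mem_xor]; tauto
    have a2 : I1 ∆ I ⊆ Fo ∪ I ∆ I0 := by
      intro j hj
      by_cases c1 : j ∈ Fo
      · exact mem_union_left _ c1
      · refine mem_union_right _ ?_
        rw [mem_xor] at hj ⊢
        have c2 : j ∈ I1 ↔ j ∈ I0 := by
          rw [hI1, mem_filter, if_neg c1]
          exact ⟨fun h => h.2, fun h => ⟨h4 h, h⟩⟩
        tauto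
    have a3 := (card_le_card a2).trans (card_union_le _ _)
    have a4 := card_sl (d := d) (I1 ∆ I)
    rw [a1]
    omega

lemma st_of_nice [Fintype V] {k : V → ℤ} (hE : E ∈ GG k) (hL : IsEnd P d L L) {I : Finset ℕ}
    (h : Nice P d L 5 I) {X Z : Gr V} (hX : #X ≤ 8) (hZ : Z = G ∆ sl Prod.swap d I ∆ X)
    (hk : Z ∈ GG k) : St k P 6 428 G E d L Z := by
  refine ⟨hk, _, hC.subArc_of_nice h, ?_, hC.good_of_nice hE hL h⟩
  have : Z ∆ (G ∆ sl Prod.swap d I) = X := by
    rw [hZ]; ext x; simp only [mem_xor]; tauto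
  rw [this]; omega

end Circ

end Pool.Agent.MP_c319e0_lc

end

-- part MP_c319e0_lc.RouteC
section

/-! One step of the route. -/

namespace Pool.Agent.MP_c319e0_lc
open Finset
open scoped symmDiff

variable {V : Type} [DecidableEq V] {G E : Gr V} {d : ℕ → V × V} {L : ℕ} {P : Finset V}

/-- the chord from the base vertex -/
def ch (d : ℕ → V × V) (x : ℕ) : Gr V := ed (d 0).1 (d x).1

/-- initial segment together with its chord -/
def AA (d : ℕ → V × V) (x : ℕ) : Gr V := sl Prod.swap d (range x) ∆ ch d x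

/-- usable chords -/
structure JJ (P : Finset V) (d : ℕ → V × V) (L i : ℕ) : Prop where
  odd : i % 2 = 1
  lt : i < L
  ne : (d 0).1 ≠ (d i).1
  out : ((d 0).1, (d i).1) ∉ sl Prod.swap d (Ico 1 (L - 1))
  near : NearR P d L 12 i

omit [DecidableEq V] in
lemma NearR.mono {D D' x y : ℕ} (h : NearR P d L D x) (h1 : y + D ≤ x + D') (h2 : x + D ≤ y + D') :
    NearR P d L D' y := by
  obtain ⟨l, hl, a, b⟩ := h
  exact ⟨l, hl, by omega, by omega⟩

lemma sgn_xor_of_notMem {Y X : Gr V} {x : V × V} (h : x ∉ X) : sgn (Y ∆ X) x = sgn Y x := by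
  simp [sgn, mem_xor, h]

lemma sgn_xor_of_mem {Y X : Gr V} {x : V × V} (h : x ∈ X) : sgn (Y ∆ X) x = -sgn Y x := by
  by_cases h1 : x ∈ Y <;> simp [sgn, mem_xor, h, h1]

lemma ed_sub_KK [Fintype V] {A B : Finset V} {x y : V} (h : x ≠ y)
    (h1 : (x ∈ A ∧ y ∈ B) ∨ (x ∈ B ∧ y ∈ A)) : ed x y ⊆ KK A B := by
  intro e he
  rcases mem_ed.1 he with rfl | rfl
  · exact mem_KK.2 ⟨h, h1⟩
  · exact mem_KK.2 ⟨h.symm, by tauto⟩

lemma xor_subset {β : Type} [DecidableEq β] {A B C : Finset β} (h1 : A ⊆ C) (h2 : B ⊆ C) :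
    A ∆ B ⊆ C := (symmDiff_le_sup (a := A) (b := B)).trans (union_subset h1 h2)

lemma xor_ac1 {β : Type} [DecidableEq β] (a b c p q x y : Finset β) :
    (a ∆ b ∆ c) ∆ (p ∆ q ∆ x ∆ y) = (p ∆ a) ∆ (b ∆ q) ∆ c ∆ x ∆ y := by ac_rfl

lemma xor_ac2 {β : Type} [DecidableEq β] (g i x a b c : Finset β) :
    g ∆ i ∆ x ∆ (a ∆ b ∆ c) = g ∆ (i ∆ a ∆ b) ∆ (x ∆ c) := by ac_rfl

namespace Circ

variable (hC : Circ Prod.swap Prod.fst G E d L)
include hC

lemma sl_sub {K : Gr V} {I : Finset ℕ} (h : ∀ i ∈ I, ed (d i).1 (d (i + 1)).1 ⊆ K) :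
    sl Prod.swap d I ⊆ K := by
  intro x hx
  obtain ⟨i, hi, hx⟩ := (mem_sl _).1 hx
  apply h i hi
  rw [← hC.sl_single]
  exact (mem_sl _).2 ⟨i, mem_singleton_self _, hx⟩

omit hC in
lemma d_notin_ch {x i : ℕ} (hx : JJ P d L x) (h1 : 1 ≤ i) (h2 : i < L - 1) : d i ∉ ch d x := by
  have h3 : d i ∈ sl Prod.swap d (Ico 1 (L - 1)) := (mem_sl _).2 ⟨i, mem_Ico.2 ⟨h1, h2⟩, Or.inl rfl⟩
  intro h
  rcases mem_ed.1 h with h | h
  · exact hx.out (h ▸ h3)
  · apply hx.out
    rw [← swap_mem_sl, Prod.swap_prod_mk, ← h]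
    exact h3

lemma ch_ne {p q : ℕ} (hp : JJ P d L p) (hq : JJ P d L q) (h : p ≠ q) :
    ((d 0).1, (d q).1) ∉ ch d p := by
  intro h1
  rcases mem_ed.1 h1 with h1 | h1 <;> rw [Prod.mk.injEq] at h1
  · exact h (hC.v_inj hp.lt hq.lt (hp.odd.trans hq.odd.symm) h1.2.symm)
  · exact hq.ne h1.2.symm

lemma ch_notin_sl {q x : ℕ} (hq : JJ P d L q) (h1 : 1 < q) (hx : x ≤ L - 1) :
    ((d 0).1, (d q).1) ∉ sl Prod.swap d (range x) := by
  intro h
  obtain ⟨i, hi, h⟩ := (mem_sl _).1 h
  have hi' := mem_range.1 hi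
  rcases Nat.eq_zero_or_pos i with rfl | h0
  · have h2 := hC.eq_pair 0
    rcases h with h | h
    · have h3 : (d q).1 = (d 1).1 := congrArg Prod.snd (h.trans h2)
      have := hC.v_inj hq.lt (by have := hq.lt; omega) (by rw [hq.odd]) h3
      omega
    · exact hq.ne (congrArg Prod.snd h).symm
  · exact hq.out ((mem_sl _).2 ⟨i, mem_Ico.2 ⟨h0, by omega⟩, h⟩)

lemma AA_xor {q r : ℕ} (hqr : q ≤ r) (hr : r ≤ L) :
    AA d q ∆ AA d r = sl Prod.swap d (Ico q r) ∆ ch d q ∆ ch d r := by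
  rw [hC.sl_Ico hqr hr, AA, AA]
  ac_rfl

lemma flipT [Fintype V] {k : V → ℤ} {Y : Gr V} (hY : Y ∈ GG k) {q r : ℕ} (hq : JJ P d L q)
    (hr : JJ P d L r) (hqr : q < r) (hcol : ∀ i, q ≤ i → i < r → sgn Y (d i) = -1 * (-1) ^ i)
    (h1 : ((d 0).1, (d q).1) ∈ Y) (h2 : ((d 0).1, (d r).1) ∉ Y) :
    Y ∆ (AA d q ∆ AA d r) ∈ GG k := by
  obtain ⟨y1, y2⟩ := mem_GG.1 hY
  have hsub : sl Prod.swap d (Ico q r) ⊆ sl Prod.swap d (Ico 1 (L - 1)) :=
    sl_monoR (Ico_subset_Ico (by have := hq.odd; omega) (by have := hr.lt; omega))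
  have g1 := y1.symmDiff (hC.isG_sl (Ico q r))
  have g2 := g1.symmDiff (isG_ed hq.ne)
  rw [hC.AA_xor hqr.le hr.lt.le, ← symmDiff_assoc, ← symmDiff_assoc]
  refine mem_GG.2 ⟨g2.symmDiff (isG_ed hr.ne), fun x => ?_⟩
  have e1 := hC.ch_ne hq hr hqr.ne
  unfold ch at e1 ⊢
  rw [deg_symmDiff_ed g2 hr.ne, deg_symmDiff_ed g1 hq.ne,
    hC.deg_path y1 hqr.le hr.lt.le _ hcol, sgn_xor_of_notMem e1,
    sgn_xor_of_notMem (fun h => hr.out (hsub h)), sgn_xor_of_notMem (fun h => hq.out (hsub h)),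
    (Nat.odd_iff.2 hq.odd).neg_one_pow, (Nat.odd_iff.2 hr.odd).neg_one_pow, y2]
  simp only [sgn, if_pos h1, if_neg h2]
  ring

lemma flipU [Fintype V] {k : V → ℤ} {Y : Gr V} (hY : Y ∈ GG k) {a b : ℕ} (ha : a % 2 = 1)
    (hb : b % 2 = 0) (hab : a ≤ b) (hbL : b ≤ L) (ε : ℤ)
    (hcol : ∀ i, a ≤ i → i < b → sgn Y (d i) = ε * (-1) ^ i)
    (h1 : sgn Y ((d a).1, (d b).1) = ε) (h2 : ((d a).1, (d b).1) ∉ sl Prod.swap d (Ico a b))
    (h3 : (d a).1 ≠ (d b).1) :
    Y ∆ (sl Prod.swap d (Ico a b) ∆ ed (d a).1 (d b).1) ∈ GG k := by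
  obtain ⟨y1, y2⟩ := mem_GG.1 hY
  have g1 := y1.symmDiff (hC.isG_sl (Ico a b))
  rw [← symmDiff_assoc]
  refine mem_GG.2 ⟨g1.symmDiff (isG_ed h3), fun x => ?_⟩
  rw [deg_symmDiff_ed g1 h3, hC.deg_path y1 hab hbL _ hcol, sgn_xor_of_notMem h2, h1,
    (Nat.odd_iff.2 ha).neg_one_pow, (Nat.even_iff.2 hb).neg_one_pow, y2]
  ring

lemma no_link {q' q j : ℕ} (hq : q < L) (hcons : ∀ i, q' < i → i < q → ¬JJ P d L i)
    (h1 : q' < j) (h2 : j + 12 ≤ q) : ¬Lk P d j := by
  intro hl
  obtain ⟨B, hB, hB'⟩ := hC.exists_nb (d 0).1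
  obtain ⟨s, hs, hs'⟩ := hC.exists_avoid (insert (d 0).1 B) (2 * (j / 2) + 1) 6
    ((card_insert_le _ _).trans_lt (by omega)) (by omega)
  rw [mem_insert, not_or] at hs'
  refine hcons (2 * (j / 2) + 1 + 2 * s) (by omega) (by omega)
    ⟨by omega, by omega, Ne.symm hs'.1, fun h => hs'.2 (hB' _ (sl_monoR ?_ h)),
      j, ⟨by omega, Or.inl hl⟩, by omega, by omega⟩
  intro i hi
  have := mem_Ico.1 hi
  exact mem_range.2 (by omega)

lemma move [Fintype V] {k : V → ℤ} (hE : E ∈ GG k) (hL : IsEnd P d L L) {f : Gr V → ℝ} {M : ℝ}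
    (hM0 : 0 ≤ M)
    (hM : ∀ Z Z', St k P 6 428 G E d L Z → St k P 6 428 G E d L Z' → Mv P 428 Z Z' →
      |f Z - f Z'| ≤ M)
    {q' q : ℕ} (hq' : JJ P d L q') (hq : JJ P d L q) (hlt : q' < q)
    (hcons : ∀ i, q' < i → i < q → ¬JJ P d L i) {Y Y' X X' : Gr V} {I I' : Finset ℕ}
    (hI : Nice P d L 3 I) (hI' : Nice P d L 3 I') (hX : #X ≤ 6) (hX' : #X' ≤ 6)
    (e : Y = G ∆ sl Prod.swap d I ∆ X) (e' : Y' = G ∆ sl Prod.swap d I' ∆ X')
    (hY : Y ∈ GG k) (hY' : Y' ∈ GG k) (hYY : Y ∆ Y' = AA d q' ∆ AA d q)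
    (hcol : ∀ i, q' ≤ i → i < q → sgn Y (d i) = -1 * (-1) ^ i) : |f Y - f Y'| ≤ 2 * M := by
  have s1 := hC.st_of_nice hE hL (hI.mono (by norm_num)) (hX.trans (by norm_num)) e hY
  have s2 := hC.st_of_nice hE hL (hI'.mono (by norm_num)) (hX'.trans (by norm_num)) e' hY'
  have hqL := hq.lt
  have oq := hq.odd
  have oq' := hq'.odd
  rw [hC.AA_xor hlt.le hqL.le] at hYY
  have small : ∀ (S : Finset V) (a b : ℕ), (∀ i, a ≤ i → i ≤ b → (d i).1 ∈ S) →
      sl Prod.swap d (Ico a b) ⊆ KK S S := fun S a b h =>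
    hC.sl_sub fun i hi => ed_sub_KK (hC.ne i) (Or.inl
      ⟨h i (mem_Ico.1 hi).1 (mem_Ico.1 hi).2.le,
        h (i + 1) (by have := (mem_Ico.1 hi).1; omega) (mem_Ico.1 hi).2⟩)
  rcases Nat.lt_or_ge q (q' + 30) with h30 | h30
  · have h1 : ∀ i, q' ≤ i → i ≤ q → (d i).1 ∈ insert (d 0).1 ((Icc q' q).image fun i => (d i).1) :=
      fun i h1 h2 => mem_insert_of_mem (mem_image_of_mem _ (mem_Icc.2 ⟨h1, h2⟩))
    have := hM Y Y' s1 s2 (Or.inr ⟨insert (d 0).1 ((Icc q' q).image fun i => (d i).1),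
      (card_insert_le _ _).trans (by
        have := card_image_le (s := Icc q' q) (f := fun i => (d i).1)
        rw [Nat.card_Icc] at this
        omega), by
      rw [hYY]
      exact xor_subset (xor_subset (small _ _ _ h1)
        (ed_sub_KK hq'.ne (Or.inl ⟨mem_insert_self _ _, h1 _ le_rfl hlt.le⟩)))
        (ed_sub_KK hq.ne (Or.inl ⟨mem_insert_self _ _, h1 _ hlt.le le_rfl⟩))⟩)
    linarith
  · obtain ⟨B, hB, hB'⟩ := hC.exists_nb (d (q' + 2)).1
    obtain ⟨s, hs, hs'⟩ := hC.exists_avoid (insert (d q').1 (insert (d q).1 B)) (q - 27) 7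
      ((card_insert_le _ _).trans_lt (by have := card_insert_le (d q).1 B; omega)) (by omega)
    set a := q' + 2 with ha
    set b := q - 27 + 2 * s with hb
    simp only [mem_insert, not_or] at hs'
    have nl : ∀ j, a ≤ j → j < b → ¬Lk P d j := fun j h1 h2 =>
      hC.no_link hqL hcons (by omega) (by omega)
    have par : ∀ n, a + n ≤ b → (((d (a + n)).1 ∈ P ↔ (d a).1 ∈ P) ↔ n % 2 = 0) := by
      intro n
      induction n with
      | zero => simp
      | succ n ih =>
        intro h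
        have h1 := ih (by omega)
        have h2 := nl (a + n) (by omega) (by omega)
        have h3 : (n + 1) % 2 = 0 ↔ ¬n % 2 = 0 := by omega
        unfold Lk at h2
        rw [← add_assoc, h3]
        tauto
    have opp : ¬((d b).1 ∈ P ↔ (d a).1 ∈ P) := by
      have := par (b - a) (by omega)
      rw [show a + (b - a) = b by omega] at this
      rw [this]; omega
    have hne : (d a).1 ≠ (d b).1 := fun h => opp (by rw [h])
    have c1 : ((d a).1, (d b).1) ∉ sl Prod.swap d (range L) := fun h => hs'.2.2 (hB' _ h)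
    have c2 : ∀ x y, y ≤ L → ((d a).1, (d b).1) ∉ sl Prod.swap d (Ico x y) := fun x y hy h =>
      c1 (sl_monoR (fun i hi => mem_range.2 (by have := (mem_Ico.1 hi).2; omega)) h)
    have c3 : ∀ x, x % 2 = 1 → x < L → x ≠ a → (d b).1 ≠ (d x).1 →
        ((d a).1, (d b).1) ∉ ch d x := by
      intro x h1 h2 h3 h4 h
      rcases mem_ed.1 h with h | h <;> rw [Prod.mk.injEq] at h
      · exact h4 h.2
      · exact h3 (hC.v_inj h2 (by omega) (by omega) h.1.symm)
    have hU : sl Prod.swap d (Ico a b) ∆ ed (d a).1 (d b).1 ⊆ KK P Pᶜ := by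
      refine xor_subset (hC.sl_sub fun i hi => ed_sub_KK (hC.ne i) ?_) (ed_sub_KK hne ?_)
      · have := nl i (mem_Ico.1 hi).1 (mem_Ico.1 hi).2
        unfold Lk at this
        simp only [mem_compl]; tauto
      · simp only [mem_compl]; tauto
    set U := sl Prod.swap d (Ico a b) ∆ ed (d a).1 (d b).1 with hUdef
    set S := insert (d 0).1 ((Icc q' a ∪ Icc b q).image fun i => (d i).1) with hS
    have hSc : #S ≤ 428 := (card_insert_le _ _).trans (by
      have h1 := card_image_le (s := Icc q' a ∪ Icc b q) (f := fun i => (d i).1)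
      have h2 := card_union_le (Icc q' a) (Icc b q)
      rw [Nat.card_Icc, Nat.card_Icc] at h2
      omega)
    have hS1 : ∀ i, q' ≤ i → i ≤ a → (d i).1 ∈ S := fun i h1 h2 =>
      mem_insert_of_mem (mem_image_of_mem _ (mem_union_left _ (mem_Icc.2 ⟨h1, h2⟩)))
    have hS2 : ∀ i, b ≤ i → i ≤ q → (d i).1 ∈ S := fun i h1 h2 =>
      mem_insert_of_mem (mem_image_of_mem _ (mem_union_right _ (mem_Icc.2 ⟨h1, h2⟩)))
    have hrest : U ∆ (Y ∆ Y') ⊆ KK S S := by
      have e1 : U ∆ (Y ∆ Y') = sl Prod.swap d (Ico q' a) ∆ sl Prod.swap d (Ico b q) ∆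
          ed (d a).1 (d b).1 ∆ ch d q' ∆ ch d q := by
        rw [hYY, hUdef, hC.sl_Ico (show a ≤ b by omega) (by omega), hC.sl_Ico hlt.le hqL.le,
          hC.sl_Ico (show q' ≤ a by omega) (by omega), hC.sl_Ico (show b ≤ q by omega) hqL.le]
        exact xor_ac1 _ _ _ _ _ _ _
      rw [e1]
      exact xor_subset (xor_subset (xor_subset (xor_subset (small _ _ _ hS1) (small _ _ _ hS2))
        (ed_sub_KK hne (Or.inl ⟨hS1 _ (by omega) le_rfl, hS2 _ le_rfl (by omega)⟩)))
        (ed_sub_KK hq'.ne (Or.inl ⟨mem_insert_self _ _, hS1 _ le_rfl (by omega)⟩)))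
        (ed_sub_KK hq.ne (Or.inl ⟨mem_insert_self _ _, hS2 _ (by omega) le_rfl⟩))
    have main : ∀ (Y Y' X : Gr V) (I : Finset ℕ), Nice P d L 3 I → #X ≤ 6 →
        Y = G ∆ sl Prod.swap d I ∆ X → St k P 6 428 G E d L Y → St k P 6 428 G E d L Y' →
        U ∆ (Y ∆ Y') ⊆ KK S S → Y ∆ U ∈ GG k → |f Y - f Y'| ≤ 2 * M := by
      intro Y Y' X I hI hX e s1 s2 hrest hW
      have n1 := hI.step (x := a) (by omega) (hq'.near.mono (by omega) (by omega))
      have n2 := n1.step (x := b) (by omega) (hq.near.mono (by omega) (by omega))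
      have s3 := hC.st_of_nice hE hL n2 (X := X ∆ ed (d a).1 (d b).1) (Z := Y ∆ U)
        ((card_xor_le _ _).trans (by have := card_ed (d a).1 (d b).1; omega)) (by
          rw [e, hUdef, hC.sl_Ico (show a ≤ b by omega) (by omega),
            hC.sl_xor n1.1 (range_mono (by omega)), hC.sl_xor hI.1 (range_mono (by omega))]
          exact xor_ac2 _ _ _ _ _ _) hW
      have m1 := hM _ _ s1 s3 (Or.inl (by rwa [symmDiff_symmDiff_cancel_left]))
      have m2 := hM _ _ s3 s2 (Or.inr ⟨S, hSc, by rwa [symmDiff_comm Y U, symmDiff_assoc]⟩)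
      have := abs_sub_le (f Y) (f (Y ∆ U)) (f Y')
      linarith
    by_cases hc : ((d a).1, (d b).1) ∈ Y
    · exact main Y Y' X I hI hX e s1 s2 hrest (hC.flipU hY (by omega) (by omega) (by omega)
        (by omega) (-1) (fun i h1 h2 => hcol i (by omega) (by omega)) (by simp [sgn, hc])
        (c2 _ _ (by omega)) hne)
    · have e2 : Y' = Y ∆ sl Prod.swap d (Ico q' q) ∆ ch d q' ∆ ch d q := by
        rw [symmDiff_assoc, symmDiff_assoc, ← symmDiff_assoc (sl _ _ _), ← hYY,
          symmDiff_symmDiff_cancel_left]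
      rw [abs_sub_comm]
      refine main Y' Y X' I' hI' hX' e' s2 s1 (by rwa [symmDiff_comm Y' Y])
        (hC.flipU hY' (by omega) (by omega) (by omega) (by omega) 1 (fun i h1 h2 => ?_) ?_
          (c2 _ _ (by omega)) hne)
      · rw [e2, sgn_xor_of_notMem (d_notin_ch hq (by omega) (by omega)),
          sgn_xor_of_notMem (d_notin_ch hq' (by omega) (by omega)),
          sgn_xor_of_mem ((mem_sl _).2 ⟨i, mem_Ico.2 ⟨by omega, by omega⟩, Or.inl rfl⟩),
          hcol i (by omega) (by omega)]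
        ring
      · rw [e2, sgn_xor_of_notMem (c3 q oq hqL (by omega) hs'.2.1),
          sgn_xor_of_notMem (c3 q' oq' (by omega) (by omega) hs'.1),
          sgn_xor_of_notMem (c2 _ _ hqL.le)]
        simp [sgn, hc]

end Circ

end Pool.Agent.MP_c319e0_lc

end

-- part MP_c319e0_lc.Route
section

/-! The route along a primitive circuit. -/

namespace Pool.Agent.MP_c319e0_lc
open Finset
open scoped symmDiff

theorem circ_flip {V : Type} [Fintype V] [DecidableEq V] {k : V → ℤ} {G E : Gr V}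
    {d : ℕ → V × V} {L : ℕ} (hG : G ∈ GG k) (hE : E ∈ GG k)
    (hC : Circ Prod.swap Prod.fst G E d L) :
    G ∆ sl Prod.swap d (range L) ∈ GG k ∧ E ∆ sl Prod.swap d (range L) ∈ GG k :=
  circ_flip' hG hE hC

section

variable {V : Type} [DecidableEq V] {G E : Gr V} {d : ℕ → V × V} {L : ℕ} {P : Finset V}

lemma xor_ac3 {β : Type} [DecidableEq β] (g a b c x y z : Finset β) :
    g ∆ (a ∆ x) ∆ ((b ∆ y) ∆ (c ∆ z)) = g ∆ (a ∆ b ∆ c) ∆ (x ∆ y ∆ z) := by ac_rfl

lemma xor_ac4 {β : Type} [DecidableEq β] (h a b c : Finset β) :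
    (h ∆ (b ∆ c)) ∆ (h ∆ (a ∆ c)) = a ∆ b := by
  ext x; simp only [mem_xor]; tauto

lemma xor_ac5 {β : Type} [DecidableEq β] (g a b : Finset β) : g ∆ a ∆ (a ∆ b) = g ∆ b := by
  ext x; simp only [mem_xor]; tauto

lemma xor_self' {β : Type} [DecidableEq β] (a : Finset β) : a ∆ a = ∅ := symmDiff_self a

namespace Circ

variable (hC : Circ Prod.swap Prod.fst G E d L)
include hC

lemma two_le : 2 ≤ L := by
  have := hC.pos
  have := Nat.even_iff.1 hC.even
  omega

lemma jj_one (hl : Lk P d 0 ∨ Lk P d (L - 1)) : JJ P d L 1 := by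
  have h2 := hC.two_le
  refine ⟨rfl, by omega, hC.ne 0, ?_, 0, ⟨by omega, by simpa using hl⟩, by omega, by omega⟩
  have h := hC.eq_pair 0
  rw [zero_add] at h
  rw [← h, hC.d_mem_sl' (fun i hi => mem_range.2 (by have := (mem_Ico.1 hi).2; omega)) hC.pos]
  simp

lemma last_pair : ((d 0).1, (d (L - 1)).1) = (d (L - 1)).swap := by
  have h2 := hC.two_le
  have h0 : d L = d 0 := by simpa using hC.per 0
  conv_rhs => rw [hC.eq_pair (L - 1), show L - 1 + 1 = L by omega, h0]
  rfl

lemma isEnd_L (hl : Lk P d 0 ∨ Lk P d (L - 1)) : IsEnd P d L L := by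
  have h2 := hC.two_le
  refine ⟨le_rfl, hl.imp (fun h => ?_) fun h => ?_⟩
  · have := (hC.lk_per (P := P) 0).2 h
    rwa [zero_add] at this
  · rw [show L + L - 1 = L - 1 + L by omega, hC.lk_per]; exact h

lemma jj_last (hl : Lk P d 0 ∨ Lk P d (L - 1)) : JJ P d L (L - 1) := by
  have h2 := hC.two_le
  have h3 := Nat.even_iff.1 hC.even
  have h0 : d L = d 0 := by simpa using hC.per 0
  refine ⟨by omega, by omega, ?_, ?_, L, hC.isEnd_L hl, by omega, by omega⟩
  · have := hC.ne (L - 1)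
    rw [show L - 1 + 1 = L by omega, h0] at this
    exact this.symm
  · rw [hC.last_pair, swap_mem_sl,
      hC.d_mem_sl' (fun i hi => mem_range.2 (by have := (mem_Ico.1 hi).2; omega)) (by omega)]
    simp

lemma AA_one : AA d 1 = ∅ := by
  rw [AA, range_one, hC.sl_single, ch, zero_add, xor_self']

lemma AA_last : AA d (L - 1) = sl Prod.swap d (range L) := by
  have h2 := hC.two_le
  have h0 : d L = d 0 := by simpa using hC.per 0
  have h1 : range L = range (L - 1) ∆ {L - 1} := by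
    ext x; simp only [mem_xor, mem_range, mem_singleton]; omega
  rw [h1, hC.sl_xor (range_mono (by omega)) (by simp; omega), hC.sl_single,
    show L - 1 + 1 = L by omega, h0, AA, ch, ed_comm]

lemma route_core [Fintype V] {k : V → ℤ} (hG : G ∈ GG k) (hE : E ∈ GG k) (h0 : d 0 ∈ G)
    (hl : Lk P d 0 ∨ Lk P d (L - 1)) {f : Gr V → ℝ} {M : ℝ} (hM0 : 0 ≤ M)
    (hM : ∀ Z Z', St k P 6 428 G E d L Z → St k P 6 428 G E d L Z' → Mv P 428 Z Z' →
      |f Z - f Z'| ≤ M) :
    |f G - f (G ∆ sl Prod.swap d (range L))| ≤ 2 * L * M := by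
  classical
  have h2 := hC.two_le
  have hL := hC.isEnd_L hl
  have jL := hC.jj_last hl
  have col : ∀ i, sgn G (d i) = -1 * (-1) ^ i := fun i => by
    rw [hC.sgn_G]; simp [sgn, h0]
  have outL : ((d 0).1, (d (L - 1)).1) ∉ G := by
    rw [hC.last_pair]
    intro h
    have h3 : d (L - 1) ∈ G := by simpa using (mem_GG.1 hG).1.1 _ h
    have h4 := col (L - 1)
    rw [(Nat.odd_iff.2 jL.odd).neg_one_pow] at h4
    simp [sgn, h3] at h4
  have form : ∀ p q r, JJ P d L p → JJ P d L q → JJ P d L r → ∃ I X, Nice P d L 3 I ∧ #X ≤ 6 ∧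
      G ∆ AA d p ∆ (AA d q ∆ AA d r) = G ∆ sl Prod.swap d I ∆ X := by
    intro p q r hp hq hr
    have n1 := (nice_empty (P := P) (d := d) (L := L)).step hp.lt.le
      (hp.near.mono (by omega) (by omega))
    have n2 := n1.step hq.lt.le (hq.near.mono (by omega) (by omega))
    have n3 := n2.step hr.lt.le (hr.near.mono (by omega) (by omega))
    refine ⟨_, ch d p ∆ ch d q ∆ ch d r, n3, ?_, ?_⟩
    · have a1 := card_xor_le (ch d p ∆ ch d q) (ch d r)
      have a2 := card_xor_le (ch d p) (ch d q)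
      have a3 : ∀ x, #(ch d x) ≤ 2 := fun x => card_ed _ _
      have := a3 p
      have := a3 q
      have := a3 r
      omega
    · rw [hC.sl_xor n2.1 (range_mono hr.lt.le), hC.sl_xor n1.1 (range_mono hq.lt.le),
        symmDiff_comm ∅, xor_empty]
      exact xor_ac3 _ _ _ _ _ _ _
  have outer : ∀ n p, L - 1 - p = n → JJ P d L p → G ∆ AA d p ∈ GG k →
      ((d 0).1, (d p).1) ∈ G ∆ AA d p →
      |f (G ∆ AA d p) - f (G ∆ AA d (L - 1))| ≤ 2 * (n : ℝ) * M := by
    intro n
    induction n using Nat.strong_induction_on with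
    | _ n ih =>
    intro p hn hp hk hin
    have hpL := hp.lt
    have op := hp.odd
    rcases Nat.eq_zero_or_pos n with rfl | hn0
    · rw [show p = L - 1 by omega]; simp
    have ex : ∃ r, p < r ∧ JJ P d L r ∧ ((d 0).1, (d r).1) ∉ G := ⟨L - 1, by omega, jL, outL⟩
    obtain ⟨hpr, hr, hrG⟩ := Nat.find_spec ex
    have hmin : ∀ q, q < Nat.find ex → p < q → JJ P d L q → ((d 0).1, (d q).1) ∈ G := by
      intro q h1 h3 h4
      by_contra h5
      exact Nat.find_min ex h1 ⟨h3, h4, h5⟩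
    generalize Nat.find ex = r at hpr hr hrG hmin
    have hrL := hr.lt
    have colH : ∀ i, p ≤ i → i < L - 1 → sgn (G ∆ AA d p) (d i) = -1 * (-1) ^ i := by
      intro i h1 h3
      rw [AA, ← symmDiff_assoc, sgn_xor_of_notMem (d_notin_ch hp (by omega) h3),
        sgn_xor_of_notMem (by
          rw [hC.d_mem_sl' (range_mono (by omega)) (by omega), mem_range]; omega), col]
    have chH : ∀ q, JJ P d L q → p < q →
        (((d 0).1, (d q).1) ∈ G ∆ AA d p ↔ ((d 0).1, (d q).1) ∈ G) := by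
      intro q hq h1
      have a1 := hC.ch_ne hp hq h1.ne
      have a2 := hC.ch_notin_sl hq (by omega) (show p ≤ L - 1 by omega)
      simp [AA, mem_xor, a1, a2]
    have inGG : ∀ q, JJ P d L q → p ≤ q → q ≤ r → G ∆ AA d p ∆ (AA d q ∆ AA d r) ∈ GG k := by
      intro q hq h1 h3
      rcases h3.eq_or_lt with rfl | h3
      · rwa [xor_self', xor_empty]
      refine hC.flipT hk hq hr h3 (fun i a1 a2 => colH i (by omega) (by omega)) ?_
        (by rwa [chH r hr hpr])
      rcases h1.eq_or_lt with rfl | h1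
      · exact hin
      · exact (chH q hq h1).2 (hmin q h3 h1 hq)
    have inner : ∀ m q, r - q = m → JJ P d L q → p ≤ q → q ≤ r →
        |f (G ∆ AA d p) - f (G ∆ AA d p ∆ (AA d q ∆ AA d r))| ≤ 2 * (m : ℝ) * M := by
      intro m
      induction m using Nat.strong_induction_on with
      | _ m ihm =>
      intro q hm hq h1 h3
      rcases h3.eq_or_lt with rfl | h3
      · rw [xor_self', xor_empty, sub_self, abs_zero]; positivity
      have ex2 : ∃ t, q < t ∧ JJ P d L t := ⟨r, h3, hr⟩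
      obtain ⟨hqt, ht⟩ := Nat.find_spec ex2
      have htr : Nat.find ex2 ≤ r := Nat.find_min' ex2 ⟨h3, hr⟩
      have hcons : ∀ i, q < i → i < Nat.find ex2 → ¬JJ P d L i := fun i a1 a2 a3 =>
        Nat.find_min ex2 a2 ⟨a1, a3⟩
      generalize Nat.find ex2 = t at hqt ht htr hcons
      have b1 := ihm (r - t) (by omega) t rfl ht (by omega) htr
      obtain ⟨I, X, c1, c2, c3⟩ := form p t r hp ht hr
      obtain ⟨I', X', c1', c2', c3'⟩ := form p q r hp hq hr
      have b2 := hC.move hE hL hM0 hM hq ht hqt hcons c1 c1' c2 c2' c3 c3'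
        (inGG t ht (by omega) htr) (inGG q hq h1 h3.le) (xor_ac4 _ _ _ _) (by
          intro i a1 a2
          rw [hC.AA_xor htr hrL.le, ← symmDiff_assoc, ← symmDiff_assoc,
            sgn_xor_of_notMem (d_notin_ch hr (by omega) (by omega)),
            sgn_xor_of_notMem (d_notin_ch ht (by omega) (by omega)),
            sgn_xor_of_notMem (by
              rw [hC.d_mem_sl' (fun j hj => mem_range.2 (by have := (mem_Ico.1 hj).2; omega))
                (by omega), mem_Ico]; omega), colH i (by omega) (by omega)])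
      have b3 : ((r - t : ℕ) : ℝ) + 1 ≤ m := by exact_mod_cast (by omega)
      have b4 := abs_sub_le (f (G ∆ AA d p)) (f (G ∆ AA d p ∆ (AA d t ∆ AA d r)))
        (f (G ∆ AA d p ∆ (AA d q ∆ AA d r)))
      nlinarith
    have d1 := inner (r - p) p rfl hp le_rfl hpr.le
    have d2 := inGG p hp le_rfl hpr.le
    rw [xor_ac5] at d1 d2
    have d3 := ih (L - 1 - r) (by omega) r rfl hr d2 (by
      have a2 := hC.ch_notin_sl hr (by omega) (show r ≤ L - 1 by omega)
      have a3 : ((d 0).1, (d r).1) ∈ ch d r := mem_ed.2 (Or.inl rfl)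
      simp [AA, mem_xor, hrG, a2, a3])
    have d4 : ((r - p : ℕ) : ℝ) + ((L - 1 - r : ℕ) : ℝ) = n := by exact_mod_cast (by omega)
    have d5 := abs_sub_le (f (G ∆ AA d p)) (f (G ∆ AA d r)) (f (G ∆ AA d (L - 1)))
    rw [← d4]
    linarith
  have e1 := outer _ 1 rfl (hC.jj_one hl) (by rwa [hC.AA_one, xor_empty]) (by
    have h := hC.eq_pair 0
    rw [zero_add] at h
    rwa [hC.AA_one, xor_empty, ← h])
  rw [hC.AA_one, xor_empty, hC.AA_last] at e1
  have e2 : ((L - 1 - 1 : ℕ) : ℝ) ≤ L := by exact_mod_cast (by omega)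
  nlinarith

end Circ

end

theorem route : ∃ b c : ℕ, ∀ (V : Type) [Fintype V] [DecidableEq V] (k : V → ℤ) (P : Finset V)
    (G E : Gr V) (d : ℕ → V × V) (L : ℕ) (f : Gr V → ℝ) (M : ℝ), G ∈ GG k → E ∈ GG k →
    Circ Prod.swap Prod.fst G E d L → 0 ≤ M →
    (∀ Z Z', St k P b c G E d L Z → St k P b c G E d L Z' → Mv P c Z Z' → |f Z - f Z'| ≤ M) →
    |f G - f (G ∆ sl Prod.swap d (range L))| ≤ 2 * L * M := by
  refine ⟨6, 428, fun V _ _ k P G E d L f M hG hE hC hM0 hM => ?_⟩
  have h2 := hC.two_le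
  by_cases hl : ∃ q, Lk P d q
  · obtain ⟨q, hq⟩ := hl
    have rot : ∀ c, d c ∈ G → (Lk P (fun i => d (i + c)) 0 ∨ Lk P (fun i => d (i + c)) (L - 1)) →
        |f G - f (G ∆ sl Prod.swap d (range L))| ≤ 2 * L * M := by
      intro c h0 hl
      rw [← hC.sl_rotate c]
      refine (hC.rotate c).route_core hG hE (by simpa using h0) hl hM0 fun Z Z' a1 a2 a3 =>
        hM Z Z' ?_ ?_ a3
      · obtain ⟨b1, F, b2, b3⟩ := a1
        exact ⟨b1, F, hC.subArc_rotate b2, b3⟩
      · obtain ⟨b1, F, b2, b3⟩ := a2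
        exact ⟨b1, F, hC.subArc_rotate b2, b3⟩
    by_cases h : d q ∈ G
    · refine rot q h (Or.inl ?_)
      simpa [Lk, add_comm] using hq
    · refine rot (q + 1) ((hC.alt q).2 h) (Or.inr ?_)
      have := (hC.lk_per (P := P) q).2 hq
      unfold Lk at this ⊢
      simp only
      rwa [show L - 1 + (q + 1) = q + L by omega, show L - 1 + 1 + (q + 1) = q + L + 1 by omega]
  · push Not at hl
    obtain ⟨f1, f2⟩ := circ_flip hG hE hC
    have good : ∀ Y : Gr V, Y ∈ GG k → Good k P 428 Y := fun Y hY =>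
      ⟨Y, 0, by simpa using hY, by simp, by simp, by simp, by simp [xor_self']⟩
    have s1 : St k P 6 428 G E d L G :=
      ⟨hG, ∅, ⟨empty_subset _, by simp, ∅, by simp, by simp⟩, by simp [xor_empty, xor_self'],
        by rw [xor_empty]; exact good E hE⟩
    have s2 : St k P 6 428 G E d L (G ∆ sl Prod.swap d (range L)) :=
      ⟨f1, _, ⟨subset_rfl, fun x hx => swap_mem_sl.2 hx, ∅, by simp, fun i hi => by
        simp [hC.d_mem_sl subset_rfl, Nat.mod_lt _ hC.pos] at hi⟩, by simp [xor_self'],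
        good _ f2⟩
    have h3 := hM _ _ s1 s2 (Or.inl (by
      rw [symmDiff_symmDiff_cancel_left]
      refine hC.sl_sub fun i _ => ed_sub_KK (hC.ne i) ?_
      have := hl i
      unfold Lk at this
      simp only [mem_compl]; tauto))
    have h4 : (2 : ℝ) ≤ L := by exact_mod_cast h2
    nlinarith

end Pool.Agent.MP_c319e0_lc

end
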