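import Pool.Agent.MP_c319e0_lc.Mg.Three
import Pool.Agent.MP_c319e0_lc.Mg.Route
import Pool.Agent.MP_c319e0_lc.Defs

-- part MP_c319e0_lc.Knabe
section

/-! Spectral gap of bipartite blocks and local energies. -/

namespace Pool.Agent.MP_c319e0_lc
open Finset
open scoped symmDiff

variable {V : Type} [Fintype V] [DecidableEq V]

lemma kn_mix {k : V → ℤ} {F F' G Y W : Gr V} (hF : Disjoint F F') (hG : G ∈ GG k)
    (hY : Y ∈ blk k F G) (hW : W ∈ blk k F' G) : W ∆ (G ∆ Y) ∈ blk k F' Y := by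
  obtain ⟨hY, hGY⟩ := mem_blk.1 hY
  obtain ⟨hW, hGW⟩ := mem_blk.1 hW
  obtain ⟨g1, d1⟩ := mem_GG.1 hG
  obtain ⟨g2, d2⟩ := mem_GG.1 hY
  obtain ⟨g3, d3⟩ := mem_GG.1 hW
  refine mem_blk.2 ⟨mem_GG.2 ⟨g3.symmDiff (g1.symmDiff g2), fun v => ?_⟩, fun d hd => hGW ?_⟩
  · have h1 := deg_symmDiff G (G ∆ Y) v
    rw [conn_cancel, d1, d2] at h1
    rw [deg_symmDiff, d3, sum_congr rfl (g := fun d => sgn G d * un d.1 v) fun d hd => ?_]
    · omega
    · have h2 : d ∉ G ∆ W := fun h => disjoint_left.1 hF (hGY hd) (hGW h)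
      have h3 : d ∈ W ↔ d ∈ G := by
        rw [mem_symmDiff] at h2
        tauto
      simp only [sgn, h3]
  · simp only [mem_symmDiff] at hd ⊢
    tauto

lemma kn_sum {k : V → ℤ} {F F' G Y : Gr V} (hF : Disjoint F F') (hG : G ∈ GG k)
    (hY : Y ∈ blk k F G) (g : Gr V → ℝ) :
    ∑ W ∈ blk k F' Y, g W = ∑ W ∈ blk k F' G, g (W ∆ (G ∆ Y)) := by
  have hG' : G ∈ blk k F Y := mem_blk.2 ⟨hG, by rw [symmDiff_comm]; exact (mem_blk.1 hY).2⟩
  refine (sum_nbij' (fun W => W ∆ (G ∆ Y)) (fun W => W ∆ (Y ∆ G))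
    (fun W hW => kn_mix hF hG hY hW) (fun W hW => kn_mix hF (mem_blk.1 hY).1 hG' hW)
    (fun W _ => ?_) (fun W _ => ?_) fun W _ => rfl).symm
  · rw [symmDiff_comm Y G, symmDiff_symmDiff_cancel_right]
  · rw [symmDiff_comm Y G, symmDiff_symmDiff_cancel_right]

lemma kn_CE_CE {k : V → ℤ} {F F' G : Gr V} (hF : Disjoint F F') (f : Gr V → ℝ)
    (hG : G ∈ GG k) : CE k F (CE k F' f) G =
      (∑ Y ∈ blk k F G, ∑ W ∈ blk k F' G, f (W ∆ (G ∆ Y))) / (#(blk k F' G) * #(blk k F G)) := by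
  have h : ∀ Y ∈ blk k F G, CE k F' f Y =
      (∑ W ∈ blk k F' G, f (W ∆ (G ∆ Y))) / #(blk k F' G) := fun Y hY => by
    have h1 := kn_sum hF hG hY fun _ => 1
    simp only [sum_const, nsmul_eq_mul, mul_one] at h1
    rw [CE, kn_sum hF hG hY, h1]
  rw [CE, sum_congr rfl h, ← sum_div, div_div]

lemma CE_comm {k : V → ℤ} {F F' G : Gr V} (hF : Disjoint F F') (f : Gr V → ℝ)
    (hG : G ∈ GG k) : CE k F (CE k F' f) G = CE k F' (CE k F f) G := by
  rw [kn_CE_CE hF f hG, kn_CE_CE hF.symm f hG, sum_comm, mul_comm]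
  refine congrArg₂ _ (sum_congr rfl fun W _ => sum_congr rfl fun Y _ => congrArg f ?_) rfl
  ext d
  simp only [mem_symmDiff]
  tauto

lemma kn_CE_sub (k : V → ℤ) (F : Gr V) (f g : Gr V → ℝ) (G : Gr V) :
    CE k F (fun Y => f Y - g Y) G = CE k F f G - CE k F g G := by
  simp [CE, sum_sub_distrib, sub_div]

lemma kn_nonneg (k : V → ℤ) {F F' : Gr V} (hF : Disjoint F F') (f : Gr V → ℝ) :
    0 ≤ ∑ G ∈ GG k, (f G - CE k F f G) * (f G - CE k F' f G) := by
  set g : Gr V → ℝ := fun G => f G - CE k F' f G with hg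
  set u : Gr V → ℝ := fun G => g G - CE k F g G with hu
  have h0 : ∀ G ∈ GG k, CE k F' g G = 0 := fun G hG => by
    rw [hg, kn_CE_sub, CE_CE_of_subset subset_rfl f hG, sub_self]
  have h1 : ∀ G ∈ GG k, CE k F' u G = 0 := fun G hG => by
    rw [hu, kn_CE_sub, h0 G hG, ← CE_comm hF g hG, CE_loc h0]
    simp [CE]
  have h2 : ∑ G ∈ GG k, CE k F' f G * u G = 0 := by
    rw [← CE_symm]
    exact sum_eq_zero fun G hG => by rw [h1 G hG, mul_zero]
  have h3 := sum_mul_sub_CE (k := k) (F := F) g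
  have h4 := CE_symm (k := k) (F := F) f g
  have h5 : ∑ G ∈ GG k, (f G - CE k F f G) * g G = ∑ G ∈ GG k, g G * (g G - CE k F g G) +
      ∑ G ∈ GG k, CE k F' f G * u G +
      (∑ G ∈ GG k, f G * CE k F g G - ∑ G ∈ GG k, CE k F f G * g G) := by
    rw [← sum_sub_distrib, ← sum_add_distrib, ← sum_add_distrib]
    refine sum_congr rfl fun G _ => ?_
    have e : CE k F' f G = f G - g G := by simp [hg]
    rw [e, hu]
    ring
  show 0 ≤ ∑ G ∈ GG k, (f G - CE k F f G) * g G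
  rw [h5, h2, h3, h4]
  have := sum_nonneg (s := GG k) fun G _ => sq_nonneg (g G - CE k F g G)
  linarith

omit [Fintype V] in
lemma kn_comb (A : Finset V) (c : V → V → V → V → ℝ) (s1 : ∀ u v x y, c u v x y = c v u x y)
    (s2 : ∀ u v x y, c u v x y = c u v y x) (z1 : ∀ u x y, c u u x y = 0)
    (z2 : ∀ u v x, c u v x x = 0)
    (hd : ∀ u ∈ A, ∀ v ∈ A, ∀ x ∈ A, ∀ y ∈ A, x ≠ u → y ≠ u → x ≠ v → y ≠ v → 0 ≤ c u v x y)
    (h3 : ∀ u ∈ A, ∀ v ∈ A, ∀ w ∈ A, u ≠ v → u ≠ w → v ≠ w →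
      0 ≤ c u v u w + c u v v w + c u w v w) :
    2 * ∑ u ∈ A, ∑ v ∈ A, c u v u v ≤ ∑ u ∈ A, ∑ v ∈ A, ∑ x ∈ A, ∑ y ∈ A, c u v x y := by
  set W := ∑ u ∈ A, ∑ v ∈ A, ∑ w ∈ A, c u v u w with hW
  set E := ∑ u ∈ A, ∑ v ∈ A, c u v u v with hE
  have a1 : ∀ u ∈ A, ∀ v ∈ A, 2 * ∑ w ∈ A, c u v u w + 2 * ∑ w ∈ A, c v u v w - 2 * c u v u v ≤
      ∑ x ∈ A, ∑ y ∈ A, c u v x y := by
    intro u hu v hv
    have b1 : ∑ x ∈ A, ∑ y ∈ A, ((if x = u then c u v x y else 0) +
        (if y = u then c u v x y else 0) + (if x = v then c u v x y else 0) +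
        (if y = v then c u v x y else 0) - (if x = u then if y = v then c u v x y else 0 else 0) -
        (if x = v then if y = u then c u v x y else 0 else 0)) ≤
        ∑ x ∈ A, ∑ y ∈ A, c u v x y := by
      refine sum_le_sum fun x hx => sum_le_sum fun y hy => ?_
      by_cases huv : u = v
      · subst huv
        simp [z1]
      by_cases hxy : x = y
      · subst hxy
        simp [z2]
      have := hd u hu v hv x hx y hy
      by_cases e1 : x = u <;> by_cases e2 : y = u <;> by_cases e3 : x = v <;>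
        by_cases e4 : y = v <;> simp_all
    refine le_trans (le_of_eq ?_) b1
    simp only [sum_add_distrib, sum_sub_distrib, sum_ite_irrel, sum_const_zero, sum_ite_eq', hu,
      hv, if_true]
    rw [sum_congr rfl fun x _ => s2 u v x u, sum_congr rfl fun x _ => s2 u v x v,
      sum_congr rfl fun x _ => s1 v u v x, s2 u v v u]
    ring
  have a2 : 4 * W - 2 * E ≤ ∑ u ∈ A, ∑ v ∈ A, ∑ x ∈ A, ∑ y ∈ A, c u v x y := by
    refine le_trans (le_of_eq ?_) (sum_le_sum fun u hu => sum_le_sum fun v hv => a1 u hu v hv)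
    simp only [sum_add_distrib, sum_sub_distrib, ← mul_sum]
    rw [sum_comm (f := fun u v => ∑ w ∈ A, c v u v w)]
    ring
  set r : V → V → V → ℝ := fun u v w => c u v u w - if w = v then c u v u v else 0 with hr
  have a3 : ∑ u ∈ A, ∑ v ∈ A, ∑ w ∈ A, r u v w = W - E := by
    simp only [hr, sum_sub_distrib, sum_ite_eq']
    refine congrArg₂ _ rfl (sum_congr rfl fun u _ => sum_congr rfl fun v hv => if_pos hv)
  have a4 : ∑ u ∈ A, ∑ v ∈ A, ∑ w ∈ A, r v u w = W - E := by rw [sum_comm, a3]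
  have a5 : ∑ u ∈ A, ∑ v ∈ A, ∑ w ∈ A, r w u v = W - E := by
    rw [← a3, sum_congr rfl fun u _ => sum_comm, sum_comm]
  have a6 : 0 ≤ ∑ u ∈ A, ∑ v ∈ A, ∑ w ∈ A, (r u v w + r v u w + r w u v) := by
    refine sum_nonneg fun u hu => sum_nonneg fun v hv => sum_nonneg fun w hw => ?_
    by_cases huv : u = v
    · subst huv
      simp [hr, z1]
    by_cases huw : u = w
    · subst huw
      simp [hr, z1, z2, huv]
    by_cases hvw : v = w
    · subst hvw
      simp [hr, z2, Ne.symm huv]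
    have := h3 u hu v hv w hw huv huw hvw
    simp only [hr, if_neg (Ne.symm huv), if_neg (Ne.symm huw), if_neg (Ne.symm hvw), sub_zero]
    rw [s1 v u v w, s1 w u w v, s2 u w w v]
    exact this
  simp only [sum_add_distrib] at a6
  linarith

/-- the local increments -/
noncomputable def knA (k : V → ℤ) (B : Finset V) (f : Gr V → ℝ) (u v : V) (G : Gr V) : ℝ :=
  if u = v then 0 else f G - CE k (KK {u, v} B) f G

lemma knA_comm (k : V → ℤ) (B : Finset V) (f : Gr V → ℝ) (u v : V) :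
    knA k B f u v = knA k B f v u := by
  funext G
  simp only [knA, pair_comm u v, eq_comm]

lemma kn_erase (k : V → ℤ) (A B : Finset V) (f : Gr V → ℝ) (u : V) (φ : ℝ → ℝ) (h0 : φ 0 = 0)
    (G : Gr V) :
    ∑ v ∈ A.erase u, φ (f G - CE k (KK {u, v} B) f G) = ∑ v ∈ A, φ (knA k B f u v G) := by
  rw [← sum_erase A (a := u) (by simp [knA, h0])]
  exact sum_congr rfl fun v hv => by rw [knA, if_neg (mem_erase.1 hv).1.symm]

lemma kn_ineq (k : V → ℤ) {A B : Finset V} (hAB : Disjoint A B) (f : Gr V → ℝ) :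
    2 * ∑ u ∈ A, ∑ v ∈ A, ∑ G ∈ GG k, knA k B f u v G ^ 2 ≤
      ∑ G ∈ GG k, (∑ u ∈ A, ∑ v ∈ A, knA k B f u v G) ^ 2 := by
  have hn : ∀ u ∈ A, u ∉ B := fun u hu => disjoint_left.1 hAB hu
  have := kn_comb A (fun u v x y => ∑ G ∈ GG k, knA k B f u v G * knA k B f x y G)
    (fun u v x y => by rw [knA_comm]) (fun u v x y => by rw [knA_comm k B f x])
    (fun u x y => by simp [knA]) (fun u x y => by simp [knA])
    (fun u hu v hv x hx y hy h1 h2 h3 h4 => by
      by_cases huv : u = v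
      · simp [knA, huv]
      by_cases hxy : x = y
      · simp [knA, hxy]
      simp only [knA, if_neg huv, if_neg hxy]
      refine kn_nonneg k (disjoint_left.2 fun d hd hd' => ?_) f
      have hu' := hn u hu
      have hv' := hn v hv
      have hx' := hn x hx
      have hy' := hn y hy
      simp only [mem_KK, mem_insert, mem_singleton] at hd hd'
      rcases hd.2 with ⟨e | e, e'⟩ | ⟨e', e | e⟩ <;>
        rcases hd'.2 with ⟨g | g, g'⟩ | ⟨g', g | g⟩ <;> simp_all)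
    (fun u hu v hv w hw h1 h2 h3 => by
      have := three k h1 h2 h3 (hn u hu) (hn v hv) (hn w hw) f
      simp only [knA, if_neg h1, if_neg h2, if_neg h3]
      simpa only [sum_add_distrib] using this)
  simp only [sq]
  refine this.trans (le_of_eq ?_)
  simp only [sum_mul, mul_sum]
  rw [sum_comm (s := GG k)]
  refine sum_congr rfl fun x _ => ?_
  rw [sum_comm (s := GG k)]
  refine sum_congr rfl fun y _ => ?_
  rw [sum_comm (s := GG k)]
  refine sum_congr rfl fun u _ => ?_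
  rw [sum_comm (s := GG k)]
  exact sum_congr rfl fun v _ => sum_congr rfl fun G _ => mul_comm _ _

lemma kn_ip (k : V → ℤ) (A B : Finset V) (f : Gr V → ℝ) :
    ∑ G ∈ GG k, f G * ∑ u ∈ A, ∑ v ∈ A, knA k B f u v G =
      ∑ u ∈ A, ∑ v ∈ A, ∑ G ∈ GG k, knA k B f u v G ^ 2 := by
  simp only [mul_sum]
  rw [sum_comm]
  refine sum_congr rfl fun u _ => ?_
  rw [sum_comm]
  refine sum_congr rfl fun v _ => ?_
  by_cases h : u = v
  · simp [knA, h]
  · simp only [knA, if_neg h]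
    exact sum_mul_sub_CE f

/-- the sum of the local projections -/
noncomputable def knT (k : V → ℤ) (A B : Finset V) : (Gr V → ℝ) →ₗ[ℝ] (Gr V → ℝ) :=
  ∑ u ∈ A, ∑ v ∈ A.erase u, (LinearMap.id - CEl k (KK {u, v} B))

lemma knT_apply' (k : V → ℤ) (A B : Finset V) (f : Gr V → ℝ) (G : Gr V) :
    knT k A B f G = ∑ u ∈ A, ∑ v ∈ A.erase u, (f G - CE k (KK {u, v} B) f G) := by
  simp [knT, LinearMap.sum_apply, Finset.sum_apply]

lemma knT_apply (k : V → ℤ) (A B : Finset V) (f : Gr V → ℝ) (G : Gr V) :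
    knT k A B f G = ∑ u ∈ A, ∑ v ∈ A, knA k B f u v G := by
  rw [knT_apply']
  exact sum_congr rfl fun u _ => kn_erase k A B f u id rfl G

theorem bip (k : V → ℤ) {A B : Finset V} (hAB : Disjoint A B) (f : Gr V → ℝ) :
    ∑ G ∈ GG k, (f G - CE k (KK A B) f G) ^ 2 ≤
      ∑ u ∈ A, ∑ v ∈ A.erase u, ∑ G ∈ GG k, (f G - CE k (KK {u, v} B) f G) ^ 2 := by
  set g : Gr V → ℝ := fun G => f G - CE k (KK A B) f G with hg
  have key := spec (GG k) (knT k A B)
    (fun f g h G hG => by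
      rw [knT_apply', knT_apply']
      exact sum_congr rfl fun u _ => sum_congr rfl fun v _ => by rw [h G hG, CE_loc h])
    (fun f g => by
      simp only [knT_apply', mul_sum, sum_mul]
      rw [sum_comm, sum_comm (s := GG k)]
      refine sum_congr rfl fun u _ => ?_
      rw [sum_comm, sum_comm (s := GG k)]
      refine sum_congr rfl fun v _ => ?_
      simp only [mul_sub, sub_mul, sum_sub_distrib, CE_symm])
    g (fun μ b hb => by
      refine (le_or_gt 1 μ).imp id fun hμ => ?_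
      have h1 := kn_ineq k hAB b
      have h2 := kn_ip k A B b
      simp only [← knT_apply] at h1 h2
      set E := ∑ u ∈ A, ∑ v ∈ A, ∑ G ∈ GG k, knA k B b u v G ^ 2 with hE
      have h3 : ∑ G ∈ GG k, knT k A B b G ^ 2 = μ * E := by
        rw [← h2, mul_sum]
        exact sum_congr rfl fun G hG => by rw [hb G hG]; ring
      have hE0 : 0 ≤ E :=
        sum_nonneg fun _ _ => sum_nonneg fun _ _ => sum_nonneg fun _ _ => sq_nonneg _
      have hE1 : E = 0 := by nlinarith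
      have h4 : ∀ u ∈ A, ∀ v ∈ A, ∀ G ∈ GG k, knA k B b u v G = 0 := fun u hu v hv G hG =>
        pow_eq_zero_iff two_ne_zero |>.1 ((sum_eq_zero_iff_of_nonneg fun _ _ => sq_nonneg _).1
          ((sum_eq_zero_iff_of_nonneg fun _ _ => sum_nonneg fun _ _ => sq_nonneg _).1
          ((sum_eq_zero_iff_of_nonneg fun _ _ => sum_nonneg fun _ _ => sum_nonneg fun _ _ =>
            sq_nonneg _).1 hE1 u hu) v hv) G hG)
      have h5 : ∀ G ∈ GG k, CE k (KK A B) b G = b G := fun G hG => by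
        refine CE_of_const hG fun Y hY => ?_
        have := conn (Or.inl hAB) b le_rfl hG (mem_blk.1 hY).1 (mem_blk.1 hY).2
          (fun Y hY _ a ha d hd x hx y hy hs => by
            have e1 := h4 a ha d hd Y hY
            have e2 := h4 a ha d hd _ (sw_mem hY hs)
            simp only [knA, if_neg hs.ad] at e1 e2
            rw [CE_congr (G := Y) b (by
              rw [conn_cancel]; exact conn_sw_sub hs (by simp) (by simp) hx hy)] at e2
            rw [abs_nonpos_iff]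
            linarith)
        rw [mul_zero, abs_nonpos_iff] at this
        linarith
      simp only [hg, mul_sub, sum_sub_distrib]
      rw [CE_symm, sub_eq_zero]
      exact sum_congr rfl fun G hG => by rw [h5 G hG])
  refine key.trans (le_of_eq ?_)
  simp only [knT_apply]
  rw [kn_ip]
  refine sum_congr rfl fun u hu => ?_
  rw [sum_comm, sum_comm (s := A.erase u)]
  refine sum_congr rfl fun G hG => ?_
  rw [← kn_erase k A B g u (fun x => x ^ 2) (by simp) G]
  refine sum_congr rfl fun v hv => ?_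
  rw [hg, kn_CE_sub, CE_CE_of_subset (KK_mono (by
    intro x hx
    rcases mem_insert.1 hx with rfl | hx
    · exact hu
    · rw [mem_singleton.1 hx]; exact (mem_erase.1 hv).2) subset_rfl) f hG]
  ring

/-- energy of the block of `Z` for the vertex set `S` -/
noncomputable def loc (k : V → ℤ) (f : Gr V → ℝ) (S : Finset V) (Z : Gr V) : ℝ :=
  ∑ Y ∈ blk k (KK S S) Z, grad2 f Y

lemma loc_nonneg (k : V → ℤ) (f : Gr V → ℝ) (S : Finset V) (Z : Gr V) : 0 ≤ loc k f S Z :=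
  sum_nonneg fun Y _ => grad2_nonneg f Y

theorem small_move {k : V → ℤ} (f : Gr V → ℝ) {S : Finset V} {Z Z' : Gr V} (hZ : Z ∈ GG k)
    (hZ' : Z' ∈ GG k) (h : Z ∆ Z' ⊆ KK S S) :
    (f Z - f Z') ^ 2 ≤ (#S : ℝ) ^ 4 * loc k f S Z := by
  have h1 := conn (Or.inr rfl) f (Real.sqrt_nonneg (loc k f S Z)) hZ hZ' h
    (fun Y hY hZY a _ d _ b _ c _ hs => Real.abs_le_sqrt ((sq_le_grad2 f hs).trans
      (single_le_sum (fun Y _ => grad2_nonneg f Y) (mem_blk.2 ⟨hY, hZY⟩))))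
  have h2 := pow_le_pow_left₀ (abs_nonneg _) h1 2
  rw [sq_abs, mul_pow, Real.sq_sqrt (loc_nonneg k f S Z)] at h2
  refine h2.trans (le_of_eq ?_)
  ring

theorem sum_loc (k : V → ℤ) (f : Gr V → ℝ) (S : Finset V) :
    ∑ Z ∈ GG k, loc k f S Z ≤ 2 ^ (#S ^ 2) * En k f := by
  have h1 : ∑ Z ∈ GG k, loc k f S Z = ∑ Y ∈ GG k, #(blk k (KK S S) Y) * grad2 f Y := by
    simp only [loc, blk, sum_filter, card_filter]
    rw [sum_comm]
    refine sum_congr rfl fun Y _ => ?_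
    push_cast
    rw [sum_mul]
    refine sum_congr rfl fun Z _ => ?_
    rw [symmDiff_comm Y Z]
    split_ifs <;> simp
  rw [h1, En, mul_sum]
  refine sum_le_sum fun Y _ => mul_le_mul_of_nonneg_right ?_ (grad2_nonneg f Y)
  have h2 : #(blk k (KK S S) Y) ≤ #((S ×ˢ S).powerset) := by
    refine card_le_card_of_injOn (fun Z => Y ∆ Z) (fun Z hZ => ?_) fun a _ b _ e => ?_
    · refine mem_coe.2 (mem_powerset.2 ((mem_blk.1 hZ).2.trans fun d hd => ?_))
      have := (mem_KK.1 hd).2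
      rw [mem_product]
      tauto
    · exact symmDiff_right_injective Y e
  rw [card_powerset, card_product, ← sq] at h2
  exact_mod_cast h2

lemma kn_avg {k : V → ℤ} {F Z : Gr V} (f : Gr V → ℝ) (hZ : Z ∈ GG k) {C : ℝ}
    (h : ∀ Y ∈ blk k F Z, (f Z - f Y) ^ 2 ≤ C) : (f Z - CE k F f Z) ^ 2 ≤ C := by
  have hp := card_blk_pos (F := F) hZ
  have h1 : f Z - CE k F f Z = (∑ Y ∈ blk k F Z, (f Z - f Y)) / #(blk k F Z) := by
    rw [CE, sum_sub_distrib, sum_const, nsmul_eq_mul]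
    field_simp
  have h2 := sq_sum_le_card_mul_sum_sq (s := blk k F Z) (f := fun Y => f Z - f Y)
  have h3 := sum_le_card_nsmul _ _ _ h
  rw [nsmul_eq_mul] at h3
  rw [h1, div_pow, div_le_iff₀ (by positivity)]
  nlinarith

lemma kn_four (k : V → ℤ) (f : Gr V → ℝ) (u v x y : V) :
    ∑ G ∈ GG k, (f G - CE k (KK {x, y} {u, v}) f G) ^ 2 ≤ 2 ^ 24 * En k f := by
  set S : Finset V := {x, y} ∪ {u, v} with hS
  have hc : #S ≤ 4 := (card_union_le _ _).trans (add_le_add card_le_two card_le_two)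
  have hc' : (#S : ℝ) ≤ 4 := by exact_mod_cast hc
  have h1 : ∀ G ∈ GG k, (f G - CE k (KK {x, y} {u, v}) f G) ^ 2 ≤ 4 ^ 4 * loc k f S G :=
    fun G hG => kn_avg f hG fun Y hY => (small_move f hG (mem_blk.1 hY).1
      ((mem_blk.1 hY).2.trans (KK_mono subset_union_left subset_union_right))).trans
      (mul_le_mul_of_nonneg_right (pow_le_pow_left₀ (by positivity) hc' 4) (loc_nonneg _ _ _ _))
  refine (sum_le_sum h1).trans ?_
  rw [← mul_sum]
  have h2 := sum_loc k f S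
  have h3 : (2 : ℝ) ^ (#S ^ 2) ≤ 2 ^ 16 :=
    pow_le_pow_right₀ one_le_two ((Nat.pow_le_pow_left hc 2).trans (by norm_num))
  have h4 := En_nonneg k f
  have h5 := mul_le_mul_of_nonneg_right h3 h4
  linarith

lemma kn_pairs (A : Finset V) (φ : V → V → ℝ) {C : ℝ} (hC : 0 ≤ C)
    (h : ∀ u ∈ A, ∀ v ∈ A, φ u v ≤ C) :
    ∑ u ∈ A, ∑ v ∈ A.erase u, φ u v ≤ ((Fintype.card V : ℝ) + 2) ^ 2 * C := by
  have hc : ∀ X : Finset V, (#X : ℝ) ≤ Fintype.card V + 2 := fun X => by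
    have : (#X : ℝ) ≤ Fintype.card V := by exact_mod_cast card_le_univ X
    linarith
  have h1 : ∀ u ∈ A, ∑ v ∈ A.erase u, φ u v ≤ ((Fintype.card V : ℝ) + 2) * C := fun u hu => by
    have := sum_le_card_nsmul (A.erase u) _ _ fun v hv => h u hu v (mem_erase.1 hv).2
    rw [nsmul_eq_mul] at this
    exact this.trans (mul_le_mul_of_nonneg_right (hc _) hC)
  have := sum_le_card_nsmul A _ _ h1
  rw [nsmul_eq_mul] at this
  refine this.trans ((mul_le_mul_of_nonneg_right (hc _) (by positivity)).trans (le_of_eq ?_))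
  ring

theorem pure_bound (k : V → ℤ) {A B : Finset V} (hAB : Disjoint A B) (f : Gr V → ℝ) :
    ∑ G ∈ GG k, (f G - CE k (KK A B) f G) ^ 2 ≤
      ((Fintype.card V : ℝ) + 2) ^ 30 * En k f := by
  have h4 := En_nonneg k f
  refine (bip k hAB f).trans ((kn_pairs A _
    (C := ((Fintype.card V : ℝ) + 2) ^ 2 * (2 ^ 24 * En k f)) (by positivity)
    fun u hu v hv => ?_).trans ?_)
  · rw [KK_comm]
    refine (bip k (disjoint_right.2 fun x hx => ?_) f).trans
      (kn_pairs B _ (by positivity) fun x _ y _ => kn_four k f u v x y)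
    rcases mem_insert.1 hx with rfl | hx
    · exact disjoint_left.1 hAB hu
    · rw [mem_singleton.1 hx]; exact disjoint_left.1 hAB hv
  · have h1 : (2 : ℝ) ≤ Fintype.card V + 2 := by simp
    have h2 : (2 : ℝ) ^ 24 ≤ ((Fintype.card V : ℝ) + 2) ^ 26 :=
      (pow_le_pow_left₀ zero_le_two h1 24).trans (pow_le_pow_right₀ (by linarith) (by norm_num))
    calc _ = ((Fintype.card V : ℝ) + 2) ^ 4 * (2 ^ 24 * En k f) := by ring
      _ ≤ ((Fintype.card V : ℝ) + 2) ^ 4 * (((Fintype.card V : ℝ) + 2) ^ 26 * En k f) := by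
        gcongr
      _ = _ := by ring

end Pool.Agent.MP_c319e0_lc

end

-- part MP_c319e0_lc.Poincare
section

/-! The Poincare inequality for the realization graph. -/

namespace Pool.Agent.MP_c319e0_lc
open Finset
open scoped symmDiff

lemma poi_small_card {α : Type} [DecidableEq α] (s : Finset α) (c : ℕ) :
    #(s.powerset.filter fun X => #X ≤ c) ≤ (#s + 1) ^ c := by
  induction c with
  | zero =>
    rw [pow_zero]
    refine card_le_one.2 fun a ha b hb => ?_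
    have h1 := (mem_filter.1 ha).2
    have h2 := (mem_filter.1 hb).2
    rw [Nat.le_zero, card_eq_zero] at h1 h2
    rw [h1, h2]
  | succ c ih =>
    set T := s.powerset.filter fun X => #X ≤ c with hT
    have hsub : (s.powerset.filter fun X => #X ≤ c + 1) ⊆
        T ∪ (s ×ˢ T).image fun p => insert p.1 p.2 := by
      intro X hX
      obtain ⟨h1, h2⟩ := mem_filter.1 hX
      rcases X.eq_empty_or_nonempty with rfl | ⟨x, hx⟩
      · exact mem_union_left _ (by simp [hT])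
      · refine mem_union_right _ (mem_image.2 ⟨(x, X.erase x), ?_, insert_erase hx⟩)
        have hs := mem_powerset.1 h1
        refine mem_product.2 ⟨hs hx, mem_filter.2 ⟨mem_powerset.2 ((erase_subset _ _).trans hs), ?_⟩⟩
        rw [card_erase_of_mem hx]; omega
    calc _ ≤ #(T ∪ (s ×ˢ T).image fun p => insert p.1 p.2) := card_le_card hsub
      _ ≤ #T + #((s ×ˢ T).image fun p => insert p.1 p.2) := card_union_le _ _
      _ ≤ #T + #(s ×ˢ T) := Nat.add_le_add_left card_image_le _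
      _ = #T * (#s + 1) := by rw [card_product]; ring
      _ ≤ (#s + 1) ^ c * (#s + 1) := Nat.mul_le_mul_right _ ih
      _ = _ := by rw [pow_succ]

lemma poi_small_univ (α : Type) [Fintype α] [DecidableEq α] (c : ℕ) :
    #(univ.filter fun X : Finset α => #X ≤ c) ≤ (Fintype.card α + 1) ^ c := by
  have := poi_small_card (univ : Finset α) c
  rwa [powerset_univ, card_univ] at this

lemma poi_near_card {α : Type} [Fintype α] [DecidableEq α] (Z : Finset α) (c : ℕ) :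
    #(univ.filter fun X : Finset α => #(Z ∆ X) ≤ c) ≤ (Fintype.card α + 1) ^ c := by
  refine le_trans ?_ (poi_small_univ α c)
  refine card_le_card_of_injOn (fun X => Z ∆ X) (fun X hX => ?_) (fun X _ Y _ h => ?_)
  · simpa using hX
  · exact symmDiff_right_injective Z h

lemma poi_const_le {N : ℝ} (hN : 2 ≤ N) (C : ℕ) : (C : ℝ) ≤ N ^ C := by
  have h1 : (C : ℝ) ≤ 2 ^ C := by exact_mod_cast (Nat.lt_two_pow_self).le
  exact h1.trans (pow_le_pow_left₀ (by norm_num) hN C)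

section
variable {V : Type} [Fintype V] [DecidableEq V]

/-- small integer vectors -/
noncomputable def poiW (V : Type) [Fintype V] [DecidableEq V] (c : ℕ) : Finset (V → ℤ) :=
  (Fintype.piFinset fun _ => Icc (-(c : ℤ)) c).filter fun w => ∑ v, |w v| ≤ c

omit [DecidableEq V] in
lemma poi_abs_le {w : V → ℤ} {c : ℕ} (h : ∑ v, |w v| ≤ c) (v : V) : |w v| ≤ c :=
  (single_le_sum (f := fun v => |w v|) (fun _ _ => abs_nonneg _) (mem_univ v)).trans h

lemma poi_mem_W {w : V → ℤ} {c : ℕ} : w ∈ poiW V c ↔ ∑ v, |w v| ≤ c := by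
  simp only [poiW, mem_filter, Fintype.mem_piFinset, mem_Icc]
  exact ⟨fun h => h.2, fun h => ⟨fun v => abs_le.1 (poi_abs_le h v), h⟩⟩

lemma poi_card_W (c : ℕ) : #(poiW V c) ≤ (Fintype.card V * (2 * c + 1) + 1) ^ c := by
  have h := poi_small_card ((univ : Finset V) ×ˢ Icc (-(c : ℤ)) c) c
  have hc : #((univ : Finset V) ×ˢ Icc (-(c : ℤ)) c) = Fintype.card V * (2 * c + 1) := by
    rw [card_product, card_univ, Int.card_Icc]
    congr 1
    omega
  rw [hc] at h
  refine le_trans ?_ h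
  refine card_le_card_of_injOn
    (fun w => (univ.filter fun v => w v ≠ 0).image fun v => (v, w v)) (fun w hw => ?_)
    (fun w _ w' _ e => ?_)
  · have hw' := poi_mem_W.1 (mem_coe.1 hw)
    refine mem_coe.2 (mem_filter.2 ⟨mem_powerset.2 fun p hp => ?_, ?_⟩)
    · obtain ⟨v, _, rfl⟩ := mem_image.1 hp
      exact mem_product.2 ⟨mem_univ _, mem_Icc.2 (abs_le.1 (poi_abs_le hw' v))⟩
    · refine card_image_le.trans ?_
      have : (#(univ.filter fun v => w v ≠ 0) : ℤ) ≤ ∑ v, |w v| := by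
        rw [card_filter]; push_cast
        refine sum_le_sum fun v _ => ?_
        split_ifs with h0
        · exact Int.one_le_abs h0
        · exact abs_nonneg _
      exact_mod_cast this.trans hw'
  · have key : ∀ w w' : V → ℤ, ((univ.filter fun v => w v ≠ 0).image fun v => (v, w v)) =
        ((univ.filter fun v => w' v ≠ 0).image fun v => (v, w' v)) → ∀ v, w v ≠ 0 → w' v = w v := by
      intro w w' e v hv
      have : (v, w v) ∈ (univ.filter fun v => w' v ≠ 0).image fun v => (v, w' v) := by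
        rw [← e]; exact mem_image.2 ⟨v, by simpa using hv, rfl⟩
      obtain ⟨u, _, hu⟩ := mem_image.1 this
      obtain ⟨rfl, h2⟩ := Prod.mk.inj hu
      exact h2
    funext v
    by_cases h1 : w v = 0
    · by_cases h2 : w' v = 0
      · rw [h1, h2]
      · exact key w' w e.symm v h2
    · exact (key w w' e v h1).symm

open Classical in
lemma poi_card_good {k : V → ℤ} {P : Finset V} {c : ℕ} {B : ℝ}
    (hP : ∀ w : V → ℤ, (∀ v ∈ P, 0 ≤ w v) → (∀ v ∉ P, w v ≤ 0) → ∑ v, |w v| ≤ c →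
      (#(GG (k + w)) : ℝ) ≤ B) (hB : 0 ≤ B) :
    (#(univ.filter fun E' => Good k P c E') : ℝ) ≤
      ((Fintype.card V * (2 * c + 1) + 1 : ℕ) : ℝ) ^ c *
        (B * ((Fintype.card (V × V) + 1 : ℕ) : ℝ) ^ c) := by
  set W := (poiW V c).filter fun w => (∀ v ∈ P, 0 ≤ w v) ∧ (∀ v ∉ P, w v ≤ 0) with hW
  have hsub : (univ.filter fun E' => Good k P c E') ⊆ W.biUnion fun w =>
      (GG (k + w)).biUnion fun E'' => univ.filter fun X : Gr V => #(E'' ∆ X) ≤ c := by
    intro E' hE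
    obtain ⟨E'', w, h1, h2, h3, h4, h5⟩ := (mem_filter.1 hE).2
    exact mem_biUnion.2 ⟨w, mem_filter.2 ⟨poi_mem_W.2 h4, h2, h3⟩,
      mem_biUnion.2 ⟨E'', h1, mem_filter.2 ⟨mem_univ _, h5⟩⟩⟩
  have h1 : (#(univ.filter fun E' => Good k P c E') : ℝ) ≤ ∑ w ∈ W,
      (#((GG (k + w)).biUnion fun E'' => univ.filter fun X : Gr V => #(E'' ∆ X) ≤ c) : ℝ) := by
    exact_mod_cast (card_le_card hsub).trans card_biUnion_le
  refine h1.trans ?_
  have h2 : ∀ w ∈ W, (#((GG (k + w)).biUnion fun E'' =>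
      univ.filter fun X : Gr V => #(E'' ∆ X) ≤ c) : ℝ) ≤
        B * ((Fintype.card (V × V) + 1 : ℕ) : ℝ) ^ c := by
    intro w hw
    obtain ⟨hw1, hw2, hw3⟩ := mem_filter.1 hw
    have e1 : #((GG (k + w)).biUnion fun E'' => univ.filter fun X : Gr V => #(E'' ∆ X) ≤ c) ≤
        #(GG (k + w)) * (Fintype.card (V × V) + 1) ^ c :=
      card_biUnion_le_card_mul _ _ _ fun E'' _ => poi_near_card E'' c
    have e2 : (#((GG (k + w)).biUnion fun E'' =>
        univ.filter fun X : Gr V => #(E'' ∆ X) ≤ c) : ℝ) ≤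
        #(GG (k + w)) * ((Fintype.card (V × V) + 1 : ℕ) : ℝ) ^ c := by exact_mod_cast e1
    exact e2.trans (mul_le_mul_of_nonneg_right (hP w hw2 hw3 (poi_mem_W.1 hw1)) (by positivity))
  refine (sum_le_card_nsmul _ _ _ h2).trans ?_
  rw [nsmul_eq_mul]
  refine mul_le_mul_of_nonneg_right ?_ (by positivity)
  exact_mod_cast (card_filter_le _ _).trans (poi_card_W c)

/-- local energy at a state -/
noncomputable def poiPhi0 (k : V → ℤ) (P : Finset V) (c : ℕ) (f : Gr V → ℝ) (Z : Gr V) : ℝ :=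
  2 * (f Z - CE k (KK P Pᶜ) f Z) ^ 2 +
    ∑ S ∈ univ.filter (fun S : Finset V => #S ≤ c), (c : ℝ) ^ 4 * loc k f S Z

lemma poi_loc_nonneg (k : V → ℤ) (f : Gr V → ℝ) (S : Finset V) (Z : Gr V) : 0 ≤ loc k f S Z :=
  sum_nonneg fun Y _ => grad2_nonneg f Y

lemma poi_Phi0_nonneg (k : V → ℤ) (P : Finset V) (c : ℕ) (f : Gr V → ℝ) (Z : Gr V) :
    0 ≤ poiPhi0 k P c f Z :=
  add_nonneg (by positivity) (sum_nonneg fun S _ =>
    mul_nonneg (by positivity) (poi_loc_nonneg k f S Z))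

lemma poi_mv {k : V → ℤ} {P : Finset V} {c : ℕ} (f : Gr V → ℝ) {Z Z' : Gr V} (hZ : Z ∈ GG k)
    (hZ' : Z' ∈ GG k) (h : Mv P c Z Z') :
    (f Z - f Z') ^ 2 ≤ poiPhi0 k P c f Z + poiPhi0 k P c f Z' := by
  have hs : ∀ Y, 0 ≤ ∑ S ∈ univ.filter (fun S : Finset V => #S ≤ c),
      (c : ℝ) ^ 4 * loc k f S Y := fun Y => sum_nonneg fun S _ =>
    mul_nonneg (by positivity) (poi_loc_nonneg k f S Y)
  rcases h with h | ⟨S, hS, h⟩
  · have e := CE_congr (k := k) f h
    have h1 := hs Z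
    have h2 := hs Z'
    unfold poiPhi0
    rw [e]
    nlinarith [sq_nonneg (f Z + f Z' - 2 * CE k (KK P Pᶜ) f Z)]
  · have h1 := small_move f hZ hZ' h
    have h2 : (#S : ℝ) ^ 4 * loc k f S Z ≤ (c : ℝ) ^ 4 * loc k f S Z :=
      mul_le_mul_of_nonneg_right (pow_le_pow_left₀ (by positivity) (by exact_mod_cast hS) 4)
        (poi_loc_nonneg k f S Z)
    have h3 : (c : ℝ) ^ 4 * loc k f S Z ≤ ∑ S ∈ univ.filter (fun S : Finset V => #S ≤ c),
        (c : ℝ) ^ 4 * loc k f S Z :=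
      single_le_sum (f := fun S => (c : ℝ) ^ 4 * loc k f S Z)
        (fun S _ => mul_nonneg (by positivity) (poi_loc_nonneg k f S Z))
        (mem_filter.2 ⟨mem_univ _, hS⟩)
    have h4 := poi_Phi0_nonneg k P c f Z'
    have h5 : 0 ≤ 2 * (f Z - CE k (KK P Pᶜ) f Z) ^ 2 := by positivity
    have h6 : poiPhi0 k P c f Z = 2 * (f Z - CE k (KK P Pᶜ) f Z) ^ 2 +
      ∑ S ∈ univ.filter (fun S : Finset V => #S ≤ c), (c : ℝ) ^ 4 * loc k f S Z := rfl
    linarith

lemma poi_sum_Phi0 (k : V → ℤ) (P : Finset V) (c : ℕ) (f : Gr V → ℝ) :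
    ∑ Z ∈ GG k, poiPhi0 k P c f Z ≤
      ((Fintype.card V : ℝ) + 2) ^ (32 + c + c ^ 4 + c ^ 2) * En k f := by
  set N : ℝ := (Fintype.card V : ℝ) + 2 with hN
  have hN2 : 2 ≤ N := by rw [hN]; have : (0 : ℝ) ≤ Fintype.card V := by positivity
                         linarith
  have hN1 : 1 ≤ N := by linarith
  have hE := En_nonneg k f
  unfold poiPhi0
  rw [sum_add_distrib, ← mul_sum, sum_comm]
  have h1 := pure_bound k (A := P) (B := Pᶜ) disjoint_compl_right f
  have h2 : ∀ S ∈ univ.filter (fun S : Finset V => #S ≤ c),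
      ∑ Z ∈ GG k, (c : ℝ) ^ 4 * loc k f S Z ≤ N ^ (c ^ 4) * (N ^ (c ^ 2) * En k f) := by
    intro S hS
    have hS' := (mem_filter.1 hS).2
    rw [← mul_sum]
    refine mul_le_mul ?_ ((sum_loc k f S).trans ?_)
      (sum_nonneg fun Z _ => poi_loc_nonneg k f S Z) (by positivity)
    · exact_mod_cast poi_const_le hN2 (c ^ 4)
    · refine mul_le_mul_of_nonneg_right ?_ hE
      exact (pow_le_pow_left₀ (by norm_num) hN2 _).trans
        (pow_le_pow_right₀ hN1 (Nat.pow_le_pow_left hS' 2))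
  have h3 := sum_le_card_nsmul _ _ _ h2
  rw [nsmul_eq_mul] at h3
  have h4 : (#(univ.filter fun S : Finset V => #S ≤ c) : ℝ) ≤ N ^ c := by
    have e : (#(univ.filter fun S : Finset V => #S ≤ c) : ℝ) ≤ ((Fintype.card V : ℝ) + 1) ^ c := by
      exact_mod_cast poi_small_univ V c
    exact e.trans (pow_le_pow_left₀ (by positivity) (by rw [hN]; linarith) c)
  have h5 : (#(univ.filter fun S : Finset V => #S ≤ c) : ℝ) *
      (N ^ (c ^ 4) * (N ^ (c ^ 2) * En k f)) ≤ N ^ (31 + c + c ^ 4 + c ^ 2) * En k f := by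
    calc _ ≤ N ^ c * (N ^ (c ^ 4) * (N ^ (c ^ 2) * En k f)) :=
          mul_le_mul_of_nonneg_right h4 (by positivity)
      _ = N ^ (c + c ^ 4 + c ^ 2) * En k f := by rw [pow_add, pow_add]; ring
      _ ≤ _ := mul_le_mul_of_nonneg_right (pow_le_pow_right₀ hN1 (by omega)) hE
  have h6 : 2 * (N ^ 30 * En k f) ≤ N ^ (31 + c + c ^ 4 + c ^ 2) * En k f := by
    calc _ ≤ N * (N ^ 30 * En k f) := mul_le_mul_of_nonneg_right hN2 (by positivity)
      _ = N ^ 31 * En k f := by ring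
      _ ≤ _ := mul_le_mul_of_nonneg_right (pow_le_pow_right₀ hN1 (by omega)) hE
  have h7 : 2 * (N ^ (31 + c + c ^ 4 + c ^ 2) * En k f) ≤
      N ^ (32 + c + c ^ 4 + c ^ 2) * En k f := by
    calc _ ≤ N * (N ^ (31 + c + c ^ 4 + c ^ 2) * En k f) :=
          mul_le_mul_of_nonneg_right hN2 (by positivity)
      _ = _ := by
          rw [show 32 + c + c ^ 4 + c ^ 2 = (31 + c + c ^ 4 + c ^ 2) + 1 by omega, pow_succ]; ring
  linarith

open Classical in
/-- energy charged to a pair of the decomposition -/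
noncomputable def poiPhi1 (k : V → ℤ) (P : Finset V) (c : ℕ) (f : Gr V → ℝ) (q : Gr V × Gr V) :
    ℝ :=
  if Good k P c q.2 then ∑ Z ∈ (GG k).filter (fun Z => #(Z ∆ q.1) ≤ c), poiPhi0 k P c f Z else 0

lemma poi_Phi1_nonneg (k : V → ℤ) (P : Finset V) (c : ℕ) (f : Gr V → ℝ) (q : Gr V × Gr V) :
    0 ≤ poiPhi1 k P c f q := by
  unfold poiPhi1
  split_ifs
  · exact sum_nonneg fun Z _ => poi_Phi0_nonneg k P c f Z
  · exact le_rfl

open Classical in
lemma poi_sum_Phi1 (k : V → ℤ) (P : Finset V) (c : ℕ) (f : Gr V → ℝ) :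
    ∑ q, poiPhi1 k P c f q ≤ (#(univ.filter fun E' => Good k P c E') : ℝ) *
      (((Fintype.card (V × V) + 1 : ℕ) : ℝ) ^ c * ∑ Z ∈ GG k, poiPhi0 k P c f Z) := by
  rw [Fintype.sum_prod_type_right]
  have h1 : ∀ E' : Gr V, ∑ G' : Gr V, poiPhi1 k P c f (G', E') = if Good k P c E' then
      ∑ G' : Gr V, ∑ Z ∈ (GG k).filter (fun Z => #(Z ∆ G') ≤ c), poiPhi0 k P c f Z else 0 := by
    intro E'
    unfold poiPhi1
    split_ifs with h
    · rfl
    · simp
  rw [sum_congr rfl fun E' _ => h1 E', ← sum_filter, sum_const, nsmul_eq_mul]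
  refine mul_le_mul_of_nonneg_left ?_ (by positivity)
  simp only [sum_filter]
  rw [sum_comm, mul_sum]
  refine sum_le_sum fun Z _ => ?_
  rw [← sum_filter, sum_const, nsmul_eq_mul]
  refine mul_le_mul_of_nonneg_right ?_ (poi_Phi0_nonneg k P c f Z)
  exact_mod_cast poi_near_card Z c

omit [Fintype V] in
lemma poi_len_le {G E : Gr V} {d : ℕ → V × V} {L : ℕ} (hC : Circ Prod.swap Prod.fst G E d L) :
    L ≤ #(sl Prod.swap d (range L)) := by
  have : #(range L) ≤ #(sl Prod.swap d (range L)) := by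
    refine card_le_card_of_injOn d (fun i hi => ?_) (fun i hi j hj e => ?_)
    · exact mem_coe.2 ((mem_sl Prod.swap).2 ⟨i, mem_coe.1 hi, Or.inl rfl⟩)
    · exact (hC.inj i j e).eq_of_lt_of_lt (mem_range.1 (mem_coe.1 hi)) (mem_range.1 (mem_coe.1 hj))
  simpa using this

lemma poi_chain {k : V → ℤ} {P : Finset V} {b c : ℕ} (f : Gr V → ℝ)
    (hr : ∀ (G E : Gr V) (d : ℕ → V × V) (L : ℕ) (M : ℝ), G ∈ GG k → E ∈ GG k →
      Circ Prod.swap Prod.fst G E d L → 0 ≤ M →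
      (∀ Z Z', St k P b c G E d L Z → St k P b c G E d L Z' → Mv P c Z Z' → |f Z - f Z'| ≤ M) →
      |f G - f (G ∆ sl Prod.swap d (range L))| ≤ 2 * L * M)
    {G E : Gr V} (hG : G ∈ GG k) (hE : E ∈ GG k) {Reach : Finset (Gr V × Gr V)} {U : Gr V}
    (hU : Chain Prod.swap Prod.fst G E b Reach U) :
    G ∆ U ∈ GG k ∧ E ∆ U ∈ GG k ∧
      |f G - f (G ∆ U)| ≤ 2 * #U * √(2 * ∑ q ∈ Reach, poiPhi1 k P c f q) := by
  set R := ∑ q ∈ Reach, poiPhi1 k P c f q with hR
  induction hU with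
  | nil =>
    have e : ∀ X : Gr V, X ∆ ∅ = X := fun X => symmDiff_bot X
    rw [e, e]
    exact ⟨hG, hE, by simp⟩
  | @step U d L _ hC hd hF ih =>
    obtain ⟨h1, h2, h3⟩ := ih
    have e : U ∪ sl Prod.swap d (range L) = U ∆ sl Prod.swap d (range L) :=
      (hd.symmDiff_eq_sup).symm
    have hc : #(U ∪ sl Prod.swap d (range L)) = #U + #(sl Prod.swap d (range L)) :=
      card_union_of_disjoint hd
    rw [hc, e, ← symmDiff_assoc, ← symmDiff_assoc]
    obtain ⟨h4, h5⟩ := circ_flip h1 h2 hC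
    refine ⟨h4, h5, ?_⟩
    have hst : ∀ Z, St k P b c (G ∆ U) (E ∆ U) d L Z → poiPhi0 k P c f Z ≤ R := by
      rintro Z ⟨hZ, F, hF1, hF2, hF3⟩
      have e1 : poiPhi1 k P c f (G ∆ U ∆ F, E ∆ U ∆ F) ≤ R :=
        single_le_sum (f := poiPhi1 k P c f) (fun q _ => poi_Phi1_nonneg k P c f q) (hF F hF1)
      refine le_trans ?_ e1
      unfold poiPhi1
      rw [if_pos hF3]
      exact single_le_sum (f := poiPhi0 k P c f) (fun Y _ => poi_Phi0_nonneg k P c f Y)
        (mem_filter.2 ⟨hZ, hF2⟩)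
    have h6 := hr _ _ d L (√(2 * R)) h1 h2 hC (Real.sqrt_nonneg _) fun Z Z' s1 s2 hm => by
      refine Real.abs_le_sqrt ?_
      have := poi_mv f s1.1 s2.1 hm
      have := hst Z s1
      have := hst Z' s2
      linarith
    have h7 : (L : ℝ) ≤ #(sl Prod.swap d (range L)) := by exact_mod_cast poi_len_le hC
    have h8 := abs_sub_le (f G) (f (G ∆ U)) (f (G ∆ U ∆ sl Prod.swap d (range L)))
    have h9 := Real.sqrt_nonneg (2 * R)
    push_cast
    nlinarith

lemma poi_src {k : V → ℤ} {G E : Gr V} (hG : G ∈ GG k) (hE : E ∈ GG k) :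
    Src Prod.swap Prod.fst G E := by
  obtain ⟨g1, g2⟩ := mem_GG.1 hG
  obtain ⟨e1, e2⟩ := mem_GG.1 hE
  refine ⟨g1.1, e1.1, fun x hx h => ?_, fun v => ?_⟩
  · have := (g1.symmDiff e1).2 x hx
    exact this (by have := congrArg Prod.fst h; simpa using this.symm)
  · have := (g2 v).trans (e2 v).symm
    unfold deg at this
    exact_mod_cast this

end

theorem poincare : ∃ A : ℕ, ∀ (V : Type) [Fintype V] [DecidableEq V] (k : V → ℤ)
    (f : Gr V → ℝ), ∑ G ∈ GG k, ∑ E ∈ GG k, (f G - f E) ^ 2 ≤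
      ((Fintype.card V : ℝ) + 2) ^ A * #(GG k) * En k f := by
  obtain ⟨b, c, hr⟩ := route
  obtain ⟨A1, hA1⟩ := counting c
  refine ⟨2 * (4 * b + 20) + 7 + ((2 * c + 2) * c + A1 + 2 * c) + 2 * c +
    (32 + c + c ^ 4 + c ^ 2), fun V _ _ k f => ?_⟩
  classical
  rcases (GG k).eq_empty_or_nonempty with h0 | hne
  · simp [h0]
  obtain ⟨P, hP⟩ := hA1 V k hne
  set n : ℕ := Fintype.card V with hn
  set N : ℝ := (n : ℝ) + 2 with hN
  have hn0 : (0 : ℝ) ≤ n := by positivity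
  have hN2 : 2 ≤ N := by rw [hN]; linarith
  have hN1 : 1 ≤ N := by linarith
  have hE := En_nonneg k f
  have hVV : Fintype.card (V × V) = n * n := by rw [Fintype.card_prod]
  have key := cong (Prod.swap : V × V → V × V) Prod.fst Prod.swap_swap b (GG k ×ˢ GG k)
    (fun p hp => poi_src (mem_product.1 hp).1 (mem_product.1 hp).2)
    (fun p => (f p.1 - f p.2) ^ 2) (fun q => N ^ 7 * poiPhi1 k P c f q)
    (fun q => mul_nonneg (by positivity) (poi_Phi1_nonneg k P c f q)) (by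
      intro p hp Reach hch
      obtain ⟨-, -, h⟩ := poi_chain (P := P) (c := c) f
        (fun G E d L M => hr V k P G E d L f M) (mem_product.1 hp).1 (mem_product.1 hp).2 hch
      rw [symmDiff_symmDiff_cancel_left] at h
      rw [← mul_sum]
      set R := ∑ q ∈ Reach, poiPhi1 k P c f q with hR
      have hR0 : 0 ≤ R := sum_nonneg fun q _ => poi_Phi1_nonneg k P c f q
      have hU : (#(p.1 ∆ p.2) : ℝ) ≤ N ^ 2 := by
        have e : #(p.1 ∆ p.2) ≤ n * n := hVV ▸ card_le_univ _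
        have e' : (#(p.1 ∆ p.2) : ℝ) ≤ n * n := by exact_mod_cast e
        rw [hN]; nlinarith
      have h2 : |f p.1 - f p.2| ≤ 2 * N ^ 2 * √(2 * R) :=
        h.trans (mul_le_mul_of_nonneg_right (by linarith) (Real.sqrt_nonneg _))
      have h3 : (f p.1 - f p.2) ^ 2 ≤ (2 * N ^ 2 * √(2 * R)) ^ 2 := by
        rw [← sq_abs]
        exact pow_le_pow_left₀ (abs_nonneg _) h2 2
      have h4 : (2 * N ^ 2 * √(2 * R)) ^ 2 = 2 ^ 3 * (N ^ 4 * R) := by
        rw [mul_pow, Real.sq_sqrt (by positivity)]; ring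
      have h5 : (2 : ℝ) ^ 3 * (N ^ 4 * R) ≤ N ^ 3 * (N ^ 4 * R) :=
        mul_le_mul_of_nonneg_right (pow_le_pow_left₀ (by norm_num) hN2 3) (by positivity)
      calc _ ≤ _ := h3
        _ = _ := h4
        _ ≤ _ := h5
        _ = _ := by ring)
  rw [sum_product] at key
  refine key.trans ?_
  rw [← mul_sum]
  have hsq : ((Fintype.card (V × V) + 1 : ℕ) : ℝ) ^ c ≤ N ^ (2 * c) := by
    rw [pow_mul, hVV]
    refine pow_le_pow_left₀ (by positivity) ?_ c
    push_cast; rw [hN]; nlinarith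
  have h1 : ((Fintype.card (V × V) : ℝ) + 2) ^ (4 * b + 20) ≤ N ^ (2 * (4 * b + 20)) := by
    rw [pow_mul, hVV]
    refine pow_le_pow_left₀ (by positivity) ?_ _
    push_cast; rw [hN]; nlinarith
  have h2 := poi_card_good (c := c) hP (by positivity)
  have h3 : ((n * (2 * c + 1) + 1 : ℕ) : ℝ) ^ c ≤ N ^ ((2 * c + 2) * c) := by
    rw [pow_mul]
    refine pow_le_pow_left₀ (by positivity) ?_ c
    have e1 := poi_const_le hN2 (2 * c + 1)
    have e2 : (1 : ℝ) ≤ N ^ (2 * c + 1) := one_le_pow₀ hN1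
    rw [show 2 * c + 2 = (2 * c + 1) + 1 by omega, pow_succ]
    push_cast at e1 ⊢
    rw [hN] at e1 e2 ⊢
    nlinarith
  have h4 : (#(univ.filter fun E' => Good k P c E') : ℝ) ≤
      N ^ ((2 * c + 2) * c + A1 + 2 * c) * #(GG k) := by
    refine h2.trans ?_
    calc _ ≤ N ^ ((2 * c + 2) * c) * (N ^ A1 * #(GG k) * N ^ (2 * c)) :=
          mul_le_mul h3 (mul_le_mul_of_nonneg_left hsq (by positivity)) (by positivity)
            (by positivity)
      _ = _ := by rw [pow_add, pow_add]; ring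
  have h5 := poi_sum_Phi0 k P c f
  have h6 : ∑ q, poiPhi1 k P c f q ≤ N ^ ((2 * c + 2) * c + A1 + 2 * c) * #(GG k) *
      (N ^ (2 * c) * (N ^ (32 + c + c ^ 4 + c ^ 2) * En k f)) := by
    refine (poi_sum_Phi1 k P c f).trans ?_
    have h0 : 0 ≤ ∑ Z ∈ GG k, poiPhi0 k P c f Z :=
      sum_nonneg fun Z _ => poi_Phi0_nonneg k P c f Z
    exact mul_le_mul h4 (mul_le_mul hsq h5 h0 (by positivity)) (by positivity) (by positivity)
  calc _ ≤ N ^ (2 * (4 * b + 20)) * (N ^ 7 * (N ^ ((2 * c + 2) * c + A1 + 2 * c) * #(GG k) *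
        (N ^ (2 * c) * (N ^ (32 + c + c ^ 4 + c ^ 2) * En k f)))) :=
        mul_le_mul h1 (mul_le_mul_of_nonneg_left h6 (by positivity))
          (mul_nonneg (by positivity) (sum_nonneg fun q _ => poi_Phi1_nonneg k P c f q))
          (by positivity)
    _ = _ := by
        generalize 2 * (4 * b + 20) = a1
        generalize (2 * c + 2) * c + A1 + 2 * c = a2
        generalize 32 + c + c ^ 4 + c ^ 2 = a3
        generalize 2 * c = a4
        rw [pow_add, pow_add, pow_add, pow_add]; ring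

end Pool.Agent.MP_c319e0_lc

end

-- part MP_c319e0_lc.Mixing
section

/-! From the Poincare inequality to the mixing time. -/

namespace Pool.Agent.MP_c319e0_lc
open Finset
open scoped symmDiff

section Markov
variable {β : Type}

/-- contraction of the lazy symmetric kernel on mean zero functions -/
lemma mix_contract (Ω : Finset β) (K : β → β → ℝ) (hK0 : ∀ G H, 0 ≤ K G H)
    (hK1 : ∀ G ∈ Ω, ∑ H ∈ Ω, K G H = 1) (hKs : ∀ G ∈ Ω, ∀ H ∈ Ω, K G H = K H G)
    {R : ℝ} (hR : 0 < R) (g : β → ℝ) (hg : ∑ G ∈ Ω, g G = 0)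
    (hP : ∑ G ∈ Ω, ∑ E ∈ Ω, (g G - g E) ^ 2 ≤
      R * #Ω * ∑ G ∈ Ω, ∑ H ∈ Ω, K G H * (g G - g H) ^ 2) :
    ∑ H ∈ Ω, (g H / 2 + (∑ G ∈ Ω, K H G * g G) / 2) ^ 2 ≤
      (1 - 1 / (2 * R)) * ∑ G ∈ Ω, g G ^ 2 := by
  rcases Ω.eq_empty_or_nonempty with rfl | hne
  · simp
  have hN : (0 : ℝ) < #Ω := by exact_mod_cast card_pos.2 hne
  set S := ∑ G ∈ Ω, g G ^ 2 with hS
  set I := ∑ H ∈ Ω, g H * ∑ G ∈ Ω, K H G * g G with hI
  have hcol : ∀ G ∈ Ω, ∑ H ∈ Ω, K H G = 1 := fun G hG => by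
    rw [← hK1 G hG]; exact sum_congr rfl fun H hH => hKs H hH G hG
  have hKS : ∑ H ∈ Ω, ∑ G ∈ Ω, K H G * g G ^ 2 = S := by
    rw [sum_comm]
    exact sum_congr rfl fun G hG => by rw [← sum_mul, hcol G hG, one_mul]
  have h1 : ∑ G ∈ Ω, ∑ E ∈ Ω, (g G - g E) ^ 2 = 2 * #Ω * S := by
    have e : ∀ G ∈ Ω, ∑ E ∈ Ω, (g G - g E) ^ 2 = #Ω * g G ^ 2 + S := fun G _ => by
      have : ∀ E ∈ Ω, (g G - g E) ^ 2 = g G ^ 2 + g E ^ 2 - 2 * g G * g E := fun E _ => by ring
      rw [sum_congr rfl this, sum_sub_distrib, sum_add_distrib, ← mul_sum, hg, sum_const,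
        nsmul_eq_mul]
      ring
    rw [sum_congr rfl e, sum_add_distrib, ← mul_sum, sum_const, nsmul_eq_mul]
    ring
  have h2 : ∑ G ∈ Ω, ∑ H ∈ Ω, K G H * (g G - g H) ^ 2 = 2 * S - 2 * I := by
    have e : ∀ G ∈ Ω, ∑ H ∈ Ω, K G H * (g G - g H) ^ 2 = g G ^ 2 + ∑ H ∈ Ω, K G H * g H ^ 2 -
        2 * (g G * ∑ H ∈ Ω, K G H * g H) := fun G hG => by
      have : ∀ H ∈ Ω, K G H * (g G - g H) ^ 2 =
          K G H * g G ^ 2 + K G H * g H ^ 2 - 2 * g G * (K G H * g H) := fun E _ => by ring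
      rw [sum_congr rfl this, sum_sub_distrib, sum_add_distrib, ← mul_sum, ← sum_mul, hK1 G hG]
      ring
    rw [sum_congr rfl e, sum_sub_distrib, sum_add_distrib, hKS, ← mul_sum]
    ring
  have h3 : ∑ H ∈ Ω, (∑ G ∈ Ω, K H G * g G) ^ 2 ≤ S := by
    rw [← hKS]
    refine sum_le_sum fun H hH => ?_
    have := sum_sq_le_sum_mul_sum_of_sq_le_mul Ω (r := fun G => K H G * g G) (f := fun G => K H G)
      (g := fun G => K H G * g G ^ 2) (fun G _ => hK0 H G)
      (fun G _ => mul_nonneg (hK0 H G) (sq_nonneg _)) (fun G _ => le_of_eq (by ring))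
    rwa [hK1 H hH, one_mul] at this
  have h4 : ∑ H ∈ Ω, (g H / 2 + (∑ G ∈ Ω, K H G * g G) / 2) ^ 2 =
      (S + 2 * I + ∑ H ∈ Ω, (∑ G ∈ Ω, K H G * g G) ^ 2) / 4 := by
    rw [hS, hI, mul_sum, ← sum_add_distrib, ← sum_add_distrib, sum_div]
    exact sum_congr rfl fun H _ => by ring
  rw [h1, h2] at hP
  have h5 : S ≤ R * (S - I) := by
    have : #Ω * (2 * S) ≤ #Ω * (2 * (R * (S - I))) := by linarith
    have := le_of_mul_le_mul_left this hN
    linarith
  have h6 : S / R ≤ S - I := by rw [div_le_iff₀ hR]; linarith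
  have h7 : (1 - 1 / (2 * R)) * S = S - S / R / 2 := by field_simp
  rw [h4, h7]
  linarith

/-- evolution of the law -/
lemma mix_law [Fintype β] [DecidableEq β] (Ω : Finset β) (K : β → β → ℝ) (hK0 : ∀ G H, 0 ≤ K G H)
    (hK1 : ∀ G ∈ Ω, ∑ H ∈ Ω, K G H = 1) (hKs : ∀ G ∈ Ω, ∀ H ∈ Ω, K G H = K H G)
    (hKo : ∀ G ∈ Ω, ∀ H ∉ Ω, K G H = 0)
    {R : ℝ} (hR : 1 ≤ R)
    (hP : ∀ g : β → ℝ, ∑ G ∈ Ω, ∑ E ∈ Ω, (g G - g E) ^ 2 ≤
      R * #Ω * ∑ G ∈ Ω, ∑ H ∈ Ω, K G H * (g G - g H) ^ 2)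
    (μ : ℕ → β → ℝ) {G₀ : β} (h0 : G₀ ∈ Ω) (hμ0 : ∀ H, μ 0 H = if H = G₀ then 1 else 0)
    (hμ : ∀ t H, μ (t + 1) H = ∑ G, μ t G * (1 / 2 * (if H = G then 1 else 0) + 1 / 2 * K G H))
    (t : ℕ) : (∀ H ∉ Ω, μ t H = 0) ∧ ∑ H ∈ Ω, μ t H = 1 ∧
      ∑ H ∈ Ω, (μ t H - 1 / #Ω) ^ 2 ≤ (1 - 1 / (2 * R)) ^ t := by
  have hN : (1 : ℝ) ≤ #Ω := by exact_mod_cast card_pos.2 ⟨G₀, h0⟩
  have hcol : ∀ G ∈ Ω, ∑ H ∈ Ω, K H G = 1 := fun G hG => by
    rw [← hK1 G hG]; exact sum_congr rfl fun H hH => hKs H hH G hG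
  induction t with
  | zero =>
    have e1 : ∑ H ∈ Ω, μ 0 H = 1 := by simp [hμ0, h0]
    have e2 : ∑ H ∈ Ω, μ 0 H ^ 2 = 1 := by simp [hμ0, h0]
    refine ⟨fun H hH => ?_, e1, ?_⟩
    · rw [hμ0, if_neg]; rintro rfl; exact hH h0
    · have : ∀ H ∈ Ω, (μ 0 H - 1 / #Ω) ^ 2 = μ 0 H ^ 2 - 2 / #Ω * μ 0 H + (1 / #Ω) ^ 2 :=
        fun H _ => by ring
      rw [sum_congr rfl this, sum_add_distrib, sum_sub_distrib, ← mul_sum, e1, e2, sum_const,
        nsmul_eq_mul, pow_zero]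
      have e3 : (#Ω : ℝ) * (1 / #Ω) ^ 2 = 1 / #Ω := by field_simp
      have e4 : (0 : ℝ) ≤ 1 / #Ω := by positivity
      have e5 : (2 : ℝ) / #Ω = 2 * (1 / #Ω) := by ring
      rw [e3, e5]; linarith
  | succ t ih =>
    obtain ⟨i1, i2, i3⟩ := ih
    have e : ∀ H, μ (t + 1) H = μ t H / 2 + (∑ G ∈ Ω, μ t G * K G H) / 2 := fun H => by
      rw [hμ]
      have : ∀ G ∈ (univ : Finset β), μ t G * (1 / 2 * (if H = G then 1 else 0) + 1 / 2 * K G H) =
          (if H = G then μ t G / 2 else 0) + μ t G * K G H / 2 := fun G _ => by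
        split_ifs <;> ring
      rw [sum_congr rfl this, sum_add_distrib, sum_ite_eq, if_pos (mem_univ _), ← sum_div,
        sum_subset (subset_univ Ω) fun G _ hG => by rw [i1 G hG, zero_mul]]
    refine ⟨fun H hH => ?_, ?_, ?_⟩
    · rw [e, i1 H hH, sum_eq_zero fun G hG => by rw [hKo G hG H hH, mul_zero]]; simp
    · rw [sum_congr rfl fun H _ => e H, sum_add_distrib, ← sum_div, ← sum_div, i2, sum_comm]
      rw [sum_congr rfl fun G hG => by rw [← mul_sum, hK1 G hG, mul_one], i2]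
      norm_num
    · have hg : ∑ G ∈ Ω, (μ t G - 1 / #Ω) = 0 := by
        rw [sum_sub_distrib, i2, sum_const, nsmul_eq_mul]; field_simp; ring
      have hc := mix_contract Ω K hK0 hK1 hKs (by linarith : 0 < R) _ hg (hP _)
      have e2 : ∀ H ∈ Ω, (μ (t + 1) H - 1 / #Ω) ^ 2 = ((μ t H - 1 / #Ω) / 2 +
          (∑ G ∈ Ω, K H G * (μ t G - 1 / #Ω)) / 2) ^ 2 := fun H hH => by
        have : ∀ G ∈ Ω, K H G * (μ t G - 1 / #Ω) = μ t G * K G H - K H G * (1 / #Ω) :=
          fun G hG => by rw [hKs G hG H hH]; ring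
        rw [sum_congr rfl this, sum_sub_distrib, ← sum_mul, hK1 H hH, e]
        ring
      rw [sum_congr rfl e2, pow_succ, mul_comm]
      refine hc.trans (mul_le_mul_of_nonneg_left i3 ?_)
      have : 1 / (2 * R) ≤ 1 := by rw [div_le_one (by linarith)]; linarith
      linarith

end Markov

variable {n : ℕ}

open Classical in
/-- the darts of a graph -/
noncomputable def mixD (G : SimpleGraph (Fin n)) : Gr (Fin n) :=
  univ.filter fun d => G.Adj d.1 d.2

/-- the graph of a set of darts -/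
def mixG (X : Gr (Fin n)) : SimpleGraph (Fin n) := SimpleGraph.fromRel fun x y => (x, y) ∈ X

lemma mix_mem {G : SimpleGraph (Fin n)} {d : Fin n × Fin n} : d ∈ mixD G ↔ G.Adj d.1 d.2 := by
  simp [mixD]

lemma mix_isG (G : SimpleGraph (Fin n)) : IsG (mixD G) :=
  ⟨fun _ hd => mix_mem.2 (mix_mem.1 hd).symm, fun _ hd => (mix_mem.1 hd).ne⟩

lemma mix_GD (G : SimpleGraph (Fin n)) : mixG (mixD G) = G := by
  ext x y
  simp only [mixG, SimpleGraph.fromRel_adj, mix_mem]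
  exact ⟨fun h => h.2.elim id fun h => h.symm, fun h => ⟨h.ne, Or.inl h⟩⟩

lemma mix_DG {X : Gr (Fin n)} (h : IsG X) : mixD (mixG X) = X := by
  ext ⟨x, y⟩
  simp only [mixG, SimpleGraph.fromRel_adj, mix_mem]
  exact ⟨fun e => e.2.elim id fun e => h.1 _ e, fun e => ⟨h.2 _ e, Or.inl e⟩⟩

lemma mix_inj : Function.Injective (mixD (n := n)) := fun G H h => by
  rw [← mix_GD G, h, mix_GD]

lemma mix_deg (G : SimpleGraph (Fin n)) (v : Fin n) :
    deg (mixD G) v = ((G.neighborSet v).ncard : ℕ) := by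
  unfold deg
  have : G.neighborSet v = (((mixD G).filter fun d => d.1 = v).image Prod.snd : Finset (Fin n)) := by
    ext y
    simp only [SimpleGraph.mem_neighborSet, coe_image, coe_filter, Set.mem_image, Set.mem_ofPred_eq,
      mix_mem]
    exact ⟨fun h => ⟨(v, y), ⟨h, rfl⟩, rfl⟩, fun ⟨d, ⟨h1, h2⟩, h3⟩ => h2 ▸ h3 ▸ h1⟩
  rw [this, Set.ncard_coe_finset, card_image_of_injOn]
  intro d hd e he h
  exact Prod.ext (((mem_filter.1 (mem_coe.1 hd)).2).trans (mem_filter.1 (mem_coe.1 he)).2.symm) h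

lemma mix_mem_GG {k : Fin n → ℕ} {G : SimpleGraph (Fin n)} :
    mixD G ∈ GG (fun i => (k i : ℤ)) ↔ G ∈ graphs k := by
  simp only [mem_GG, mix_deg, graphs, mem_filter, mem_univ, true_and, Nat.cast_inj]
  exact ⟨fun h => h.2, fun h => ⟨mix_isG G, h⟩⟩

lemma mix_GG_eq (k : Fin n → ℕ) : GG (fun i => (k i : ℤ)) = (graphs k).image mixD := by
  ext X
  simp only [mem_image]
  refine ⟨fun h => ⟨mixG X, ?_, mix_DG (mem_GG.1 h).1⟩, fun ⟨G, h, e⟩ => e ▸ mix_mem_GG.2 h⟩
  rw [← mix_mem_GG, mix_DG (mem_GG.1 h).1]; exact h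

lemma mix_mem_choices {G : SimpleGraph (Fin n)} {a b c d : Fin n} :
    (a, b, c, d) ∈ choices G ↔ G.Adj a b ∧ G.Adj c d ∧ s(a, b) ≠ s(c, d) := by
  simp only [choices, mem_filter, mem_univ, true_and]

lemma mix_choices_of_sw {G : SimpleGraph (Fin n)} {a b c d : Fin n}
    (h : IsSw (mixD G) a b c d) : (a, b, c, d) ∈ choices G := by
  refine mix_mem_choices.2 ⟨mix_mem.1 h.e1, mix_mem.1 h.e2, fun e => ?_⟩
  rcases Sym2.eq_iff.1 e with ⟨e1, _⟩ | ⟨e1, _⟩
  · exact h.ac e1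
  · exact h.ad e1

lemma mix_switch_of_sw {G : SimpleGraph (Fin n)} {a b c d : Fin n}
    (h : IsSw (mixD G) a b c d) : mixD (switch G (a, b, c, d)) = mixD G ∆ sw a b c d := by
  obtain ⟨ab, ac, ad, bc, bd, cd, e1, e2, n1, n2⟩ := h
  rw [mix_mem] at e1 e2 n1 n2
  dsimp only at e1 e2 n1 n2
  have e1' := e1.symm
  have e2' := e2.symm
  have n1' : ¬G.Adj c a := fun h => n1 h.symm
  have n2' : ¬G.Adj d b := fun h => n2 h.symm
  have hc : [a, b, c, d].Nodup ∧ ¬G.Adj a c ∧ ¬G.Adj b d := ⟨by simp [*], n1, n2⟩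
  unfold switch
  rw [if_pos hc]
  ext ⟨x, y⟩
  simp only [mem_symmDiff, mix_mem, mem_sw, SimpleGraph.sup_adj, SimpleGraph.deleteEdges_adj,
    SimpleGraph.fromEdgeSet_adj, Set.mem_insert_iff, Set.mem_singleton_iff, Sym2.eq_iff,
    Prod.mk.injEq]
  constructor
  · rintro (⟨h1, h2⟩ | ⟨h1, _⟩)
    · refine Or.inl ⟨h1, ?_⟩
      rintro (h | h | h | h | h | h | h | h)
      · exact h2 (Or.inl (Or.inl h))
      · exact h2 (Or.inl (Or.inr h))
      · exact h2 (Or.inr (Or.inl h))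
      · exact h2 (Or.inr (Or.inr h))
      all_goals (obtain ⟨rfl, rfl⟩ := h; contradiction)
    · rcases h1 with (⟨rfl, rfl⟩ | ⟨rfl, rfl⟩) | (⟨rfl, rfl⟩ | ⟨rfl, rfl⟩) <;>
        exact Or.inr ⟨by simp, by assumption⟩
  · rintro (⟨h1, h2⟩ | ⟨h1, h2⟩)
    · refine Or.inl ⟨h1, ?_⟩
      rintro ((h | h) | (h | h)) <;> exact h2 (by simp [h])
    · rcases h1 with h | h | h | h | h | h | h | h <;> obtain ⟨rfl, rfl⟩ := h
      · contradiction
      · contradiction
      · contradiction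
      · contradiction
      · exact Or.inr ⟨by simp, ac⟩
      · exact Or.inr ⟨by simp, ac.symm⟩
      · exact Or.inr ⟨by simp, bd⟩
      · exact Or.inr ⟨by simp, bd.symm⟩

lemma mix_sw_of_ne {G : SimpleGraph (Fin n)} {a b c d : Fin n} (h : (a, b, c, d) ∈ choices G)
    (hne : switch G (a, b, c, d) ≠ G) : IsSw (mixD G) a b c d := by
  obtain ⟨e1, e2, _⟩ := mix_mem_choices.1 h
  have hc : [a, b, c, d].Nodup ∧ ¬G.Adj a c ∧ ¬G.Adj b d := by
    by_contra hc
    apply hne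
    unfold switch
    rw [if_neg hc]
  obtain ⟨h1, n1, n2⟩ := hc
  simp only [List.nodup_cons, List.mem_cons, List.not_mem_nil, or_false, not_or] at h1
  exact ⟨h1.1.1, h1.1.2.1, h1.1.2.2, h1.2.1.1, h1.2.1.2, h1.2.2.1, mix_mem.2 e1, mix_mem.2 e2,
    fun h => n1 (mix_mem.1 h), fun h => n2 (mix_mem.1 h)⟩

lemma mix_switch_mem {k : Fin n → ℕ} {G : SimpleGraph (Fin n)} (hG : G ∈ graphs k)
    {q : Fin n × Fin n × Fin n × Fin n} (h : q ∈ choices G) : switch G q ∈ graphs k := by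
  obtain ⟨a, b, c, d⟩ := q
  by_cases hne : switch G (a, b, c, d) = G
  · rw [hne]; exact hG
  · have hs := mix_sw_of_ne h hne
    rw [← mix_mem_GG, mix_switch_of_sw hs]
    exact sw_mem (mix_mem_GG.2 hG) hs

lemma mix_isSw_back {X : Gr (Fin n)} {a b c d : Fin n} (h : IsSw X a b c d) :
    IsSw (X ∆ sw a b c d) a c b d := by
  obtain ⟨ab, ac, ad, bc, bd, cd, e1, e2, n1, n2⟩ := h
  refine ⟨ac, ab, ad, bc.symm, cd, bd, ?_, ?_, ?_, ?_⟩ <;> simp [mem_symmDiff, mem_sw, *]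

lemma mix_sw_comm (a b c d : Fin n) : sw a c b d = sw a b c d := by
  ext e; simp only [mem_sw]; tauto

open Classical in
lemma mix_count_le {G H : SimpleGraph (Fin n)} (hne : H ≠ G) :
    #((choices G).filter fun q => switch G q = H) ≤
      #((choices H).filter fun q => switch H q = G) := by
  refine card_le_card_of_injOn (fun q => (q.1, q.2.2.1, q.2.1, q.2.2.2)) ?_ ?_
  · rintro ⟨a, b, c, d⟩ hq
    obtain ⟨h1, h2⟩ := mem_filter.1 (mem_coe.1 hq)
    have hs := mix_sw_of_ne h1 (h2 ▸ hne)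
    have e := mix_switch_of_sw hs
    rw [h2] at e
    have hb := mix_isSw_back hs
    rw [← e] at hb
    refine mem_coe.2 (mem_filter.2 ⟨mix_choices_of_sw hb, mix_inj ?_⟩)
    rw [mix_switch_of_sw hb, e, mix_sw_comm, symmDiff_symmDiff_cancel_right]
  · rintro ⟨a, b, c, d⟩ _ ⟨a', b', c', d'⟩ _ h
    simp only [Prod.mk.injEq] at h ⊢
    tauto

lemma mix_card_D {k : Fin n → ℕ} {G : SimpleGraph (Fin n)} (hG : G ∈ graphs k) :
    #(mixD G) = ∑ v, k v := by
  rw [card_eq_sum_card_fiberwise (f := Prod.fst) (t := univ) fun _ _ => mem_coe.2 (mem_univ _)]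
  refine sum_congr rfl fun v _ => ?_
  have := (mem_GG.1 (mix_mem_GG.2 hG)).2 v
  unfold deg at this
  exact_mod_cast this

lemma mix_card_choices (G : SimpleGraph (Fin n)) : #(choices G) = #(mixD G) * (#(mixD G) - 2) := by
  classical
  have h1 : #(choices G) = #((mixD G ×ˢ mixD G).filter fun p => p.2 ∉ ({p.1, p.1.swap} : Gr _)) := by
    refine card_bij (fun q _ => ((q.1, q.2.1), (q.2.2.1, q.2.2.2))) ?_ ?_ ?_
    · rintro ⟨a, b, c, d⟩ hq
      obtain ⟨e1, e2, e3⟩ := mix_mem_choices.1 hq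
      refine mem_filter.2 ⟨mem_product.2 ⟨mix_mem.2 e1, mix_mem.2 e2⟩, fun h => e3 ?_⟩
      simp only [mem_insert, mem_singleton, Prod.mk.injEq, Prod.swap_prod_mk] at h
      rcases h with ⟨rfl, rfl⟩ | ⟨rfl, rfl⟩
      · rfl
      · exact Sym2.eq_swap
    · rintro ⟨a, b, c, d⟩ _ ⟨a', b', c', d'⟩ _ h
      simp only [Prod.mk.injEq] at h ⊢
      tauto
    · rintro ⟨⟨a, b⟩, ⟨c, d⟩⟩ hp
      obtain ⟨h1, h2⟩ := mem_filter.1 hp
      obtain ⟨e1, e2⟩ := mem_product.1 h1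
      refine ⟨(a, b, c, d), mix_mem_choices.2 ⟨mix_mem.1 e1, mix_mem.1 e2, fun e => h2 ?_⟩, rfl⟩
      simp only [mem_insert, mem_singleton, Prod.mk.injEq, Prod.swap_prod_mk]
      rcases Sym2.eq_iff.1 e with ⟨rfl, rfl⟩ | ⟨rfl, rfl⟩
      · exact Or.inl ⟨rfl, rfl⟩
      · exact Or.inr ⟨rfl, rfl⟩
  rw [h1, card_filter, sum_product, ← smul_eq_mul, ← sum_const]
  refine sum_congr rfl fun x hx => ?_
  rw [← card_filter]
  have e : (mixD G).filter (fun y => y ∉ ({x, x.swap} : Gr _)) = mixD G \ {x, x.swap} := by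
    ext y; simp only [mem_filter, mem_sdiff]
  have hs : ({x, x.swap} : Gr _) ⊆ mixD G := by
    intro y hy
    rcases mem_insert.1 hy with rfl | hy
    · exact hx
    · rw [mem_singleton.1 hy]; exact (mix_isG G).1 x hx
  have hx2 : x ≠ x.swap := fun h => (mix_isG G).2 x hx (congrArg Prod.fst h)
  dsimp only
  rw [e, card_sdiff_of_subset hs, card_pair hx2]

open Classical in
/-- the non-lazy kernel -/
noncomputable def mixK (G H : SimpleGraph (Fin n)) : ℝ :=
  if choices G = ∅ then (if H = G then 1 else 0)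
    else (#((choices G).filter fun q => switch G q = H) : ℝ) / #(choices G)

lemma mix_K0 (G H : SimpleGraph (Fin n)) : 0 ≤ mixK G H := by
  unfold mixK; split_ifs <;> positivity

open Classical in
lemma mix_K_sum {k : Fin n → ℕ} {G : SimpleGraph (Fin n)} (hG : G ∈ graphs k)
    (φ : SimpleGraph (Fin n) → ℝ) : ∑ q ∈ choices G, φ (switch G q) =
      #(choices G) * ∑ H ∈ graphs k, mixK G H * φ H := by
  by_cases h : choices G = ∅
  · simp [h]
  have hc : (#(choices G) : ℝ) ≠ 0 := by simpa using h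
  rw [← sum_fiberwise_of_maps_to (g := switch G) (t := graphs k)
    (fun q hq => mix_switch_mem hG hq), mul_sum]
  refine sum_congr rfl fun H _ => ?_
  rw [sum_congr rfl (g := fun _ => φ H) fun q hq => by rw [(mem_filter.1 hq).2], sum_const,
    nsmul_eq_mul]
  unfold mixK
  rw [if_neg h]
  field_simp

lemma mix_K1 {k : Fin n → ℕ} {G : SimpleGraph (Fin n)} (hG : G ∈ graphs k) :
    ∑ H ∈ graphs k, mixK G H = 1 := by
  by_cases h : choices G = ∅
  · classical
    simp only [mixK, h, if_true]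
    rw [sum_eq_single_of_mem G hG fun H _ hH => if_neg hH, if_pos rfl]
  have hc : (#(choices G) : ℝ) ≠ 0 := by simpa using h
  have := mix_K_sum hG fun _ => 1
  simp only [sum_const, nsmul_eq_mul, mul_one] at this
  exact mul_left_cancel₀ hc (by rw [← this, mul_one])

lemma mix_Ko {k : Fin n → ℕ} {G H : SimpleGraph (Fin n)} (hG : G ∈ graphs k)
    (hH : H ∉ graphs k) : mixK G H = 0 := by
  classical
  unfold mixK
  split_ifs with h1 h2
  · exact absurd (h2 ▸ hG) hH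
  · rfl
  · rw [div_eq_zero_iff, Nat.cast_eq_zero, card_eq_zero]
    refine Or.inl (eq_empty_of_forall_notMem fun q hq => ?_)
    simp only [mem_filter] at hq
    exact hH (hq.2 ▸ mix_switch_mem hG hq.1)

lemma mix_Ks {k : Fin n → ℕ} {G H : SimpleGraph (Fin n)} (hG : G ∈ graphs k)
    (hH : H ∈ graphs k) : mixK G H = mixK H G := by
  by_cases hne : H = G
  · rw [hne]
  have hc : #(choices G) = #(choices H) := by
    rw [mix_card_choices, mix_card_choices, mix_card_D hG, mix_card_D hH]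
  have he : choices G = ∅ ↔ choices H = ∅ := by rw [← card_eq_zero, ← card_eq_zero, hc]
  unfold mixK
  by_cases h : choices G = ∅
  · rw [if_pos h, if_pos (he.1 h), if_neg hne, if_neg (Ne.symm hne)]
  · rw [if_neg h, if_neg (mt he.2 h), hc,
      le_antisymm (mix_count_le hne) (mix_count_le (Ne.symm hne))]

lemma mix_grad {k : Fin n → ℕ} {G : SimpleGraph (Fin n)} (hG : G ∈ graphs k)
    (g : SimpleGraph (Fin n) → ℝ) : grad2 (fun X => g (mixG X)) (mixD G) ≤
      ((n : ℝ) + 2) ^ 4 * ∑ H ∈ graphs k, mixK G H * (g G - g H) ^ 2 := by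
  classical
  have h1 : grad2 (fun X => g (mixG X)) (mixD G) ≤
      ∑ q ∈ choices G, (g G - g (switch G q)) ^ 2 := by
    unfold grad2
    rw [← sum_filter]
    refine le_trans (le_of_eq (sum_congr rfl fun q hq => ?_))
      (sum_le_sum_of_subset_of_nonneg (fun q hq => ?_) fun _ _ _ => sq_nonneg _)
    · rw [← mix_switch_of_sw (mem_filter.1 hq).2]
      simp only [mix_GD]
    · exact mix_choices_of_sw (mem_filter.1 hq).2
  rw [mix_K_sum hG fun H => (g G - g H) ^ 2] at h1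
  refine h1.trans (mul_le_mul_of_nonneg_right ?_
    (sum_nonneg fun H _ => mul_nonneg (mix_K0 G H) (sq_nonneg _)))
  have e : #(choices G) ≤ n ^ 4 := by
    refine (card_le_univ _).trans (le_of_eq ?_)
    simp only [Fintype.card_prod, Fintype.card_fin]; ring
  have e' : (#(choices G) : ℝ) ≤ (n : ℝ) ^ 4 := by exact_mod_cast e
  exact e'.trans (pow_le_pow_left₀ (by positivity) (by linarith) 4)

lemma mix_card_le (k : Fin n → ℕ) : #(graphs k) ≤ 2 ^ (n ^ 2) := by
  rw [← card_image_of_injective _ mix_inj]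
  refine (card_le_univ _).trans (le_of_eq ?_)
  simp only [Fintype.card_finset, Fintype.card_prod, Fintype.card_fin, sq]

theorem mixing : ∃ A : ℕ, ∀ (n : ℕ) (k : Fin n → ℕ) (ε : ℝ), 0 < ε → ε < 1 →
    ∀ t : ℕ, ((n : ℝ) + 2) ^ A * (1 + Real.log ε⁻¹) ≤ t → t ∈ mixed k ε := by
  obtain ⟨A, hA⟩ := poincare
  refine ⟨A + 7, fun n k ε h0 h1 t ht G₀ hG₀ => ?_⟩
  classical
  set N : ℝ := (n : ℝ) + 2 with hN
  have hn0 : (0 : ℝ) ≤ n := by positivity
  have hN2 : 2 ≤ N := by rw [hN]; linarith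
  have hN1 : 1 ≤ N := by linarith
  set R : ℝ := N ^ (A + 4) with hR
  have hR1 : 1 ≤ R := one_le_pow₀ hN1
  have hP : ∀ g : SimpleGraph (Fin n) → ℝ, ∑ G ∈ graphs k, ∑ E ∈ graphs k, (g G - g E) ^ 2 ≤
      R * #(graphs k) * ∑ G ∈ graphs k, ∑ H ∈ graphs k, mixK G H * (g G - g H) ^ 2 := by
    intro g
    have h := hA (Fin n) (fun i => (k i : ℤ)) (fun X => g (mixG X))
    unfold En at h
    rw [mix_GG_eq, card_image_of_injective _ mix_inj, Fintype.card_fin,
      sum_image fun _ _ _ _ e => mix_inj e, sum_image fun _ _ _ _ e => mix_inj e] at h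
    simp only [sum_image fun _ _ _ _ e => mix_inj e, mix_GD] at h
    refine h.trans ?_
    have h2 := sum_le_sum fun G hG => mix_grad (k := k) (G := G) hG g
    rw [← mul_sum] at h2
    calc _ ≤ N ^ A * #(graphs k) * (N ^ 4 *
          ∑ G ∈ graphs k, ∑ H ∈ graphs k, mixK G H * (g G - g H) ^ 2) :=
          mul_le_mul_of_nonneg_left h2 (by positivity)
      _ = _ := by rw [hR, pow_add]; ring
  obtain ⟨l1, -, l3⟩ := mix_law (graphs k) mixK mix_K0 (fun G hG => mix_K1 hG)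
    (fun G hG H hH => mix_Ks hG hH) (fun G hG H hH => mix_Ko hG hH) hR1 hP (law G₀) hG₀
    (fun H => by simp only [law]) (fun t H => by simp only [law, step, mixK]) t
  have e1 : tv k G₀ t = 1 / 2 * ∑ H ∈ graphs k, |law G₀ t H - 1 / #(graphs k)| := by
    unfold tv
    rw [← sum_subset (subset_univ (graphs k)) fun H _ hH => by rw [if_neg hH, l1 H hH]; simp,
      sum_congr rfl fun H hH => by rw [if_pos hH]]
  have e2 : (∑ H ∈ graphs k, |law G₀ t H - 1 / #(graphs k)|) ^ 2 ≤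
      #(graphs k) * (1 - 1 / (2 * R)) ^ t := by
    refine sq_sum_le_card_mul_sum_sq.trans (mul_le_mul_of_nonneg_left ?_ (by positivity))
    simpa only [sq_abs] using l3
  have hγ : 1 / (2 * R) ≤ 1 := by rw [div_le_one (by linarith)]; linarith
  have e3 : (1 - 1 / (2 * R)) ^ t ≤ Real.exp (-(1 / (2 * R)) * t) := by
    rw [mul_comm _ (t : ℝ), Real.exp_nat_mul]
    refine pow_le_pow_left₀ (by linarith) ?_ t
    have := Real.add_one_le_exp (-(1 / (2 * R)))
    linarith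
  have e4 : (#(graphs k) : ℝ) ≤ Real.exp ((n : ℝ) ^ 2) := by
    have a1 : (#(graphs k) : ℝ) ≤ 2 ^ (n ^ 2) := by exact_mod_cast mix_card_le k
    have a2 : (2 : ℝ) ≤ Real.exp 1 := by have := Real.add_one_le_exp 1; linarith
    have a3 : Real.exp ((n : ℝ) ^ 2) = Real.exp 1 ^ (n ^ 2) := by
      rw [← Real.exp_nat_mul]; push_cast; rw [mul_one]
    rw [a3]
    exact a1.trans (pow_le_pow_left₀ (by norm_num) a2 _)
  set L := Real.log ε⁻¹ with hL
  have hL0 : 0 ≤ L := Real.log_nonneg ((one_le_inv₀ h0).2 h1.le)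
  have e5 : ε ^ 2 = Real.exp (-(2 * L)) := by
    have : Real.exp (-L) = ε := by rw [hL, Real.log_inv, neg_neg, Real.exp_log h0]
    rw [← this, ← Real.exp_nat_mul]; push_cast; ring_nf
  have e6 : (n : ℝ) ^ 2 + -(1 / (2 * R)) * t ≤ -(2 * L) := by
    have b1 : (n : ℝ) ^ 2 + 2 * L ≤ N ^ 2 * (1 + L) := by rw [hN]; nlinarith
    have b2 : 2 * R * (N ^ 2 * (1 + L)) ≤ t := by
      refine le_trans ?_ ht
      have : N ^ (A + 7) = N * R * N ^ 2 := by rw [hR]; ring
      rw [this]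
      have : 0 ≤ R * (N ^ 2 * (1 + L)) := by positivity
      nlinarith
    have b3 : N ^ 2 * (1 + L) ≤ 1 / (2 * R) * t := by
      rw [one_div, ← div_eq_inv_mul, le_div_iff₀ (by positivity)]; linarith
    linarith
  have e7 : (∑ H ∈ graphs k, |law G₀ t H - 1 / #(graphs k)|) ^ 2 ≤ ε ^ 2 := by
    refine e2.trans ?_
    rw [e5]
    refine (mul_le_mul e4 e3 (pow_nonneg (by linarith) t) (Real.exp_pos _).le).trans ?_
    rw [← Real.exp_add]
    exact Real.exp_le_exp.2 e6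
  have e8 := abs_le_of_sq_le_sq' e7 h0.le
  rw [e1]
  linarith [e8.2]

end Pool.Agent.MP_c319e0_lc

end
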