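import Pool.Agent.MP_c319e0_lc.Mg.ThreeA

/-! The two couplings of the three row lemma. -/

namespace Pool.Agent.MP_c319e0_lc.Thr
open Finset
open scoped symmDiff

section
variable {V : Type} [Fintype V] [DecidableEq V] {k : V → ℤ} {A B : Finset V}
  {G G' Y : Gr V} {a b c d u v w x y z : V}

/-- `A` consists of the three distinct rows `u v w` -/
structure Tri (A : Finset V) (u v w : V) : Prop where
  uv : u ≠ v
  uw : u ≠ w
  vw : v ≠ w
  eq : A = {u, v, w}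

omit [Fintype V] in
lemma Tri.swap (t : Tri A u v w) : Tri A u w v :=
  ⟨t.uw, t.uv, t.vw.symm, by rw [t.eq, pair_comm]⟩

omit [Fintype V] in
lemma Tri.hu (t : Tri A u v w) : u ∈ A := by simp [t.eq]
omit [Fintype V] in
lemma Tri.hv (t : Tri A u v w) : v ∈ A := by simp [t.eq]
omit [Fintype V] in
lemma Tri.hw (t : Tri A u v w) : w ∈ A := by simp [t.eq]

omit [Fintype V] in
lemma Tri.erase (t : Tri A u v w) : A.erase u = {v, w} := by
  rw [t.eq, erase_insert (by simp [t.uv, t.uw])]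

omit [Fintype V] in
lemma Tri.sum (t : Tri A u v w) {M : Type} [AddCommMonoid M] (g : V → M) :
    ∑ a ∈ A, g a = g u + g v + g w := by
  rw [t.eq, sum_insert (by simp [t.uv, t.uw]), sum_pair t.vw, add_assoc]

omit [Fintype V] in
lemma Tri.of_mem (t : Tri A u v w) (ha : a ∈ A) : ∃ p q, Tri A a p q := by
  have h := ha
  rw [t.eq] at h
  simp only [mem_insert, mem_singleton] at h
  rcases h with rfl | rfl | rfl
  · exact ⟨v, w, t⟩
  · exact ⟨u, w, t.uv.symm, t.vw, t.uw, by rw [t.eq, insert_comm]⟩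
  · refine ⟨u, v, t.uw.symm, t.vw.symm, t.uv, ?_⟩
    rw [t.eq]; ext s; simp only [mem_insert, mem_singleton]; tauto

omit [Fintype V] in
lemma Tri.col (t : Tri A u v w) (G : Gr V) (z : V) :
    col A G z = ind G (u, z) + ind G (v, z) + ind G (w, z) := t.sum _

lemma blk_sub (hY : Y ∈ blk k (KK (A.erase u) B) G) : G ∆ Y ⊆ KK A B :=
  (mem_blk.1 hY).2.trans (KK_mono (erase_subset _ _))

/-- the columns `x` and `y` on the block of `G` -/
lemma SP.cols (hAB : Disjoint A B) (t : Tri A u v w) (sp : SP k A B u G G' x y)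
    (hY : Y ∈ blk k (KK (A.erase u) B) G) :
    col A G x = 1 + ind Y (v, x) + ind Y (w, x) ∧ col A G y = ind Y (v, y) + ind Y (w, y) := by
  obtain ⟨hY1, hY2⟩ := mem_blk.1 hY
  have hu : u ∉ B := disjoint_left.1 hAB sp.ha
  rw [col_eq hAB sp.hG hY1 (blk_sub hY) sp.hx, col_eq hAB sp.hG hY1 (blk_sub hY) sp.hy,
    t.col, t.col, ind_pos ((row_iff hu hY2 x sp.hx).1 sp.e1),
    ind_neg fun h => sp.n1 ((row_iff hu hY2 y sp.hy).2 h), zero_add]
  exact ⟨rfl, rfl⟩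

lemma SP.col_symm (hAB : Disjoint A B) (sp : SP k A B u G G' x y) (hz : z ∈ B) :
    col A G' z = col A G z := (col_eq hAB sp.hG sp.hG' sp.sub hz).symm

lemma SP.split (hAB : Disjoint A B) (t : Tri A u v w) (sp : SP k A B u G G' x y)
    (hc : col A G x = col A G y) (h : Gr V → ℝ) :
    ∑ Y ∈ blk k (KK (A.erase u) B) G, h Y =
      ∑ Y ∈ (blk k (KK (A.erase u) B) G).filter (fun Y => (v, y) ∈ Y ∧ (v, x) ∉ Y), h Y +
      ∑ Y ∈ (blk k (KK (A.erase u) B) G).filter (fun Y => (w, y) ∈ Y ∧ (w, x) ∉ Y), h Y := by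
  rw [sum_filter, sum_filter, ← sum_add_distrib]
  refine sum_congr rfl fun Y hY => ?_
  obtain ⟨h1, h2⟩ := sp.cols hAB t hY
  have h3 : 1 + ind Y (v, x) + ind Y (w, x) = ind Y (v, y) + ind Y (w, y) := by
    rw [← h1, ← h2, hc]
  by_cases e1 : (v, x) ∈ Y <;> by_cases e2 : (w, x) ∈ Y <;> by_cases e3 : (v, y) ∈ Y <;>
    by_cases e4 : (w, y) ∈ Y <;> simp [ind, e1, e2, e3, e4] at h3 ⊢

lemma coupleA (hAB : Disjoint A B) (t : Tri A u v w) (sp : SP k A B u G G' x y)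
    (hc : col A G x = col A G y) (f f' : Gr V → ℝ)
    (h0 : ∑ Y ∈ blk k (KK (A.erase u) B) G, f Y = 0)
    (hle : ∀ i j, Tri A u i j → ∀ Y ∈ blk k (KK (A.erase u) B) G, (i, y) ∈ Y → (i, x) ∉ Y →
      f' (Y ∆ sw u x y i) ≤ f Y) :
    ∑ Y ∈ blk k (KK (A.erase u) B) G', f' Y ≤ 0 := by
  have hc' : col A G' y = col A G' x := by
    rw [sp.col_symm hAB sp.hx, sp.col_symm hAB sp.hy, hc]
  rw [sp.symm.split hAB t hc' f', sp.sum_sw hAB t.hv, sp.sum_sw hAB t.hw, ← h0,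
    sp.split hAB t hc f]
  refine add_le_add (sum_le_sum fun Y hY => ?_) (sum_le_sum fun Y hY => ?_)
  · obtain ⟨h1, h2, h3⟩ := mem_filter.1 hY
    exact hle v w t Y h1 h2 h3
  · obtain ⟨h1, h2, h3⟩ := mem_filter.1 hY
    exact hle w v t.swap Y h1 h2 h3

/-- number of columns in row `v` and not in row `w` -/
def only (B : Finset V) (Y : Gr V) (v w : V) : ℕ := #(B.filter fun z => (v, z) ∈ Y ∧ (w, z) ∉ Y)

lemma only_eq (hAB : Disjoint A B) (t : Tri A u v w) (hG : G ∈ GG k)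
    (hY : Y ∈ blk k (KK (A.erase u) B) G) : only B Y v w = only B G v w := by
  obtain ⟨hY1, hY2⟩ := mem_blk.1 hY
  have hd : Disjoint (A.erase u) B := hAB.mono_left (erase_subset _ _)
  have h1 := row_sum hd hG hY1 hY2 (a := v) (mem_erase.2 ⟨t.uv.symm, t.hv⟩)
  have h2 : ∀ z ∈ B, ind G (v, z) * ind G (w, z) = ind Y (v, z) * ind Y (w, z) := by
    intro z hz
    have h3 := col_eq hd hG hY1 hY2 hz
    unfold col at h3
    rw [t.erase, sum_pair t.vw, sum_pair t.vw] at h3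
    by_cases e1 : (v, z) ∈ Y <;> by_cases e2 : (w, z) ∈ Y <;> by_cases e3 : (v, z) ∈ G <;>
      by_cases e4 : (w, z) ∈ G <;> simp [ind, e1, e2, e3, e4] at h3 ⊢
  have h4 : ∀ Z : Gr V, (only B Z v w : ℤ) =
      ∑ z ∈ B, ind Z (v, z) - ∑ z ∈ B, ind Z (v, z) * ind Z (w, z) := by
    intro Z
    rw [only, card_filter, ← sum_sub_distrib]
    push_cast
    refine sum_congr rfl fun z _ => ?_
    by_cases e1 : (v, z) ∈ Z <;> by_cases e2 : (w, z) ∈ Z <;> simp [ind, e1, e2]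
  have : (only B Y v w : ℤ) = only B G v w := by
    rw [h4, h4, h1, sum_congr rfl h2]
  exact_mod_cast this

lemma SP.colsB (hAB : Disjoint A B) (t : Tri A u v w) (sp : SP k A B u G G' x y)
    (hx : col A G x = 1) (hy : col A G y = 2) (hY : Y ∈ blk k (KK (A.erase u) B) G) :
    (v, x) ∉ Y ∧ (w, x) ∉ Y ∧ (v, y) ∈ Y ∧ (w, y) ∈ Y := by
  obtain ⟨h1, h2⟩ := sp.cols hAB t hY
  rw [hx] at h1
  rw [hy] at h2
  by_cases e1 : (v, x) ∈ Y <;> by_cases e2 : (w, x) ∈ Y <;> by_cases e3 : (v, y) ∈ Y <;>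
    by_cases e4 : (w, y) ∈ Y <;> simp [ind, e1, e2, e3, e4] at h1 h2 ⊢

lemma SP.colsB' (hAB : Disjoint A B) (t : Tri A u v w) (sp : SP k A B u G G' x y)
    (hx : col A G x = 1) (hy : col A G y = 2) (hY : Y ∈ blk k (KK (A.erase u) B) G') :
    ((v, x) ∈ Y ↔ (w, x) ∉ Y) ∧ ((v, y) ∈ Y ↔ (w, y) ∉ Y) := by
  obtain ⟨h1, h2⟩ := sp.symm.cols hAB t hY
  rw [sp.col_symm hAB sp.hy, hy] at h1
  rw [sp.col_symm hAB sp.hx, hx] at h2
  by_cases e1 : (v, x) ∈ Y <;> by_cases e2 : (w, x) ∈ Y <;> by_cases e3 : (v, y) ∈ Y <;>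
    by_cases e4 : (w, y) ∈ Y <;> simp [ind, e1, e2, e3, e4] at h1 h2 ⊢

lemma sw_in_blk (t : Tri A u v w) (hY : Y ∈ blk k (KK (A.erase u) B) G)
    (hb : b ∈ B) (hc : c ∈ B) (h : IsSw Y v b c w) :
    Y ∆ sw v b c w ∈ blk k (KK (A.erase u) B) G :=
  mem_blk.2 ⟨sw_mem (mem_blk.1 hY).1 h, symmDiff_subset_trans (mem_blk.1 hY).2
    (sw_other h t.hv t.hw hb hc t.uv.symm t.uw.symm)⟩

/-- the double switch: both `x` and `y` end up in row `v` -/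
lemma SP.double (hAB : Disjoint A B) (t : Tri A u v w) (sp : SP k A B u G G' x y)
    (hx : col A G x = 1) (hy : col A G y = 2) (hz : z ∈ B)
    (hY : Y ∈ blk k (KK (A.erase u) B) G) (e : (v, z) ∈ Y) (n : (w, z) ∉ Y) :
    Y ∆ sw u x y w ∆ sw v z x w ∈ blk k (KK (A.erase u) B) G' ∧
      SP k A B v Y (Y ∆ sw u x y w ∆ sw v z x w) z x ∧
      SP k A B w Y (Y ∆ sw u x y w ∆ sw v z x w) y z ∧ (v, y) ∈ Y ∆ sw u x y w ∆ sw v z x w := by
  obtain ⟨c1, c2, c3, c4⟩ := sp.colsB hAB t hx hy hY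
  have zx : z ≠ x := fun h => c1 (h ▸ e)
  have zy : z ≠ y := fun h => n (h ▸ c4)
  have xy : x ≠ y := fun h => c1 (h ▸ c3)
  have hY1 := sp.sw_blk hAB t.hw hY c4 c2
  have m1 : ∀ s, (v, s) ∉ sw u x y w := fun s => by
    rw [mem_sw_row hAB sp.hx sp.hy t.hv]; simp [t.uv.symm, t.vw]
  have m2 : ∀ s, (w, s) ∈ sw u x y w ↔ s = x ∨ s = y := fun s => by
    rw [mem_sw_row hAB sp.hx sp.hy t.hw]; simp
  have m3 : ∀ s, (v, s) ∈ sw v z x w ↔ s = z ∨ s = x := fun s => by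
    rw [mem_sw_row hAB hz sp.hx t.hv]; simp
  have m4 : ∀ s, (w, s) ∈ sw v z x w ↔ s = z ∨ s = x := fun s => by
    rw [mem_sw_row hAB hz sp.hx t.hw]; simp
  have hs : IsSw (Y ∆ sw u x y w) v z x w :=
    isSw_of_rows hAB (mem_GG.1 (mem_blk.1 hY1).1).1 t.hv t.hw hz sp.hx
      (by simp [mem_symmDiff, m1, e]) (by simp [mem_symmDiff, m1, c1])
      (by simp [mem_symmDiff, m2, c2]) (by simp [mem_symmDiff, m2, n, zx, zy])
  have hY2 := sw_in_blk t hY1 hz sp.hx hs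
  have hsub : Y ∆ (Y ∆ sw u x y w ∆ sw v z x w) ⊆ KK A B :=
    symmDiff_subset_trans (by rw [symmDiff_comm]; exact blk_sub hY)
      (symmDiff_subset_trans sp.sub (blk_sub hY2))
  refine ⟨hY2, ⟨t.hv, (mem_blk.1 hY).1, (mem_blk.1 hY2).1, hsub, hz, sp.hx, e, c1, ?_, ?_, ?_⟩,
    ⟨t.hw, (mem_blk.1 hY).1, (mem_blk.1 hY2).1, hsub, sp.hy, hz, c4, n, ?_, ?_, ?_⟩, ?_⟩
  · simp [mem_symmDiff, m1, m3, e]
  · simp [mem_symmDiff, m1, m3, c1]
  · intro s _ h1 h2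
    simp [mem_symmDiff, m1, m3, h1, h2]
  · simp [mem_symmDiff, m2, m4, c4, zy.symm, xy.symm]
  · simp [mem_symmDiff, m2, m4, n, zx, zy]
  · intro s _ h1 h2
    by_cases h3 : s = x
    · subst h3; simp [mem_symmDiff, m2, m4, c2]
    · simp [mem_symmDiff, m2, m4, h1, h2, h3]
  · simp [mem_symmDiff, m1, m3, c3, zy.symm, xy.symm]

lemma SP.double_inv (hAB : Disjoint A B) (t : Tri A u v w) (sp : SP k A B u G G' x y)
    (hx : col A G x = 1) (hy : col A G y = 2) (hz : z ∈ B)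
    (hY : Y ∈ blk k (KK (A.erase u) B) G') (e1 : (v, x) ∈ Y) (e2 : (v, y) ∈ Y)
    (e : (w, z) ∈ Y) (n : (v, z) ∉ Y) :
    Y ∆ sw v z x w ∆ sw u x y w ∈ blk k (KK (A.erase u) B) G ∧
      (v, z) ∈ Y ∆ sw v z x w ∆ sw u x y w ∧ (w, z) ∉ Y ∆ sw v z x w ∆ sw u x y w := by
  obtain ⟨c1, c2⟩ := sp.colsB' hAB t hx hy hY
  have c3 := c1.1 e1
  have c4 := c2.1 e2
  have zx : z ≠ x := fun h => n (h ▸ e1)
  have zy : z ≠ y := fun h => n (h ▸ e2)
  have xy : x ≠ y := fun h => sp.n1 (h ▸ sp.e1)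
  have m1 : ∀ s, (v, s) ∉ sw u x y w := fun s => by
    rw [mem_sw_row hAB sp.hx sp.hy t.hv]; simp [t.uv.symm, t.vw]
  have m2 : ∀ s, (w, s) ∈ sw u x y w ↔ s = x ∨ s = y := fun s => by
    rw [mem_sw_row hAB sp.hx sp.hy t.hw]; simp
  have m3 : ∀ s, (v, s) ∈ sw v z x w ↔ s = z ∨ s = x := fun s => by
    rw [mem_sw_row hAB hz sp.hx t.hv]; simp
  have m4 : ∀ s, (w, s) ∈ sw v z x w ↔ s = z ∨ s = x := fun s => by
    rw [mem_sw_row hAB hz sp.hx t.hw]; simp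
  have hs : IsSw Y v x z w :=
    isSw_of_rows hAB (mem_GG.1 (mem_blk.1 hY).1).1 t.hv t.hw sp.hx hz e1 n e c3
  have hY1 := sw_in_blk t hY sp.hx hz hs
  rw [sw_comm1] at hY1
  have hY2 := sp.symm.sw_blk hAB t.hw hY1 (by simp [mem_symmDiff, m4, c3])
    (by simp [mem_symmDiff, m4, c4, zy.symm, xy.symm])
  rw [sw_comm1 (a := u)] at hY2
  exact ⟨hY2, by simp [mem_symmDiff, m1, m3, n], by simp [mem_symmDiff, m2, m4, e, zx, zy]⟩

lemma coupleC (hAB : Disjoint A B) (t : Tri A u v w) (sp : SP k A B u G G' x y)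
    (hx : col A G x = 1) (hy : col A G y = 2) (f f' : Gr V → ℝ)
    (h0 : ∑ Y ∈ blk k (KK (A.erase u) B) G, f Y = 0)
    (hle : ∀ z ∈ B, ∀ Y ∈ blk k (KK (A.erase u) B) G, (v, z) ∈ Y → (w, z) ∉ Y →
      f' (Y ∆ sw u x y w ∆ sw v z x w) ≤ f Y) :
    ∑ Y ∈ (blk k (KK (A.erase u) B) G').filter (fun Y => (v, x) ∈ Y ∧ (v, y) ∈ Y), f' Y ≤ 0 := by
  set X := blk k (KK (A.erase u) B) G with hX
  set X' := blk k (KK (A.erase u) B) G' with hX'
  have hpos : 0 < only B G' w v := by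
    obtain ⟨c1, c2, c3, c4⟩ := sp.colsB hAB t hx hy (self_mem_blk sp.hG)
    have h1 := sp.sw_blk hAB t.hw (self_mem_blk sp.hG) c4 c2
    rw [← only_eq hAB t.swap sp.hG' h1]
    refine card_pos.2 ⟨x, mem_filter.2 ⟨sp.hx, ?_, ?_⟩⟩
    · simp [mem_symmDiff, mem_sw_row hAB sp.hx sp.hy t.hw, c2]
    · simp [mem_symmDiff, mem_sw_row hAB sp.hx sp.hy t.hv, c1, t.uv.symm, t.vw]
  have key : ∀ z ∈ B, ∑ Y ∈ (X'.filter (fun Y => (v, x) ∈ Y ∧ (v, y) ∈ Y)).filter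
      (fun Y => (w, z) ∈ Y ∧ (v, z) ∉ Y), f' Y ≤
      ∑ Y ∈ X.filter (fun Y => (v, z) ∈ Y ∧ (w, z) ∉ Y), f Y := by
    intro z hz
    rw [sum_toggle (P := X.filter (fun Y => (v, z) ∈ Y ∧ (w, z) ∉ Y)) (sw u x y w ∆ sw v z x w)]
    · refine sum_le_sum fun Y hY => ?_
      obtain ⟨h1, h2, h3⟩ := mem_filter.1 hY
      rw [← symmDiff_assoc]
      exact hle z hz Y h1 h2 h3
    · intro Y hY
      obtain ⟨h1, h2, h3⟩ := mem_filter.1 hY
      obtain ⟨d1, d2, d3, d4⟩ := sp.double hAB t hx hy hz h1 h2 h3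
      rw [← symmDiff_assoc]
      exact mem_filter.2 ⟨mem_filter.2 ⟨d1, d2.e2, d4⟩, d3.e2, d2.n2⟩
    · intro Y hY
      obtain ⟨h1, h2, h3⟩ := mem_filter.1 hY
      obtain ⟨h1, h4, h5⟩ := mem_filter.1 h1
      rw [symmDiff_comm (sw u x y w), ← symmDiff_assoc]
      exact mem_filter.2 (sp.double_inv hAB t hx hy hz h1 h4 h5 h2 h3)
  have dc : ∀ (P : Finset (Gr V)) (i j : V) (h : Gr V → ℝ),
      ∑ z ∈ B, ∑ Y ∈ P.filter (fun Y => (i, z) ∈ Y ∧ (j, z) ∉ Y), h Y =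
        ∑ Y ∈ P, (only B Y i j : ℝ) * h Y := by
    intro P i j h
    simp only [sum_filter]
    rw [sum_comm]
    refine sum_congr rfl fun Y _ => ?_
    rw [← sum_filter, sum_const, nsmul_eq_mul, only]
  have h1 := sum_le_sum key
  rw [dc, dc, sum_congr rfl (g := fun Y => (only B G' w v : ℝ) * f' Y)
    (fun Y hY => by rw [only_eq hAB t.swap sp.hG' (mem_filter.1 hY).1]),
    sum_congr (s₁ := X) rfl (g := fun Y => (only B G v w : ℝ) * f Y)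
    (fun Y hY => by rw [only_eq hAB t sp.hG hY]), ← mul_sum, ← mul_sum, h0, mul_zero] at h1
  have h2 : (0 : ℝ) < only B G' w v := by exact_mod_cast hpos
  by_contra hc
  push Not at hc
  nlinarith

lemma coupleB (hAB : Disjoint A B) (t : Tri A u v w) (sp : SP k A B u G G' x y)
    (hx : col A G x = 1) (hy : col A G y = 2) (f f' : Gr V → ℝ)
    (h0 : ∑ Y ∈ blk k (KK (A.erase u) B) G, f Y = 0)
    (hle1 : ∀ i j, Tri A u i j → ∀ Y ∈ blk k (KK (A.erase u) B) G, (i, y) ∈ Y → (i, x) ∉ Y →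
      f' (Y ∆ sw u x y i) ≤ f Y)
    (hle2 : ∀ i j, Tri A u i j → ∀ z ∈ B, ∀ Y ∈ blk k (KK (A.erase u) B) G, (i, z) ∈ Y →
      (j, z) ∉ Y → f' (Y ∆ sw u x y j ∆ sw i z x j) ≤ f Y) :
    ∑ Y ∈ blk k (KK (A.erase u) B) G', f' Y ≤ 0 := by
  have pA : ∀ i j, Tri A u i j → ∑ Y ∈ (blk k (KK (A.erase u) B) G').filter
      (fun Y => (i, x) ∈ Y ∧ (i, y) ∉ Y), f' Y ≤ 0 := by
    intro i j t'
    rw [sp.sum_sw hAB t'.hv, ← h0, filter_true_of_mem]
    · refine sum_le_sum fun Y hY => ?_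
      obtain ⟨c1, _, c3, _⟩ := sp.colsB hAB t' hx hy hY
      exact hle1 i j t' Y hY c3 c1
    · intro Y hY
      obtain ⟨c1, _, c3, _⟩ := sp.colsB hAB t' hx hy hY
      exact ⟨c3, c1⟩
  have h1 := pA v w t
  have h2 := pA w v t.swap
  have h3 := coupleC hAB t sp hx hy f f' h0 (hle2 v w t)
  have h4 := coupleC hAB t.swap sp hx hy f f' h0 (hle2 w v t.swap)
  refine le_trans (le_of_eq ?_) (add_nonpos (add_nonpos h1 h2) (add_nonpos h3 h4))
  simp only [sum_filter, ← sum_add_distrib]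
  refine sum_congr rfl fun Y hY => ?_
  obtain ⟨c1, c2⟩ := sp.colsB' hAB t hx hy hY
  by_cases e1 : (v, x) ∈ Y <;> by_cases e2 : (w, x) ∈ Y <;> by_cases e3 : (v, y) ∈ Y <;>
    by_cases e4 : (w, y) ∈ Y <;> simp [e1, e2, e3, e4] at c1 c2 ⊢

end

end Pool.Agent.MP_c319e0_lc.Thr
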