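import Pool.Agent.MP_c319e0_lc.Mg.ThreeA
import Pool.Agent.MP_c319e0_lc.Mg.ThreeB

-- part MP_c319e0_lc.Conn
section

/-! Connectivity by switches, in Lipschitz form. -/

namespace Pool.Agent.MP_c319e0_lc
open Finset
open scoped symmDiff

section
variable {V : Type} [Fintype V] [DecidableEq V]

lemma conn_nb (G : Gr V) (t : V) :
    ((#(univ.filter fun z => (t, z) ∈ G) : ℕ) : ℤ) = deg G t := by
  unfold deg
  refine congrArg _ (card_bij (fun z _ => (t, z)) ?_ ?_ ?_)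
  · intro z hz; simpa using hz
  · intro a _ b _ h; simpa using h
  · rintro ⟨a, b⟩ hd
    simp only [mem_filter] at hd
    obtain ⟨h1, rfl⟩ := hd
    exact ⟨b, by simpa using h1, rfl⟩

lemma conn_D {k : V → ℤ} {A B : Finset V} (hAB : Disjoint A B ∨ A = B) {Z Z' : Gr V}
    (hZ : Z ∈ GG k) (hZ' : Z' ∈ GG k) (h : Z ∆ Z' ⊆ KK A B) {t : V} (ht : t ∈ B) :
    #(A.filter fun z => (z, t) ∈ Z) = #(A.filter fun z => (z, t) ∈ Z') := by
  obtain ⟨g1, d1⟩ := mem_GG.1 hZ
  obtain ⟨g2, d2⟩ := mem_GG.1 hZ'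
  have e : ∀ G : Gr V, IsG G → #(univ.filter fun z => (t, z) ∈ G) =
      #(A.filter fun z => (z, t) ∈ G) + #(univ.filter fun z => (t, z) ∈ G ∧ z ∉ A) := by
    intro G hG
    rw [← card_filter_add_card_filter_not (s := univ.filter fun z => (t, z) ∈ G)
      (fun z => z ∈ A), filter_filter, filter_filter]
    refine congrArg₂ _ (congrArg _ ?_) rfl
    ext z
    simp only [mem_filter, mem_univ, true_and, hG.swap_iff t z, and_comm]
  have e3 : (univ.filter fun z => (t, z) ∈ Z ∧ z ∉ A) =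
      (univ.filter fun z => (t, z) ∈ Z' ∧ z ∉ A) := by
    ext z
    simp only [mem_filter, mem_univ, true_and]
    refine and_congr_left fun hz => ?_
    by_contra hne
    have hm : (t, z) ∈ Z ∆ Z' := by rw [mem_symmDiff]; tauto
    have := mem_KK.1 (h hm)
    rcases this.2 with ⟨h1, h2⟩ | ⟨_, h2⟩
    · rcases hAB with hd | rfl
      · exact disjoint_left.1 hd h1 ht
      · exact hz h2
    · exact hz h2
  have h1 := conn_nb Z t
  have h2 := conn_nb Z' t
  rw [d1, e Z g1] at h1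
  rw [d2, e Z' g2, ← e3] at h2
  omega

omit [Fintype V] in
lemma conn_exists {A B : Finset V} (hAB : Disjoint A B ∨ A = B) {Z : Gr V} (hZ : IsG Z)
    {v x y : V} (hv : v ∈ A) (hx : x ∈ B) (hy : y ∈ B) (hvx : v ≠ x) (n1 : (v, x) ∉ Z)
    (e1 : (v, y) ∈ Z)
    (hD : #(A.filter fun z => (z, y) ∈ Z) ≤ #(A.filter fun z => (z, x) ∈ Z)) :
    ∃ z ∈ A, IsSw Z v y x z := by
  have hxy : y ≠ x := fun e => n1 (e ▸ e1)
  have key : ∃ z ∈ A, z ≠ y ∧ (z, x) ∈ Z ∧ (z, y) ∉ Z := by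
    by_contra hno
    push Not at hno
    have hvy : v ∈ A.filter fun z => (z, y) ∈ Z := mem_filter.2 ⟨hv, e1⟩
    by_cases hyx : y ∈ A.filter fun z => (z, x) ∈ Z
    · obtain ⟨hyA, hyx'⟩ := mem_filter.1 hyx
      have hxA : x ∈ A := by
        rcases hAB with hd | rfl
        · exact absurd hy (disjoint_left.1 hd hyA)
        · exact hx
      have hx2 : x ∈ (A.filter fun z => (z, y) ∈ Z).erase v :=
        mem_erase.2 ⟨hvx.symm, mem_filter.2 ⟨hxA, (hZ.swap_iff _ _).1 hyx'⟩⟩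
      have hsub : (A.filter fun z => (z, x) ∈ Z).erase y ⊆
          ((A.filter fun z => (z, y) ∈ Z).erase v).erase x := by
        intro z hz
        obtain ⟨hzy, hz⟩ := mem_erase.1 hz
        obtain ⟨hzA, hzx⟩ := mem_filter.1 hz
        refine mem_erase.2 ⟨hZ.2 _ hzx, mem_erase.2 ⟨fun e => n1 (e ▸ hzx),
          mem_filter.2 ⟨hzA, hno z hzA hzy hzx⟩⟩⟩
      have c1 := card_le_card hsub
      have c2 := card_erase_add_one hyx
      have c3 := card_erase_add_one hx2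
      have c4 := card_erase_add_one hvy
      omega
    · have hsub : (A.filter fun z => (z, x) ∈ Z) ⊆ (A.filter fun z => (z, y) ∈ Z).erase v := by
        intro z hz
        obtain ⟨hzA, hzx⟩ := mem_filter.1 hz
        exact mem_erase.2 ⟨fun e => n1 (e ▸ hzx),
          mem_filter.2 ⟨hzA, hno z hzA (fun e => hyx (e ▸ hz)) hzx⟩⟩
      have c1 := card_le_card hsub
      have c4 := card_erase_add_one hvy
      omega
  obtain ⟨z, hzA, hzy, hzx, hzy'⟩ := key
  exact ⟨z, hzA, hZ.2 _ e1, hvx, fun e => n1 (e ▸ hzx), hxy, hzy.symm, (hZ.2 _ hzx).symm, e1,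
    (hZ.swap_iff _ _).1 hzx, n1, fun h => hzy' ((hZ.swap_iff _ _).1 h)⟩

lemma conn_sw_sub {A B : Finset V} {Z : Gr V} {a b c d : V} (h : IsSw Z a b c d) (ha : a ∈ A)
    (hd : d ∈ A) (hb : b ∈ B) (hc : c ∈ B) : sw a b c d ⊆ KK A B := by
  intro e he
  obtain ⟨ab, ac, ad, bc, bd, cd, -, -, -, -⟩ := h
  rw [mem_KK]
  rcases mem_sw.1 he with rfl | rfl | rfl | rfl | rfl | rfl | rfl | rfl <;>
    simp [*, ab.symm, ac.symm, bd.symm, cd.symm]

lemma KK_mono {A B A' B' : Finset V} (hA : A ⊆ A') (hB : B ⊆ B') : KK A B ⊆ KK A' B' := by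
  intro d hd
  rw [mem_KK] at hd ⊢
  exact ⟨hd.1, hd.2.imp (fun h => ⟨hA h.1, hB h.2⟩) fun h => ⟨hB h.1, hA h.2⟩⟩

omit [Fintype V] in
lemma conn_sub_trans {X Y Z F : Gr V} (h1 : X ∆ Y ⊆ F) (h2 : Y ∆ Z ⊆ F) : X ∆ Z ⊆ F := by
  intro d hd
  have e1 := @h1 d
  have e2 := @h2 d
  simp only [mem_symmDiff] at hd e1 e2
  tauto

omit [Fintype V] in
lemma conn_cancel (Z X : Gr V) : Z ∆ (Z ∆ X) = X := symmDiff_symmDiff_cancel_left Z X

/-- one step: a switch in `Z` that lowers the difference at `v` -/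
lemma conn_step {k : V → ℤ} {A B : Finset V} (hAB : Disjoint A B ∨ A = B) {Z Z' : Gr V}
    (hZ : Z ∈ GG k) {v x y : V} (hv : v ∈ A) (hx : x ∈ B) (hy : y ∈ B) (hvx : v ≠ x)
    (n1 : (v, x) ∉ Z) (e1 : (v, y) ∈ Z) (n2 : (v, x) ∈ Z') (e2 : (v, y) ∉ Z')
    (hD : #(A.filter fun z => (z, y) ∈ Z) ≤ #(A.filter fun z => (z, x) ∈ Z)) :
    ∃ z ∈ A, IsSw Z v y x z ∧
      #(B.filter fun t => (v, t) ∈ (Z ∆ sw v y x z) ∆ Z') < #(B.filter fun t => (v, t) ∈ Z ∆ Z') := by
  obtain ⟨z, hz, hs⟩ := conn_exists hAB (mem_GG.1 hZ).1 hv hx hy hvx n1 e1 hD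
  refine ⟨z, hz, hs, card_lt_card ⟨fun t ht => ?_, fun hsub => ?_⟩⟩
  · obtain ⟨htB, ht⟩ := mem_filter.1 ht
    refine mem_filter.2 ⟨htB, ?_⟩
    by_cases hm : (v, t) ∈ sw v y x z
    · have : t = y ∨ t = x := by
        have ab := hs.ab
        have ac := hs.ac
        have ad := hs.ad
        rcases mem_sw.1 hm with h | h | h | h | h | h | h | h <;> simp_all
      rw [mem_symmDiff]
      rcases this with rfl | rfl <;> tauto
    · simp only [mem_symmDiff] at ht ⊢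
      tauto
  · have h1 : x ∈ B.filter fun t => (v, t) ∈ Z ∆ Z' :=
      mem_filter.2 ⟨hx, by rw [mem_symmDiff]; tauto⟩
    have h2 := (mem_filter.1 (hsub h1)).2
    have hm : (v, x) ∈ sw v y x z := by simp [mem_sw]
    simp only [mem_symmDiff] at h2
    tauto

lemma conn_pair {k : V → ℤ} {Z Z' : Gr V} (hZ : Z ∈ GG k) (hZ' : Z' ∈ GG k) {v t : V}
    (h1 : (v, t) ∈ Z) (h2 : (v, t) ∉ Z') : ∃ x, (v, x) ∉ Z ∧ (v, x) ∈ Z' := by
  by_contra hno
  push Not at hno
  have c1 := conn_nb Z v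
  have c2 := conn_nb Z' v
  rw [(mem_GG.1 hZ).2] at c1
  rw [(mem_GG.1 hZ').2] at c2
  have : #(univ.filter fun z => (v, z) ∈ Z') < #(univ.filter fun z => (v, z) ∈ Z) := by
    refine card_lt_card ⟨fun z hz => ?_, fun hsub => ?_⟩
    · simp only [mem_filter, mem_univ, true_and] at hz ⊢
      by_contra h
      exact hno z h hz
    · have := hsub (show t ∈ _ by simpa using h1)
      simp only [mem_filter, mem_univ, true_and] at this
      exact h2 this
  omega

lemma conn_aux {k : V → ℤ} {A0 B0 : Finset V} (f : Gr V → ℝ) {M : ℝ} (hM : 0 ≤ M) {Z0 : Gr V}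
    (h : ∀ Y ∈ GG k, Z0 ∆ Y ⊆ KK A0 B0 → ∀ a ∈ A0, ∀ d ∈ A0, ∀ b ∈ B0, ∀ c ∈ B0,
      IsSw Y a b c d → |f Y - f (Y ∆ sw a b c d)| ≤ M) (n : ℕ) :
    ∀ A B : Finset V, #A = n → A ⊆ A0 → B ⊆ B0 → (Disjoint A B ∨ A = B) →
      ∀ Z ∈ GG k, ∀ Z' ∈ GG k, Z0 ∆ Z ⊆ KK A0 B0 → Z ∆ Z' ⊆ KK A B →
        |f Z - f Z'| ≤ n * #B0 * M := by
  induction n with
  | zero =>
    intro A B hA _ _ _ Z _ Z' _ _ hZZ
    obtain rfl := card_eq_zero.1 hA
    have : Z ∆ Z' = ∅ := by
      refine eq_empty_of_forall_notMem fun d hd => ?_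
      simpa using (mem_KK.1 (hZZ hd)).2
    obtain rfl : Z = Z' := symmDiff_eq_bot.1 this
    simp
  | succ n ih =>
    intro A B hA hA0 hB0 hAB
    obtain ⟨v, hv⟩ : A.Nonempty := card_pos.1 (by omega)
    have hK : KK A B ⊆ KK A0 B0 := KK_mono hA0 hB0
    have hB : ∀ {Z Z' : Gr V}, Z ∆ Z' ⊆ KK A B → ∀ t, (v, t) ∈ Z ∆ Z' → t ∈ B ∧ v ≠ t := by
      intro Z Z' hZZ t ht
      have := mem_KK.1 (hZZ ht)
      refine ⟨?_, this.1⟩
      rcases this.2 with ⟨_, h2⟩ | ⟨h1, h2⟩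
      · exact h2
      · rcases hAB with hd | rfl
        · exact absurd h1 (disjoint_left.1 hd hv)
        · exact h2
    have inner : ∀ m : ℕ, ∀ Z ∈ GG k, ∀ Z' ∈ GG k, Z0 ∆ Z ⊆ KK A0 B0 → Z ∆ Z' ⊆ KK A B →
        #(B.filter fun t => (v, t) ∈ Z ∆ Z') ≤ m → |f Z - f Z'| ≤ (m + n * #B0) * M := by
      intro m
      induction m with
      | zero =>
        intro Z hZ Z' hZ' h0 hZZ hm
        have hno : ∀ t, (v, t) ∉ Z ∆ Z' := fun t ht => by
          have : t ∈ B.filter fun t => (v, t) ∈ Z ∆ Z' := mem_filter.2 ⟨(hB hZZ t ht).1, ht⟩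
          rw [card_eq_zero.1 (Nat.le_zero.1 hm)] at this
          simp at this
        have hG := (mem_GG.1 hZ).1.symmDiff (mem_GG.1 hZ').1
        have := ih (A.erase v) (B.erase v) (by rw [card_erase_of_mem hv]; omega)
          ((erase_subset _ _).trans hA0) ((erase_subset _ _).trans hB0)
          (hAB.imp (fun hd => hd.mono (erase_subset _ _) (erase_subset _ _)) fun e => by rw [e])
          Z hZ Z' hZ' h0 (by
            rintro ⟨a, b⟩ hd
            have h1 : a ≠ v := fun e => hno b (e ▸ hd)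
            have h2 : b ≠ v := fun e => hno a (e ▸ (hG.swap_iff _ _).1 hd)
            have := mem_KK.1 (hZZ hd)
            rw [mem_KK]
            simpa [h1, h2] using this)
        simpa using this
      | succ m ihm =>
        intro Z hZ Z' hZ' h0 hZZ hm
        by_cases hm' : #(B.filter fun t => (v, t) ∈ Z ∆ Z') ≤ m
        · refine (ihm Z hZ Z' hZ' h0 hZZ hm').trans ?_
          push_cast
          nlinarith
        obtain ⟨t, ht⟩ : (B.filter fun t => (v, t) ∈ Z ∆ Z').Nonempty := card_pos.1 (by omega)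
        obtain ⟨x, y, n1, n2, e1, e2⟩ :
            ∃ x y, (v, x) ∉ Z ∧ (v, x) ∈ Z' ∧ (v, y) ∈ Z ∧ (v, y) ∉ Z' := by
          rcases mem_symmDiff.1 (mem_filter.1 ht).2 with ⟨h1, h2⟩ | ⟨h1, h2⟩
          · obtain ⟨x, hx1, hx2⟩ := conn_pair hZ hZ' h1 h2
            exact ⟨x, t, hx1, hx2, h1, h2⟩
          · obtain ⟨y, hy1, hy2⟩ := conn_pair hZ' hZ h1 h2
            exact ⟨t, y, h2, h1, hy2, hy1⟩
        obtain ⟨hx, hvx⟩ := hB hZZ x (by rw [mem_symmDiff]; tauto)
        obtain ⟨hy, hvy⟩ := hB hZZ y (by rw [mem_symmDiff]; tauto)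
        have h0' : Z0 ∆ Z' ⊆ KK A0 B0 := conn_sub_trans h0 (hZZ.trans hK)
        rcases le_total #(A.filter fun z => (z, y) ∈ Z) #(A.filter fun z => (z, x) ∈ Z) with
          hD | hD
        · obtain ⟨z, hz, hs, hlt⟩ := conn_step hAB hZ hv hx hy hvx n1 e1 n2 e2 hD
          have hsub : Z ∆ (Z ∆ sw v y x z) ⊆ KK A B := by
            rw [conn_cancel]; exact conn_sw_sub hs hv hz hy hx
          have a1 := h Z hZ h0 v (hA0 hv) z (hA0 hz) y (hB0 hy) x (hB0 hx) hs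
          have a2 := ihm _ (sw_mem hZ hs) Z' hZ' (conn_sub_trans h0 (hsub.trans hK))
            (conn_sub_trans (by rwa [symmDiff_comm]) hZZ) (by omega)
          have a3 := abs_sub_le (f Z) (f (Z ∆ sw v y x z)) (f Z')
          push_cast
          nlinarith
        · rw [conn_D hAB hZ hZ' hZZ hx, conn_D hAB hZ hZ' hZZ hy] at hD
          obtain ⟨z, hz, hs, hlt⟩ := conn_step (Z' := Z) hAB hZ' hv hy hx hvy e2 n2 e1 n1 hD
          have hsub : Z' ∆ (Z' ∆ sw v x y z) ⊆ KK A B := by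
            rw [conn_cancel]; exact conn_sw_sub hs hv hz hx hy
          have a1 := h Z' hZ' h0' v (hA0 hv) z (hA0 hz) x (hB0 hx) y (hB0 hy) hs
          have a2 := ihm Z hZ _ (sw_mem hZ' hs) h0 (conn_sub_trans hZZ hsub) (by
            rw [symmDiff_comm Z Z'] at hm
            rw [symmDiff_comm Z (Z' ∆ sw v x y z)]
            omega)
          have a3 := abs_sub_le (f Z) (f (Z' ∆ sw v x y z)) (f Z')
          rw [abs_sub_comm] at a1
          push_cast
          nlinarith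
    intro Z hZ Z' hZ' h0 hZZ
    refine (inner #B0 Z hZ Z' hZ' h0 hZZ
      ((card_filter_le _ _).trans (card_le_card hB0))).trans (le_of_eq ?_)
    push_cast
    ring

end

theorem conn {V : Type} [Fintype V] [DecidableEq V] {k : V → ℤ} {A B : Finset V}
    (hAB : Disjoint A B ∨ A = B) (f : Gr V → ℝ) {M : ℝ} (hM : 0 ≤ M) {Z Z' : Gr V}
    (hZ : Z ∈ GG k) (hZ' : Z' ∈ GG k) (hZZ : Z ∆ Z' ⊆ KK A B)
    (h : ∀ Y ∈ GG k, Z ∆ Y ⊆ KK A B → ∀ a ∈ A, ∀ d ∈ A, ∀ b ∈ B, ∀ c ∈ B, IsSw Y a b c d →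
      |f Y - f (Y ∆ sw a b c d)| ≤ M) :
    |f Z - f Z'| ≤ #A * #B * M :=
  conn_aux f hM h #A A B rfl subset_rfl subset_rfl hAB Z hZ Z' hZ' (by simp) hZZ

end Pool.Agent.MP_c319e0_lc

end

-- part MP_c319e0_lc.Three
section

/-! The three row lemma. -/

namespace Pool.Agent.MP_c319e0_lc
open Finset
open scoped symmDiff

namespace Thr

section
variable {V : Type} [Fintype V] [DecidableEq V] {k : V → ℤ} {A B : Finset V}
  {G G' Y : Gr V} {a b c d u v w x y z : V}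

/-- the row functions of an eigenvector -/
structure Eig (k : V → ℤ) (A B : Finset V) (φ : V → Gr V → ℝ) (κ : ℝ) : Prop where
  one : 1 < κ
  row : ∀ a G G', G ∆ G' ⊆ KK (A.erase a) B → φ a G = φ a G'
  eq : ∀ u v w, Tri A u v w → ∀ G ∈ GG k,
    κ * φ u G = CE k (KK (A.erase u) B) (fun Y => φ v Y + φ w Y) G

variable {φ : V → Gr V → ℝ} {κ : ℝ}

lemma Eig.mul_le (E : Eig k A B φ κ) (t : Tri A u v w) (hG : G ∈ GG k) (hG' : G' ∈ GG k) {η : ℝ}
    (h : ∀ f f' : Gr V → ℝ, ∑ Y ∈ blk k (KK (A.erase u) B) G, f Y = 0 →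
      (∀ Y Y', |(φ v Y + φ w Y) - (φ v Y' + φ w Y')| ≤ η → f' Y' ≤ f Y) →
      ∑ Y ∈ blk k (KK (A.erase u) B) G', f' Y ≤ 0) :
    κ * |φ u G - φ u G'| ≤ η := by
  have h1 := CE_diff_le hG hG' (fun Y => φ v Y + φ w Y) η h
  rw [← E.eq u v w t G hG, ← E.eq u v w t G' hG', ← mul_sub, abs_mul,
    abs_of_pos (lt_trans one_pos E.one)] at h1
  exact h1

omit [Fintype V] in
lemma Tri.pair {i j : V} (t : Tri A u v w) (t' : Tri A u i j) (g : V → ℝ) :
    g v + g w = g i + g j := by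
  have h1 := t.sum g
  have h2 := t'.sum g
  linarith

lemma Eig.step (E : Eig k A B φ κ) (hAB : Disjoint A B) (t : Tri A u v w)
    (sp : SP k A B u G G' x y) {i j : V} (t' : Tri A u i j)
    (hY : Y ∈ blk k (KK (A.erase u) B) G) (e : (i, y) ∈ Y) (n : (i, x) ∉ Y) :
    SP k A B i Y (Y ∆ sw u x y i) y x ∧
      |(φ v Y + φ w Y) - (φ v (Y ∆ sw u x y i) + φ w (Y ∆ sw u x y i))| =
        |φ i Y - φ i (Y ∆ sw u x y i)| := by
  have hs := sp.isSw hAB t'.hv hY e n
  refine ⟨sp_sw2 hAB (mem_blk.1 hY).1 hs sp.ha t'.hv sp.hx sp.hy, ?_⟩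
  rw [t.pair t' (fun a => φ a Y), t.pair t' (fun a => φ a (Y ∆ sw u x y i)),
    E.row j _ _ (sw_other hs sp.ha t'.hv sp.hx sp.hy t'.uw t'.vw)]
  congr 1; ring

lemma Eig.alpha (E : Eig k A B φ κ) (hAB : Disjoint A B) (t0 : Tri A u v w)
    (sp : SP k A B a G G' x y) (hc : col A G x = col A G y) : φ a G = φ a G' := by
  have key := max_zero (ι := V × Gr V × Gr V × V × V)
    (fun q => SP k A B q.1 q.2.1 q.2.2.1 q.2.2.2.1 q.2.2.2.2 ∧
      col A q.2.1 q.2.2.2.1 = col A q.2.1 q.2.2.2.2)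
    (fun q => |φ q.1 q.2.1 - φ q.1 q.2.2.1|) (fun _ => abs_nonneg _) E.one (by
      rintro η hη ⟨u, G, G', x, y⟩ ⟨sp, hc⟩
      obtain ⟨v, w, t⟩ := t0.of_mem sp.ha
      refine E.mul_le t sp.hG sp.hG' fun f f' h0 hrel => ?_
      refine coupleA hAB t sp hc f f' h0 fun i j t' Y hY e n => hrel _ _ ?_
      obtain ⟨s1, s2⟩ := E.step hAB t sp t' hY e n
      rw [s2]
      refine hη (i, Y, _, y, x) ⟨s1, ?_⟩
      show col A Y y = col A Y x
      rw [← col_eq hAB sp.hG s1.hG (blk_sub hY) sp.hx,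
        ← col_eq hAB sp.hG s1.hG (blk_sub hY) sp.hy]
      exact hc.symm) (a, G, G', x, y) ⟨sp, hc⟩
  exact sub_eq_zero.1 (abs_eq_zero.1 key)

lemma SP.col_range (hAB : Disjoint A B) (t0 : Tri A u v w) (sp : SP k A B a G G' x y) :
    col A G x = 1 ∨ col A G x = 2 := by
  obtain ⟨p, q, t⟩ := t0.of_mem sp.ha
  have h1 := (sp.cols hAB t (self_mem_blk sp.hG)).1
  have h2 := (sp.symm.cols hAB t (self_mem_blk sp.hG')).2
  rw [sp.col_symm hAB sp.hx] at h2
  unfold ind at h1 h2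
  split_ifs at h1 h2 <;> omega

lemma Eig.mixed (E : Eig k A B φ κ) (hAB : Disjoint A B) (t0 : Tri A u v w) {η : ℝ}
    (hη : ∀ a G G' x y, SP k A B a G G' x y → |φ a G - φ a G'| ≤ η)
    (sp : SP k A B a G G' x y) (hx : col A G x = 1) (hy : col A G y = 2) :
    κ * |φ a G - φ a G'| ≤ η := by
  obtain ⟨p, q, t⟩ := t0.of_mem sp.ha
  refine E.mul_le t sp.hG sp.hG' fun f f' h0 hrel => ?_
  refine coupleB hAB t sp hx hy f f' h0 (fun i j t' Y hY e n => hrel _ _ ?_)
    fun i j t' z hz Y hY e n => hrel _ _ ?_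
  · obtain ⟨s1, s2⟩ := E.step hAB t sp t' hY e n
    rw [s2]
    exact hη _ _ _ _ _ s1
  · obtain ⟨_, d2, d3, _⟩ := sp.double hAB t' hx hy hz hY e n
    rw [t.pair t' (fun a => φ a Y), t.pair t' (fun s => φ s (Y ∆ sw a x y j ∆ sw i z x j))]
    have cx : col A Y x = 1 := by rw [← col_eq hAB sp.hG d2.hG (blk_sub hY) sp.hx, hx]
    have cy : col A Y y = 2 := by rw [← col_eq hAB sp.hG d2.hG (blk_sub hY) sp.hy, hy]
    rcases d2.col_range hAB t0 with cz | cz
    · rw [E.alpha hAB t0 d2 (by rw [cz, cx]), add_sub_add_left_eq_sub]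
      exact hη _ _ _ _ _ d3
    · rw [E.alpha hAB t0 d3 (by rw [cz, cy]), add_sub_add_right_eq_sub]
      exact hη _ _ _ _ _ d2

lemma Eig.gamma (E : Eig k A B φ κ) (hAB : Disjoint A B) (t0 : Tri A u v w)
    (sp : SP k A B a G G' x y) : φ a G = φ a G' := by
  have key := max_zero (ι := V × Gr V × Gr V × V × V)
    (fun q => SP k A B q.1 q.2.1 q.2.2.1 q.2.2.2.1 q.2.2.2.2)
    (fun q => |φ q.1 q.2.1 - φ q.1 q.2.2.1|) (fun _ => abs_nonneg _) E.one (by
      rintro η hη ⟨a, G, G', x, y⟩ sp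
      have hη' : ∀ a G G' x y, SP k A B a G G' x y → |φ a G - φ a G'| ≤ η :=
        fun a G G' x y s => hη (a, G, G', x, y) s
      show κ * |φ a G - φ a G'| ≤ η
      have hy := sp.symm.col_range hAB t0
      rw [sp.col_symm hAB sp.hy] at hy
      have h0 : col A G x = col A G y → κ * |φ a G - φ a G'| ≤ η := fun hc => by
        rw [E.alpha hAB t0 sp hc, sub_self, abs_zero, mul_zero]
        exact (abs_nonneg _).trans (hη' _ _ _ _ _ sp)
      rcases sp.col_range hAB t0 with hx | hx <;> rcases hy with hy | hy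
      · exact h0 (hx.trans hy.symm)
      · exact E.mixed hAB t0 hη' sp hx hy
      · rw [abs_sub_comm]
        exact E.mixed hAB t0 hη' sp.symm ((sp.col_symm hAB sp.hy).trans hy)
          ((sp.col_symm hAB sp.hx).trans hx)
      · exact h0 (hx.trans hy.symm)) (a, G, G', x, y) sp
  exact sub_eq_zero.1 (abs_eq_zero.1 key)

lemma Eig.switch (E : Eig k A B φ κ) (hAB : Disjoint A B) (t0 : Tri A u v w) (hY : Y ∈ GG k)
    (h : IsSw Y a b c d) (ha : a ∈ A) (hd : d ∈ A) (hb : b ∈ B) (hc : c ∈ B) (s : V) :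
    φ s Y = φ s (Y ∆ sw a b c d) := by
  by_cases h1 : a = s
  · subst h1; exact E.gamma hAB t0 (sp_sw1 hAB hY h ha hd hb hc)
  by_cases h2 : d = s
  · subst h2; exact E.gamma hAB t0 (sp_sw2 hAB hY h ha hd hb hc)
  exact E.row s _ _ (sw_other h ha hd hb hc h1 h2)

/-- an eigenvector with eigenvalue below one is constant on the blocks of the three rows -/
lemma eigen_const (hAB : Disjoint A B) (t0 : Tri A u v w) (β : Gr V → ℝ) {μ : ℝ} (hμ : 2 < μ)
    (h : ∀ G ∈ GG k, ∑ a ∈ A, CE k (KK (A.erase a) B) β G = μ * β G) (hG : G ∈ GG k) :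
    CE k (KK A B) β G = β G := by
  have E : Eig k A B (fun a => CE k (KK (A.erase a) B) β) (μ - 1) := by
    refine ⟨by linarith, fun a G G' hh => (CE_congr β hh).symm, fun p q r t G hG => ?_⟩
    have h1 : CE k (KK (A.erase p) B) (fun Y => CE k (KK (A.erase q) B) β Y +
        CE k (KK (A.erase r) B) β Y) G =
        CE k (KK (A.erase p) B) (μ • β - CE k (KK (A.erase p) B) β) G := by
      refine CE_loc (fun Y hY => ?_) G
      have := h Y hY
      rw [t.sum] at this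
      simp only [Pi.sub_apply, Pi.smul_apply, smul_eq_mul]
      linarith
    rw [h1, ← CEl_apply (μ • β - _), map_sub, map_smul]
    simp only [CEl_apply, Pi.sub_apply, Pi.smul_apply, smul_eq_mul]
    rw [CE_CE_of_subset subset_rfl β hG]
    ring
  refine CE_of_const hG fun Z hZ => ?_
  have := conn (Or.inl hAB) β le_rfl hG (mem_blk.1 hZ).1 (mem_blk.1 hZ).2
    (fun Y hY _ a ha d hd b hb c hc hs => by
      have h1 := h Y hY
      have h2 := h _ (sw_mem hY hs)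
      rw [← sum_congr rfl fun s _ => E.switch hAB t0 hY hs ha hd hb hc s, h1] at h2
      rw [mul_left_cancel₀ (by linarith : μ ≠ 0) h2, sub_self, abs_zero])
  rw [mul_zero] at this
  exact (sub_eq_zero.1 (abs_nonpos_iff.1 this)).symm

/-- the sum of the three heat bath generators -/
noncomputable def HH (k : V → ℤ) (A B : Finset V) : (Gr V → ℝ) →ₗ[ℝ] (Gr V → ℝ) :=
  ∑ a ∈ A, (LinearMap.id - CEl k (KK (A.erase a) B))

lemma HH_apply (f : Gr V → ℝ) (G : Gr V) :
    HH k A B f G = ∑ a ∈ A, (f G - CE k (KK (A.erase a) B) f G) := by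
  simp [HH, LinearMap.sum_apply, Finset.sum_apply]

lemma gap (hAB : Disjoint A B) (t : Tri A u v w) (g : Gr V → ℝ)
    (hg : ∀ G ∈ GG k, CE k (KK A B) g G = 0) :
    ∑ G ∈ GG k, g G * HH k A B g G ≤ ∑ G ∈ GG k, HH k A B g G ^ 2 := by
  have h1 := spec (GG k) (HH k A B) (fun f f' hh G hG => by
      rw [HH_apply, HH_apply]
      exact sum_congr rfl fun a _ => by rw [hh G hG, CE_loc hh])
    (fun f f' => by
      simp only [HH_apply, mul_sum, sum_mul, mul_sub, sub_mul, sum_sub_distrib]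
      congr 1
      rw [sum_comm, sum_comm (s := GG k)]
      exact sum_congr rfl fun a _ => CE_symm f f') g (fun lam β hβ => by
      by_cases hl : 1 ≤ lam
      · exact Or.inl hl
      right
      have h2 := fun G hG => eigen_const (k := k) hAB t β (μ := 3 - lam) (by linarith)
        (fun G hG => by
          have := hβ G hG
          rw [HH_apply, t.sum] at this
          rw [t.sum]
          linarith) (G := G) hG
      rw [← sum_congr rfl fun G hG => by rw [h2 G hG] (f := fun G => CE k (KK A B) β G * g G),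
        ← CE_symm]
      exact sum_eq_zero fun G hG => by rw [hg G hG, mul_zero])
  have h2 := sum_mul_sq_le_sq_mul_sq (GG k) g (HH k A B g)
  have h3 : 0 ≤ ∑ G ∈ GG k, g G ^ 2 := sum_nonneg fun _ _ => sq_nonneg _
  have h4 : 0 ≤ ∑ G ∈ GG k, HH k A B g G ^ 2 := sum_nonneg fun _ _ => sq_nonneg _
  by_contra hc
  push Not at hc
  nlinarith

end

end Thr

open Thr in
theorem three {V : Type} [Fintype V] [DecidableEq V] (k : V → ℤ) {B : Finset V} {u v w : V}
    (huv : u ≠ v) (huw : u ≠ w) (hvw : v ≠ w) (hu : u ∉ B) (hv : v ∉ B) (hw : w ∉ B)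
    (f : Gr V → ℝ) :
    0 ≤ ∑ G ∈ GG k,
      ((f G - CE k (KK {u, v} B) f G) * (f G - CE k (KK {u, w} B) f G) +
       (f G - CE k (KK {u, v} B) f G) * (f G - CE k (KK {v, w} B) f G) +
       (f G - CE k (KK {u, w} B) f G) * (f G - CE k (KK {v, w} B) f G)) := by
  set A : Finset V := {u, v, w} with hA
  have t : Tri A u v w := ⟨huv, huw, hvw, rfl⟩
  have tv : Tri A v u w := ⟨huv.symm, hvw, huw, by rw [hA, insert_comm]⟩
  have tw : Tri A w u v := ⟨huw.symm, hvw.symm, huv, by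
    rw [hA]; ext s; simp only [mem_insert, mem_singleton]; tauto⟩
  have hAB : Disjoint A B := by simp [hA, hu, hv, hw]
  set g : Gr V → ℝ := f - CE k (KK A B) f with hgdef
  have hCE : ∀ F, F ⊆ KK A B → ∀ G ∈ GG k, CE k F g G = CE k F f G - CE k (KK A B) f G := by
    intro F hF G hG
    rw [hgdef, ← CEl_apply (f - _), map_sub]
    simp only [CEl_apply, Pi.sub_apply]
    rw [CE_CE_of_subset hF f hG]
  have hdiff : ∀ a, ∀ G ∈ GG k, g G - CE k (KK (A.erase a) B) g G =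
      f G - CE k (KK (A.erase a) B) f G := by
    intro a G hG
    rw [hCE _ (Thr.KK_mono (erase_subset _ _)) G hG, hgdef, Pi.sub_apply]
    ring
  have h1 := gap hAB t g fun G hG => by rw [hCE _ subset_rfl G hG, sub_self]
  have h2 : ∑ G ∈ GG k, g G * HH k A B g G =
      ∑ G ∈ GG k, ∑ a ∈ A, (f G - CE k (KK (A.erase a) B) f G) ^ 2 := by
    simp only [HH_apply, mul_sum]
    rw [sum_comm, sum_comm (s := GG k)]
    refine sum_congr rfl fun a _ => ?_
    rw [sum_mul_sub_CE]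
    exact sum_congr rfl fun G hG => by rw [hdiff a G hG]
  have h3 : ∑ G ∈ GG k, HH k A B g G ^ 2 =
      ∑ G ∈ GG k, (∑ a ∈ A, (f G - CE k (KK (A.erase a) B) f G)) ^ 2 := by
    refine sum_congr rfl fun G hG => ?_
    rw [HH_apply, sum_congr rfl fun a _ => hdiff a G hG]
  rw [h2, h3, ← sub_nonneg, ← sum_sub_distrib] at h1
  simp only [t.sum, t.erase, tv.erase, tw.erase] at h1
  refine nonneg_of_mul_nonneg_right (a := 2) ?_ two_pos
  rw [mul_sum]
  exact h1.trans (le_of_eq (sum_congr rfl fun G _ => by ring))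

end Pool.Agent.MP_c319e0_lc

end
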